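import Pool.Agent.Helper929_delta.Core

/-
The ascending chain condition for families in factors of dimension two.
-/

namespace Pool.Agent.Helper929_delta

open MvPolynomial

theorem SS_zeros (Φ : Fam) {i j : ℕ} {m : Multiset ℕ} (h : SS Φ.J i j m) (z : ℕ) :
    SS Φ.J i j (m + Multiset.replicate z 0) := by
  induction z with
  | zero => simpa using h
  | succ z ih =>
    rw [Multiset.replicate_succ, Multiset.add_cons]
    exact SS_zero Φ ih

theorem SS_pairs (Φ : Fam) {i j : ℕ} {m : Multiset ℕ} (h : SS Φ.J i j m) (P : Multiset ℕ)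
    (hP : ∀ a ∈ P, a ≤ j) : SS Φ.J i j (m + P + P) := by
  induction P using Multiset.induction_on with
  | empty => simpa using h
  | cons a P ih =>
    have h1 := ih (fun b hb => hP b (Multiset.mem_cons_of_mem hb))
    have h2 : m + (a ::ₘ P) + (a ::ₘ P) = a ::ₘ a ::ₘ (m + P + P) := by
      rw [Multiset.add_cons, Multiset.add_cons, Multiset.cons_add]
    rw [h2]
    exact SS_pair Φ h1 (hP a (Multiset.mem_cons_self a P))

theorem SS_step (Φ : Fam) {i j i' j' : ℕ} {m m' : Multiset ℕ} (h : SS Φ.J i j m)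
    (hs : Step i j m i' j' m') : SS Φ.J i' j' m' := by
  obtain ⟨p, q, z, P, M, rfl, rfl, hqp, hP, hfst, rfl, hM, hsum, hpar⟩ := hs
  have hm : m ≠ 0 := by
    rintro rfl
    obtain ⟨n, c, θ, g, -, -, -, -, hc⟩ := h
    have := congrArg Multiset.card hc
    simp at this
  have h1 : SS Φ.J i j (M.map Prod.fst) := by
    rw [hfst]
    exact SS_zeros Φ (SS_pairs Φ h P hP) z
  have hM0 : M ≠ 0 := by
    rintro rfl
    rw [Multiset.map_zero] at hfst
    apply hm
    have := congrArg Multiset.card hfst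
    simp only [Multiset.card_zero, Multiset.card_add] at this
    exact Multiset.card_eq_zero.mp (by omega)
  have hsub : (M.map (fun x : ℕ × ℕ => x.2 - x.1)).sum + (M.map Prod.fst).sum
      = (M.map Prod.snd).sum := by
    rw [← Multiset.sum_map_add]
    congr 1
    refine Multiset.map_congr rfl fun x hx => ?_
    have := (hM x hx).1
    omega
  have hgood : Good p q (M.map (fun x : ℕ × ℕ => x.2 - x.1)) := by
    refine ⟨?_, hqp, by omega, ?_⟩
    · intro c hc
      rw [Multiset.mem_map] at hc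
      obtain ⟨x, hx, rfl⟩ := hc
      have := (hM x hx).2
      omega
    · intro hpq
      have h2 := hpar hpq
      have h3 := congrArg Multiset.sum hfst
      simp only [Multiset.sum_add, Multiset.sum_replicate, smul_zero, add_zero] at h3
      rw [Nat.even_iff] at h2 ⊢
      omega
  have h2 : SS (fun _ => ⊤) p q (M.map (fun x : ℕ × ℕ => x.2 - x.1)) :=
    top_of_good _ topClosed p q _ (by
      intro h0
      rw [Multiset.map_eq_zero] at h0
      exact hM0 h0) hgood
  have h3 := SS_mul Φ (M.map (fun x : ℕ × ℕ => (x.1, x.2 - x.1)))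
    (by rw [Multiset.map_map]; exact h1) (by rw [Multiset.map_map]; exact h2)
  rw [Multiset.map_map] at h3
  have h4 : Multiset.map ((fun x : ℕ × ℕ => x.1 + x.2) ∘ fun x : ℕ × ℕ => (x.1, x.2 - x.1)) M
      = M.map Prod.snd := by
    refine Multiset.map_congr rfl fun x hx => ?_
    have := (hM x hx).1
    simp only [Function.comp_apply]
    omega
  rwa [h4] at h3

theorem good_of_SS {J : ∀ n : ℕ, Ideal (Pol (two (n + 1)))} {i j : ℕ} {m : Multiset ℕ}
    (h : SS J i j m) : Good i j m := by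
  obtain ⟨n, c, θ, g, -, hHW, hθ, hj, rfl⟩ := h
  exact good_of_isHW hHW hθ hj

theorem exists_new_triple (Φ Φ' : Fam) (hle : ∀ n, Φ.J n ≤ Φ'.J n)
    (hsec : ∀ n, secantIdeal (two (n + 1)) ≤ Φ.J n) {n : ℕ} (hne : ¬ Φ'.J n ≤ Φ.J n) :
    ∃ i j m, SS Φ'.J i j m ∧ ¬ SS Φ.J i j m := by
  classical
  obtain ⟨lam, f, hf', hf, hhom, hF⟩ := exists_exact (Φ.J n) (Φ'.J n) (Φ.stable n) (Φ'.stable n) hne
  have hHW := isHW_of_exact hhom hF
  set k := lam ⟨0, (0 : Fin 2)⟩ + lam ⟨0, (1 : Fin 2)⟩ with hk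
  set c : Fin (n + 1) → ℕ := fun l => lam ⟨l, (1 : Fin 2)⟩ with hc
  have hθne : ∀ (θ : Polynomial ℂ) (g : Pol (two (n + 1))), IsHW k c θ g → g ∉ Φ.J n → θ ≠ 0 := by
    rintro θ g hg hgn rfl
    exact hgn (hsec n (mem_secantIdeal_of_isHW hg))
  have hex : ∃ e : ℕ, ∃ (θ : Polynomial ℂ) (g : Pol (two (n + 1))), g ∈ Φ'.J n ∧ g ∉ Φ.J n ∧
      IsHW k c θ g ∧ k - θ.natTrailingDegree = e :=
    ⟨_, theta1 f, f, hf', hf, hHW, rfl⟩
  obtain ⟨θ, g, hg', hg, hgHW, he⟩ := Nat.find_spec hex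
  have hmin : ∀ (θ' : Polynomial ℂ) (g' : Pol (two (n + 1))), g' ∈ Φ'.J n → g' ∉ Φ.J n →
      IsHW k c θ' g' → k - θ.natTrailingDegree ≤ k - θ'.natTrailingDegree := by
    intro θ' g' h1 h2 h3
    rw [he]
    exact Nat.find_min' hex ⟨θ', g', h1, h2, h3, rfl⟩
  have hθ0 := hθne θ g hgHW hg
  set j := θ.natTrailingDegree with hj
  have hjk : j ≤ k := (Polynomial.natTrailingDegree_le_natDegree θ).trans hgHW.1
  have hkj : k - j + j = k := Nat.sub_add_cancel hjk
  refine ⟨k - j, j, Finset.univ.val.map c, ⟨n, c, θ, g, hg', by rw [hkj]; exact hgHW, hθ0, rfl,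
    rfl⟩, ?_⟩
  rintro ⟨n', c', θ', g', hg2, hHW2, hθ2, hj2, hc2⟩
  rw [hkj] at hHW2
  have hn : n' = n := by
    have := congrArg Multiset.card hc2
    simpa using this
  subst hn
  obtain ⟨σ, hσ⟩ := exists_perm c c' hc2.symm
  have hHW3 := isHW_perm hHW2 σ
  rw [← hσ] at hHW3
  have hg3 := Φ.perm n' σ g' hg2
  set g'' := rename (fun (w : Wd (two (n' + 1))) (i : Fin (n' + 1)) => w (σ i)) g' with hg''
  have hcj' : θ'.coeff j ≠ 0 := by
    rw [← hj2]
    exact Polynomial.coeff_natTrailingDegree_ne_zero.mpr hθ2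
  set t : ℂ := θ.coeff j / θ'.coeff j with ht
  have hsubHW := isHW_sub hgHW hHW3 t
  have hmem' : g - C t * g'' ∈ Φ'.J n' :=
    (Φ'.J n').sub_mem hg' ((Φ'.J n').mul_mem_left _ (hle n' hg3))
  have hnot : g - C t * g'' ∉ Φ.J n' := by
    intro h
    apply hg
    have : g = (g - C t * g'') + C t * g'' := by ring
    rw [this]
    exact (Φ.J n').add_mem h ((Φ.J n').mul_mem_left _ hg3)
  have hne' := hθne _ _ hsubHW hnot
  have h1 := hmin _ _ hmem' hnot hsubHW
  have h2 : j + 1 ≤ (θ - Polynomial.C t * θ').natTrailingDegree := by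
    refine Polynomial.le_natTrailingDegree hne' fun m hm => ?_
    rw [Polynomial.coeff_sub, Polynomial.coeff_C_mul]
    rcases Nat.lt_succ_iff_lt_or_eq.mp hm with hm | rfl
    · rw [Polynomial.coeff_eq_zero_of_lt_natTrailingDegree hm,
        Polynomial.coeff_eq_zero_of_lt_natTrailingDegree (by rw [hj2]; exact hm)]
      ring
    · rw [ht, div_mul_cancel₀ _ hcj', sub_self]
  have h3 : (θ - Polynomial.C t * θ').natTrailingDegree ≤ k :=
    (Polynomial.natTrailingDegree_le_natDegree _).trans hsubHW.1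
  omega

/-- The ascending chain condition for families containing the secant ideals. -/
theorem acc_two (Φ : ℕ → Fam) (hmono : ∀ r n, (Φ r).J n ≤ (Φ (r + 1)).J n)
    (hsec : ∀ n, secantIdeal (two (n + 1)) ≤ (Φ 0).J n) :
    ∃ N, ∀ r, N ≤ r → ∀ n, (Φ r).J n = (Φ N).J n := by
  classical
  have hmono' : ∀ n, Monotone (fun r => (Φ r).J n) := fun n =>
    monotone_nat_of_le_succ (fun r => hmono r n)
  by_contra hcon
  push Not at hcon
  have hinf : ∀ N, ∃ t > N, ∃ n, ¬ (Φ (t + 1)).J n ≤ (Φ t).J n := by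
    intro N
    by_contra hc
    push Not at hc
    obtain ⟨r, hr, n, hn⟩ := hcon (N + 1)
    apply hn
    have h1 : ∀ d, (Φ (N + 1 + d)).J n = (Φ (N + 1)).J n := by
      intro d
      induction d with
      | zero => rfl
      | succ d ih =>
        rw [← ih]
        exact le_antisymm (hc (N + 1 + d) (by omega) n) (hmono _ n)
    obtain ⟨d, rfl⟩ := Nat.exists_eq_add_of_le hr
    exact h1 d
  obtain ⟨φ, hφ, hφ'⟩ := Nat.exists_strictMono_subsequence hinf
  have hnew : ∀ s, ∃ i j m, SS (Φ (φ s + 1)).J i j m ∧ ¬ SS (Φ (φ s)).J i j m := by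
    intro s
    obtain ⟨n, hn⟩ := hφ' s
    exact exists_new_triple (Φ (φ s)) (Φ (φ s + 1)) (hmono _)
      (fun n => (hsec n).trans (hmono' n (Nat.zero_le _))) hn
  choose i j m h1 h2 using hnew
  obtain ⟨r, s, hrs, hstep⟩ := exists_step i j m (fun t => good_of_SS (h1 t))
  have h3 := SS_step (Φ (φ r + 1)) (h1 r) hstep
  apply h2 s
  obtain ⟨n, c, θ, g, hg, hrest⟩ := h3
  have hlt : φ r + 1 ≤ φ s := hφ hrs
  exact ⟨n, c, θ, g, hmono' n hlt hg, hrest⟩

end Pool.Agent.Helper929_delta
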