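import Mathlib

/-
Delta-ideals over the complex numbers, in coordinates.
-/

namespace Pool.Agent.Helper929_delta

open MvPolynomial

/-- Words: the index set of the standard basis of the tensor product of the spaces `ℂ ^ (m i)`. -/
abbrev Wd {n : ℕ} (m : Fin n → ℕ) : Type := (i : Fin n) → Fin (m i)

/-- The polynomial ring `Sym (V_1 ⊗ ... ⊗ V_n)` for `V_i = ℂ ^ (m i)`; the variable `X w` is the basis
vector `e_{w 1} ⊗ ... ⊗ e_{w n}`. -/
abbrev Pol {n : ℕ} (m : Fin n → ℕ) : Type := MvPolynomial (Wd m) ℂ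

/-- The ring map `Sym (V_1 ⊗ ... ⊗ V_n) → Sym (V'_1 ⊗ ... ⊗ V'_n)` induced by the linear maps
`V_i → V'_i` with matrices `A i`. -/
noncomputable def mapLin {n : ℕ} {m m' : Fin n → ℕ} (A : ∀ i, Matrix (Fin (m' i)) (Fin (m i)) ℂ) :
    Pol m →ₐ[ℂ] Pol m' :=
  aeval (fun w : Wd m => ∑ w' : Wd m', C (∏ i, A i (w' i) (w i)) * X w')

/-- The identification of words for `(V ⊗ U, ...)` with words for `(V, U, ...)`. -/
def splitWord {n : ℕ} (a b : ℕ) (m : Fin n → ℕ)
    (w : Wd (Fin.cons (a * b) m : Fin (n + 1) → ℕ)) :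
    Wd (Fin.cons a (Fin.cons b m : Fin (n + 1) → ℕ) : Fin (n + 2) → ℕ) :=
  Fin.cons (finProdFinEquiv.symm (w 0 : Fin (a * b))).1
    (Fin.cons (finProdFinEquiv.symm (w 0 : Fin (a * b))).2 (fun i : Fin n => w i.succ))

/-- The homogeneous component of degree `k` of a polynomial. -/
noncomputable def compMap {n : ℕ} {m : Fin n → ℕ} (k : ℕ) (f : Pol m) : Pol m :=
  homogeneousComponent k f

/-- The action of linear maps of the factors, as a function. -/
noncomputable def linMap {n : ℕ} {m m' : Fin n → ℕ} (A : ∀ i, Matrix (Fin (m' i)) (Fin (m i)) ℂ)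
    (f : Pol m) : Pol m' :=
  mapLin A f

/-- The ring map given by renaming the variables by means of a map of words. -/
noncomputable def renMap {n n' : ℕ} {m : Fin n → ℕ} {m' : Fin n' → ℕ} (g : Wd m → Wd m')
    (f : Pol m) : Pol m' :=
  rename g f

/-- The action of a permutation of the factors. -/
noncomputable def permMap {n : ℕ} {m : Fin n → ℕ} (σ : Equiv.Perm (Fin n)) (f : Pol m) :
    Pol (fun i => m (σ i)) :=
  renMap (fun (w : Wd m) (i : Fin n) => w (σ i)) f

/-- The identification `Sym ((V ⊗ U) ⊗ ...) = Sym (V ⊗ U ⊗ ...)`. -/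
noncomputable def splitMap {n : ℕ} (a b : ℕ) (m : Fin n → ℕ)
    (f : Pol (Fin.cons (a * b) m : Fin (n + 1) → ℕ)) :
    Pol (Fin.cons a (Fin.cons b m : Fin (n + 1) → ℕ) : Fin (n + 2) → ℕ) :=
  renMap (splitWord a b m) f

/-- `f` lies in the ideal `I`. -/
abbrev InIdeal {n : ℕ} {m : Fin n → ℕ} (I : Ideal (Pol m)) (f : Pol m) : Prop := f ∈ I

/-- A Delta-ideal over the complex numbers (restricted to the families `V_i = ℂ ^ (m i)`, which loses
nothing, by functoriality). -/
structure DeltaIdeal where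
  /-- the ideal attached to a nonempty family -/
  I : ∀ {n : ℕ} (m : Fin (n + 1) → ℕ), Ideal (Pol m)
  /-- the ideals are homogeneous -/
  homog : ∀ {n : ℕ} (m : Fin (n + 1) → ℕ) (f : Pol m) (k : ℕ), InIdeal (I m) f →
    InIdeal (I m) (compMap k f)
  /-- functoriality in linear maps -/
  lin : ∀ {n : ℕ} (m m' : Fin (n + 1) → ℕ) (A : ∀ i, Matrix (Fin (m' i)) (Fin (m i)) ℂ)
    (f : Pol m), InIdeal (I m) f → InIdeal (I m') (linMap A f)
  /-- compatibility with permutations of the factors -/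
  perm : ∀ {n : ℕ} (m : Fin (n + 1) → ℕ) (σ : Equiv.Perm (Fin (n + 1))) (f : Pol m),
    InIdeal (I m) f → InIdeal (I (fun i => m (σ i))) (permMap σ f)
  /-- compatibility with splitting a factor `V ⊗ U` into two factors `V`, `U` -/
  split : ∀ {n : ℕ} (a b : ℕ) (m : Fin n → ℕ) (f : Pol (Fin.cons (a * b) m : Fin (n + 1) → ℕ)),
    InIdeal (I (Fin.cons (a * b) m : Fin (n + 1) → ℕ)) f →
    InIdeal (I (Fin.cons a (Fin.cons b m : Fin (n + 1) → ℕ) : Fin (n + 2) → ℕ)) (splitMap a b m f)

/-- The derivation of `Pol m` given by the matrix unit `E_{ab}` of `gl (V_l)`: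
it replaces a letter `b` in position `l` by `a`. -/
noncomputable def D {n : ℕ} {m : Fin n → ℕ} (l : Fin n) (a b : Fin (m l)) :
    Derivation ℂ (Pol m) (Pol m) :=
  mkDerivation ℂ (fun w : Wd m => if w l = b then X (Function.update w l a) else 0)

/-- The weight of a word: it counts each letter in each position. -/
noncomputable def wt {n : ℕ} {m : Fin n → ℕ} (w : Wd m) : (Σ i, Fin (m i)) →₀ ℕ :=
  ∑ i, Finsupp.single ⟨i, w i⟩ 1

/-- `J` has level at most `d`: every highest weight vector of `P / J` (for some family) whose weight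
`(λ_1, ..., λ_n)` has some `λ_l` with more than `d` rows is zero. -/
def DeltaIdeal.LevelLE (J : DeltaIdeal) (d : ℕ) : Prop :=
  ∀ {n : ℕ} (m : Fin (n + 1) → ℕ) (lam : (Σ i, Fin (m i)) →₀ ℕ) (f : Pol m),
    IsWeightedHomogeneous wt f lam →
    (∀ (l : Fin (n + 1)) (a b : Fin (m l)), a < b → D l a b f ∈ J.I m) →
    (∃ (l : Fin (n + 1)) (a : Fin (m l)), d ≤ (a : ℕ) ∧ lam ⟨l, a⟩ ≠ 0) → f ∈ J.I m

/-- The ideal of the first secant variety (tensors of border rank at most two) of the Segre variety: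
the polynomials vanishing at all sums of two pure tensors. -/
noncomputable def secantIdeal {n : ℕ} (m : Fin n → ℕ) : Ideal (Pol m) :=
  vanishingIdeal ℂ {T : Wd m → ℂ | ∃ u v : (i : Fin n) → Fin (m i) → ℂ,
    T = fun w => ∏ i, u i (w i) + ∏ i, v i (w i)}

/-- An element of one of the rings: a family together with an element of its ring. -/
structure Elt where
  /-- one less than the number of factors -/
  n : ℕ
  /-- the dimensions of the factors -/
  m : Fin (n + 1) → ℕ
  /-- the polynomial -/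
  f : Pol m

/-- The element `e` belongs to the Delta-ideal `J`. -/
def DeltaIdeal.Has (J : DeltaIdeal) (e : Elt) : Prop := e.f ∈ J.I e.m

/-- `J` is contained in `J'`. -/
def DeltaIdeal.Sub (J J' : DeltaIdeal) : Prop := ∀ {n : ℕ} (m : Fin (n + 1) → ℕ), J.I m ≤ J'.I m

/-- `J` contains the ideal of the first secant variety, for all families. -/
def DeltaIdeal.HasSecant (J : DeltaIdeal) : Prop :=
  ∀ {n : ℕ} (m : Fin (n + 1) → ℕ), secantIdeal m ≤ J.I m

end Pool.Agent.Helper929_delta
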