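import Mathlib

/-
Coefficient lemmas: if a polynomial over a complex algebra takes values in a complex subspace at all complex
points, then its coefficients lie in that subspace.
-/

namespace Pool.Agent.Helper929_delta

open MvPolynomial

/-- Coefficients of a polynomial whose values at complex points lie in a subspace. -/
theorem mv_coeff_mem_of_eval_mem {τ R : Type*} [CommRing R] [Algebra ℂ R] (N : Submodule ℂ R)
    (p : MvPolynomial τ R)
    (h : ∀ s : τ → ℂ, eval (fun i => algebraMap ℂ R (s i)) p ∈ N) (i : τ →₀ ℕ) :
    p.coeff i ∈ N := by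
  classical
  by_contra hi
  obtain ⟨φ, hφ, hN⟩ := Submodule.exists_le_ker_of_notMem (K := ℂ) hi
  set p' : MvPolynomial τ ℂ := ∑ m ∈ p.support, monomial m (φ (coeff m p)) with hp'
  have hc : ∀ m, coeff m p' = φ (coeff m p) := by
    intro m
    rw [hp', coeff_sum]
    simp only [coeff_monomial]
    rw [Finset.sum_ite_eq']
    split_ifs with hm
    · rfl
    · rw [notMem_support_iff.mp hm, map_zero]
  have h0 : p' = 0 := by
    apply MvPolynomial.funext
    intro s
    have h1 : eval s p' = φ (eval (fun i => algebraMap ℂ R (s i)) p) := by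
      rw [hp', map_sum, eval_eq, map_sum]
      refine Finset.sum_congr rfl fun m _ => ?_
      rw [eval_monomial]
      have : (coeff m p * ∏ i ∈ m.support, (algebraMap ℂ R (s i)) ^ m i)
          = (∏ i ∈ m.support, s i ^ m i) • coeff m p := by
        rw [Algebra.smul_def, map_prod, mul_comm]
        simp [map_pow]
      rw [this, map_smul, smul_eq_mul, mul_comm]
      rfl
    rw [h1, map_zero]
    exact LinearMap.mem_ker.mp (hN (h s))
  apply hφ
  rw [← hc, h0, coeff_zero]

/-- One-variable version. -/
theorem coeff_mem_of_eval_mem {R : Type*} [CommRing R] [Algebra ℂ R] (N : Submodule ℂ R)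
    (p : Polynomial R) (h : ∀ s : ℂ, p.eval (algebraMap ℂ R s) ∈ N) (i : ℕ) :
    p.coeff i ∈ N := by
  classical
  by_contra hi
  obtain ⟨φ, hφ, hN⟩ := Submodule.exists_le_ker_of_notMem (K := ℂ) hi
  set p' : Polynomial ℂ := ∑ m ∈ p.support, Polynomial.monomial m (φ (p.coeff m)) with hp'
  have hc : ∀ m, p'.coeff m = φ (p.coeff m) := by
    intro m
    rw [hp', Polynomial.finsetSum_coeff]
    simp only [Polynomial.coeff_monomial]
    rw [Finset.sum_ite_eq']
    split_ifs with hm
    · rfl
    · rw [Polynomial.notMem_support_iff.mp hm, map_zero]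
  have h0 : p' = 0 := by
    apply Polynomial.funext
    intro s
    have h1 : p'.eval s = φ (p.eval (algebraMap ℂ R s)) := by
      rw [hp', Polynomial.eval_finsetSum, Polynomial.eval_eq_sum, Polynomial.sum_def, map_sum]
      refine Finset.sum_congr rfl fun m _ => ?_
      rw [Polynomial.eval_monomial]
      have : (p.coeff m * (algebraMap ℂ R s) ^ m) = (s ^ m) • p.coeff m := by
        rw [Algebra.smul_def, map_pow, mul_comm]
      rw [this, map_smul, smul_eq_mul, mul_comm]
    rw [h1, Polynomial.eval_zero]
    exact LinearMap.mem_ker.mp (hN (h s))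
  apply hφ
  rw [← hc, h0, Polynomial.coeff_zero]

end Pool.Agent.Helper929_delta
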