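import Pool.Agent.Helper929_delta.Moves

/-
The ascending chain condition for families in factors of dimension two.
-/

namespace Pool.Agent.Helper929_delta

open MvPolynomial

theorem ntd_eq {θ : Polynomial ℂ} {j : ℕ} (h : θ.coeff j ≠ 0) (h' : ∀ m < j, θ.coeff m = 0) :
    θ ≠ 0 ∧ θ.natTrailingDegree = j := by
  have h0 : θ ≠ 0 := by
    rintro rfl
    simp at h
  exact ⟨h0, le_antisymm (Polynomial.natTrailingDegree_le_of_ne_zero h)
    (Polynomial.le_natTrailingDegree h0 h')⟩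

/-- the family of unit ideals -/
noncomputable def topFam : Fam where
  J := fun _ => ⊤
  stable := fun _ _ _ _ => Submodule.mem_top
  perm := fun _ _ _ _ => Submodule.mem_top
  zero := fun _ _ _ => Submodule.mem_top
  ins := fun _ _ _ _ => Submodule.mem_top

theorem top_x : SS topFam.J 1 0 {0} := by
  refine ⟨0, fun _ => 0, 1 + Polynomial.X, X (fun _ => (0 : Fin 2)), Submodule.mem_top,
    ⟨?_, ?_⟩, ?_, ?_, ?_⟩
  · refine (Polynomial.natDegree_add_le _ _).trans (max_le ?_ Polynomial.natDegree_X_le)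
    simp
  · intro a y p q _
    rw [eval_X]
    simp [pt]
  · exact (ntd_eq (j := 0) (by simp) (by simp)).1
  · exact (ntd_eq (j := 0) (by simp) (by simp)).2
  · rfl

theorem top_one : SS topFam.J 0 0 {0} := by
  refine ⟨0, fun _ => 0, 1, 1, Submodule.mem_top, ⟨by simp, ?_⟩, one_ne_zero, by simp, rfl⟩
  intro a y p q _
  simp

theorem top_F : SS topFam.J 1 1 {1, 1} := by
  refine ⟨1, fun _ => 1, Polynomial.X,
    X (![0, 0] : Fin 2 → Fin 2) * X (![1, 1] : Fin 2 → Fin 2)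
      - X (![0, 1] : Fin 2 → Fin 2) * X (![1, 0] : Fin 2 → Fin 2),
    Submodule.mem_top, ⟨?_, ?_⟩, ?_, ?_, ?_⟩
  · rw [Polynomial.natDegree_X]; norm_num
  · intro a y p q _
    rw [map_sub, map_mul, map_mul, eval_X, eval_X, eval_X, eval_X]
    simp [pt, Fin.prod_univ_succ]
    ring
  · exact Polynomial.X_ne_zero
  · exact (ntd_eq (j := 1) (by simp) (by simp)).2
  · rfl

theorem top_G : SS topFam.J 2 1 {1, 1, 1} := by
  refine ⟨2, fun _ => 1, Polynomial.X - Polynomial.X ^ 2,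
    X (![0, 0, 0] : Fin 3 → Fin 2) ^ 2 * X (![1, 1, 1] : Fin 3 → Fin 2)
      - X (![0, 0, 0] : Fin 3 → Fin 2) *
        (X (![1, 0, 0] : Fin 3 → Fin 2) * X (![0, 1, 1] : Fin 3 → Fin 2)
        + X (![0, 1, 0] : Fin 3 → Fin 2) * X (![1, 0, 1] : Fin 3 → Fin 2)
        + X (![0, 0, 1] : Fin 3 → Fin 2) * X (![1, 1, 0] : Fin 3 → Fin 2))
      + 2 * (X (![1, 0, 0] : Fin 3 → Fin 2) * X (![0, 1, 0] : Fin 3 → Fin 2)
        * X (![0, 0, 1] : Fin 3 → Fin 2)),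
    Submodule.mem_top, ⟨?_, ?_⟩, ?_, ?_, ?_⟩
  · refine (Polynomial.natDegree_sub_le _ _).trans (max_le ?_ ?_)
    · rw [Polynomial.natDegree_X]; norm_num
    · rw [Polynomial.natDegree_X_pow]; norm_num
  · intro a y p q _
    simp only [map_sub, map_add, map_mul, map_pow, eval_X, map_ofNat]
    simp [pt, Fin.prod_univ_succ]
    ring
  · refine (ntd_eq (j := 1) ?_ ?_).1
    · simp [Polynomial.coeff_X_pow]
    · simp
  · refine (ntd_eq (j := 1) ?_ ?_).2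
    · simp [Polynomial.coeff_X_pow]
    · simp
  · rfl

theorem top_H : SS topFam.J 2 2 {2, 2, 2} := by
  refine ⟨2, fun _ => 2, Polynomial.X ^ 2,
    X (![0, 0, 0] : Fin 3 → Fin 2) ^ 2 * X (![1, 1, 1] : Fin 3 → Fin 2) ^ 2
    + X (![0, 0, 1] : Fin 3 → Fin 2) ^ 2 * X (![1, 1, 0] : Fin 3 → Fin 2) ^ 2
    + X (![0, 1, 0] : Fin 3 → Fin 2) ^ 2 * X (![1, 0, 1] : Fin 3 → Fin 2) ^ 2
    + X (![1, 0, 0] : Fin 3 → Fin 2) ^ 2 * X (![0, 1, 1] : Fin 3 → Fin 2) ^ 2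
    - 2 * (X (![0, 0, 0] : Fin 3 → Fin 2) * X (![0, 0, 1] : Fin 3 → Fin 2)
        * X (![1, 1, 0] : Fin 3 → Fin 2) * X (![1, 1, 1] : Fin 3 → Fin 2)
      + X (![0, 0, 0] : Fin 3 → Fin 2) * X (![0, 1, 0] : Fin 3 → Fin 2)
        * X (![1, 0, 1] : Fin 3 → Fin 2) * X (![1, 1, 1] : Fin 3 → Fin 2)
      + X (![0, 0, 0] : Fin 3 → Fin 2) * X (![0, 1, 1] : Fin 3 → Fin 2)
        * X (![1, 0, 0] : Fin 3 → Fin 2) * X (![1, 1, 1] : Fin 3 → Fin 2)
      + X (![0, 0, 1] : Fin 3 → Fin 2) * X (![0, 1, 0] : Fin 3 → Fin 2)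
        * X (![1, 0, 1] : Fin 3 → Fin 2) * X (![1, 1, 0] : Fin 3 → Fin 2)
      + X (![0, 0, 1] : Fin 3 → Fin 2) * X (![0, 1, 1] : Fin 3 → Fin 2)
        * X (![1, 1, 0] : Fin 3 → Fin 2) * X (![1, 0, 0] : Fin 3 → Fin 2)
      + X (![0, 1, 0] : Fin 3 → Fin 2) * X (![0, 1, 1] : Fin 3 → Fin 2)
        * X (![1, 0, 1] : Fin 3 → Fin 2) * X (![1, 0, 0] : Fin 3 → Fin 2))
    + 4 * (X (![0, 0, 0] : Fin 3 → Fin 2) * X (![0, 1, 1] : Fin 3 → Fin 2)
        * X (![1, 0, 1] : Fin 3 → Fin 2) * X (![1, 1, 0] : Fin 3 → Fin 2)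
      + X (![0, 0, 1] : Fin 3 → Fin 2) * X (![0, 1, 0] : Fin 3 → Fin 2)
        * X (![1, 0, 0] : Fin 3 → Fin 2) * X (![1, 1, 1] : Fin 3 → Fin 2)),
    Submodule.mem_top, ⟨?_, ?_⟩, ?_, ?_, ?_⟩
  · rw [Polynomial.natDegree_X_pow]; norm_num
  · intro a y p q _
    simp only [map_sub, map_add, map_mul, map_pow, eval_X, map_ofNat]
    simp [pt, Fin.prod_univ_succ]
    ring
  · exact pow_ne_zero _ Polynomial.X_ne_zero
  · refine (ntd_eq (j := 2) ?_ ?_).2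
    · simp
    · intro m hm
      rw [Polynomial.coeff_X_pow, if_neg (by omega)]
  · rfl

theorem topClosed : TopClosed (SS topFam.J) where
  zero := fun h => SS_zero topFam h
  pair := fun h ha => SS_pair topFam h ha
  mul := fun M h1 h2 => SS_mul topFam M h1 h2
  one := top_one
  x := top_x
  F := top_F
  G := top_G
  H := top_H

end Pool.Agent.Helper929_delta
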