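import Pool.Agent.Helper929_delta.Sl2

/-
Exact highest weight vectors, for factors of dimension two.
-/

namespace Pool.Agent.Helper929_delta

open MvPolynomial

theorem wt_apply {n : ℕ} {m : Fin n → ℕ} (w : Wd m) (l : Fin n) (a : Fin (m l)) :
    wt w ⟨l, a⟩ = if w l = a then 1 else 0 := by
  classical
  rw [wt, Finsupp.finsetSum_apply, Finset.sum_eq_single l]
  · rw [Finsupp.single_apply]
    by_cases h : w l = a
    · rw [if_pos h, if_pos (by rw [h])]
    · rw [if_neg h, if_neg]
      intro h'
      apply h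
      simpa using h'
  · intro i _ hi
    rw [Finsupp.single_apply, if_neg]
    intro h'
    exact hi (congrArg Sigma.fst h')
  · simp

theorem weight_wt_apply {n : ℕ} {m : Fin n → ℕ} (d : Wd m →₀ ℕ) (l : Fin n) (a : Fin (m l)) :
    Finsupp.weight wt d ⟨l, a⟩ = ∑ w ∈ d.support, d w * (if w l = a then 1 else 0) := by
  rw [Finsupp.weight_apply, Finsupp.sum, Finsupp.finsetSum_apply]
  refine Finset.sum_congr rfl fun w _ => ?_
  rw [Finsupp.smul_apply, wt_apply, smul_eq_mul]

variable {n : ℕ}

theorem H_of_weight (l : Fin n) {f : Pol (two n)} {lam : (Σ i : Fin n, Fin (two n i)) →₀ ℕ}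
    (hf : IsWeightedHomogeneous wt f lam) :
    Hop l f = ((lam ⟨l, (0 : Fin 2)⟩ : ℂ) - lam ⟨l, (1 : Fin 2)⟩) • f := by
  classical
  conv_lhs => rw [f.as_sum]
  conv_rhs => rw [f.as_sum]
  rw [map_sum, Finset.smul_sum]
  refine Finset.sum_congr rfl fun d hd => ?_
  have hlam := hf (mem_support_iff.mp hd)
  rw [Hop, mkDerivation_monomial, ← hlam, weight_wt_apply, weight_wt_apply, Finsupp.sum]
  push_cast
  rw [← Finset.sum_sub_distrib, smul_monomial, Finset.smul_sum]
  rw [smul_eq_mul, Finset.sum_mul, map_sum]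
  refine Finset.sum_congr rfl fun w hw => ?_
  have hdw : d w ≠ 0 := Finsupp.mem_support_iff.mp hw
  have h1 : d - Finsupp.single w 1 + Finsupp.single w 1 = d := by
    ext x
    simp only [Finsupp.add_apply, Finsupp.tsub_apply, Finsupp.single_apply]
    split_ifs with hx
    · subst hx; omega
    · simp
  have h2 : (monomial (d - Finsupp.single w 1)) ((d w : ℕ) : ℂ) * (X w : Pol (two n))
      = monomial d ((d w : ℕ) : ℂ) := by
    rw [X, monomial_mul, h1, mul_one]
  rcases fin2_cases (w l) with h | h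
  · rw [if_pos h, if_pos h, if_neg (by rw [h]; exact ne01)]
    rw [smul_eq_mul, h2, smul_monomial]
    congr 1
    simp [mul_comm]
  · rw [if_neg (by rw [h]; exact ne10), if_neg (by rw [h]; exact ne10), if_pos h]
    rw [smul_eq_mul, mul_neg, h2, smul_neg, smul_monomial, ← map_neg]
    congr 1
    simp [mul_comm]

theorem iterate_weight {m : Fin n → ℕ} (l : Fin n) (a b : Fin (m l))
    {μ μ' : (Σ i : Fin n, Fin (m i)) →₀ ℕ} {f : Pol m}
    (hf : ∀ e, coeff e f ≠ 0 → Finsupp.weight wt e + μ = μ') (i : ℕ) :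
    ∀ e, coeff e ((D l a b)^[i] f) ≠ 0 →
      Finsupp.weight wt e + (μ + i • Finsupp.single ⟨l, b⟩ 1)
        = μ' + i • Finsupp.single ⟨l, a⟩ 1 := by
  induction i with
  | zero => simpa using hf
  | succ i ih =>
    intro e he
    rw [Function.iterate_succ_apply'] at he
    have := coeff_D_weight wt l a b _ _ (wt_update l a b) ih e he
    rw [succ_nsmul, succ_nsmul, ← add_assoc, ← add_assoc, ← add_assoc] at *
    simpa [add_assoc] using this

theorem iterate_eq_zero {m : Fin n → ℕ} (l : Fin n) {a b : Fin (m l)} (hab : a ≠ b)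
    {lam : (Σ i : Fin n, Fin (m i)) →₀ ℕ} {f : Pol m}
    (hf : IsWeightedHomogeneous wt f lam) : (D l a b)^[lam ⟨l, b⟩ + 1] f = 0 := by
  by_contra hne
  obtain ⟨e, he⟩ := MvPolynomial.ne_zero_iff.mp hne
  have h := iterate_weight l a b (μ := 0) (μ' := lam) (f := f)
    (fun e he => by rw [add_zero]; exact hf he) _ e he
  have h2 := DFunLike.congr_fun h ⟨l, b⟩
  simp only [Finsupp.add_apply, Finsupp.smul_apply, Finsupp.single_apply, smul_eq_mul, zero_add] at h2
  rw [if_pos trivial, if_neg] at h2
  · omega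
  · intro h3
    apply hab
    simpa using h3

theorem EF_weight (l : Fin n) {lam : (Σ i : Fin n, Fin (two n i)) →₀ ℕ} {f : Pol (two n)}
    (hf : IsWeightedHomogeneous wt f lam) (i : ℕ) :
    IsWeightedHomogeneous wt ((Eop l)^[i] ((Fop l)^[i] f)) lam := by
  intro e he
  have h1 := iterate_weight (m := two n) l (0 : Fin 2) (1 : Fin 2) (μ := 0) (μ' := lam) (f := f)
    (fun e he => by rw [add_zero]; exact hf he) i
  have h2 := iterate_weight (m := two n) l (1 : Fin 2) (0 : Fin 2) h1 i e he
  rw [zero_add] at h2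
  have h3 : Finsupp.weight wt e + (i • Finsupp.single (⟨l, (1 : Fin 2)⟩ : Σ i : Fin n, Fin (two n i)) 1
      + i • Finsupp.single (⟨l, (0 : Fin 2)⟩ : Σ i : Fin n, Fin (two n i)) 1)
      = lam + (i • Finsupp.single (⟨l, (1 : Fin 2)⟩ : Σ i : Fin n, Fin (two n i)) 1
      + i • Finsupp.single (⟨l, (0 : Fin 2)⟩ : Σ i : Fin n, Fin (two n i)) 1) := by
    rw [h2]
    abel
  exact add_right_cancel h3

/-- `F` kills `f` modulo `I` and the weight is not dominant: then `f ∈ I`. -/
theorem dominant_of_notMem {I : Ideal (Pol (two n))} (hI : Stable I) (l : Fin n)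
    {lam : (Σ i : Fin n, Fin (two n i)) →₀ ℕ} {f : Pol (two n)}
    (hf : IsWeightedHomogeneous wt f lam) (hF : Fop l f ∈ I) (hfI : f ∉ I) :
    lam ⟨l, (1 : Fin 2)⟩ ≤ lam ⟨l, (0 : Fin 2)⟩ := by
  by_contra hlt
  push Not at hlt
  apply hfI
  have hE : ∀ (i : ℕ) (g : Pol (two n)), g ∈ I → (Eop l)^[i] g ∈ I := by
    intro i g hg
    induction i with
    | zero => exact hg
    | succ i ih =>
      rw [Function.iterate_succ_apply']
      exact hI.D_mem l (show (1 : Fin 2) ≠ 0 from ne10) ih
  have hdesc : ∀ i : ℕ, (Eop l)^[i] f ∈ I → f ∈ I := by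
    intro i
    induction i with
    | zero => exact fun h => h
    | succ i ih =>
      intro h
      apply ih
      have h1 := F_iterate_E (Eop l).toLinearMap (Fop l).toLinearMap (Hop l).toLinearMap
        (FE_comm l) (HE_comm l) f _ (H_of_weight l hf) i
      have h2 : Fop l ((Eop l)^[i + 1] f) ∈ I := hI.D_mem l (show (0 : Fin 2) ≠ 1 from ne01) h
      have h3 : Fop l ((Eop l)^[i + 1] f) = (Eop l)^[i + 1] (Fop l f)
        + ((i + 1) * (((lam ⟨l, (0 : Fin 2)⟩ : ℂ) - lam ⟨l, (1 : Fin 2)⟩) - i))
          • (Eop l)^[i] f := h1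
      rw [h3] at h2
      have h4 := (Ideal.add_mem_iff_right I (hE (i + 1) _ hF)).mp h2
      have hne : (((i : ℂ) + 1) * (((lam ⟨l, (0 : Fin 2)⟩ : ℂ) - lam ⟨l, (1 : Fin 2)⟩) - i)) ≠ 0 := by
        apply mul_ne_zero
        · exact_mod_cast Nat.succ_ne_zero i
        · intro h0
          have : ((lam ⟨l, (0 : Fin 2)⟩ : ℕ) : ℂ) = ((lam ⟨l, (1 : Fin 2)⟩ + i : ℕ) : ℂ) := by
            push_cast
            linear_combination h0
          have := Nat.cast_injective this
          omega
      rw [MvPolynomial.smul_eq_C_mul] at h4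
      have h5 := I.mul_mem_left (C ((((i : ℂ) + 1)
        * (((lam ⟨l, (0 : Fin 2)⟩ : ℂ) - lam ⟨l, (1 : Fin 2)⟩) - i))⁻¹)) h4
      rwa [← mul_assoc, ← C_mul, inv_mul_cancel₀ hne, C_1, one_mul] at h5
  apply hdesc (lam ⟨l, (0 : Fin 2)⟩ + 1)
  rw [iterate_eq_zero (m := two n) l (show (1 : Fin 2) ≠ 0 from ne10) hf]
  exact I.zero_mem

theorem smul_mem' {ω : Type*} (I : Ideal (MvPolynomial ω ℂ)) (c : ℂ) {f : MvPolynomial ω ℂ}
    (hf : f ∈ I) : c • f ∈ I := by
  rw [MvPolynomial.smul_eq_C_mul]
  exact I.mul_mem_left _ hf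

/-- Existence of an exact highest weight vector in `I' \ I`. -/
theorem exists_exact (I I' : Ideal (Pol (two n))) (hI : Stable I) (hI' : Stable I')
    (hne : ¬ I' ≤ I) :
    ∃ (lam : (Σ i : Fin n, Fin (two n i)) →₀ ℕ) (f : Pol (two n)), f ∈ I' ∧ f ∉ I ∧
      IsWeightedHomogeneous wt f lam ∧ ∀ l : Fin n, Fop l f = 0 := by
  classical
  obtain ⟨lam, f, hf', hf, hhom, hF, -⟩ := exists_hw I I' hI' hne
  have hFf : ∀ l, Fop l f ∈ I := fun l => hF l _ _ (show (0 : Fin 2) < 1 by decide)
  have main : ∀ S : Finset (Fin n), ∃ g : Pol (two n), g ∈ I' ∧ g - f ∈ I ∧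
      IsWeightedHomogeneous wt g lam ∧ ∀ l ∈ S, Fop l g = 0 := by
    intro S
    induction S using Finset.induction_on with
    | empty => exact ⟨f, hf', by rw [sub_self]; exact I.zero_mem, hhom, by simp⟩
    | insert l S hl ih =>
      obtain ⟨g, hg', hgf, hghom, hgF⟩ := ih
      have hFg : Fop l g ∈ I := by
        have : Fop l g = Fop l f + Fop l (g - f) := by rw [map_sub]; ring
        rw [this]
        exact I.add_mem (hFf l) (hI.D_mem l (show (0 : Fin 2) ≠ 1 from ne01) hgf)
      have hgI : g ∉ I := by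
        intro h
        apply hf
        have : f = g - (g - f) := by ring
        rw [this]
        exact I.sub_mem h hgf
      have hdom := dominant_of_notMem hI l hghom hFg hgI
      set h : ℕ := lam ⟨l, (0 : Fin 2)⟩ - lam ⟨l, (1 : Fin 2)⟩ with hh
      have hHg : (Hop l).toLinearMap g = (h : ℂ) • g := by
        have := H_of_weight l hghom
        rw [hh, Nat.cast_sub hdom]
        exact this
      set M : ℕ := lam ⟨l, (1 : Fin 2)⟩ with hM
      have hproj := F_projector (Eop l).toLinearMap (Fop l).toLinearMap (Hop l).toLinearMap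
        (FE_comm l) (HE_comm l) (HF_comm l) g h hHg M
      set g' : Pol (two n) := ∑ i ∈ Finset.range (M + 1),
        projCoeff h i • (Eop l)^[i] ((Fop l)^[i] g) with hg'def
      have hEI : ∀ (J : Ideal (Pol (two n))), Stable J → ∀ (i : ℕ) (g : Pol (two n)), g ∈ J →
          (Eop l)^[i] g ∈ J := by
        intro J hJ i g hg
        induction i with
        | zero => exact hg
        | succ i ih =>
          rw [Function.iterate_succ_apply']
          exact hJ.D_mem l (show (1 : Fin 2) ≠ 0 from ne10) ih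
      have hFI : ∀ (J : Ideal (Pol (two n))), Stable J → ∀ (i : ℕ) (g : Pol (two n)), g ∈ J →
          (Fop l)^[i] g ∈ J := by
        intro J hJ i g hg
        induction i with
        | zero => exact hg
        | succ i ih =>
          rw [Function.iterate_succ_apply']
          exact hJ.D_mem l (show (0 : Fin 2) ≠ 1 from ne01) ih
      refine ⟨g', ?_, ?_, ?_, ?_⟩
      · exact I'.sum_mem fun i _ => smul_mem' I' _ (hEI I' hI' i _ (hFI I' hI' i g hg'))
      · have h1 : g' - f = ∑ i ∈ Finset.range M,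
            projCoeff h (i + 1) • (Eop l)^[i + 1] ((Fop l)^[i + 1] g) + (g - f) := by
          rw [hg'def, Finset.sum_range_succ']
          simp [projCoeff]
          ring
        rw [h1]
        refine I.add_mem (I.sum_mem fun i _ => smul_mem' I _ ?_) hgf
        apply hEI I hI
        rw [Function.iterate_succ_apply]
        exact hFI I hI i _ hFg
      · rw [hg'def]
        refine IsWeightedHomogeneous.sum _ _ _ fun i _ => ?_
        rw [MvPolynomial.smul_eq_C_mul]
        exact (EF_weight l hghom i).C_mul _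
      · intro l' hl'
        rw [Finset.mem_insert] at hl'
        rcases hl' with rfl | hl'
        · have h2 : (Fop l')^[M + 1] g = 0 :=
            iterate_eq_zero (m := two n) l' (show (0 : Fin 2) ≠ 1 from ne01) hghom
          have h3 : Fop l' g' = projCoeff h M • (Eop l')^[M] ((Fop l')^[M + 1] g) := hproj
          rw [h3, h2, iterate_map_zero, smul_zero]
        · have hne' : l' ≠ l := fun h => hl (h ▸ hl')
          rw [hg'def, map_sum]
          refine Finset.sum_eq_zero fun i _ => ?_
          rw [Derivation.map_smul]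
          have hE' : ∀ (i : ℕ) (g : Pol (two n)), Fop l' ((Eop l)^[i] g) = (Eop l)^[i] (Fop l' g) := by
            intro i g
            induction i generalizing g with
            | zero => rfl
            | succ i ih => 
              rw [Function.iterate_succ_apply, Function.iterate_succ_apply, ih, FE_comm' hne']
          have hF' : ∀ (i : ℕ) (g : Pol (two n)), Fop l' ((Fop l)^[i] g) = (Fop l)^[i] (Fop l' g) := by
            intro i g
            induction i generalizing g with
            | zero => rfl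
            | succ i ih => 
              rw [Function.iterate_succ_apply, Function.iterate_succ_apply, ih, FF_comm hne']
          rw [hE', hF', hgF l' hl', iterate_map_zero, iterate_map_zero, smul_zero]
  obtain ⟨g, hg', hgf, hghom, hgF⟩ := main Finset.univ
  refine ⟨lam, g, hg', ?_, hghom, fun l => hgF l (Finset.mem_univ l)⟩
  intro h
  apply hf
  have : f = g - (g - f) := by ring
  rw [this]
  exact I.sub_mem h hgf

end Pool.Agent.Helper929_delta
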