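import Pool.Agent.Helper929_delta.Ops

/-
Extraction of a highest weight vector modulo an ideal.
-/

namespace Pool.Agent.Helper929_delta

open MvPolynomial

variable {n : ℕ} {m : Fin n → ℕ}

theorem prod_wt (s : (Σ i, Fin (m i)) → ℂ) (w : Wd m) :
    ((wt w).prod fun t k => s t ^ k) = ∏ i, s ⟨i, w i⟩ := by
  classical
  rw [wt, ← Finsupp.prod_finsetSum_index]
  · refine Finset.prod_congr rfl fun i _ => ?_
    rw [Finsupp.prod_single_index] <;> simp
  · simp
  · intro a b c; rw [pow_add]

theorem torus_eq_mapLin (s : (Σ i, Fin (m i)) → ℂ) (f : Pol m) :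
    aeval (fun w : Wd m => C ((wt w).prod fun t k => s t ^ k) * X w) f
      = (mapLin (fun i => Matrix.diagonal (fun a => s ⟨i, a⟩)) f : Pol m) := by
  classical
  rw [mapLin]
  congr 2
  funext w
  rw [Finset.sum_eq_single w]
  · rw [prod_wt]
    simp
  · intro w' _ hw'
    obtain ⟨i, hi⟩ := Function.ne_iff.mp hw'
    rw [Finset.prod_eq_zero (Finset.mem_univ i), C_0, zero_mul]
    exact Matrix.diagonal_apply_ne _ hi
  · simp

/-- Stability of an ideal under all linear endomorphisms of the factors. -/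
def Stable (I : Ideal (Pol m)) : Prop :=
  ∀ (A : ∀ i, Matrix (Fin (m i)) (Fin (m i)) ℂ) (f : Pol m), f ∈ I → mapLin A f ∈ I

theorem Stable.D_mem {I : Ideal (Pol m)} (hI : Stable I) (l : Fin n) {a b : Fin (m l)}
    (hab : a ≠ b) {f : Pol m} (hf : f ∈ I) : D l a b f ∈ I := by
  rw [← coeff_one_uni l hab]
  have := coeff_mem_of_eval_mem (I.restrictScalars ℂ) (Uni l a b f) (fun s => by
    rw [eval_uni]
    exact hI _ f hf) 1
  exact this

theorem Stable.component_mem {I : Ideal (Pol m)} (hI : Stable I)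
    (lam : (Σ i, Fin (m i)) →₀ ℕ) {f : Pol m} (hf : f ∈ I) :
    weightedHomogeneousComponent wt lam f ∈ I := by
  classical
  have := Helper929_delta.component_mem (wt (m := m)) (I.restrictScalars ℂ) (fun s g hg => by
    rw [torus_eq_mapLin]
    exact hI _ g hg) lam f hf
  exact this

theorem exists_component_notMem {ω M : Type*} [AddCommMonoid M] (W : ω → M)
    (I : Ideal (MvPolynomial ω ℂ)) {f : MvPolynomial ω ℂ} (hf : f ∉ I) :
    ∃ lam, weightedHomogeneousComponent W lam f ∉ I := by
  by_contra hcon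
  push Not at hcon
  apply hf
  rw [← finsum_weightedHomogeneousComponent W f]
  exact finsum_induction (· ∈ I) I.zero_mem (fun _ _ => I.add_mem) hcon

theorem wt_update (l : Fin n) (a b : Fin (m l)) (w : Wd m) (h : w l = b) :
    wt (Function.update w l a) + Finsupp.single ⟨l, b⟩ 1 = wt w + Finsupp.single ⟨l, a⟩ 1 := by
  classical
  rw [wt, wt, ← Finset.add_sum_erase _ _ (Finset.mem_univ l),
    ← Finset.add_sum_erase Finset.univ (fun i => Finsupp.single (⟨i, w i⟩ : Σ i, Fin (m i)) 1)
      (Finset.mem_univ l)]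
  have : ∑ x ∈ Finset.univ.erase l,
      Finsupp.single (⟨x, Function.update w l a x⟩ : Σ i, Fin (m i)) 1
      = ∑ x ∈ Finset.univ.erase l, Finsupp.single (⟨x, w x⟩ : Σ i, Fin (m i)) 1 := by
    refine Finset.sum_congr rfl fun x hx => ?_
    rw [Function.update_of_ne (Finset.ne_of_mem_erase hx)]
  rw [this]
  simp only [Function.update_self, h]
  abel

theorem coeff_D_weight {M : Type*} [AddCommMonoid M] [IsCancelAdd M] (W : Wd m → M) (l : Fin n)
    (a b : Fin (m l)) (δ δ' : M)
    (hW : ∀ w, w l = b → W (Function.update w l a) + δ = W w + δ') {μ μ' : M} {f : Pol m}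
    (hf : ∀ e, coeff e f ≠ 0 → Finsupp.weight W e + μ = μ') :
    ∀ e, coeff e (D l a b f) ≠ 0 → Finsupp.weight W e + (μ + δ) = μ' + δ' := by
  classical
  intro e he
  have h1 : D l a b f = ∑ d ∈ f.support, D l a b (monomial d (coeff d f)) := by
    conv_lhs => rw [f.as_sum]
    rw [map_sum]
  rw [h1, coeff_sum] at he
  obtain ⟨d, hd, hde⟩ := Finset.exists_ne_zero_of_sum_ne_zero he
  rw [D, mkDerivation_monomial, coeff_smul, Finsupp.sum, coeff_sum, smul_eq_mul] at hde
  obtain ⟨w, hw, hwe⟩ := Finset.exists_ne_zero_of_sum_ne_zero (right_ne_zero_of_mul hde)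
  by_cases hwl : w l = b
  · rw [if_pos hwl, smul_eq_mul, coeff_mul_X', coeff_monomial] at hwe
    split_ifs at hwe with h2 h3
    · have hdw : d w ≠ 0 := Finsupp.mem_support_iff.mp hw
      have hd' : d = e - Finsupp.single (Function.update w l a) 1 + Finsupp.single w 1 := by
        rw [← h3]
        ext x
        simp only [Finsupp.add_apply, Finsupp.tsub_apply, Finsupp.single_apply]
        split_ifs with hx
        · subst hx; omega
        · simp
      have he' : e = e - Finsupp.single (Function.update w l a) 1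
          + Finsupp.single (Function.update w l a) 1 := by
        have : e (Function.update w l a) ≠ 0 := Finsupp.mem_support_iff.mp h2
        ext x
        simp only [Finsupp.add_apply, Finsupp.tsub_apply, Finsupp.single_apply]
        split_ifs with hx
        · subst hx; omega
        · simp
      set g := e - Finsupp.single (Function.update w l a) 1
      have h4 := hf d (mem_support_iff.mp hd)
      rw [hd', map_add, Finsupp.weight_single, one_smul] at h4
      rw [he', map_add, Finsupp.weight_single, one_smul, ← h4]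
      have h5 := hW w hwl
      calc Finsupp.weight W g + W (Function.update w l a) + (μ + δ)
          = Finsupp.weight W g + (W (Function.update w l a) + δ) + μ := by abel
        _ = Finsupp.weight W g + W w + μ + δ' := by rw [h5]; abel
    · exact absurd rfl hwe
    · exact absurd rfl hwe
  · rw [if_neg hwl] at hwe
    simp at hwe

/-- the cost of a weight -/
def cost (lam : (Σ i, Fin (m i)) →₀ ℕ) : ℕ := ∑ t : (Σ i, Fin (m i)), (t.2 : ℕ) * lam t

theorem cost_add (x y : (Σ i, Fin (m i)) →₀ ℕ) : cost (x + y) = cost x + cost y := by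
  simp [cost, mul_add, Finset.sum_add_distrib]

theorem cost_single (l : Fin n) (a : Fin (m l)) :
    cost (Finsupp.single (⟨l, a⟩ : Σ i, Fin (m i)) 1) = a := by
  classical
  rw [cost, Finset.sum_eq_single ⟨l, a⟩]
  · simp
  · intro t _ ht
    rw [Finsupp.single_apply, if_neg (Ne.symm ht), mul_zero]
  · simp

theorem exists_hw (I I' : Ideal (Pol m)) (hI' : Stable I') (hne : ¬ I' ≤ I) :
    ∃ (lam : (Σ i, Fin (m i)) →₀ ℕ) (f : Pol m), f ∈ I' ∧ f ∉ I ∧
      IsWeightedHomogeneous wt f lam ∧
      (∀ (l : Fin n) (a b : Fin (m l)), a < b → D l a b f ∈ I) ∧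
      ∀ (lam' : (Σ i, Fin (m i)) →₀ ℕ) (g : Pol m), g ∈ I' → g ∉ I →
        IsWeightedHomogeneous wt g lam' → cost lam ≤ cost lam' := by
  classical
  have hex : ∃ c : ℕ, ∃ (lam : (Σ i, Fin (m i)) →₀ ℕ) (f : Pol m), f ∈ I' ∧ f ∉ I ∧
      IsWeightedHomogeneous wt f lam ∧ cost lam = c := by
    obtain ⟨f, hf', hf⟩ := SetLike.not_le_iff_exists.mp hne
    obtain ⟨lam, hlam⟩ := exists_component_notMem (wt (m := m)) I hf
    exact ⟨_, lam, _, hI'.component_mem lam hf', hlam,
      weightedHomogeneousComponent_isWeightedHomogeneous lam f, rfl⟩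
  obtain ⟨lam, f, hf', hf, hhom, hc⟩ := Nat.find_spec hex
  have hmin : ∀ (lam' : (Σ i, Fin (m i)) →₀ ℕ) (g : Pol m), g ∈ I' → g ∉ I →
        IsWeightedHomogeneous wt g lam' → cost lam ≤ cost lam' := by
    intro lam' g hg' hg hgh
    rw [hc]
    exact Nat.find_min' hex ⟨lam', g, hg', hg, hgh, rfl⟩
  refine ⟨lam, f, hf', hf, hhom, ?_, hmin⟩
  intro l a b hab
  by_contra hcon
  have hw := coeff_D_weight (wt (m := m)) l a b (Finsupp.single ⟨l, b⟩ 1)
    (Finsupp.single ⟨l, a⟩ 1) (wt_update l a b) (μ := 0) (μ' := lam) (f := f)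
    (fun e he => by rw [add_zero]; exact hhom he)
  have hne0 : D l a b f ≠ 0 := by
    intro h0
    exact hcon (h0 ▸ I.zero_mem)
  obtain ⟨e₀, he₀⟩ := MvPolynomial.ne_zero_iff.mp hne0
  have h0 := hw e₀ he₀
  have hDh : IsWeightedHomogeneous wt (D l a b f) (Finsupp.weight wt e₀) := by
    intro e he
    have h1 := hw e he
    rw [← h0] at h1
    exact add_right_cancel h1
  have h2 := hmin _ _ (hI'.D_mem l hab.ne hf') hcon hDh
  have h3 := congrArg cost h0
  rw [zero_add, cost_add, cost_add, cost_single, cost_single] at h3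
  have : (a : ℕ) < b := hab
  omega

end Pool.Agent.Helper929_delta
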