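import Pool.Agent.Helper929_delta.Wrap

/-
The family attached to a Delta-ideal; detection; the main theorem.
-/

namespace Pool.Agent.Helper929_delta

open MvPolynomial

theorem two_cons (n : ℕ) : ∀ i : Fin (n + 1), two (n + 1) i
    = (Fin.cons 2 (two n) : Fin (n + 1) → ℕ) i := by
  intro i
  refine Fin.cases rfl (fun _ => rfl) i

theorem cons_two2 (n : ℕ) : ∀ i : Fin (n + 2),
    (Fin.cons 2 (Fin.cons 2 (two n) : Fin (n + 1) → ℕ) : Fin (n + 2) → ℕ) i = two (n + 2) i := by
  intro i
  refine Fin.cases rfl (fun i => ?_) i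
  refine Fin.cases rfl (fun _ => rfl) i

theorem cons_two3 (n : ℕ) : ∀ i : Fin (n + 3),
    (Fin.cons 2 (Fin.cons 2 (Fin.cons 2 (two n) : Fin (n + 1) → ℕ) : Fin (n + 2) → ℕ) :
      Fin (n + 3) → ℕ) i = two (n + 3) i := by
  intro i
  refine Fin.cases rfl (fun i => ?_) i
  refine Fin.cases rfl (fun i => ?_) i
  refine Fin.cases rfl (fun _ => rfl) i

/-- The family of ideals in factors of dimension two attached to a Delta-ideal. -/
noncomputable def DeltaIdeal.fam (J : DeltaIdeal) : Fam where
  J := fun n => J.I (two (n + 1))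
  stable := fun n A f hf => J.lin _ _ A f hf
  perm := fun n σ f hf => J.perm _ σ f hf
  zero := by
    intro n f hf
    have h1 := J.cast_mem (two_cons n) hf
    have h2 := J.insert_mem 2 2 (two n) (fun z => if z = 0 then 1 else 0) h1
    have h3 := J.cast_mem (cons_two2 n) h2
    have key : ((rename (castWord (cons_two2 n))).comp ((aeval (fun w : Wd (Fin.cons 2 (two n) :
        Fin (n + 1) → ℕ) => ∑ z : Fin 2, C (if z = 0 then (1 : ℂ) else 0)
          * X (frontWord 2 2 (two n) z w)) :
        Pol (Fin.cons 2 (two n) : Fin (n + 1) → ℕ) →ₐ[ℂ] _).comp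
          (rename (castWord (two_cons n)) : Pol (two (n + 1)) →ₐ[ℂ] _)))
        = (rename (fun (w : Wd (two (n + 1))) =>
          (Fin.cons (α := fun _ => Fin 2) 0 w : Wd (two (n + 2)))) :
            Pol (two (n + 1)) →ₐ[ℂ] Pol (two (n + 2))) := by
      apply MvPolynomial.algHom_ext
      intro w
      simp only [AlgHom.comp_apply, rename_X, aeval_X, Fin.sum_univ_two]
      simp only [if_true, C_1, one_mul, map_add, map_mul, rename_X, rename_C]
      rw [if_neg (by decide : ¬ ((1 : Fin 2) = 0)), C_0, zero_mul, add_zero]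
      congr 1
      funext i
      refine Fin.cases rfl (fun i => ?_) i
      refine Fin.cases rfl (fun i => rfl) i
    have h4 := DFunLike.congr_fun key f
    simp only [AlgHom.comp_apply] at h4
    rw [← h4]
    exact h3
  ins := by
    intro n f hf y
    have h1 := J.cast_mem (two_cons n) hf
    have h2 := J.insert_mem (2 * 2) 2 (two n) (fun z => y (finProdFinEquiv.symm z)) h1
    have h3 := J.split 2 2 (Fin.cons 2 (two n) : Fin (n + 1) → ℕ) _ h2
    have h4 := J.cast_mem (cons_two3 n) h3
    have key : ((rename (castWord (cons_two3 n))).comp ((rename (splitWord 2 2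
          (Fin.cons 2 (two n) : Fin (n + 1) → ℕ))).comp ((aeval (fun w : Wd (Fin.cons 2 (two n) :
        Fin (n + 1) → ℕ) => ∑ z : Fin (2 * 2), C (y (finProdFinEquiv.symm z))
          * X (frontWord (2 * 2) 2 (two n) z w)) :
        Pol (Fin.cons 2 (two n) : Fin (n + 1) → ℕ) →ₐ[ℂ] _).comp
          (rename (castWord (two_cons n)) : Pol (two (n + 1)) →ₐ[ℂ] _))))
        = (aeval (fun w : Wd (two (n + 1)) => ∑ u : Fin 2 × Fin 2, C (y u) * X (cons2 u w)) :
            Pol (two (n + 1)) →ₐ[ℂ] Pol (two (n + 3))) := by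
      apply MvPolynomial.algHom_ext
      intro w
      simp only [AlgHom.comp_apply, rename_X, aeval_X]
      rw [← finProdFinEquiv.sum_comp]
      simp only [map_sum, map_mul, rename_X, rename_C, Equiv.symm_apply_apply]
      refine Finset.sum_congr rfl fun u _ => ?_
      congr 2
      funext i
      refine Fin.cases ?_ (fun i => ?_) i
      · change Fin.cast _ (finProdFinEquiv.symm (finProdFinEquiv u)).1 = u.1
        rw [Equiv.symm_apply_apply]
        rfl
      · refine Fin.cases ?_ (fun i => ?_) i
        · change Fin.cast _ (finProdFinEquiv.symm (finProdFinEquiv u)).2 = u.2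
          rw [Equiv.symm_apply_apply]
          rfl
        · refine Fin.cases rfl (fun i => rfl) i
    have h5 := DFunLike.congr_fun key f
    simp only [AlgHom.comp_apply] at h5
    rw [← h5]
    exact h4

/-- Detection: an inclusion of Delta-ideals `J ≤ J'` with `J` of level at most two which is an
equality for all families of spaces of dimension two is an equality. -/
theorem detection (J J' : DeltaIdeal) (hJ : J.LevelLE 2)
    (h2 : ∀ n, J'.I (two (n + 1)) ≤ J.I (two (n + 1))) {n : ℕ} (m : Fin (n + 1) → ℕ) :
    J'.I m ≤ J.I m := by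
  classical
  by_contra hne
  obtain ⟨lam, f, hf', hf, hhom, hD, -⟩ := exists_hw (J.I m) (J'.I m)
    (fun A f hf => J'.lin _ _ A f hf) hne
  have hlam : ∀ (l : Fin (n + 1)) (a : Fin (m l)), 2 ≤ (a : ℕ) → lam ⟨l, a⟩ = 0 := by
    intro l a ha
    by_contra h0
    exact hf (hJ m lam f hhom hD ⟨l, a, ha, h0⟩)
  have hvars : ∀ w ∈ f.vars, ∀ l, (w l : ℕ) < 2 := by
    intro w hw l
    rw [mem_vars] at hw
    obtain ⟨d, hd, hwd⟩ := hw
    by_contra hge
    push Not at hge
    have h0 := hlam l (w l) hge
    rw [← hhom (mem_support_iff.mp hd), weight_wt_apply] at h0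
    have h1 := (Finset.sum_eq_zero_iff.mp h0) w hwd
    rw [if_pos rfl, mul_one] at h1
    exact (Finsupp.mem_support_iff.mp hwd) h1
  set A : ∀ i, Matrix (Fin (two (n + 1) i)) (Fin (m i)) ℂ :=
    fun i => Matrix.of fun a b => if (a : ℕ) = (b : ℕ) then 1 else 0 with hA
  set B : ∀ i, Matrix (Fin (m i)) (Fin (two (n + 1) i)) ℂ :=
    fun i => Matrix.of fun a b => if (a : ℕ) = (b : ℕ) then 1 else 0 with hB
  have h3 : mapLin B (mapLin A f) ∈ J.I m := J.lin _ _ B _ (h2 n (J'.lin _ _ A f hf'))
  apply hf
  have h4 : mapLin B (mapLin A f) = f := by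
    have h5 : ((mapLin B : Pol (two (n + 1)) →ₐ[ℂ] Pol m).toRingHom.comp
        (mapLin A : Pol m →ₐ[ℂ] Pol (two (n + 1))).toRingHom) f = (RingHom.id (Pol m)) f := by
      apply hom_congr_vars
      · ext r
        simp [mapLin, MvPolynomial.algebraMap_eq]
      · intro w hw _
        have hw2 := hvars w hw
        have h6 : mapLin A (X w : Pol m) = X (fun i => (⟨(w i : ℕ), hw2 i⟩ : Fin 2)) := by
          rw [mapLin_X_of (κ := Unit) A w (fun _ => (fun i => (⟨(w i : ℕ), hw2 i⟩ : Fin 2)))
            (fun _ _ _ => rfl) (fun _ => 1)]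
          · simp
          · intro _
            simp [hA]
          · intro w' hw'
            obtain ⟨i, hi⟩ : ∃ i, w' i ≠ (⟨(w i : ℕ), hw2 i⟩ : Fin 2) := by
              by_contra hcon
              push Not at hcon
              exact hw' ⟨(), (funext hcon).symm⟩
            rw [Finset.prod_eq_zero (Finset.mem_univ i)]
            simp only [hA, Matrix.of_apply]
            rw [if_neg]
            intro h3
            apply hi
            ext
            exact h3
        have h7 : mapLin B (X (fun i => (⟨(w i : ℕ), hw2 i⟩ : Fin 2)) : Pol (two (n + 1)))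
            = (X w : Pol m) := by
          rw [mapLin_X_of (κ := Unit) B (fun i => (⟨(w i : ℕ), hw2 i⟩ : Fin 2)) (fun _ => w)
            (fun _ _ _ => rfl) (fun _ => 1)]
          · simp
          · intro _
            simp [hB]
          · intro w' hw'
            obtain ⟨i, hi⟩ : ∃ i, w' i ≠ w i := by
              by_contra hcon
              push Not at hcon
              exact hw' ⟨(), (funext hcon).symm⟩
            rw [Finset.prod_eq_zero (Finset.mem_univ i)]
            simp only [hB, Matrix.of_apply]
            rw [if_neg]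
            intro h3
            apply hi
            ext
            exact h3
        simp only [AlgHom.toRingHom_eq_coe, RingHom.comp_apply, RingHom.coe_coe, RingHom.id_apply]
        rw [h6, h7]
      · rfl
    simpa using h5
  rwa [h4] at h3

/-- The ascending chain condition for Delta-ideals of level at most two which contain the ideal of
the first secant variety of the Segre variety. -/
theorem acc_level_two (J : ℕ → DeltaIdeal)
    (hmono : ∀ (r : ℕ) {n : ℕ} (m : Fin (n + 1) → ℕ), (J r).I m ≤ (J (r + 1)).I m)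
    (hlev : ∀ r, (J r).LevelLE 2)
    (hsec : ∀ {n : ℕ} (m : Fin (n + 1) → ℕ), secantIdeal m ≤ (J 0).I m) :
    ∃ N, ∀ r, N ≤ r → ∀ {n : ℕ} (m : Fin (n + 1) → ℕ), (J r).I m = (J N).I m := by
  obtain ⟨N, hN⟩ := acc_two (fun r => (J r).fam) (fun r n => hmono r (two (n + 1)))
    (fun n => hsec (two (n + 1)))
  refine ⟨N, fun r hr n m => le_antisymm ?_ ?_⟩
  · exact detection (J N) (J r) (hlev N) (fun n => (hN r hr n).le) m
  · have hmono' : Monotone (fun r => (J r).I m) := monotone_nat_of_le_succ (fun r => hmono r m)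
    exact hmono' hr

end Pool.Agent.Helper929_delta
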