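import Pool.Agent.Helper929_delta.Level

/-
Relative finite generation.
-/

namespace Pool.Agent.Helper929_delta

open MvPolynomial

/-- The ascending chain condition for Delta-ideals which contain the ideal of the first secant
variety of the Segre variety. -/
theorem acc_secant (J : ℕ → DeltaIdeal)
    (hmono : ∀ (r : ℕ) {n : ℕ} (m : Fin (n + 1) → ℕ), (J r).I m ≤ (J (r + 1)).I m)
    (hsec : ∀ {n : ℕ} (m : Fin (n + 1) → ℕ), secantIdeal m ≤ (J 0).I m) :
    ∃ N, ∀ r, N ≤ r → ∀ {n : ℕ} (m : Fin (n + 1) → ℕ), (J r).I m = (J N).I m := by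
  refine acc_level_two J hmono (fun r => ?_) hsec
  apply level_of_secant
  intro n m
  have hmono' : Monotone (fun r => (J r).I m) := monotone_nat_of_le_succ (fun r => hmono r m)
  exact (hsec m).trans (hmono' (Nat.zero_le r))

/-- the intersection of a set of Delta-ideals -/
noncomputable def DeltaIdeal.inter (𝒮 : Set DeltaIdeal) : DeltaIdeal where
  I := fun m => ⨅ J ∈ 𝒮, J.I m
  homog := by
    intro n m f k hf
    simp only [Submodule.mem_iInf] at hf ⊢
    exact fun J hJ => J.homog m f k (hf J hJ)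
  lin := by
    intro n m m' A f hf
    simp only [Submodule.mem_iInf] at hf ⊢
    exact fun J hJ => J.lin m m' A f (hf J hJ)
  perm := by
    intro n m σ f hf
    simp only [Submodule.mem_iInf] at hf ⊢
    exact fun J hJ => J.perm m σ f (hf J hJ)
  split := by
    intro n a b m f hf
    simp only [Submodule.mem_iInf] at hf ⊢
    exact fun J hJ => J.split a b m f (hf J hJ)

/-- Every Delta-ideal is finitely generated over the secant ideals. -/
theorem finite_generation (J : DeltaIdeal) :
    ∃ S : Set Elt, S.Finite ∧ (∀ e ∈ S, J.Has e) ∧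
      ∀ J' : DeltaIdeal, J'.HasSecant → (∀ e ∈ S, J'.Has e) → J.Sub J' := by
  classical
  by_contra hcon
  push Not at hcon
  let gen : Set Elt → DeltaIdeal := fun S => DeltaIdeal.inter
    {J' : DeltaIdeal | J'.HasSecant ∧ ∀ e ∈ S, J'.Has e}
  have hgen : ∀ (S : Set Elt) {n : ℕ} (m : Fin (n + 1) → ℕ) (f : Pol m), f ∈ (gen S).I m ↔
      ∀ K : DeltaIdeal, K.HasSecant → (∀ e ∈ S, K.Has e) → f ∈ K.I m := by
    intro S n m f
    change f ∈ (⨅ K ∈ {J' : DeltaIdeal | J'.HasSecant ∧ ∀ e ∈ S, J'.Has e}, DeltaIdeal.I K m) ↔ _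
    simp only [Submodule.mem_iInf, Set.mem_setOf_eq, and_imp]
  have hnew : ∀ S : Set Elt, S.Finite → (∀ e ∈ S, J.Has e) →
      ∃ t : Elt, J.Has t ∧ ¬ (gen S).Has t := by
    intro S hS hSJ
    obtain ⟨J', h1, h2, h3⟩ := hcon S hS hSJ
    simp only [DeltaIdeal.Sub, not_forall] at h3
    obtain ⟨n, m, h3⟩ := h3
    obtain ⟨f, hf, hf'⟩ := SetLike.not_le_iff_exists.mp h3
    refine ⟨⟨n, m, f⟩, hf, fun h4 => hf' ?_⟩
    exact (hgen S m f).mp h4 J' h1 h2
  -- construct the sequence
  let F := {S : Set Elt // S.Finite ∧ ∀ e ∈ S, J.Has e}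
  let next : F → F := fun S => ⟨insert (hnew S.1 S.2.1 S.2.2).choose S.1,
    S.2.1.insert _, by
      intro s hs
      rcases Set.mem_insert_iff.mp hs with rfl | hs
      · exact (hnew S.1 S.2.1 S.2.2).choose_spec.1
      · exact S.2.2 s hs⟩
  let seq : ℕ → F := fun r => next^[r] ⟨∅, Set.finite_empty, by simp⟩
  have hseq : ∀ r, seq (r + 1) = next (seq r) := fun r => Function.iterate_succ_apply' _ _ _
  obtain ⟨N, hN⟩ := acc_secant (fun r => gen (seq r).1)
    (by
      intro r n m f hf
      rw [hgen] at hf ⊢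
      intro K hK hKS
      refine hf K hK (fun e he => hKS e ?_)
      rw [hseq]
      exact Set.mem_insert_of_mem _ he)
    (by
      intro n m f hf
      rw [hgen]
      exact fun K hK _ => hK m hf)
  have h1 := (hnew (seq N).1 (seq N).2.1 (seq N).2.2).choose_spec.2
  set t := (hnew (seq N).1 (seq N).2.1 (seq N).2.2).choose with ht
  have h2 : t ∈ (seq (N + 1)).1 := by
    rw [hseq]
    exact Set.mem_insert _ _
  have h3 : t.f ∈ (gen (seq (N + 1)).1).I t.m := by
    rw [hgen]
    exact fun K _ hKS => hKS t h2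
  rw [hN (N + 1) (Nat.le_succ N) t.m] at h3
  exact h1 h3

end Pool.Agent.Helper929_delta
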