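import Pool.Agent.Helper929_delta.Wqo

/-
JOB TOP (pure combinatorics, self-contained).

PROOF IN PLAIN WORDS. Induction on q (for all p, e).
First note the derived members of T (all by pair moves with a = 1 or a = 2 and zero moves from F, G, H):
  F_r,z : T 1 1 (replicate r 1 + replicate z 0) for r even, r ≥ 2;
  G_r,z : T 2 1 (replicate r 1 + replicate z 0) for r odd, r ≥ 3;
  H_r,z : T 2 2 (replicate r 2 + replicate z 0) for r odd, r ≥ 3;
  X_p   : T p 0 (replicate z 0) for z ≥ 1 (from one, x, mul with M = {(0,0)} and zero moves).
q = 0: e consists of zeros, use X_p.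
q ≥ 1: let τ be the number of letters of e equal to q. We look for a sub-multiset K ≤ e of nonzero letters, of even
cardinality ≥ 2, containing all the τ letters equal to q, with card K ≤ e.sum - 2 q + 2. Then
e' = (letters of K decreased by 1) + (e - K) is such that (p-1, q-1, e') is good: (letters ≤ q - 1;
2 (q-1) ≤ e.sum - card K; parity of the sum unchanged), and T (p-1) (q-1) e' by induction, so mul with F_{card K, ..}
and M = {(y-1, 1) : y in K} + {(y, 0) : y not in K} gives T p q e.
  τ even ≥ 2: K = the τ letters q; e.sum ≥ τ q so e.sum - 2q + 2 ≥ (τ-2) q + 2 ≥ τ.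
  τ = 0: K = any two nonzero letters (exist: e.sum ≥ 2 q > 0 and all letters are ≤ q - 1).
  τ = 1: K = {q, x}, x another nonzero letter (exists since e.sum ≥ 2 q > q).
  τ odd ≥ 3 and there is a nonzero letter x < q: K = the τ letters q and x; e.sum ≥ τ q + 1.
  τ odd ≥ 3 and all other letters are 0: if q = 1, then e.sum = τ is odd so p > q, p ≥ 2, and
     T p 1 e comes from mul of X_{p-2} and G_{τ,z}. If q ≥ 2: (p-2, q-2, τ copies of q-2 and zeros) is good; use mul with
     H_{τ,z} (M = τ copies of (q-2, 2) and copies of (0,0)).
-/

namespace Pool.Agent.Helper929_delta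

/-- a family of triples closed under the basic moves and containing the basic elements -/
structure TopClosed (T : ℕ → ℕ → Multiset ℕ → Prop) : Prop where
  zero : ∀ {i j : ℕ} {m : Multiset ℕ}, T i j m → T i j (0 ::ₘ m)
  pair : ∀ {i j a : ℕ} {m : Multiset ℕ}, T i j m → a ≤ j → T i j (a ::ₘ a ::ₘ m)
  mul : ∀ {i j p q : ℕ} (M : Multiset (ℕ × ℕ)), T i j (M.map Prod.fst) → T p q (M.map Prod.snd) →
    T (i + p) (j + q) (M.map (fun x => x.1 + x.2))
  one : T 0 0 {0}
  x : T 1 0 {0}
  F : T 1 1 {1, 1}
  G : T 2 1 {1, 1, 1}
  H : T 2 2 {2, 2, 2}

theorem TopClosed.zeros {T : ℕ → ℕ → Multiset ℕ → Prop} (hT : TopClosed T) {i j : ℕ}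
    {m : Multiset ℕ} (h : T i j m) (z : ℕ) : T i j (m + Multiset.replicate z 0) := by
  induction z with
  | zero => simpa using h
  | succ z ih =>
    rw [Multiset.replicate_succ, Multiset.add_cons]
    exact hT.zero ih

theorem TopClosed.pairs {T : ℕ → ℕ → Multiset ℕ → Prop} (hT : TopClosed T) {i j a : ℕ}
    {m : Multiset ℕ} (h : T i j m) (ha : a ≤ j) (k : ℕ) :
    T i j (Multiset.replicate (2 * k) a + m) := by
  induction k with
  | zero => simpa using h
  | succ k ih =>
    have e : Multiset.replicate (2 * (k + 1)) a + m =
        a ::ₘ a ::ₘ (Multiset.replicate (2 * k) a + m) := by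
      rw [show 2 * (k + 1) = 2 * k + 1 + 1 by ring, Multiset.replicate_succ,
        Multiset.replicate_succ, Multiset.cons_add, Multiset.cons_add]
    rw [e]
    exact hT.pair ih ha

theorem TopClosed.Fr {T : ℕ → ℕ → Multiset ℕ → Prop} (hT : TopClosed T) (r z : ℕ)
    (hr : Even r) (h2 : 2 ≤ r) :
    T 1 1 (Multiset.replicate r 1 + Multiset.replicate z 0) := by
  refine hT.zeros ?_ z
  obtain ⟨k, rfl⟩ := hr
  obtain ⟨k, rfl⟩ : ∃ l, k = l + 1 := ⟨k - 1, by omega⟩
  have h := hT.pairs hT.F (le_refl 1) k
  have e : Multiset.replicate (k + 1 + (k + 1)) 1 = Multiset.replicate (2 * k) 1 + {1, 1} := by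
    rw [show k + 1 + (k + 1) = 2 * k + 2 by ring, Multiset.replicate_add]
    rfl
  rw [e]
  exact h

theorem TopClosed.Gr {T : ℕ → ℕ → Multiset ℕ → Prop} (hT : TopClosed T) (r z : ℕ)
    (hr : Odd r) (h3 : 3 ≤ r) :
    T 2 1 (Multiset.replicate r 1 + Multiset.replicate z 0) := by
  refine hT.zeros ?_ z
  obtain ⟨k, rfl⟩ := hr
  obtain ⟨k, rfl⟩ : ∃ l, k = l + 1 := ⟨k - 1, by omega⟩
  have h := hT.pairs hT.G (le_refl 1) k
  have e : Multiset.replicate (2 * (k + 1) + 1) 1 =
      Multiset.replicate (2 * k) 1 + {1, 1, 1} := by
    rw [show 2 * (k + 1) + 1 = 2 * k + 3 by ring, Multiset.replicate_add]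
    rfl
  rw [e]
  exact h

theorem TopClosed.Hr {T : ℕ → ℕ → Multiset ℕ → Prop} (hT : TopClosed T) (r z : ℕ)
    (hr : Odd r) (h3 : 3 ≤ r) :
    T 2 2 (Multiset.replicate r 2 + Multiset.replicate z 0) := by
  refine hT.zeros ?_ z
  obtain ⟨k, rfl⟩ := hr
  obtain ⟨k, rfl⟩ : ∃ l, k = l + 1 := ⟨k - 1, by omega⟩
  have h := hT.pairs hT.H (le_refl 2) k
  have e : Multiset.replicate (2 * (k + 1) + 1) 2 =
      Multiset.replicate (2 * k) 2 + {2, 2, 2} := by
    rw [show 2 * (k + 1) + 1 = 2 * k + 3 by ring, Multiset.replicate_add]
    rfl
  rw [e]
  exact h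

theorem TopClosed.Xp {T : ℕ → ℕ → Multiset ℕ → Prop} (hT : TopClosed T) (p z : ℕ)
    (hz : 1 ≤ z) : T p 0 (Multiset.replicate z 0) := by
  have h1 : T p 0 {0} := by
    induction p with
    | zero => exact hT.one
    | succ p ih =>
      have h := hT.mul (i := p) (j := 0) (p := 1) (q := 0) {(0, 0)}
        (by simpa using ih) (by simpa using hT.x)
      simpa using h
  obtain ⟨z, rfl⟩ : ∃ l, z = l + 1 := ⟨z - 1, by omega⟩
  have h2 := hT.zeros h1 z
  rwa [Multiset.singleton_add, ← Multiset.replicate_succ] at h2

/-- the main step -/
theorem TopClosed.step {T : ℕ → ℕ → Multiset ℕ → Prop} (hT : TopClosed T) (q : ℕ)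
    (IH : ∀ (p : ℕ) (e : Multiset ℕ), e ≠ 0 → Good p q e → T p q e) (p : ℕ) (K R : Multiset ℕ)
    (hK : ∀ y ∈ K, 1 ≤ y ∧ y ≤ q + 1) (hR : ∀ y ∈ R, y ≤ q) (hKe : Even K.card)
    (hK2 : 2 ≤ K.card) (hc : K.card + 2 * q ≤ (K + R).sum) (hqp : q + 1 ≤ p)
    (hpar : p = q + 1 → Even (K + R).sum) : T p (q + 1) (K + R) := by
  obtain ⟨p, rfl⟩ : ∃ l, p = l + 1 := ⟨p - 1, by omega⟩
  have hsum : (K.map (fun y => y - 1) + R).sum + K.card = (K + R).sum := by
    have h1 : ∀ L : Multiset ℕ, (∀ y ∈ L, 1 ≤ y) → (L.map (fun y => y - 1)).sum + L.card = L.sum := by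
      intro L
      induction L using Multiset.induction_on with
      | empty => intro _; simp
      | cons a L ih =>
        intro h
        have h2 := ih (fun y hy => h y (Multiset.mem_cons_of_mem hy))
        have h3 := h a (Multiset.mem_cons_self a L)
        rw [Multiset.map_cons, Multiset.sum_cons, Multiset.card_cons, Multiset.sum_cons]
        omega
    have h2 := h1 K (fun y hy => (hK y hy).1)
    rw [Multiset.sum_add, Multiset.sum_add]
    omega
  have hne : K.map (fun y => y - 1) + R ≠ 0 := by
    intro h
    have h1 := congrArg Multiset.card h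
    rw [Multiset.card_add, Multiset.card_map, Multiset.card_zero] at h1
    omega
  have hgood : Good p q (K.map (fun y => y - 1) + R) := by
    refine ⟨?_, by omega, by omega, ?_⟩
    · intro c hc
      rw [Multiset.mem_add, Multiset.mem_map] at hc
      rcases hc with ⟨y, hy, rfl⟩ | hc
      · have := (hK y hy).2
        omega
      · exact hR c hc
    · intro hpq
      have h1 := hpar (by omega)
      rw [← hsum] at h1
      exact (Nat.even_add.1 h1).2 hKe
  have hI := IH p _ hne hgood
  have hF := hT.Fr K.card R.card hKe hK2
  have hmul := hT.mul (i := p) (j := q) (p := 1) (q := 1)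
    (K.map (fun y => (y - 1, 1)) + R.map (fun y => (y, 0)))
    (by
      rw [Multiset.map_add, Multiset.map_map, Multiset.map_map]
      simpa [Function.comp_def] using hI)
    (by
      rw [Multiset.map_add, Multiset.map_map, Multiset.map_map]
      simpa [Function.comp_def] using hF)
  have e : (K.map (fun y => (y - 1, 1)) + R.map (fun y => (y, 0))).map
      (fun x : ℕ × ℕ => x.1 + x.2) = K + R := by
    rw [Multiset.map_add, Multiset.map_map, Multiset.map_map]
    congr 1
    · conv_rhs => rw [← Multiset.map_id K]
      apply Multiset.map_congr rfl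
      intro y hy
      have := (hK y hy).1
      simp only [Function.comp_apply, id_eq]
      omega
    · conv_rhs => rw [← Multiset.map_id R]
      apply Multiset.map_congr rfl
      intro y hy
      simp
  rw [e] at hmul
  exact hmul

theorem exists_pos_of_sum (m : Multiset ℕ) (h : 0 < m.sum) : ∃ y ∈ m, 1 ≤ y := by
  by_contra hcon
  push Not at hcon
  have : m.sum = 0 := by
    rw [Multiset.sum_eq_zero_iff]
    intro y hy
    have := hcon y hy
    omega
  omega

/-- TARGET -/
theorem top_of_good (T : ℕ → ℕ → Multiset ℕ → Prop) (hT : TopClosed T) (p q : ℕ) (e : Multiset ℕ)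
    (he : e ≠ 0) (h : Good p q e) : T p q e := by
  induction q using Nat.strong_induction_on generalizing p e with
  | _ q IH =>
  rcases q with _ | q
  · have h1 : e = Multiset.replicate e.card 0 := by
      rw [Multiset.eq_replicate_card]
      intro b hb
      have := h.1 b hb
      omega
    rw [h1]
    exact hT.Xp p _ (Multiset.card_pos.2 he)
  · obtain ⟨hlet, hqp, hs, hpar⟩ := h
    have IH1 : ∀ (p : ℕ) (e : Multiset ℕ), e ≠ 0 → Good p q e → T p q e :=
      fun p e he h => IH q (by omega) p e he h
    -- splitting off the top letters
    obtain ⟨τ, R, hR, rfl⟩ : ∃ (τ : ℕ) (R : Multiset ℕ), (∀ y ∈ R, y ≤ q) ∧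
        e = Multiset.replicate τ (q + 1) + R := by
      refine ⟨e.count (q + 1), e.filter (fun y => ¬ (y = q + 1)), ?_, ?_⟩
      · intro y hy
        rw [Multiset.mem_filter] at hy
        have := hlet y hy.1
        omega
      · rw [← Multiset.filter_eq']
        exact (Multiset.filter_add_not _ _).symm
    have hsR : (Multiset.replicate τ (q + 1) + R).sum = τ * (q + 1) + R.sum := by
      rw [Multiset.sum_add, Multiset.sum_replicate, smul_eq_mul]
    rcases Nat.even_or_odd τ with hτ | hτ
    · by_cases hτ0 : τ = 0
      · subst hτ0
        rw [Multiset.replicate_zero, zero_add] at *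
        obtain ⟨x, hx, hx1⟩ := exists_pos_of_sum R (by omega)
        obtain ⟨R, rfl⟩ := Multiset.exists_cons_of_mem hx
        have hxq := hR x hx
        rw [Multiset.sum_cons] at hs
        obtain ⟨y, hy, hy1⟩ := exists_pos_of_sum R (by omega)
        have hyq := hR y (Multiset.mem_cons_of_mem hy)
        obtain ⟨R, rfl⟩ := Multiset.exists_cons_of_mem hy
        have e1 : x ::ₘ y ::ₘ R = {x, y} + R := by
          rw [Multiset.insert_eq_cons, Multiset.cons_add, Multiset.singleton_add]
        have h3 := hT.step q IH1 p {x, y} R (by
            intro z hz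
            simp only [Multiset.insert_eq_cons, Multiset.mem_cons, Multiset.mem_singleton] at hz
            rcases hz with rfl | rfl <;> omega)
          (fun z hz => hR z (Multiset.mem_cons_of_mem (Multiset.mem_cons_of_mem hz)))
          (by simp) (by simp) (by
            rw [← e1, Multiset.sum_cons]
            simp only [Multiset.insert_eq_cons, Multiset.card_cons, Multiset.card_singleton]
            omega) hqp (by rw [← e1]; exact hpar)
        rw [e1]
        exact h3
      · have h2 : 2 ≤ τ := by
          obtain ⟨k, rfl⟩ := hτ
          omega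
        refine hT.step q IH1 p _ R ?_ hR (by simpa using hτ) (by simpa using h2) ?_ hqp hpar
        · intro z hz
          have := Multiset.eq_of_mem_replicate hz
          omega
        · rw [hsR, Multiset.card_replicate]
          have h4 := Nat.mul_le_mul_right q h2
          rw [Nat.mul_add, Nat.mul_one]
          omega
    · obtain ⟨k, rfl⟩ := hτ
      by_cases hR0 : ∃ x ∈ R, 1 ≤ x
      · obtain ⟨x, hx, hx1⟩ := hR0
        have hxq := hR x hx
        obtain ⟨R, rfl⟩ := Multiset.exists_cons_of_mem hx
        have e1 : Multiset.replicate (2 * k + 1) (q + 1) + x ::ₘ R =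
            (x ::ₘ Multiset.replicate (2 * k + 1) (q + 1)) + R := by
          rw [Multiset.add_cons, Multiset.cons_add]
        rw [e1] at hs hpar hsR ⊢
        rw [Multiset.sum_cons] at hsR
        refine hT.step q IH1 p _ R ?_ (fun z hz => hR z (Multiset.mem_cons_of_mem hz)) ?_ ?_ ?_
          hqp hpar
        · intro z hz
          rw [Multiset.mem_cons] at hz
          rcases hz with rfl | hz
          · omega
          · have := Multiset.eq_of_mem_replicate hz
            omega
        · rw [Multiset.card_cons, Multiset.card_replicate]
          exact ⟨k + 1, by ring⟩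
        · rw [Multiset.card_cons, Multiset.card_replicate]
          omega
        · rw [Multiset.card_cons, Multiset.card_replicate]
          rcases Nat.eq_zero_or_pos k with rfl | hk
          · omega
          · rw [hsR]
            have h4 : 2 * q ≤ (2 * k + 1) * q := Nat.mul_le_mul_right q (by omega)
            rw [Nat.mul_add, Nat.mul_one]
            omega
      · have hRz : R = Multiset.replicate R.card 0 := by
          rw [Multiset.eq_replicate_card]
          intro b hb
          by_contra hb0
          exact hR0 ⟨b, hb, by omega⟩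
        have hRs : R.sum = 0 := by
          rw [hRz, Multiset.sum_replicate, smul_zero]
        have hk : 1 ≤ k := by
          by_contra hk
          have hk0 : k = 0 := by omega
          subst hk0
          rw [hsR, hRs] at hs
          omega
        rcases q with _ | q
        · have hp2 : 2 ≤ p := by
            by_contra hp
            have hp1 : p = 0 + 1 := by omega
            have h5 := hpar hp1
            rw [hsR, hRs] at h5
            simp at h5
          obtain ⟨p, rfl⟩ : ∃ l, p = l + 2 := ⟨p - 2, by omega⟩
          have hG := hT.Gr (2 * k + 1) R.card ⟨k, rfl⟩ (by omega)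
          have hX := hT.Xp p (2 * k + 1 + R.card) (by omega)
          have hmul := hT.mul (i := p) (j := 0) (p := 2) (q := 1)
            (Multiset.replicate (2 * k + 1) (0, 1) + Multiset.replicate R.card (0, 0))
            (by
              rw [Multiset.map_add, Multiset.map_replicate, Multiset.map_replicate,
                ← Multiset.replicate_add]
              exact hX)
            (by
              rw [Multiset.map_add, Multiset.map_replicate, Multiset.map_replicate]
              exact hG)
          rw [Multiset.map_add, Multiset.map_replicate, Multiset.map_replicate] at hmul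
          rw [hRz]
          simpa using hmul
        · obtain ⟨p, rfl⟩ : ∃ l, p = l + 2 := ⟨p - 2, by omega⟩
          have hH := hT.Hr (2 * k + 1) R.card ⟨k, rfl⟩ (by omega)
          have hsum2 : (Multiset.replicate (2 * k + 1) q + Multiset.replicate R.card 0).sum =
              (2 * k + 1) * q := by
            rw [Multiset.sum_add, Multiset.sum_replicate, Multiset.sum_replicate, smul_zero,
              smul_eq_mul, add_zero]
          have hgood : Good p q (Multiset.replicate (2 * k + 1) q +
              Multiset.replicate R.card 0) := by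
            refine ⟨?_, by omega, ?_, ?_⟩
            · intro c hc
              rw [Multiset.mem_add] at hc
              rcases hc with hc | hc
              · exact (Multiset.eq_of_mem_replicate hc).le
              · have := Multiset.eq_of_mem_replicate hc
                omega
            · rw [hsum2]
              nlinarith
            · intro hpq
              rw [hsum2]
              have h5 := hpar (by omega)
              rw [hsR, hRs] at h5
              have h6 : (2 * k + 1) * (q + 1 + 1) + 0 = (2 * k + 1) * q + 2 * (2 * k + 1) := by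
                ring
              rw [h6] at h5
              exact (Nat.even_add.1 h5).2 (even_two_mul _)
          have hI := IH q (by omega) p _ (by
            intro h0
            have h1 := congrArg Multiset.card h0
            rw [Multiset.card_add, Multiset.card_replicate, Multiset.card_zero] at h1
            omega) hgood
          have hmul := hT.mul (i := p) (j := q) (p := 2) (q := 2)
            (Multiset.replicate (2 * k + 1) (q, 2) + Multiset.replicate R.card (0, 0))
            (by
              rw [Multiset.map_add, Multiset.map_replicate, Multiset.map_replicate]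
              exact hI)
            (by
              rw [Multiset.map_add, Multiset.map_replicate, Multiset.map_replicate]
              exact hH)
          rw [Multiset.map_add, Multiset.map_replicate, Multiset.map_replicate] at hmul
          rw [hRz]
          simpa using hmul

end Pool.Agent.Helper929_delta
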