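import Pool.Agent.Helper929_delta.HW
import Pool.Agent.Helper929_delta.Top

/-
The triple attached to a highest weight function is good.
-/

namespace Pool.Agent.Helper929_delta

open MvPolynomial

variable {n : ℕ}

/-- weights for functions on words in two letters: degree and number of ones in each position -/
noncomputable def W2 (w : Wd (two n)) : Option (Fin n) →₀ ℕ :=
  Finsupp.single none 1 + ∑ l, Finsupp.single (some l) (w l : ℕ)

theorem W2_none (w : Wd (two n)) : W2 w none = 1 := by
  simp [W2]

theorem W2_some (w : Wd (two n)) (l : Fin n) : W2 w (some l) = (w l : ℕ) := by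
  classical
  rw [W2, Finsupp.add_apply, Finsupp.finsetSum_apply, Finset.sum_eq_single l]
  · simp
  · intro i _ hi
    rw [Finsupp.single_apply, if_neg]
    intro h
    exact hi (Option.some_injective _ h)
  · simp

theorem W2_prod (s : Option (Fin n) → ℂ) (w : Wd (two n)) :
    ((W2 w).prod fun t k => s t ^ k) = s none * ∏ l, s (some l) ^ (w l : ℕ) := by
  rw [Finsupp.prod_fintype _ _ (by simp), Fintype.prod_option, W2_none, pow_one]
  simp only [W2_some]

theorem coeff_W2 {k : ℕ} {c : Fin n → ℕ} {θ : Polynomial ℂ} {g : Pol (two n)}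
    (hg : IsHW k c θ g) (p q : Fin n → ℂ) (y : ℂ) :
    eval (pt p q 1 y) (coeff (Finsupp.single none k + ∑ l, Finsupp.single (some l) (c l))
      (Theta W2 g)) = (∏ l, (q l - p l) ^ (c l)) * θ.eval y := by
  classical
  set lam0 : Option (Fin n) →₀ ℕ := Finsupp.single none k + ∑ l, Finsupp.single (some l) (c l)
    with hlam0
  set K : ℂ := (∏ l, (q l - p l) ^ (c l)) * θ.eval y with hK
  set Ξ : MvPolynomial (Option (Fin n)) ℂ := MvPolynomial.map (eval (pt p q 1 y)) (Theta W2 g)
    with hΞ
  have hΞe : ∀ s : Option (Fin n) → ℂ, eval s Ξ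
      = eval (pt (fun l => s (some l) * p l) (fun l => s (some l) * q l) (s none) y) g := by
    intro s
    have key : ((eval s).comp ((MvPolynomial.map (eval (pt p q 1 y))).comp
        (Theta (W2 (n := n))).toRingHom))
        = eval (pt (fun l => s (some l) * p l) (fun l => s (some l) * q l) (s none) y) := by
      apply MvPolynomial.ringHom_ext
      · intro r
        simp [Theta, MvPolynomial.algebraMap_apply]
      · intro w
        simp only [Theta, AlgHom.toRingHom_eq_coe, RingHom.coe_comp, RingHom.coe_coe,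
          Function.comp_apply, aeval_X, map_monomial, eval_X, eval_monomial, W2_prod]
        simp only [pt, mul_pow, Finset.prod_mul_distrib]
        ring
    exact congrArg (fun φ : Pol (two n) →+* ℂ => φ g) key
  have hlamprod : ∀ s : Option (Fin n) → ℂ, (lam0.prod fun t k => s t ^ k)
      = s none ^ k * ∏ l, s (some l) ^ (c l) := by
    intro s
    rw [Finsupp.prod_fintype _ _ (by simp), Fintype.prod_option]
    congr 1
    · simp [hlam0]
    · refine Finset.prod_congr rfl fun l _ => ?_
      congr 1
      rw [hlam0, Finsupp.add_apply, Finsupp.finsetSum_apply, Finset.sum_eq_single l]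
      · simp
      · intro i _ hi
        rw [Finsupp.single_apply, if_neg]
        intro h
        exact hi (Option.some_injective _ h)
      · simp
  have hzero : X none * (Ξ - monomial lam0 K) = 0 := by
    apply MvPolynomial.funext
    intro s
    rw [map_mul, map_sub, eval_X, map_zero, hΞe, eval_monomial, hlamprod]
    by_cases h0 : s none = 0
    · rw [h0, zero_mul]
    · rw [hg.2 _ _ _ _ h0, hK]
      have : ∏ l, (s (some l) * q l - s (some l) * p l) ^ c l
          = (∏ l, s (some l) ^ c l) * ∏ l, (q l - p l) ^ c l := by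
        rw [← Finset.prod_mul_distrib]
        refine Finset.prod_congr rfl fun l _ => ?_
        rw [← mul_sub, mul_pow]
      rw [this]
      ring
  have h1 : Ξ = monomial lam0 K := by
    have := (mul_eq_zero.mp hzero).resolve_left (X_ne_zero _)
    exact sub_eq_zero.mp this
  have h2 := congrArg (coeff lam0) h1
  rw [hΞ, coeff_map, coeff_monomial, if_pos rfl] at h2
  exact h2

/-- the weight component, and its binary form -/
theorem theta_dvd {k : ℕ} {c : Fin n → ℕ} {θ : Polynomial ℂ} {g : Pol (two n)}
    (hg : IsHW k c θ g) : (∀ l, Polynomial.X ^ (c l) ∣ θ) ∧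
      (Polynomial.X + 1) ^ (k - ∑ l, c l) ∣ θ := by
  classical
  set lam0 : Option (Fin n) →₀ ℕ := Finsupp.single none k + ∑ l, Finsupp.single (some l) (c l)
    with hlam0
  have hlam_none : lam0 none = k := by simp [hlam0]
  have hlam_some : ∀ l, lam0 (some l) = c l := by
    intro l
    rw [hlam0, Finsupp.add_apply, Finsupp.finsetSum_apply, Finset.sum_eq_single l]
    · simp
    · intro i _ hi
      rw [Finsupp.single_apply, if_neg]
      intro h
      exact hi (Option.some_injective _ h)
    · simp
  set g' : Pol (two n) := coeff lam0 (Theta W2 g) with hg'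
  have hhom : IsWeightedHomogeneous W2 g' lam0 := by
    rw [hg', coeff_theta]
    exact weightedHomogeneousComponent_isWeightedHomogeneous _ _
  have hθ : θ = theta1 g' := by
    apply Polynomial.funext
    intro y
    rw [eval_theta1, hg', hlam0, coeff_W2 hg]
    simp
  have hwn : ∀ d : Wd (two n) →₀ ℕ, Finsupp.weight W2 d none = ∑ w ∈ d.support, d w := by
    intro d
    rw [Finsupp.weight_apply, Finsupp.sum, Finsupp.finsetSum_apply]
    refine Finset.sum_congr rfl fun w _ => ?_
    rw [Finsupp.smul_apply, W2_none, smul_eq_mul, mul_one]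
  have hws : ∀ (d : Wd (two n) →₀ ℕ) (l : Fin n), Finsupp.weight W2 d (some l)
      = ∑ w ∈ d.support, d w * (w l : ℕ) := by
    intro d l
    rw [Finsupp.weight_apply, Finsupp.sum, Finsupp.finsetSum_apply]
    refine Finset.sum_congr rfl fun w _ => ?_
    rw [Finsupp.smul_apply, W2_some, smul_eq_mul]
  rw [hθ, theta1, g'.as_sum, map_sum]
  constructor
  · intro l
    refine Finset.dvd_sum fun d hd => ?_
    have hd' := hhom (mem_support_iff.mp hd)
    rw [aeval_monomial]
    apply Dvd.dvd.mul_left
    rw [← hlam_some l, ← hd', hws, Finsupp.prod, ← Finset.prod_pow_eq_pow_sum]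
    refine Finset.prod_dvd_prod_of_dvd _ _ fun w _ => ?_
    rcases fin2_cases (w l) with h | h
    · rw [h]; simp
    · have h0 : ∏ l, (0 : ℂ) ^ (w l : ℕ) = 0 := by
        rw [Finset.prod_eq_zero (Finset.mem_univ l)]
        rw [h]; simp
      rw [h, h0]
      simp
  · refine Finset.dvd_sum fun d hd => ?_
    have hd' := hhom (mem_support_iff.mp hd)
    rw [aeval_monomial]
    apply Dvd.dvd.mul_left
    set w0 : Wd (two n) := fun _ => (0 : Fin 2) with hw0
    have hk : k ≤ d w0 + ∑ l, c l := by
      have h1 : k = ∑ w ∈ d.support, d w := by rw [← hwn, hd', hlam_none]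
      have h2 : ∑ l, c l = ∑ w ∈ d.support, d w * ∑ l, (w l : ℕ) := by
        simp only [Finset.mul_sum]
        rw [Finset.sum_comm]
        refine Finset.sum_congr rfl fun l _ => ?_
        rw [← hws, hd', hlam_some]
      rw [h1, h2]
      have h3 : ∀ w ∈ d.support, d w ≤ (if w = w0 then d w0 else 0) + d w * ∑ l, (w l : ℕ) := by
        intro w _
        split_ifs with h
        · rw [h]; omega
        · obtain ⟨l, hl⟩ := Function.ne_iff.mp h
          have hwl : w l = (1 : Fin 2) := (fin2_cases (w l)).resolve_left hl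
          have : 1 ≤ ∑ l, (w l : ℕ) := by
            refine le_trans ?_ (Finset.single_le_sum (f := fun l => (w l : ℕ))
              (fun _ _ => Nat.zero_le _) (Finset.mem_univ l))
            rw [hwl]
            exact le_refl _
          have := Nat.mul_le_mul_left (d w) this
          omega
      calc ∑ w ∈ d.support, d w
          ≤ ∑ w ∈ d.support, ((if w = w0 then d w0 else 0) + d w * ∑ l, (w l : ℕ)) :=
            Finset.sum_le_sum h3
        _ ≤ d w0 + ∑ w ∈ d.support, d w * ∑ l, (w l : ℕ) := by
            rw [Finset.sum_add_distrib]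
            refine Nat.add_le_add_right ?_ _
            rw [Finset.sum_ite_eq']
            split_ifs <;> omega
    have hpow : (Polynomial.X + 1 : Polynomial ℂ) ^ (k - ∑ l, c l)
        ∣ (Polynomial.X + 1 : Polynomial ℂ) ^ d w0 := pow_dvd_pow _ (by omega)
    refine hpow.trans ?_
    by_cases hz : w0 ∈ d.support
    · rw [Finsupp.prod, ← Finset.mul_prod_erase _ _ hz]
      apply Dvd.dvd.mul_right
      rw [prod_zero_pow, if_pos rfl, Polynomial.C_1, add_comm]
    · rw [Finsupp.notMem_support_iff.mp hz, pow_zero]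
      exact one_dvd _

theorem theta_symm {k : ℕ} {c : Fin n → ℕ} {θ : Polynomial ℂ} {g : Pol (two n)}
    (hg : IsHW k c θ g) : θ = Polynomial.C ((-1) ^ (∑ l, c l)) * Polynomial.reflect k θ := by
  have h1 : ∀ y : ℂ, y ≠ 0 → θ.eval y = (-1) ^ (∑ l, c l) * (y ^ k * θ.eval (y⁻¹)) := by
    intro y hy
    have e1 := hg.2 1 y (fun _ => 0) (fun _ => 1) one_ne_zero
    have e2 := hg.2 y y⁻¹ (fun _ => 1) (fun _ => 0) hy
    have e3 : pt (fun _ : Fin n => (0 : ℂ)) (fun _ => 1) 1 y
        = pt (fun _ : Fin n => (1 : ℂ)) (fun _ => 0) y y⁻¹ := by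
      funext w
      simp only [pt, one_pow, Finset.prod_const_one]
      field_simp
      ring
    rw [e3, e2] at e1
    have e4 : ∏ l : Fin n, ((0 : ℂ) - 1) ^ c l = (-1) ^ (∑ l, c l) := by
      rw [← Finset.prod_pow_eq_pow_sum]
      simp
    rw [e4] at e1
    simp only [one_pow, sub_zero, Finset.prod_const_one, one_mul] at e1
    rw [← e1]
    ring
  have h2 : ∀ y : ℂ, y ≠ 0 → (Polynomial.reflect k θ).eval y = y ^ k * θ.eval (y⁻¹) := by
    intro y hy
    have hinv : Invertible (y⁻¹) := invertibleOfNonzero (inv_ne_zero hy)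
    have := Polynomial.eval₂_reflect_mul_pow (RingHom.id ℂ) (y⁻¹) k θ hg.1
    rw [Polynomial.eval₂_id, Polynomial.eval₂_id] at this
    rw [← this, invOf_eq_inv, inv_inv]
    rw [mul_comm (Polynomial.eval y _), ← mul_assoc, ← mul_pow, mul_inv_cancel₀ hy, one_pow,
      one_mul]
  have h3 : Polynomial.X * (θ - Polynomial.C ((-1) ^ (∑ l, c l)) * Polynomial.reflect k θ) = 0 := by
    apply Polynomial.funext
    intro y
    rw [Polynomial.eval_mul, Polynomial.eval_X, Polynomial.eval_sub, Polynomial.eval_mul,
      Polynomial.eval_C, Polynomial.eval_zero]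
    by_cases hy : y = 0
    · rw [hy, zero_mul]
    · rw [h2 y hy, ← h1 y hy, sub_self, mul_zero]
  exact sub_eq_zero.mp ((mul_eq_zero.mp h3).resolve_left Polynomial.X_ne_zero)

theorem sum_map_univ (c : Fin n → ℕ) : (Finset.univ.val.map c).sum = ∑ l, c l := rfl

/-- The triple attached to a highest weight function is good. -/
theorem good_of_isHW {i j : ℕ} {c : Fin n → ℕ} {θ : Polynomial ℂ} {g : Pol (two n)}
    (hg : IsHW (i + j) c θ g) (hθ : θ ≠ 0) (hj : θ.natTrailingDegree = j) :
    Good i j (Finset.univ.val.map c) := by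
  classical
  obtain ⟨h1, h2⟩ := theta_dvd hg
  have hs := theta_symm hg
  set σ : ℂ := (-1) ^ (∑ l, c l) with hσ
  have hσ0 : σ ≠ 0 := pow_ne_zero _ (by norm_num)
  have hcj : θ.coeff j ≠ 0 := by
    rw [← hj]
    exact Polynomial.coeff_natTrailingDegree_ne_zero.mpr hθ
  have hcoeff : ∀ m, m ≤ i + j → θ.coeff m = σ * θ.coeff (i + j - m) := by
    intro m hm
    conv_lhs => rw [hs]
    rw [Polynomial.coeff_C_mul, Polynomial.coeff_reflect, Polynomial.revAt_le hm]
  have hci : θ.coeff i = σ * θ.coeff j := by
    rw [hcoeff i (by omega)]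
    congr 2
    omega
  have hci0 : θ.coeff i ≠ 0 := by rw [hci]; exact mul_ne_zero hσ0 hcj
  have hji : j ≤ i := by
    rw [← hj]
    exact Polynomial.natTrailingDegree_le_of_ne_zero hci0
  have hdeg : θ.natDegree ≤ i := by
    rw [Polynomial.natDegree_le_iff_coeff_eq_zero]
    intro m hm
    by_cases hmk : m ≤ i + j
    · rw [hcoeff m hmk, Polynomial.coeff_eq_zero_of_lt_natTrailingDegree, mul_zero]
      rw [hj]
      omega
    · exact Polynomial.coeff_eq_zero_of_natDegree_lt (lt_of_le_of_lt hg.1 (by omega))
  refine ⟨?_, hji, ?_, ?_⟩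
  · intro x hx
    rw [Multiset.mem_map] at hx
    obtain ⟨l, -, rfl⟩ := hx
    rw [← hj]
    refine Polynomial.le_natTrailingDegree hθ fun m hm => ?_
    exact (Polynomial.X_pow_dvd_iff.mp (h1 l)) m hm
  · rw [sum_map_univ]
    have hX : Polynomial.X ^ j ∣ θ := by
      rw [Polynomial.X_pow_dvd_iff]
      intro m hm
      exact Polynomial.coeff_eq_zero_of_lt_natTrailingDegree (by rw [hj]; exact hm)
    have hcop : IsCoprime (Polynomial.X : Polynomial ℂ) (Polynomial.X + 1) :=
      ⟨-1, 1, by ring⟩
    have hdvd := (hcop.pow (m := j) (n := i + j - ∑ l, c l)).mul_dvd hX h2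
    have hle := Polynomial.natDegree_le_of_dvd hdvd hθ
    have hX1 : (Polynomial.X + 1 : Polynomial ℂ).natDegree = 1 := by
      rw [← Polynomial.C_1]
      exact Polynomial.natDegree_X_add_C 1
    have hX1' : (Polynomial.X + 1 : Polynomial ℂ) ≠ 0 := by
      intro h
      rw [h] at hX1
      simp at hX1
    rw [Polynomial.natDegree_mul (pow_ne_zero _ Polynomial.X_ne_zero) (pow_ne_zero _ hX1'),
      Polynomial.natDegree_X_pow, Polynomial.natDegree_pow, hX1, mul_one] at hle
    omega
  · intro hij
    rw [sum_map_univ]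
    subst hij
    have h3 : (σ - 1) * θ.coeff i = 0 := by
      rw [sub_mul, ← hci, one_mul, sub_self]
    have h4 : σ = 1 := sub_eq_zero.mp ((mul_eq_zero.mp h3).resolve_right hcj)
    exact (neg_one_pow_eq_one_iff_even (by norm_num : (-1 : ℂ) ≠ 1)).mp h4

end Pool.Agent.Helper929_delta
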