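import Pool.Agent.Helper929_delta.Two

/-
From exact highest weight vectors to highest weight functions; vanishing.
-/

namespace Pool.Agent.Helper929_delta

open MvPolynomial

variable {n : ℕ}

theorem prod_zero_pow (w : Wd (two n)) :
    ∏ l, (0 : ℂ) ^ (w l : ℕ) = if w = (fun _ => (0 : Fin 2)) then 1 else 0 := by
  classical
  split_ifs with h
  · subst h
    simp
  · obtain ⟨l, hl⟩ := Function.ne_iff.mp h
    rw [Finset.prod_eq_zero (Finset.mem_univ l)]
    have : w l = (1 : Fin 2) := (fin2_cases (w l)).resolve_left hl
    rw [this]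
    simp

/-- the one-variable polynomial attached to a function -/
noncomputable def theta1 (f : Pol (two n)) : Polynomial ℂ :=
  aeval (fun w : Wd (two n) => Polynomial.C (∏ l, (0 : ℂ) ^ (w l : ℕ)) + Polynomial.X) f

theorem eval_theta1 (f : Pol (two n)) (y : ℂ) :
    (theta1 f).eval y = eval (pt (fun _ => 0) (fun _ => 1) 1 y) f := by
  have key : ((Polynomial.evalRingHom y).comp (aeval (fun w : Wd (two n) =>
      Polynomial.C (∏ l, (0 : ℂ) ^ (w l : ℕ)) + Polynomial.X) :
        Pol (two n) →ₐ[ℂ] Polynomial ℂ).toRingHom)
      = eval (pt (fun _ => 0) (fun _ => 1) 1 y) := by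
    apply MvPolynomial.ringHom_ext
    · intro r
      simp
    · intro w
      simp only [AlgHom.toRingHom_eq_coe, RingHom.coe_comp, RingHom.coe_coe,
        Function.comp_apply, aeval_X, Polynomial.coe_evalRingHom, eval_X, pt,
        Polynomial.eval_add, Polynomial.eval_C, Polynomial.eval_X]
      simp
  exact congrArg (fun φ : Pol (two n) →+* ℂ => φ f) key

theorem degree_of_weight {f : Pol (two n)} {lam : (Σ i : Fin n, Fin (two n i)) →₀ ℕ}
    (hf : IsWeightedHomogeneous wt f lam) (l : Fin n) {d : Wd (two n) →₀ ℕ}
    (hd : coeff d f ≠ 0) : ∑ w ∈ d.support, d w = lam ⟨l, (0 : Fin 2)⟩ + lam ⟨l, (1 : Fin 2)⟩ := by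
  rw [← hf hd, weight_wt_apply, weight_wt_apply, ← Finset.sum_add_distrib]
  refine Finset.sum_congr rfl fun w _ => ?_
  rcases fin2_cases (w l) with h | h
  · rw [if_pos h, if_neg (by rw [h]; exact ne01)]; ring
  · rw [if_pos h, if_neg (by rw [h]; exact ne10)]; ring

theorem isHW_of_exact {f : Pol (two (n + 1))}
    {lam : (Σ i : Fin (n + 1), Fin (two (n + 1) i)) →₀ ℕ}
    (hf : IsWeightedHomogeneous wt f lam) (hF : ∀ l, Fop l f = 0) :
    IsHW (lam ⟨0, (0 : Fin 2)⟩ + lam ⟨0, (1 : Fin 2)⟩) (fun l => lam ⟨l, (1 : Fin 2)⟩)
      (theta1 f) f := by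
  classical
  constructor
  · rw [theta1, f.as_sum, map_sum]
    apply Polynomial.natDegree_sum_le_of_forall_le
    intro d hd
    rw [← degree_of_weight hf 0 (mem_support_iff.mp hd), aeval_monomial]
    refine (Polynomial.natDegree_mul_le).trans ?_
    rw [Polynomial.algebraMap_eq, Polynomial.natDegree_C, zero_add, Finsupp.prod]
    refine (Polynomial.natDegree_prod_le _ _).trans ?_
    refine Finset.sum_le_sum fun w _ => ?_
    refine (Polynomial.natDegree_pow_le).trans ?_
    have : (Polynomial.C (∏ l, (0 : ℂ) ^ (w l : ℕ)) + Polynomial.X : Polynomial ℂ).natDegree ≤ 1 := by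
      refine (Polynomial.natDegree_add_le _ _).trans (max_le ?_ Polynomial.natDegree_X_le)
      rw [Polynomial.natDegree_C]
      exact Nat.zero_le _
    calc d w * _ ≤ d w * 1 := Nat.mul_le_mul_left _ this
      _ = d w := mul_one _
  · intro a y p q _
    rw [eval_scale hf 0, mul_assoc]
    congr 1
    rw [eval_theta1]
    have main : ∀ S : Finset (Fin (n + 1)),
        eval (pt (fun l => if l ∈ S then p l else 0) (fun l => if l ∈ S then q l else 1) 1 y) f
          = (∏ l ∈ S, (q l - p l) ^ (lam ⟨l, (1 : Fin 2)⟩))
            * eval (pt (fun _ => 0) (fun _ => 1) 1 y) f := by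
      intro S
      induction S using Finset.induction_on with
      | empty => simp
      | insert l S hl ih =>
        rw [Finset.prod_insert hl, mul_assoc, ← ih]
        rw [← eval_pt_update hf (hF l) _ _ 1 y (p l) (q l - p l)]
        congr 2
        rw [if_neg hl, if_neg hl]
        congr 1
        · funext i
          by_cases hi : i = l
          · subst hi; simp
          · rw [Function.update_of_ne hi]
            simp [Finset.mem_insert, hi]
        · funext i
          by_cases hi : i = l
          · subst hi; simp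
          · rw [Function.update_of_ne hi]
            simp [Finset.mem_insert, hi]
    have h := main Finset.univ
    simpa using h

/-- A highest weight function with vanishing binary form vanishes on the secant variety. -/
theorem mem_secantIdeal_of_isHW {k : ℕ} {c : Fin n → ℕ} {g : Pol (two n)}
    (hg : IsHW k c 0 g) : g ∈ secantIdeal (two n) := by
  classical
  rw [secantIdeal, mem_vanishingIdeal_iff]
  rintro T ⟨u, v, rfl⟩
  rw [aeval_eq_eval]
  -- generic case
  have hgen : ∀ u v : (i : Fin n) → Fin (two n i) → ℂ,
      (∀ i, u i (0 : Fin 2) ≠ 0) → (∀ i, v i (0 : Fin 2) ≠ 0) →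
      eval (fun w => ∏ i, u i (w i) + ∏ i, v i (w i)) g = 0 := by
    intro u v hu hv
    set A := ∏ i, u i (0 : Fin 2) with hA
    set B := ∏ i, v i (0 : Fin 2) with hB
    have hA0 : A ≠ 0 := Finset.prod_ne_zero_iff.mpr fun i _ => hu i
    have hB0 : B ≠ 0 := Finset.prod_ne_zero_iff.mpr fun i _ => hv i
    have hfac : ∀ (u : (i : Fin n) → Fin (two n i) → ℂ), (∀ i, u i (0 : Fin 2) ≠ 0) →
        ∀ w : Wd (two n), ∏ i, u i (w i) = (∏ i, u i (0 : Fin 2))
          * ∏ i, (u i (1 : Fin 2) / u i (0 : Fin 2)) ^ (w i : ℕ) := by
      intro u hu w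
      rw [← Finset.prod_mul_distrib]
      refine Finset.prod_congr rfl fun i _ => ?_
      rcases fin2_cases (w i) with h | h
      · rw [h]; simp
      · rw [h]
        have := hu i
        have h1 : (((1 : Fin 2) : Fin 2) : ℕ) = 1 := rfl
        rw [h1, pow_one]
        field_simp
    have h1 : (fun w : Wd (two n) => ∏ i, u i (w i) + ∏ i, v i (w i))
        = pt (fun i => u i (1 : Fin 2) / u i (0 : Fin 2))
            (fun i => v i (1 : Fin 2) / v i (0 : Fin 2)) A (B / A) := by
      funext w
      rw [hfac u hu w, hfac v hv w, pt, ← hA, ← hB]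
      field_simp
    rw [h1, hg.2 _ _ _ _ hA0, Polynomial.eval_zero, mul_zero]
  -- density
  set G : Polynomial ℂ := aeval (fun w : Wd (two n) =>
    (∏ i, (Polynomial.C (u i (w i)) + if w i = (0 : Fin 2) then Polynomial.X else 0))
    + ∏ i, (Polynomial.C (v i (w i)) + if w i = (0 : Fin 2) then Polynomial.X else 0)) g with hG
  have hGe : ∀ z : ℂ, G.eval z = eval (fun w : Wd (two n) =>
      (∏ i, (u i (w i) + if w i = (0 : Fin 2) then z else 0))
      + ∏ i, (v i (w i) + if w i = (0 : Fin 2) then z else 0)) g := by
    intro z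
    have key : ((Polynomial.evalRingHom z).comp (aeval (fun w : Wd (two n) =>
        (∏ i, (Polynomial.C (u i (w i)) + if w i = (0 : Fin 2) then Polynomial.X else 0))
        + ∏ i, (Polynomial.C (v i (w i)) + if w i = (0 : Fin 2) then Polynomial.X else 0)) :
          Pol (two n) →ₐ[ℂ] Polynomial ℂ).toRingHom)
        = eval (fun w : Wd (two n) =>
          (∏ i, (u i (w i) + if w i = (0 : Fin 2) then z else 0))
          + ∏ i, (v i (w i) + if w i = (0 : Fin 2) then z else 0)) := by
      apply MvPolynomial.ringHom_ext
      · intro r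
        simp
      · intro w
        simp only [AlgHom.toRingHom_eq_coe, RingHom.coe_comp, RingHom.coe_coe,
          Function.comp_apply, aeval_X, Polynomial.coe_evalRingHom, eval_X,
          Polynomial.eval_add, Polynomial.eval_prod, Polynomial.eval_C]
        congr 1
        · refine Finset.prod_congr rfl fun i _ => ?_
          split_ifs <;> simp
        · refine Finset.prod_congr rfl fun i _ => ?_
          split_ifs <;> simp
    exact congrArg (fun φ : Pol (two n) →+* ℂ => φ g) key
  have hG0 : G = 0 := by
    apply Polynomial.eq_zero_of_infinite_isRoot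
    have hfin : (Set.range (fun i => - u i (0 : Fin 2)) ∪ Set.range (fun i => - v i (0 : Fin 2))).Finite :=
      (Set.finite_range _).union (Set.finite_range _)
    refine (hfin.infinite_compl).mono ?_
    intro z hz
    rw [Set.mem_compl_iff, Set.mem_union, not_or] at hz
    simp only [Set.mem_range, not_exists] at hz
    change G.eval z = 0
    rw [hGe z]
    have := hgen (fun i a => u i a + if a = (0 : Fin 2) then z else 0)
      (fun i a => v i a + if a = (0 : Fin 2) then z else 0)
      (fun i => by
        rw [if_pos rfl]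
        intro h
        exact hz.1 i (by linear_combination -h))
      (fun i => by
        rw [if_pos rfl]
        intro h
        exact hz.2 i (by linear_combination -h))
    exact this
  have h0 := hGe 0
  rw [hG0, Polynomial.eval_zero] at h0
  simpa using h0.symm

end Pool.Agent.Helper929_delta
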