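import Pool.Agent.Helper929_delta.Final

/-
Delta-ideals containing the secant ideals have level at most two (Capelli identity).
-/

namespace Pool.Agent.Helper929_delta

open MvPolynomial

theorem pderiv_comm' {σ : Type*} (i j : σ) (f : MvPolynomial σ ℂ) :
    pderiv i (pderiv j f) = pderiv j (pderiv i f) := by
  classical
  rw [← sub_eq_zero, ← Derivation.commutator_apply]
  have : ⁅(pderiv i : Derivation ℂ (MvPolynomial σ ℂ) (MvPolynomial σ ℂ)),
      (pderiv j : Derivation ℂ (MvPolynomial σ ℂ) (MvPolynomial σ ℂ))⁆ = 0 := by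
    apply MvPolynomial.derivation_ext
    intro k
    rw [Derivation.commutator_apply, Derivation.zero_apply, pderiv_X, pderiv_X]
    simp only [Pi.single_apply]
    split_ifs <;> simp
  rw [this, Derivation.zero_apply]

/-- polarization operator for two vectors -/
noncomputable def Pol2 {κ : Type*} (a b : κ) (g : MvPolynomial (Fin 2 × κ) ℂ) :
    MvPolynomial (Fin 2 × κ) ℂ :=
  X (0, a) * pderiv (0, b) g + X (1, a) * pderiv (1, b) g

set_option linter.unusedSimpArgs false in
theorem capelli {κ : Type*} (a b c : κ) (hab : a ≠ b) (hac : a ≠ c) (hbc : b ≠ c)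
    (g : MvPolynomial (Fin 2 × κ) ℂ) :
    (Pol2 a a (Pol2 b b (Pol2 c c g) + Pol2 c c g) + 2 * (Pol2 b b (Pol2 c c g) + Pol2 c c g))
    - Pol2 b a (Pol2 a b (Pol2 c c g))
    - (Pol2 a a (Pol2 c b (Pol2 b c g)) + 2 * Pol2 c b (Pol2 b c g))
    - Pol2 c a (Pol2 b b (Pol2 a c g) + Pol2 a c g)
    + Pol2 b a (Pol2 c b (Pol2 a c g))
    + Pol2 c a (Pol2 a b (Pol2 b c g)) = 0 := by
  classical
  have e1 : ∀ s t : Fin 2, pderiv (s, a) (X (t, b) : MvPolynomial (Fin 2 × κ) ℂ) = 0 := fun s t =>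
    pderiv_X_of_ne (by simp [hab.symm])
  have e2 : ∀ s t : Fin 2, pderiv (s, a) (X (t, c) : MvPolynomial (Fin 2 × κ) ℂ) = 0 := fun s t =>
    pderiv_X_of_ne (by simp [hac.symm])
  have e3 : ∀ s t : Fin 2, pderiv (s, b) (X (t, a) : MvPolynomial (Fin 2 × κ) ℂ) = 0 := fun s t =>
    pderiv_X_of_ne (by simp [hab])
  have e4 : ∀ s t : Fin 2, pderiv (s, b) (X (t, c) : MvPolynomial (Fin 2 × κ) ℂ) = 0 := fun s t =>
    pderiv_X_of_ne (by simp [hbc.symm])
  have e5 : ∀ s t : Fin 2, pderiv (s, c) (X (t, a) : MvPolynomial (Fin 2 × κ) ℂ) = 0 := fun s t =>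
    pderiv_X_of_ne (by simp [hac])
  have e6 : ∀ s t : Fin 2, pderiv (s, c) (X (t, b) : MvPolynomial (Fin 2 × κ) ℂ) = 0 := fun s t =>
    pderiv_X_of_ne (by simp [hbc])
  have e7 : ∀ (z : κ), pderiv ((0 : Fin 2), z) (X (0, z) : MvPolynomial (Fin 2 × κ) ℂ) = 1 :=
    fun z => pderiv_X_self _
  have e8 : ∀ (z : κ), pderiv ((1 : Fin 2), z) (X (1, z) : MvPolynomial (Fin 2 × κ) ℂ) = 1 :=
    fun z => pderiv_X_self _
  have e9 : ∀ (z : κ), pderiv ((0 : Fin 2), z) (X (1, z) : MvPolynomial (Fin 2 × κ) ℂ) = 0 :=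
    fun z => pderiv_X_of_ne (by simp)
  have e10 : ∀ (z : κ), pderiv ((1 : Fin 2), z) (X (0, z) : MvPolynomial (Fin 2 × κ) ℂ) = 0 :=
    fun z => pderiv_X_of_ne (by simp)
  have c1 := fun g : MvPolynomial (Fin 2 × κ) ℂ => pderiv_comm' (0, b) (0, a) g
  have c2 := fun g : MvPolynomial (Fin 2 × κ) ℂ => pderiv_comm' (0, c) (0, a) g
  have c3 := fun g : MvPolynomial (Fin 2 × κ) ℂ => pderiv_comm' (1, a) (0, a) g
  have c4 := fun g : MvPolynomial (Fin 2 × κ) ℂ => pderiv_comm' (1, b) (0, a) g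
  have c5 := fun g : MvPolynomial (Fin 2 × κ) ℂ => pderiv_comm' (1, c) (0, a) g
  have c6 := fun g : MvPolynomial (Fin 2 × κ) ℂ => pderiv_comm' (0, c) (0, b) g
  have c7 := fun g : MvPolynomial (Fin 2 × κ) ℂ => pderiv_comm' (1, a) (0, b) g
  have c8 := fun g : MvPolynomial (Fin 2 × κ) ℂ => pderiv_comm' (1, b) (0, b) g
  have c9 := fun g : MvPolynomial (Fin 2 × κ) ℂ => pderiv_comm' (1, c) (0, b) g
  have c10 := fun g : MvPolynomial (Fin 2 × κ) ℂ => pderiv_comm' (1, a) (0, c) g
  have c11 := fun g : MvPolynomial (Fin 2 × κ) ℂ => pderiv_comm' (1, b) (0, c) g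
  have c12 := fun g : MvPolynomial (Fin 2 × κ) ℂ => pderiv_comm' (1, c) (0, c) g
  have c13 := fun g : MvPolynomial (Fin 2 × κ) ℂ => pderiv_comm' (1, b) (1, a) g
  have c14 := fun g : MvPolynomial (Fin 2 × κ) ℂ => pderiv_comm' (1, c) (1, a) g
  have c15 := fun g : MvPolynomial (Fin 2 × κ) ℂ => pderiv_comm' (1, c) (1, b) g
  simp only [Pol2, map_add, pderiv_mul, e1, e2, e3, e4, e5, e6, e7, e8, e9, e10, zero_mul,
    one_mul, zero_add, add_zero, c1, c2, c3, c4, c5, c6, c7, c8, c9, c10, c11, c12, c13, c14, c15]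
  ring

theorem Pol2_C {κ : Type*} (a b : κ) (r : ℂ) : Pol2 a b (C r) = 0 := by
  simp [Pol2]

theorem Pol2_add {κ : Type*} (a b : κ) (g h : MvPolynomial (Fin 2 × κ) ℂ) :
    Pol2 a b (g + h) = Pol2 a b g + Pol2 a b h := by
  simp only [Pol2, map_add]
  ring

theorem Pol2_mul {κ : Type*} (a b : κ) (g h : MvPolynomial (Fin 2 × κ) ℂ) :
    Pol2 a b (g * h) = g * Pol2 a b h + h * Pol2 a b g := by
  simp only [Pol2, pderiv_mul]
  ring

variable {n : ℕ} {m : Fin n → ℕ}

theorem D_diag (l : Fin n) (a : Fin (m l)) {f : Pol m} {lam : (Σ i, Fin (m i)) →₀ ℕ}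
    (hf : IsWeightedHomogeneous wt f lam) : D l a a f = (lam ⟨l, a⟩ : ℂ) • f := by
  classical
  conv_lhs => rw [f.as_sum]
  conv_rhs => rw [f.as_sum]
  rw [map_sum, Finset.smul_sum]
  refine Finset.sum_congr rfl fun d hd => ?_
  have hlam := hf (mem_support_iff.mp hd)
  rw [D, mkDerivation_monomial, ← hlam, weight_wt_apply, Finsupp.sum]
  push_cast
  rw [smul_monomial, Finset.smul_sum]
  rw [smul_eq_mul, Finset.sum_mul, map_sum]
  refine Finset.sum_congr rfl fun w hw => ?_
  have hdw : d w ≠ 0 := Finsupp.mem_support_iff.mp hw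
  have h1 : d - Finsupp.single w 1 + Finsupp.single w 1 = d := by
    ext x
    simp only [Finsupp.add_apply, Finsupp.tsub_apply, Finsupp.single_apply]
    split_ifs with hx
    · subst hx; omega
    · simp
  have h2 : (monomial (d - Finsupp.single w 1)) ((d w : ℕ) : ℂ) * (X w : Pol m)
      = monomial d ((d w : ℕ) : ℂ) := by
    rw [X, monomial_mul, h1, mul_one]
  by_cases h : w l = a
  · rw [if_pos h, if_pos h]
    have h3 : Function.update w l a = w := by rw [← h, Function.update_eq_self]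
    rw [h3, smul_eq_mul, h2, smul_monomial]
    congr 1
    simp [mul_comm]
  · rw [if_neg h, if_neg h]
    simp

/-- evaluation of all factors but the `l`-th at two points -/
noncomputable def epsl (l : Fin n) (u v : (i : Fin n) → Fin (m i) → ℂ) :
    Pol m →ₐ[ℂ] MvPolynomial (Fin 2 × Fin (m l)) ℂ :=
  aeval (fun w : Wd m => C (∏ i ∈ Finset.univ.erase l, u i (w i)) * X (0, w l)
    + C (∏ i ∈ Finset.univ.erase l, v i (w i)) * X (1, w l))

theorem epsl_D (l : Fin n) (u v : (i : Fin n) → Fin (m i) → ℂ) (a b : Fin (m l)) (f : Pol m) :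
    epsl l u v (D l a b f) = Pol2 a b (epsl l u v f) := by
  classical
  induction f using MvPolynomial.induction_on with
  | C r =>
    rw [MvPolynomial.derivation_C, map_zero, epsl, algHom_C, MvPolynomial.algebraMap_eq, Pol2_C]
  | add p q hp hq => rw [map_add, map_add, map_add, Pol2_add, hp, hq]
  | mul_X p w hp =>
    rw [Derivation.leibniz, map_add, smul_eq_mul, smul_eq_mul, map_mul, map_mul, map_mul, hp,
      Pol2_mul]
    congr 2
    rw [D, mkDerivation_X]
    by_cases h : w l = b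
    · rw [if_pos h]
      have h1 : ∀ u : (i : Fin n) → Fin (m i) → ℂ,
          ∏ i ∈ Finset.univ.erase l, u i (Function.update w l a i)
          = ∏ i ∈ Finset.univ.erase l, u i (w i) := by
        intro u
        refine Finset.prod_congr rfl fun i hi => ?_
        rw [Function.update_of_ne (Finset.ne_of_mem_erase hi)]
      simp only [epsl, aeval_X, h1, Function.update_self, Pol2, map_add, pderiv_C_mul, h]
      rw [pderiv_X_self, pderiv_X_self, pderiv_X_of_ne (by simp), pderiv_X_of_ne (by simp)]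
      ring
    · rw [if_neg h, map_zero]
      simp only [epsl, aeval_X, Pol2, map_add, pderiv_C_mul]
      rw [pderiv_X_of_ne (by simp [h]), pderiv_X_of_ne (by simp), pderiv_X_of_ne (by simp),
        pderiv_X_of_ne (by simp [h])]
      ring

theorem eval_epsl (l : Fin n) (u v : (i : Fin n) → Fin (m i) → ℂ) (f : Pol m) :
    eval (fun z : Fin 2 × Fin (m l) => if z.1 = 0 then u l z.2 else v l z.2) (epsl l u v f)
      = eval (fun w => ∏ i, u i (w i) + ∏ i, v i (w i)) f := by
  classical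
  have key : ((eval (fun z : Fin 2 × Fin (m l) => if z.1 = 0 then u l z.2 else v l z.2)).comp
      (epsl l u v).toRingHom) = eval (fun w => ∏ i, u i (w i) + ∏ i, v i (w i)) := by
    apply MvPolynomial.ringHom_ext
    · intro r
      simp [epsl]
    · intro w
      simp only [epsl, AlgHom.toRingHom_eq_coe, RingHom.coe_comp, RingHom.coe_coe,
        Function.comp_apply, aeval_X, map_add, map_mul, eval_C, eval_X, if_true]
      rw [if_neg (by decide : ¬ ((1 : Fin 2) = 0)), Finset.prod_erase_mul _ _ (Finset.mem_univ l),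
        Finset.prod_erase_mul _ _ (Finset.mem_univ l)]
  exact congrArg (fun φ : Pol m →+* ℂ => φ f) key

/-- the Capelli operator on polynomials -/
noncomputable def Cap (l : Fin n) (a b c : Fin (m l)) (f : Pol m) : Pol m :=
    (D l a a (D l b b (D l c c f) + D l c c f) + 2 * (D l b b (D l c c f) + D l c c f))
    - D l b a (D l a b (D l c c f))
    - (D l a a (D l c b (D l b c f)) + 2 * D l c b (D l b c f))
    - D l c a (D l b b (D l a c f) + D l a c f)
    + D l b a (D l c b (D l a c f))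
    + D l c a (D l a b (D l b c f))

theorem Cap_mem_secant (l : Fin n) {a b c : Fin (m l)} (hab : a ≠ b) (hac : a ≠ c) (hbc : b ≠ c)
    (f : Pol m) : Cap l a b c f ∈ secantIdeal m := by
  rw [secantIdeal, mem_vanishingIdeal_iff]
  rintro T ⟨u, v, rfl⟩
  rw [aeval_eq_eval]
  rw [← eval_epsl l u v]
  have h := capelli a b c hab hac hbc (epsl l u v f)
  simp only [← epsl_D, ← map_add] at h
  have h2 : epsl l u v (Cap l a b c f) = 0 := by
    rw [← h, Cap]
    simp only [map_add, map_sub, map_mul, map_ofNat, epsl_D]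
  rw [h2, map_zero]

theorem Stable.D_mem' {I : Ideal (Pol m)} (hI : Stable I) (l : Fin n) (a b : Fin (m l))
    {f : Pol m} (hf : f ∈ I) : D l a b f ∈ I := by
  classical
  by_cases hab : a = b
  · subst hab
    -- the diagonal operator is a linear combination of weight components
    have h1 : D l a a f = ∑ lam ∈ (f.support.image (Finsupp.weight wt)),
        D l a a (weightedHomogeneousComponent wt lam f) := by
      rw [← map_sum]
      congr 1
      ext d
      rw [coeff_sum]
      simp only [coeff_weightedHomogeneousComponent]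
      rw [Finset.sum_ite_eq]
      split_ifs with h
      · rfl
      · by_contra hne
        exact h (Finset.mem_image_of_mem _ (mem_support_iff.mpr hne))
    rw [h1]
    refine I.sum_mem fun lam _ => ?_
    rw [D_diag l a (weightedHomogeneousComponent_isWeightedHomogeneous lam f)]
    exact smul_mem' I _ (hI.component_mem lam hf)
  · exact hI.D_mem l hab hf

/-- A Delta-ideal containing the secant ideals has level at most two. -/
theorem level_of_secant (J : DeltaIdeal)
    (hsec : ∀ {n : ℕ} (m : Fin (n + 1) → ℕ), secantIdeal m ≤ J.I m) : J.LevelLE 2 := by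
  intro n m lam f hhom hD hex
  obtain ⟨l, c, hc, hlam⟩ := hex
  have hml : 2 < m l := lt_of_le_of_lt hc c.2
  set a : Fin (m l) := ⟨0, by omega⟩ with ha
  set b : Fin (m l) := ⟨1, by omega⟩ with hb
  have hab : a < b := by rw [ha, hb, Fin.lt_def]; norm_num
  have hac : a < c := by rw [ha, Fin.lt_def]; exact (by omega : 0 < (c : ℕ))
  have hbc : b < c := by rw [hb, Fin.lt_def]; exact (by omega : 1 < (c : ℕ))
  have hst : Stable (J.I m) := fun A f hf => J.lin _ _ A f hf
  have h1 := hsec m (Cap_mem_secant l hab.ne hac.ne hbc.ne f)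
  have hcc := D_diag l c hhom
  have hbb := D_diag l b hhom
  have haa := D_diag l a hhom
  have h2 : D l b a (D l a b (D l c c f)) ∈ J.I m := by
    rw [hcc, Derivation.map_smul]
    exact hst.D_mem' l _ _ (smul_mem' _ _ (hD l a b hab))
  have h3 : D l a a (D l c b (D l b c f)) + 2 * D l c b (D l b c f) ∈ J.I m :=
    (J.I m).add_mem (hst.D_mem' l _ _ (hst.D_mem' l _ _ (hD l b c hbc)))
      ((J.I m).mul_mem_left _ (hst.D_mem' l _ _ (hD l b c hbc)))
  have h4 : D l c a (D l b b (D l a c f) + D l a c f) ∈ J.I m :=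
    hst.D_mem' l _ _ ((J.I m).add_mem (hst.D_mem' l _ _ (hD l a c hac)) (hD l a c hac))
  have h5 : D l b a (D l c b (D l a c f)) ∈ J.I m :=
    hst.D_mem' l _ _ (hst.D_mem' l _ _ (hD l a c hac))
  have h6 : D l c a (D l a b (D l b c f)) ∈ J.I m :=
    hst.D_mem' l _ _ (hst.D_mem' l _ _ (hD l b c hbc))
  have h7 : (D l a a (D l b b (D l c c f) + D l c c f) + 2 * (D l b b (D l c c f) + D l c c f))
      ∈ J.I m := by
    have : (D l a a (D l b b (D l c c f) + D l c c f) + 2 * (D l b b (D l c c f) + D l c c f))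
        = Cap l a b c f + D l b a (D l a b (D l c c f))
          + (D l a a (D l c b (D l b c f)) + 2 * D l c b (D l b c f))
          + D l c a (D l b b (D l a c f) + D l a c f)
          - D l b a (D l c b (D l a c f))
          - D l c a (D l a b (D l b c f)) := by
      rw [Cap]
      ring
    rw [this]
    exact (J.I m).sub_mem ((J.I m).sub_mem ((J.I m).add_mem ((J.I m).add_mem
      ((J.I m).add_mem h1 h2) h3) h4) h5) h6
  have h8 : (D l a a (D l b b (D l c c f) + D l c c f) + 2 * (D l b b (D l c c f) + D l c c f))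
      = (((lam ⟨l, a⟩ : ℂ) + 2) * ((lam ⟨l, b⟩ : ℂ) + 1) * (lam ⟨l, c⟩ : ℂ)) • f := by
    have e1 : D l b b (D l c c f) + D l c c f
        = (((lam ⟨l, b⟩ : ℂ) + 1) * (lam ⟨l, c⟩ : ℂ)) • f := by
      rw [hcc, Derivation.map_smul, hbb, smul_smul, ← add_smul]
      congr 1
      ring
    rw [e1, Derivation.map_smul, haa, smul_smul]
    have e2 : ∀ x : ℂ, (2 : Pol m) * (x • f) = (2 * x) • f := by
      intro x
      rw [← smul_smul, ofNat_smul_eq_nsmul, two_mul, two_nsmul]
    rw [e2, ← add_smul]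
    congr 1
    ring
  rw [h8] at h7
  have hne : (((lam ⟨l, a⟩ : ℂ) + 2) * ((lam ⟨l, b⟩ : ℂ) + 1) * (lam ⟨l, c⟩ : ℂ)) ≠ 0 := by
    refine mul_ne_zero (mul_ne_zero ?_ ?_) ?_
    · exact_mod_cast (by omega : lam ⟨l, a⟩ + 2 ≠ 0)
    · exact_mod_cast (by omega : lam ⟨l, b⟩ + 1 ≠ 0)
    · exact_mod_cast hlam
  have h9 := smul_mem' _ (((lam ⟨l, a⟩ : ℂ) + 2) * ((lam ⟨l, b⟩ : ℂ) + 1) * (lam ⟨l, c⟩ : ℂ))⁻¹ h7
  rwa [smul_smul, inv_mul_cancel₀ hne, one_smul] at h9

end Pool.Agent.Helper929_delta
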