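import Pool.Agent.Helper929_delta.Pair

/-
The set of triples attached to a family of ideals, and its closure properties.
-/

namespace Pool.Agent.Helper929_delta

open MvPolynomial

/-- families of ideals in the rings for factors of dimension two, with the closure properties of
Delta-ideals -/
structure Fam where
  /-- the ideals -/
  J : ∀ n : ℕ, Ideal (Pol (two (n + 1)))
  stable : ∀ n, Stable (J n)
  perm : ∀ (n : ℕ) (σ : Equiv.Perm (Fin (n + 1))) (f : Pol (two (n + 1))), f ∈ J n →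
    rename (fun (w : Wd (two (n + 1))) (i : Fin (n + 1)) => w (σ i)) f ∈ J n
  zero : ∀ (n : ℕ) (f : Pol (two (n + 1))), f ∈ J n →
    rename (fun (w : Wd (two (n + 1))) => (Fin.cons (α := fun _ => Fin 2) 0 w : Wd (two (n + 2)))) f
      ∈ J (n + 1)
  ins : ∀ (n : ℕ) (f : Pol (two (n + 1))), f ∈ J n → ∀ y : Fin 2 × Fin 2 → ℂ,
    aeval (fun w : Wd (two (n + 1)) => ∑ u : Fin 2 × Fin 2, C (y u) * X (cons2 u w)) f ∈ J (n + 2)

/-- the triples attached to a family -/
def SS (J : ∀ n : ℕ, Ideal (Pol (two (n + 1)))) (i j : ℕ) (m : Multiset ℕ) : Prop :=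
  ∃ (n : ℕ) (c : Fin (n + 1) → ℕ) (θ : Polynomial ℂ) (g : Pol (two (n + 1))),
    g ∈ J n ∧ IsHW (i + j) c θ g ∧ θ ≠ 0 ∧ θ.natTrailingDegree = j ∧ Finset.univ.val.map c = m

theorem isHW_perm {n k : ℕ} {c : Fin n → ℕ} {θ : Polynomial ℂ} {g : Pol (two n)}
    (hg : IsHW k c θ g) (σ : Equiv.Perm (Fin n)) :
    IsHW k (fun i => c (σ i)) θ (rename (fun (w : Wd (two n)) (i : Fin n) => w (σ i)) g) := by
  refine ⟨hg.1, fun a y p q ha => ?_⟩
  rw [eval_rename]
  have h1 : (pt p q a y ∘ fun (w : Wd (two n)) (i : Fin n) => w (σ i))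
      = pt (fun i => p (σ.symm i)) (fun i => q (σ.symm i)) a y := by
    funext w
    simp only [Function.comp_apply, pt]
    congr 2
    · rw [← Equiv.prod_comp σ (fun l => p (σ.symm l) ^ ((w l : Fin 2) : ℕ))]
      simp
    · rw [← Equiv.prod_comp σ (fun l => q (σ.symm l) ^ ((w l : Fin 2) : ℕ))]
      simp
  rw [h1, hg.2 _ _ _ _ ha]
  congr 2
  rw [← Equiv.prod_comp σ]
  simp

theorem isHW_zero {n k : ℕ} {c : Fin n → ℕ} {θ : Polynomial ℂ} {g : Pol (two n)}
    (hg : IsHW k c θ g) :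
    IsHW (n := n + 1) k (Fin.cons (α := fun _ => ℕ) 0 c) θ
      (rename (fun (w : Wd (two n)) => (Fin.cons (α := fun _ => Fin 2) 0 w : Wd (two (n + 1)))) g) := by
  refine ⟨hg.1, fun a y p q ha => ?_⟩
  rw [eval_rename]
  have h1 : (pt p q a y ∘ fun (w : Wd (two n)) =>
      (Fin.cons (α := fun _ => Fin 2) 0 w : Wd (two (n + 1))))
      = pt (fun i => p i.succ) (fun i => q i.succ) a y := by
    funext w
    simp only [Function.comp_apply, pt]
    rw [Fin.prod_univ_succ, Fin.prod_univ_succ]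
    simp
  rw [h1, hg.2 _ _ _ _ ha]
  congr 2
  rw [Fin.prod_univ_succ]
  simp

theorem isHW_mul {n k k' : ℕ} {c c' : Fin n → ℕ} {θ θ' : Polynomial ℂ} {g g' : Pol (two n)}
    (hg : IsHW k c θ g) (hg' : IsHW k' c' θ' g') :
    IsHW (k + k') (fun l => c l + c' l) (θ * θ') (g * g') := by
  refine ⟨Polynomial.natDegree_mul_le.trans (Nat.add_le_add hg.1 hg'.1), fun a y p q ha => ?_⟩
  rw [map_mul, hg.2 _ _ _ _ ha, hg'.2 _ _ _ _ ha, Polynomial.eval_mul]
  simp only [pow_add, Finset.prod_mul_distrib]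
  ring

theorem isHW_sub {n k : ℕ} {c : Fin n → ℕ} {θ θ' : Polynomial ℂ} {g g' : Pol (two n)}
    (hg : IsHW k c θ g) (hg' : IsHW k c θ' g') (t : ℂ) :
    IsHW k c (θ - Polynomial.C t * θ') (g - C t * g') := by
  refine ⟨?_, fun a y p q ha => ?_⟩
  · refine (Polynomial.natDegree_sub_le _ _).trans (max_le hg.1 ?_)
    exact (Polynomial.natDegree_C_mul_le _ _).trans hg'.1
  · rw [map_sub, map_mul, hg.2 _ _ _ _ ha, hg'.2 _ _ _ _ ha, eval_C, Polynomial.eval_sub,
      Polynomial.eval_mul, Polynomial.eval_C]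
    ring

theorem map_cons_univ {n : ℕ} {α : Type*} (a : α) (c : Fin n → α) :
    Finset.univ.val.map (Fin.cons (α := fun _ => α) a c : Fin (n + 1) → α)
      = a ::ₘ Finset.univ.val.map c := by
  rw [Fin.univ_val_map, Fin.univ_val_map, List.ofFn_cons]
  rfl

theorem SS_zero (Φ : Fam) {i j : ℕ} {m : Multiset ℕ} (h : SS Φ.J i j m) : SS Φ.J i j (0 ::ₘ m) := by
  obtain ⟨n, c, θ, g, hg, hHW, hθ, hj, rfl⟩ := h
  refine ⟨n + 1, Fin.cons (α := fun _ => ℕ) 0 c, θ, _, Φ.zero n g hg, isHW_zero hHW, hθ, hj, ?_⟩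
  rw [map_cons_univ]

theorem SS_pair (Φ : Fam) {i j a : ℕ} {m : Multiset ℕ} (h : SS Φ.J i j m) (ha : a ≤ j) :
    SS Φ.J i j (a ::ₘ a ::ₘ m) := by
  obtain ⟨n, c, θ, g, hg, hHW, hθ, hj, rfl⟩ := h
  have hgood := good_of_isHW hHW hθ hj
  obtain ⟨h1, h2⟩ := pairTheta_order (i := i) hθ hj hgood.2.1 ha
  refine ⟨n + 2, _, _, _, Oop_mem (fun y => Φ.ins n g hg y) a, isHW_Oop hHW a, h1, h2, ?_⟩
  rw [map_cons_univ, map_cons_univ]

/-- two functions with the same multiset of values differ by a permutation -/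
theorem exists_perm {n : ℕ} (f g : Fin n → ℕ)
    (h : Finset.univ.val.map f = Finset.univ.val.map g) :
    ∃ σ : Equiv.Perm (Fin n), f = fun i => g (σ i) := by
  rw [Fin.univ_val_map, Fin.univ_val_map, Multiset.coe_eq_coe] at h
  have h1 : f ∘ Tuple.sort f = g ∘ Tuple.sort g :=
    List.ofFn_injective <| ((((Tuple.sort f).ofFn_comp_perm f).trans h).trans
      ((Tuple.sort g).ofFn_comp_perm g).symm).eq_of_pairwise'
      (Tuple.monotone_sort f).sortedLE_ofFn.pairwise (Tuple.monotone_sort g).sortedLE_ofFn.pairwise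
  refine ⟨(Tuple.sort f).symm.trans (Tuple.sort g), ?_⟩
  funext i
  have := congrFun h1 ((Tuple.sort f).symm i)
  simpa using this

theorem SS_mul (Φ : Fam) {i j p q : ℕ} (M : Multiset (ℕ × ℕ)) (h1 : SS Φ.J i j (M.map Prod.fst))
    (h2 : SS (fun _ => ⊤) p q (M.map Prod.snd)) :
    SS Φ.J (i + p) (j + q) (M.map (fun x => x.1 + x.2)) := by
  obtain ⟨n, c, θ, g, hg, hHW, hθ, hj, hc⟩ := h1
  obtain ⟨n', c', θ', g', -, hHW', hθ', hj', hc'⟩ := h2
  have hn : n + 1 = Multiset.card M := by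
    have := congrArg Multiset.card hc
    simpa using this
  have hn' : n' + 1 = Multiset.card M := by
    have := congrArg Multiset.card hc'
    simpa using this
  obtain rfl : n = n' := by omega
  obtain ⟨μ, hμ⟩ : ∃ μ : Fin (n + 1) → ℕ × ℕ, Finset.univ.val.map μ = M := by
    obtain ⟨L, rfl⟩ := Quot.exists_rep M
    have hL : n + 1 = L.length := hn
    refine ⟨fun i => L.get (Fin.cast hL i), ?_⟩
    rw [Fin.univ_val_map]
    change ((List.ofFn _ : List (ℕ × ℕ)) : Multiset (ℕ × ℕ)) = (L : Multiset (ℕ × ℕ))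
    congr 1
    apply List.ext_getElem
    · simp [hL]
    · intro i h1 h2
      rw [List.getElem_ofFn]
      rfl
  subst hμ
  rw [Multiset.map_map] at hc hc'
  obtain ⟨σ, hσ⟩ := exists_perm (Prod.fst ∘ μ) c hc.symm
  obtain ⟨σ', hσ'⟩ := exists_perm (Prod.snd ∘ μ) c' hc'.symm
  have h3 := isHW_mul (isHW_perm hHW σ) (isHW_perm hHW' σ')
  rw [show i + j + (p + q) = i + p + (j + q) by ring] at h3
  refine ⟨n, _, _, _, (Φ.J n).mul_mem_right _ (Φ.perm n σ g hg), h3, mul_ne_zero hθ hθ', ?_, ?_⟩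
  · rw [Polynomial.natTrailingDegree_mul hθ hθ', hj, hj']
  · rw [Multiset.map_map]
    congr 1
    funext l
    have h4 := congrFun hσ l
    have h5 := congrFun hσ' l
    simp only [Function.comp_apply] at h4 h5 ⊢
    rw [h4, h5]

end Pool.Agent.Helper929_delta
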