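import Pool.Agent.Helper929_delta.Basic
import Pool.Agent.Helper929_delta.Coef

/-
Operators: single-factor linear maps, one-parameter unipotent subgroups, tori.
-/

namespace Pool.Agent.Helper929_delta

open MvPolynomial

section general

variable {n : ℕ} {m : Fin n → ℕ}

theorem mapLin_update_X (l : Fin n) (B : Matrix (Fin (m l)) (Fin (m l)) ℂ) (w : Wd m) :
    mapLin (Function.update (fun i => (1 : Matrix (Fin (m i)) (Fin (m i)) ℂ)) l B) (X w : Pol m)
      = ∑ c, C (B c (w l)) * X (Function.update w l c) := by
  classical
  rw [mapLin, aeval_X]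
  rw [← Finset.sum_subset (Finset.subset_univ (Finset.univ.image (fun c => Function.update w l c)))]
  · rw [Finset.sum_image (fun x _ y _ h => Function.update_injective w l h)]
    refine Finset.sum_congr rfl fun c _ => ?_
    congr 2
    rw [Finset.prod_eq_single l]
    · simp
    · intro i _ hi
      rw [Function.update_of_ne hi, Function.update_of_ne hi]
      simp
    · simp
  · intro w' _ hw'
    have : ∃ i, i ≠ l ∧ w' i ≠ w i := by
      by_contra hcon
      push Not at hcon
      apply hw'
      rw [Finset.mem_image]
      refine ⟨w' l, Finset.mem_univ _, ?_⟩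
      funext i
      by_cases hi : i = l
      · subst hi; simp
      · rw [Function.update_of_ne hi, hcon i hi]
    obtain ⟨i, hi, hne⟩ := this
    rw [Finset.prod_eq_zero (Finset.mem_univ i), C_0, zero_mul]
    rw [Function.update_of_ne hi, Matrix.one_apply_ne hne]

/-- the one-parameter unipotent family, as a polynomial in the parameter -/
noncomputable def Uni (l : Fin n) (a b : Fin (m l)) : Pol m →ₐ[ℂ] Polynomial (Pol m) :=
  aeval (fun w : Wd m => Polynomial.C (X w) +
    (if w l = b then Polynomial.X * Polynomial.C (X (Function.update w l a)) else 0))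

theorem eval_uni (l : Fin n) {a b : Fin (m l)} (s : ℂ) (f : Pol m) :
    (Uni l a b f).eval (algebraMap ℂ (Pol m) s)
      = mapLin (Function.update (fun i => (1 : Matrix (Fin (m i)) (Fin (m i)) ℂ)) l
          (1 + Matrix.single a b s)) f := by
  classical
  have key : ((Polynomial.evalRingHom (algebraMap ℂ (Pol m) s)).comp (Uni l a b).toRingHom)
      = (mapLin (Function.update (fun i => (1 : Matrix (Fin (m i)) (Fin (m i)) ℂ)) l
          (1 + Matrix.single a b s)) : Pol m →ₐ[ℂ] Pol m).toRingHom := by
    apply MvPolynomial.ringHom_ext
    · intro r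
      simp [Uni, mapLin, MvPolynomial.algebraMap_eq]
    · intro w
      simp only [AlgHom.toRingHom_eq_coe, RingHom.coe_comp, RingHom.coe_coe, Function.comp_apply]
      rw [mapLin_update_X]
      simp only [Uni, aeval_X, map_add, Polynomial.coe_evalRingHom, Polynomial.eval_C,
        Matrix.add_apply, add_mul, Finset.sum_add_distrib]
      congr 1
      · rw [Finset.sum_eq_single (w l)]
        · simp
        · intro c _ hc
          rw [Matrix.one_apply_ne hc, C_0, zero_mul]
        · simp
      · split_ifs with h
        · rw [Finset.sum_eq_single a]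
          · simp only [h, MvPolynomial.algebraMap_eq, Polynomial.eval_mul, Polynomial.eval_X,
              Polynomial.eval_C, Matrix.single_apply_same]
          · intro c _ hc
            rw [Matrix.single_apply_of_row_ne (Ne.symm hc), C_0, zero_mul]
          · simp
        · rw [Finset.sum_eq_zero]
          · simp
          · intro c _
            rw [Matrix.single_apply_of_col_ne _ _ (Ne.symm h), C_0, zero_mul]
  exact congrArg (fun φ : Pol m →+* Pol m => φ f) key

theorem derivative_uni (l : Fin n) {a b : Fin (m l)} (hab : a ≠ b) (f : Pol m) :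
    Polynomial.derivative (Uni l a b f) = Uni l a b (D l a b f) := by
  induction f using MvPolynomial.induction_on with
  | C r => 
    rw [MvPolynomial.derivation_C]
    simp [Uni, MvPolynomial.algebraMap_eq]
  | add p q hp hq => simp [hp, hq]
  | mul_X p w hp =>
    rw [Derivation.leibniz, map_mul, Polynomial.derivative_mul, hp, map_add, smul_eq_mul,
      smul_eq_mul, map_mul, map_mul, D, mkDerivation_X]
    have h1 : Polynomial.derivative (Uni l a b (X w))
        = Uni l a b (if w l = b then X (Function.update w l a) else 0) := by
      split_ifs with h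
      · simp [Uni, h, hab]
      · simp [Uni, h]
    rw [h1]
    ring

theorem coeff_zero_uni (l : Fin n) {a b : Fin (m l)} (f : Pol m) :
    (Uni l a b f).coeff 0 = f := by
  have key : ((Polynomial.constantCoeff).comp (Uni l a b).toRingHom) = RingHom.id (Pol m) := by
    apply MvPolynomial.ringHom_ext
    · intro r
      simp [Uni, MvPolynomial.algebraMap_eq]
    · intro w
      simp only [Uni, AlgHom.toRingHom_eq_coe, RingHom.coe_comp, RingHom.coe_coe,
        Function.comp_apply, aeval_X, map_add, Polynomial.constantCoeff_apply,
        Polynomial.coeff_C_zero, RingHom.id_apply]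
      split_ifs <;> simp
  exact congrArg (fun φ : Pol m →+* Pol m => φ f) key

theorem coeff_one_uni (l : Fin n) {a b : Fin (m l)} (hab : a ≠ b) (f : Pol m) :
    (Uni l a b f).coeff 1 = D l a b f := by
  have h := congrArg (fun p => Polynomial.coeff p 0) (derivative_uni l hab f)
  simp only [Polynomial.coeff_derivative, coeff_zero_uni] at h
  simpa using h

theorem uni_eq_C_of_D_eq_zero (l : Fin n) {a b : Fin (m l)} (hab : a ≠ b) {f : Pol m}
    (hf : D l a b f = 0) : Uni l a b f = Polynomial.C f := by
  have h := derivative_uni l hab f
  rw [hf, map_zero] at h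
  have h2 := Polynomial.derivative_eq_zero.mp h
  rw [Polynomial.eq_C_of_natDegree_eq_zero h2, coeff_zero_uni]

end general

section torus

variable {ω τ : Type*}

/-- the torus action as a polynomial in torus parameters -/
noncomputable def Theta (W : ω → (τ →₀ ℕ)) :
    MvPolynomial ω ℂ →ₐ[ℂ] MvPolynomial τ (MvPolynomial ω ℂ) :=
  aeval (fun w : ω => monomial (W w) (X w))

theorem theta_monomial (W : ω → (τ →₀ ℕ)) (u : ω →₀ ℕ) (a : ℂ) :
    Theta W (monomial u a) = monomial (Finsupp.weight W u) (monomial u a) := by
  classical
  rw [Theta, aeval_monomial]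
  have h1 : (u.prod fun i k => (monomial (W i) (X i : MvPolynomial ω ℂ)) ^ k)
      = monomial (Finsupp.weight W u) (monomial u 1) := by
    induction u using Finsupp.induction with
    | zero => simp
    | single_add w k u hw hk ih =>
      rw [Finsupp.prod_add_index', ih, Finsupp.prod_single_index, monomial_pow, map_add,
        monomial_mul, X_pow_eq_monomial, monomial_mul, one_mul, Finsupp.weight_single]
      · simp
      · simp
      · intro a b c; rw [pow_add]
  rw [h1, MvPolynomial.algebraMap_apply, MvPolynomial.algebraMap_eq, C_mul_monomial,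
    C_mul_monomial, mul_one]

theorem coeff_theta [DecidableEq τ] (W : ω → (τ →₀ ℕ)) (lam : τ →₀ ℕ) (f : MvPolynomial ω ℂ) :
    coeff lam (Theta W f) = weightedHomogeneousComponent W lam f := by
  classical
  induction f using MvPolynomial.induction_on' with
  | monomial u a =>
    rw [theta_monomial, coeff_monomial]
    ext d
    rw [coeff_weightedHomogeneousComponent]
    split_ifs with h1 h2 h2
    · rfl
    · rw [coeff_monomial, if_neg]
      rintro rfl
      exact h2 h1
    · rw [coeff_zero, coeff_monomial, if_neg]
      rintro rfl
      exact h1 h2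
    · rfl
  | add p q hp hq => rw [map_add, coeff_add, hp, hq, map_add]

theorem eval_theta (W : ω → (τ →₀ ℕ)) (s : τ → ℂ) (f : MvPolynomial ω ℂ) :
    eval (fun t => algebraMap ℂ (MvPolynomial ω ℂ) (s t)) (Theta W f)
      = aeval (fun w : ω => C ((W w).prod fun t k => s t ^ k) * X w) f := by
  have key : ((eval (fun t => algebraMap ℂ (MvPolynomial ω ℂ) (s t))).comp (Theta W).toRingHom)
      = (aeval (fun w : ω => C ((W w).prod fun t k => s t ^ k) * X w) :
          MvPolynomial ω ℂ →ₐ[ℂ] MvPolynomial ω ℂ).toRingHom := by
    apply MvPolynomial.ringHom_ext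
    · intro r
      simp [Theta, MvPolynomial.algebraMap_eq, MvPolynomial.algebraMap_apply]
    · intro w
      simp only [Theta, AlgHom.toRingHom_eq_coe, RingHom.coe_comp, RingHom.coe_coe,
        Function.comp_apply, aeval_X, eval_monomial]
      rw [mul_comm]
      congr 1
      simp [Finsupp.prod, MvPolynomial.algebraMap_eq]
  exact congrArg (fun φ : MvPolynomial ω ℂ →+* MvPolynomial ω ℂ => φ f) key

/-- A subspace stable under a torus is stable under taking weight components. -/
theorem component_mem [DecidableEq τ] (W : ω → (τ →₀ ℕ)) (N : Submodule ℂ (MvPolynomial ω ℂ))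
    (hN : ∀ (s : τ → ℂ) (f : MvPolynomial ω ℂ), f ∈ N →
      aeval (fun w : ω => C ((W w).prod fun t k => s t ^ k) * X w) f ∈ N)
    (lam : τ →₀ ℕ) (f : MvPolynomial ω ℂ) (hf : f ∈ N) :
    weightedHomogeneousComponent W lam f ∈ N := by
  rw [← coeff_theta]
  apply mv_coeff_mem_of_eval_mem
  intro s
  rw [eval_theta]
  exact hN s f hf

end torus

end Pool.Agent.Helper929_delta
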