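import Pool.Agent.Helper929_delta.GoodHW

/-
The pair move: inserting two factors in which the weight is `a`.
-/

namespace Pool.Agent.Helper929_delta

open MvPolynomial

variable {n : ℕ}

/-- append two letters in front of a word -/
def cons2 (u : Fin 2 × Fin 2) (w : Wd (two n)) : Wd (two (n + 2)) :=
  Fin.cons (α := fun _ => Fin 2) u.1 (Fin.cons (α := fun _ => Fin 2) u.2 w)

/-- the generic linear map `V → V ⊗ ℂ² ⊗ ℂ²` -/
noncomputable def Phi : Pol (two n) →ₐ[ℂ] MvPolynomial (Fin 2 × Fin 2) (Pol (two (n + 2))) :=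
  aeval (fun w : Wd (two n) => ∑ u : Fin 2 × Fin 2, C (X (cons2 u w)) * X u)

/-- Cayley's Omega operator -/
noncomputable def Om {R : Type*} [CommRing R] (g : MvPolynomial (Fin 2 × Fin 2) R) :
    MvPolynomial (Fin 2 × Fin 2) R :=
  pderiv (0, 0) (pderiv (1, 1) g) - pderiv (0, 1) (pderiv (1, 0) g)

theorem Om_map {R S : Type*} [CommRing R] [CommRing S] (φ : R →+* S)
    (g : MvPolynomial (Fin 2 × Fin 2) R) : MvPolynomial.map φ (Om g) = Om (MvPolynomial.map φ g) := by
  simp only [Om, map_sub, pderiv_map]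

theorem Om_iterate_map {R S : Type*} [CommRing R] [CommRing S] (φ : R →+* S)
    (g : MvPolynomial (Fin 2 × Fin 2) R) (a : ℕ) :
    MvPolynomial.map φ (Om^[a] g) = Om^[a] (MvPolynomial.map φ g) := by
  induction a with
  | zero => rfl
  | succ a ih => rw [Function.iterate_succ_apply', Function.iterate_succ_apply', Om_map, ih]

theorem Om_C_mul {R : Type*} [CommRing R] (r : R) (g : MvPolynomial (Fin 2 × Fin 2) R) :
    Om (C r * g) = C r * Om g := by
  simp only [Om, pderiv_C_mul, mul_sub]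

theorem Om_sum {R ι : Type*} [CommRing R] (s : Finset ι) (g : ι → MvPolynomial (Fin 2 × Fin 2) R) :
    Om (∑ i ∈ s, g i) = ∑ i ∈ s, Om (g i) := by
  simp only [Om, map_sum, Finset.sum_sub_distrib]

theorem Om_iterate_C_mul {R : Type*} [CommRing R] (r : R) (g : MvPolynomial (Fin 2 × Fin 2) R)
    (a : ℕ) : Om^[a] (C r * g) = C r * Om^[a] g := by
  induction a with
  | zero => rfl
  | succ a ih => rw [Function.iterate_succ_apply', Function.iterate_succ_apply', ih, Om_C_mul]

theorem Om_iterate_sum {R ι : Type*} [CommRing R] (s : Finset ι)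
    (g : ι → MvPolynomial (Fin 2 × Fin 2) R) (a : ℕ) :
    Om^[a] (∑ i ∈ s, g i) = ∑ i ∈ s, Om^[a] (g i) := by
  induction a with
  | zero => rfl
  | succ a ih => simp only [Function.iterate_succ_apply', ih, Om_sum]

/-- the rank one linear form with parameters `p₁, p₂` -/
noncomputable def Lf (p₁ p₂ : ℂ) : MvPolynomial (Fin 2 × Fin 2) ℂ :=
  X (0, 0) + C p₂ * X (0, 1) + C p₁ * X (1, 0) + C (p₁ * p₂) * X (1, 1)

theorem pderiv_Lf (p₁ p₂ : ℂ) : pderiv (0, 0) (Lf p₁ p₂) = 1 ∧ pderiv (0, 1) (Lf p₁ p₂) = C p₂ ∧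
    pderiv (1, 0) (Lf p₁ p₂) = C p₁ ∧ pderiv (1, 1) (Lf p₁ p₂) = C (p₁ * p₂) := by
  refine ⟨?_, ?_, ?_, ?_⟩ <;>
  · simp only [Lf, map_add, pderiv_C_mul, pderiv_X, Pi.single_apply]
    simp

theorem Om_Lf (p₁ p₂ q₁ q₂ : ℂ) (r i : ℕ) :
    Om (Lf p₁ p₂ ^ r * Lf q₁ q₂ ^ i)
      = C ((r : ℂ) * i * ((q₁ - p₁) * (q₂ - p₂))) * (Lf p₁ p₂ ^ (r - 1) * Lf q₁ q₂ ^ (i - 1)) := by
  obtain ⟨hp00, hp01, hp10, hp11⟩ := pderiv_Lf p₁ p₂
  obtain ⟨hq00, hq01, hq10, hq11⟩ := pderiv_Lf q₁ q₂
  set L := Lf p₁ p₂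
  set M := Lf q₁ q₂
  simp only [Om, pderiv_mul, pderiv_pow, map_add, hp00, hp01, hp10, hp11, hq00, hq01, hq10, hq11,
    pderiv_C, map_natCast, pderiv_one, mul_one, mul_zero, add_zero]
  have hnat : ∀ (u : Fin 2 × Fin 2) (k : ℕ), pderiv u (k : MvPolynomial (Fin 2 × Fin 2) ℂ) = 0 := by
    intro u k
    exact Derivation.map_natCast _ k
  simp only [hnat, zero_mul, zero_add]
  rcases r with _ | _ | r <;> rcases i with _ | _ | i <;>
  · simp only [map_mul, map_sub, map_natCast, Nat.cast_zero, Nat.cast_add, Nat.cast_one,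
      Nat.cast_succ, map_add, map_one]
    simp
    try ring

theorem Om_iterate_Lf (p₁ p₂ q₁ q₂ : ℂ) (r i a : ℕ) :
    Om^[a] (Lf p₁ p₂ ^ r * Lf q₁ q₂ ^ i)
      = C ((r.descFactorial a : ℂ) * i.descFactorial a * ((q₁ - p₁) * (q₂ - p₂)) ^ a)
        * (Lf p₁ p₂ ^ (r - a) * Lf q₁ q₂ ^ (i - a)) := by
  induction a with
  | zero => simp
  | succ a ih =>
    rw [Function.iterate_succ_apply', ih, Om_C_mul, Om_Lf, ← mul_assoc, ← C_mul]
    congr 2
    · rw [Nat.descFactorial_succ, Nat.descFactorial_succ]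
      push_cast
      ring

/-- the base point `e₀ ⊗ e₀` -/
def e00 (R : Type*) [CommRing R] : Fin 2 × Fin 2 → R := fun u => if u = (0, 0) then 1 else 0

/-- the pair operator -/
noncomputable def Oop (a : ℕ) (g : Pol (two n)) : Pol (two (n + 2)) :=
  eval (e00 _) (Om^[a] (Phi g))

theorem Oop_mem {N : Ideal (Pol (two (n + 2)))} {g : Pol (two n)}
    (h : ∀ y : Fin 2 × Fin 2 → ℂ,
      aeval (fun w : Wd (two n) => ∑ u : Fin 2 × Fin 2, C (y u) * X (cons2 u w)) g ∈ N)
    (a : ℕ) : Oop a g ∈ N := by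
  classical
  have hcoef : ∀ d, coeff d (Phi g) ∈ N := by
    intro d
    refine mv_coeff_mem_of_eval_mem (N.restrictScalars ℂ) (Phi g) ?_ d
    intro s
    have key : ((eval (fun u => algebraMap ℂ (Pol (two (n + 2))) (s u))).comp
        (Phi (n := n)).toRingHom)
        = (aeval (fun w : Wd (two n) => ∑ u : Fin 2 × Fin 2, C (s u) * X (cons2 u w)) :
          Pol (two n) →ₐ[ℂ] Pol (two (n + 2))).toRingHom := by
      apply MvPolynomial.ringHom_ext
      · intro r
        simp [Phi, MvPolynomial.algebraMap_apply, MvPolynomial.algebraMap_eq]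
      · intro w
        simp only [Phi, AlgHom.toRingHom_eq_coe, RingHom.coe_comp, RingHom.coe_coe,
          Function.comp_apply, aeval_X, map_sum, map_mul, eval_C, eval_X,
          MvPolynomial.algebraMap_eq]
        refine Finset.sum_congr rfl fun u _ => ?_
        rw [mul_comm]
    have h2 := congrArg (fun φ : Pol (two n) →+* Pol (two (n + 2)) => φ g) key
    have h3 : eval (fun u => algebraMap ℂ (Pol (two (n + 2))) (s u)) (Phi g)
        = aeval (fun w : Wd (two n) => ∑ u : Fin 2 × Fin 2, C (s u) * X (cons2 u w)) g := h2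
    rw [h3]
    exact h s
  have hOm : ∀ g' : MvPolynomial (Fin 2 × Fin 2) (Pol (two (n + 2))),
      (∀ d, coeff d g' ∈ N) → ∀ d, coeff d (Om g') ∈ N := by
    intro g' hg' d
    rw [Om, coeff_sub]
    simp only [coeff_pderiv]
    refine N.sub_mem ?_ ?_
    · exact N.mul_mem_right _ (N.mul_mem_right _ (hg' _))
    · exact N.mul_mem_right _ (N.mul_mem_right _ (hg' _))
  have hiter : ∀ a d, coeff d (Om^[a] (Phi g)) ∈ N := by
    intro a
    induction a with
    | zero => exact hcoef
    | succ a ih =>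
      rw [Function.iterate_succ_apply']
      exact hOm _ ih
  rw [Oop, eval_eq]
  exact N.sum_mem fun d _ => N.mul_mem_right _ (hiter a d)

/-- the binary form after a pair move -/
noncomputable def pairTheta (k a : ℕ) (θ : Polynomial ℂ) : Polynomial ℂ :=
  ∑ i ∈ Finset.range (k + 1), Polynomial.C (θ.coeff i * ((k - i).descFactorial a : ℂ)
    * (i.descFactorial a : ℂ)) * Polynomial.X ^ i

theorem isHW_Oop {k : ℕ} {c : Fin n → ℕ} {θ : Polynomial ℂ} {g : Pol (two n)}
    (hg : IsHW k c θ g) (a : ℕ) :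
    IsHW (n := n + 2) k (Fin.cons (α := fun _ => ℕ) a (Fin.cons (α := fun _ => ℕ) a c))
      (pairTheta k a θ) (Oop a g) := by
  classical
  constructor
  · rw [pairTheta]
    refine Polynomial.natDegree_sum_le_of_forall_le _ _ fun i hi => ?_
    refine (Polynomial.natDegree_C_mul_X_pow_le _ _).trans ?_
    rw [Finset.mem_range] at hi
    omega
  · intro z y p q hz
    -- decompose the parameters
    set p₁ := p 0 with hp1
    set p₂ := p 1 with hp2
    set q₁ := q 0 with hq1
    set q₂ := q 1 with hq2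
    set p' : Fin n → ℂ := fun i => p i.succ.succ with hp'
    set q' : Fin n → ℂ := fun i => q i.succ.succ with hq'
    set K : ℂ := z ^ k * ∏ l, (q' l - p' l) ^ (c l) with hK
    set x := pt p q z y with hx
    have hprod : ∀ (r : Fin (n + 2) → ℂ) (u : Fin 2 × Fin 2) (w : Wd (two n)),
        ∏ l, r l ^ (cons2 u w l : ℕ)
          = r 0 ^ (u.1 : ℕ) * (r 1 ^ (u.2 : ℕ) * ∏ l : Fin n, r l.succ.succ ^ (w l : ℕ)) := by
      intro r u w
      rw [Fin.prod_univ_succ, Fin.prod_univ_succ]
      rfl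
    set Γ : MvPolynomial (Fin 2 × Fin 2) ℂ := MvPolynomial.map (eval x) (Phi g) with hΓ
    have hLe : ∀ (s : Fin 2 × Fin 2 → ℂ) (r₁ r₂ : ℂ), eval s (Lf r₁ r₂)
        = s (0, 0) + r₂ * s (0, 1) + r₁ * s (1, 0) + r₁ * r₂ * s (1, 1) := by
      intro s r₁ r₂
      simp [Lf]
    have hΓe : ∀ s : Fin 2 × Fin 2 → ℂ, eval s Γ = eval (fun w => z * (eval s (Lf p₁ p₂)
        * ∏ l, p' l ^ (w l : ℕ) + y * (eval s (Lf q₁ q₂) * ∏ l, q' l ^ (w l : ℕ)))) g := by
      intro s
      have key : ((eval s).comp ((MvPolynomial.map (eval x)).comp (Phi (n := n)).toRingHom))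
          = eval (fun w => z * (eval s (Lf p₁ p₂)
        * ∏ l, p' l ^ (w l : ℕ) + y * (eval s (Lf q₁ q₂) * ∏ l, q' l ^ (w l : ℕ)))) := by
        apply MvPolynomial.ringHom_ext
        · intro r
          simp [Phi, MvPolynomial.algebraMap_apply]
        · intro w
          simp only [Phi, AlgHom.toRingHom_eq_coe, RingHom.coe_comp, RingHom.coe_coe,
            Function.comp_apply, aeval_X, map_sum, map_mul, map_C, map_X, eval_C, eval_X, hLe]
          rw [Fintype.sum_prod_type, Fin.sum_univ_two, Fin.sum_univ_two, Fin.sum_univ_two]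
          simp only [hx, pt, hprod]
          simp
          ring
      exact congrArg (fun φ : Pol (two n) →+* ℂ => φ g) key
    set Ψ : MvPolynomial (Fin 2 × Fin 2) ℂ := C K * ∑ i ∈ Finset.range (k + 1),
      C (θ.coeff i * y ^ i) * (Lf p₁ p₂ ^ (k - i) * Lf q₁ q₂ ^ i) with hΨ
    have hzero : Lf p₁ p₂ * (Γ - Ψ) = 0 := by
      apply MvPolynomial.funext
      intro s
      rw [map_mul, map_sub, map_zero, hΓe]
      by_cases h0 : eval s (Lf p₁ p₂) = 0
      · rw [h0, zero_mul]
      · set L := eval s (Lf p₁ p₂) with hL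
        set M := eval s (Lf q₁ q₂) with hM
        have h1 : (fun w : Wd (two n) => z * (L * ∏ l, p' l ^ (w l : ℕ)
            + y * (M * ∏ l, q' l ^ (w l : ℕ)))) = pt p' q' (z * L) (y * M / L) := by
          funext w
          simp only [pt]
          field_simp
        rw [h1, hg.2 _ _ _ _ (mul_ne_zero hz h0)]
        have h2 : eval s Ψ = K * ∑ i ∈ Finset.range (k + 1),
            θ.coeff i * y ^ i * (L ^ (k - i) * M ^ i) := by
          rw [hΨ]
          simp [hL, hM]
        have h3 : L ^ k * θ.eval (y * M / L) = ∑ i ∈ Finset.range (k + 1),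
            θ.coeff i * y ^ i * (L ^ (k - i) * M ^ i) := by
          rw [Polynomial.eval_eq_sum_range' (lt_of_le_of_lt hg.1 (Nat.lt_succ_self k)),
            Finset.mul_sum]
          refine Finset.sum_congr rfl fun i hi => ?_
          rw [Finset.mem_range] at hi
          have h4 : L ^ k = L ^ (k - i) * L ^ i := by
            rw [← pow_add]; congr 1; omega
          rw [h4, div_pow, mul_pow]
          field_simp
        rw [h2, ← h3, hK, mul_pow]
        ring
    have hL0 : Lf p₁ p₂ ≠ 0 := by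
      intro h
      have := hLe (e00 ℂ) p₁ p₂
      rw [h] at this
      simp [e00] at this
    have hΓΨ : Γ = Ψ := sub_eq_zero.mp ((mul_eq_zero.mp hzero).resolve_left hL0)
    have h5 : eval x (Oop a g) = eval (e00 ℂ) (Om^[a] Γ) := by
      rw [Oop, hΓ, ← Om_iterate_map]
      have : (eval x (eval (e00 (Pol (two (n + 2)))) (Om^[a] (Phi g))))
          = eval (fun u => eval x (e00 (Pol (two (n + 2))) u))
            (MvPolynomial.map (eval x) (Om^[a] (Phi g))) := by
        have key : ((eval x).comp (eval (e00 (Pol (two (n + 2))))))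
            = (eval (fun u => eval x (e00 (Pol (two (n + 2))) u))).comp
              (MvPolynomial.map (eval x)) := by
          apply MvPolynomial.ringHom_ext
          · intro r
            simp
          · intro u
            simp
        exact congrArg (fun φ : MvPolynomial (Fin 2 × Fin 2) (Pol (two (n + 2))) →+* ℂ =>
          φ (Om^[a] (Phi g))) key
      rw [this]
      congr 2
      funext u
      simp only [e00]
      split_ifs <;> simp
    rw [h5, hΓΨ, hΨ, Om_iterate_C_mul, Om_iterate_sum, map_mul, eval_C, map_sum]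
    have h6 : ∏ l : Fin (n + 2), (q l - p l) ^ ((Fin.cons (α := fun _ => ℕ) a
        (Fin.cons (α := fun _ => ℕ) a c) : Fin (n + 2) → ℕ) l)
        = (q₁ - p₁) ^ a * ((q₂ - p₂) ^ a * ∏ l, (q' l - p' l) ^ (c l)) := by
      rw [Fin.prod_univ_succ, Fin.prod_univ_succ]
      rfl
    rw [h6, pairTheta, Polynomial.eval_finsetSum, Finset.mul_sum, Finset.mul_sum, hK]
    refine Finset.sum_congr rfl fun i _ => ?_
    rw [Om_iterate_C_mul, Om_iterate_Lf]
    have h7 : ∀ r₁ r₂ : ℂ, eval (e00 ℂ) (Lf r₁ r₂) = 1 := by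
      intro r₁ r₂
      rw [hLe]
      simp [e00]
    simp only [map_mul, map_pow, eval_C, h7, Polynomial.eval_mul, Polynomial.eval_C,
      Polynomial.eval_pow, Polynomial.eval_X, mul_pow]
    ring

theorem coeff_pairTheta (k a : ℕ) (θ : Polynomial ℂ) (i : ℕ) :
    (pairTheta k a θ).coeff i = if i ≤ k then
      θ.coeff i * ((k - i).descFactorial a : ℂ) * (i.descFactorial a : ℂ) else 0 := by
  rw [pairTheta, Polynomial.finsetSum_coeff]
  simp only [Polynomial.coeff_C_mul, Polynomial.coeff_X_pow, mul_ite, mul_one, mul_zero]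
  rw [Finset.sum_ite_eq]
  simp only [Finset.mem_range, Nat.lt_succ_iff]

theorem pairTheta_order {i j a : ℕ} {θ : Polynomial ℂ} (hθ : θ ≠ 0)
    (hj : θ.natTrailingDegree = j) (hji : j ≤ i) (ha : a ≤ j) :
    pairTheta (i + j) a θ ≠ 0 ∧ (pairTheta (i + j) a θ).natTrailingDegree = j := by
  have hcj : θ.coeff j ≠ 0 := by
    rw [← hj]
    exact Polynomial.coeff_natTrailingDegree_ne_zero.mpr hθ
  have h1 : (pairTheta (i + j) a θ).coeff j ≠ 0 := by
    rw [coeff_pairTheta, if_pos (by omega)]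
    refine mul_ne_zero (mul_ne_zero hcj ?_) ?_
    · rw [Nat.cast_ne_zero]
      rw [Ne, Nat.descFactorial_eq_zero_iff_lt]
      omega
    · rw [Nat.cast_ne_zero]
      rw [Ne, Nat.descFactorial_eq_zero_iff_lt]
      omega
  have h0 : pairTheta (i + j) a θ ≠ 0 := by
    intro h
    rw [h] at h1
    simp at h1
  refine ⟨h0, le_antisymm (Polynomial.natTrailingDegree_le_of_ne_zero h1) ?_⟩
  refine Polynomial.le_natTrailingDegree h0 fun m hm => ?_
  rw [coeff_pairTheta, if_pos (by omega),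
    Polynomial.coeff_eq_zero_of_lt_natTrailingDegree (by rw [hj]; exact hm), zero_mul, zero_mul]

end Pool.Agent.Helper929_delta
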