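import Pool.Agent.Helper929_delta.Extract

/-
The Lie algebra sl_2 acting in one factor of dimension two; the extremal projector.
-/

namespace Pool.Agent.Helper929_delta

open MvPolynomial

section abstract

variable {V : Type*} [AddCommGroup V] [Module ℂ V] (E F H : V →ₗ[ℂ] V)
  (hFE : ∀ v, F (E v) - E (F v) = H v) (hHE : ∀ v, H (E v) - E (H v) = (-2 : ℂ) • E v)
  (hHF : ∀ v, H (F v) - F (H v) = (2 : ℂ) • F v)

include hHE in
theorem H_iterate_E (v : V) (μ : ℂ) (hv : H v = μ • v) (i : ℕ) :
    H (E^[i] v) = (μ - 2 * i) • E^[i] v := by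
  induction i with
  | zero => simp [hv]
  | succ i ih =>
    rw [Function.iterate_succ_apply']
    have h := hHE (E^[i] v)
    rw [ih, map_smul, sub_eq_iff_eq_add] at h
    rw [h, ← add_smul]
    congr 1
    push_cast
    ring

include hHF in
theorem H_iterate_F (v : V) (μ : ℂ) (hv : H v = μ • v) (i : ℕ) :
    H (F^[i] v) = (μ + 2 * i) • F^[i] v := by
  induction i with
  | zero => simp [hv]
  | succ i ih =>
    rw [Function.iterate_succ_apply']
    have h := hHF (F^[i] v)
    rw [ih, map_smul, sub_eq_iff_eq_add] at h
    rw [h, ← add_smul]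
    congr 1
    push_cast
    ring

include hFE hHE in
theorem F_iterate_E (v : V) (μ : ℂ) (hv : H v = μ • v) (i : ℕ) :
    F (E^[i + 1] v) = E^[i + 1] (F v) + ((i + 1) * (μ - i)) • E^[i] v := by
  induction i with
  | zero =>
    have h := hFE v
    rw [sub_eq_iff_eq_add] at h
    simp [h, hv, add_comm]
  | succ i ih =>
    rw [Function.iterate_succ_apply' E (i + 1) v]
    have h := hFE (E^[i + 1] v)
    rw [sub_eq_iff_eq_add] at h
    rw [h, ih, H_iterate_E E H hHE v μ hv, map_add, map_smul,
      Function.iterate_succ_apply' E (i + 1) (F v), ← Function.iterate_succ_apply' E i v]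
    rw [add_comm, add_assoc, ← add_smul]
    congr 2
    push_cast
    ring

/-- coefficients of the extremal projector -/
noncomputable def projCoeff (h : ℕ) : ℕ → ℂ
  | 0 => 1
  | i + 1 => -projCoeff h i / ((i + 1) * (h + i + 2))

include hFE hHE hHF in
theorem F_projector (f : V) (h : ℕ) (hf : H f = (h : ℂ) • f) (m : ℕ) :
    F (∑ i ∈ Finset.range (m + 1), projCoeff h i • E^[i] (F^[i] f))
      = projCoeff h m • E^[m] (F^[m + 1] f) := by
  induction m with
  | zero => simp [projCoeff]
  | succ m ih =>
    rw [Finset.sum_range_succ, map_add, ih, map_smul,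
      F_iterate_E E F H hFE hHE _ _ (H_iterate_F F H hHF f h hf (m + 1)), smul_add,
      ← Function.iterate_succ_apply' F (m + 1) f, smul_smul]
    rw [add_comm, add_assoc, ← add_smul]
    have h1 : ((m : ℂ) + 1) ≠ 0 := by exact_mod_cast Nat.succ_ne_zero m
    have h2 : ((h : ℂ) + m + 2) ≠ 0 := by exact_mod_cast (by omega : h + m + 2 ≠ 0)
    have : projCoeff h (m + 1) * ((↑m + 1) * (↑h + 2 * ↑(m + 1) - ↑m)) + projCoeff h m = 0 := by
      rw [projCoeff]
      push_cast
      field_simp
      ring
    rw [this, zero_smul, add_zero]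

end abstract

section concrete

variable {n : ℕ}

/-- words in the letters 0, 1 -/
abbrev two (n : ℕ) : Fin n → ℕ := fun _ => 2

/-- raising operator in position `l` (replaces a letter 1 by 0) -/
noncomputable abbrev Fop (l : Fin n) : Derivation ℂ (Pol (two n)) (Pol (two n)) :=
  D (m := two n) l (0 : Fin 2) (1 : Fin 2)

/-- lowering operator in position `l` (replaces a letter 0 by 1) -/
noncomputable abbrev Eop (l : Fin n) : Derivation ℂ (Pol (two n)) (Pol (two n)) :=
  D (m := two n) l (1 : Fin 2) (0 : Fin 2)

/-- the torus element in position `l` -/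
noncomputable def Hop (l : Fin n) : Derivation ℂ (Pol (two n)) (Pol (two n)) :=
  mkDerivation ℂ (fun w : Wd (two n) => if w l = (0 : Fin 2) then X w else - X w)

theorem ne01 : ¬ ((0 : Fin 2) = (1 : Fin 2)) := by decide

theorem ne10 : ¬ ((1 : Fin 2) = (0 : Fin 2)) := by decide

theorem F_X (l : Fin n) (w : Wd (two n)) :
    Fop l (X w) = if w l = (1 : Fin 2) then X (Function.update w l (0 : Fin 2)) else 0 := by
  rw [Fop, D, mkDerivation_X]

theorem E_X (l : Fin n) (w : Wd (two n)) :
    Eop l (X w) = if w l = (0 : Fin 2) then X (Function.update w l (1 : Fin 2)) else 0 := by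
  rw [Eop, D, mkDerivation_X]

theorem H_X (l : Fin n) (w : Wd (two n)) :
    Hop l (X w) = if w l = (0 : Fin 2) then X w else - X w := by
  rw [Hop, mkDerivation_X]

theorem fin2_cases (x : Fin 2) : x = 0 ∨ x = 1 := by
  revert x; decide

theorem upd_self (w : Wd (two n)) (l : Fin n) (a : Fin 2) (h : w l = a) :
    Function.update w l a = w := by
  rw [← h, Function.update_eq_self]

theorem FE_comm (l : Fin n) (f : Pol (two n)) :
    Fop l (Eop l f) - Eop l (Fop l f) = Hop l f := by
  rw [← Derivation.commutator_apply]
  congr 1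
  apply MvPolynomial.derivation_ext
  intro w
  rw [Derivation.commutator_apply, H_X]
  rcases fin2_cases (w l) with h | h
  · rw [E_X, F_X, if_pos h, if_neg (by rw [h]; first | exact ne01 | exact ne10), map_zero, F_X,
      if_pos (by simp), if_pos h, Function.update_idem, upd_self w l 0 h, sub_zero]
  · rw [E_X, F_X, if_pos h, if_neg (by rw [h]; first | exact ne01 | exact ne10), map_zero, E_X,
      if_pos (by simp), if_neg (by rw [h]; first | exact ne01 | exact ne10), Function.update_idem, upd_self w l 1 h,
      zero_sub]

theorem HE_comm (l : Fin n) (f : Pol (two n)) :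
    Hop l (Eop l f) - Eop l (Hop l f) = (-2 : ℂ) • Eop l f := by
  rw [← Derivation.commutator_apply, ← Derivation.smul_apply]
  congr 1
  apply MvPolynomial.derivation_ext
  intro w
  rw [Derivation.commutator_apply, Derivation.smul_apply, H_X]
  rcases fin2_cases (w l) with h | h
  · rw [E_X, if_pos h, if_pos h, H_X, if_neg (by simp), E_X, if_pos h]
    module
  · rw [E_X, if_neg (by rw [h]; first | exact ne01 | exact ne10), if_neg (by rw [h]; first | exact ne01 | exact ne10), map_neg, E_X,
      if_neg (by rw [h]; first | exact ne01 | exact ne10)]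
    simp

theorem HF_comm (l : Fin n) (f : Pol (two n)) :
    Hop l (Fop l f) - Fop l (Hop l f) = (2 : ℂ) • Fop l f := by
  rw [← Derivation.commutator_apply, ← Derivation.smul_apply]
  congr 1
  apply MvPolynomial.derivation_ext
  intro w
  rw [Derivation.commutator_apply, Derivation.smul_apply, H_X]
  rcases fin2_cases (w l) with h | h
  · rw [F_X, if_neg (by rw [h]; first | exact ne01 | exact ne10), if_pos h, F_X, if_neg (by rw [h]; first | exact ne01 | exact ne10)]
    simp
  · rw [F_X, if_pos h, if_neg (by rw [h]; first | exact ne01 | exact ne10), map_neg, F_X,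
      if_pos h, H_X, if_pos (by simp)]
    module

theorem FF_comm {l l' : Fin n} (hl : l ≠ l') (f : Pol (two n)) :
    Fop l (Fop l' f) = Fop l' (Fop l f) := by
  rw [← sub_eq_zero, ← Derivation.commutator_apply]
  have : ⁅Fop l, Fop l'⁆ = 0 := by
    apply MvPolynomial.derivation_ext
    intro w
    rw [Derivation.commutator_apply, Derivation.zero_apply, F_X, F_X]
    rcases fin2_cases (w l) with h | h <;> rcases fin2_cases (w l') with h' | h'
    · simp [h, h']
    · simp [h, h', F_X, Function.update_of_ne hl]
    · simp [h, h', F_X, Function.update_of_ne hl.symm]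
    · simp [h, h', F_X, Function.update_of_ne hl.symm, Function.update_of_ne hl,
        Function.update_comm hl]
  rw [this, Derivation.zero_apply]

theorem FE_comm' {l l' : Fin n} (hl : l ≠ l') (f : Pol (two n)) :
    Fop l (Eop l' f) = Eop l' (Fop l f) := by
  rw [← sub_eq_zero, ← Derivation.commutator_apply]
  have : ⁅Fop l, Eop l'⁆ = 0 := by
    apply MvPolynomial.derivation_ext
    intro w
    rw [Derivation.commutator_apply, Derivation.zero_apply, F_X, E_X]
    rcases fin2_cases (w l) with h | h <;> rcases fin2_cases (w l') with h' | h'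
    · simp [h, h', F_X, Function.update_of_ne hl]
    · simp [h, h']
    · simp [h, h', F_X, E_X, Function.update_of_ne hl.symm, Function.update_of_ne hl,
        Function.update_comm hl]
    · simp [h, h', E_X, Function.update_of_ne hl.symm]
  rw [this, Derivation.zero_apply]

end concrete

end Pool.Agent.Helper929_delta
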