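import Pool.Agent.Helper929_delta.Exact

/-
Highest weight functions on the secant variety.
-/

namespace Pool.Agent.Helper929_delta

open MvPolynomial

theorem prod_pow_wt {n : ℕ} {m : Fin n → ℕ} (s : (Σ i, Fin (m i)) → ℂ) (w : Wd m) :
    ∏ t, s t ^ (wt w t) = ∏ i, s ⟨i, w i⟩ := by
  classical
  rw [← prod_wt, Finsupp.prod_fintype]
  simp

theorem eval_torus {n : ℕ} {m : Fin n → ℕ} {f : Pol m} {lam : (Σ i, Fin (m i)) →₀ ℕ}
    (hf : IsWeightedHomogeneous wt f lam) (s : (Σ i, Fin (m i)) → ℂ) (x : Wd m → ℂ) :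
    eval (fun w => (∏ i, s ⟨i, w i⟩) * x w) f = (∏ t, s t ^ lam t) * eval x f := by
  classical
  rw [eval_eq', eval_eq', Finset.mul_sum]
  refine Finset.sum_congr rfl fun d hd => ?_
  have hlam := hf (mem_support_iff.mp hd)
  have h1 : ∏ t, s t ^ lam t = ∏ w : Wd m, (∏ i, s ⟨i, w i⟩) ^ d w := by
    rw [← hlam]
    simp only [← prod_pow_wt]
    simp only [← Finset.prod_pow]
    rw [Finset.prod_comm]
    refine Finset.prod_congr rfl fun t _ => ?_
    simp only [← pow_mul]
    rw [Finset.prod_pow_eq_pow_sum]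
    congr 1
    rw [Finsupp.weight_apply, Finsupp.sum_fintype]
    · rw [Finsupp.finsetSum_apply]
      refine Finset.sum_congr rfl fun w _ => ?_
      rw [Finsupp.smul_apply, smul_eq_mul, mul_comm]
    · simp
  rw [h1]
  simp only [mul_pow, Finset.prod_mul_distrib]
  ring

variable {n : ℕ}

/-- the points of the cone over the secant variety, in affine coordinates -/
noncomputable def pt (p q : Fin n → ℂ) (a y : ℂ) : Wd (two n) → ℂ :=
  fun w => a * (∏ l, p l ^ (w l : ℕ) + y * ∏ l, q l ^ (w l : ℕ))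

/-- `g` is a highest weight function of degree `k` and weight `c` on the secant variety, with
associated binary form `θ`. -/
def IsHW (k : ℕ) (c : Fin n → ℕ) (θ : Polynomial ℂ) (g : Pol (two n)) : Prop :=
  θ.natDegree ≤ k ∧ ∀ (a y : ℂ) (p q : Fin n → ℂ), a ≠ 0 →
    eval (pt p q a y) g = a ^ k * (∏ l, (q l - p l) ^ (c l)) * θ.eval y

theorem prod_update_pow (P : Fin n → ℂ) (l : Fin n) (x : ℂ) (w : Wd (two n)) :
    ∏ i, (Function.update P l x) i ^ (w i : ℕ)
      = x ^ (w l : ℕ) * ∏ i ∈ Finset.univ.erase l, P i ^ (w i : ℕ) := by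
  classical
  rw [← Finset.mul_prod_erase _ _ (Finset.mem_univ l), Function.update_self]
  congr 1
  refine Finset.prod_congr rfl fun i hi => ?_
  rw [Function.update_of_ne (Finset.ne_of_mem_erase hi)]

theorem prod_erase_pow (P : Fin n → ℂ) (l : Fin n) (w : Wd (two n)) :
    ∏ i, P i ^ (w i : ℕ)
      = P l ^ (w l : ℕ) * ∏ i ∈ Finset.univ.erase l, P i ^ (w i : ℕ) := by
  classical
  rw [← Finset.mul_prod_erase _ _ (Finset.mem_univ l)]

theorem prod_update_word (P : Fin n → ℂ) (l : Fin n) (w : Wd (two n)) :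
    ∏ i, P i ^ ((Function.update w l (0 : Fin 2) i : Fin 2) : ℕ)
      = ∏ i ∈ Finset.univ.erase l, P i ^ (w i : ℕ) := by
  classical
  rw [← Finset.mul_prod_erase _ _ (Finset.mem_univ l), Function.update_self]
  have h0 : (((0 : Fin 2) : Fin 2) : ℕ) = 0 := rfl
  rw [h0, pow_zero, one_mul]
  refine Finset.prod_congr rfl fun i hi => ?_
  rw [Function.update_of_ne (Finset.ne_of_mem_erase hi)]

theorem eval_unip {l : Fin n} {f : Pol (two n)} (hf : Fop l f = 0) (s : ℂ)
    (x : Wd (two n) → ℂ) :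
    eval (fun w => x w + if w l = (1 : Fin 2) then s * x (Function.update w l (0 : Fin 2)) else 0) f
      = eval x f := by
  have h1 := uni_eq_C_of_D_eq_zero (m := two n) l (show (0 : Fin 2) ≠ 1 from ne01) hf
  have key : ((eval x).comp ((Polynomial.evalRingHom (algebraMap ℂ (Pol (two n)) s)).comp
      (Uni (m := two n) l (0 : Fin 2) (1 : Fin 2)).toRingHom))
      = eval (fun w => x w + if w l = (1 : Fin 2) then s * x (Function.update w l (0 : Fin 2)) else 0) := by
    apply MvPolynomial.ringHom_ext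
    · intro r
      simp [Uni, MvPolynomial.algebraMap_eq]
    · intro w
      simp only [Uni, AlgHom.toRingHom_eq_coe, RingHom.coe_comp, RingHom.coe_coe,
        Function.comp_apply, aeval_X, Polynomial.coe_evalRingHom, eval_X]
      split_ifs with h
      · rw [Polynomial.eval_add, Polynomial.eval_mul, Polynomial.eval_C, Polynomial.eval_C,
          Polynomial.eval_X, map_add, map_mul, MvPolynomial.algebraMap_eq, eval_C, eval_X, eval_X]
      · simp
  have h2 := congrArg (fun φ : Pol (two n) →+* ℂ => φ f) key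
  rw [← h2]
  simp only [AlgHom.toRingHom_eq_coe, RingHom.coe_comp, RingHom.coe_coe, Function.comp_apply,
    Polynomial.coe_evalRingHom]
  rw [h1, Polynomial.eval_C]

theorem eval_pt_update {l : Fin n} {f : Pol (two n)} {lam : (Σ i : Fin n, Fin (two n i)) →₀ ℕ}
    (hf : IsWeightedHomogeneous wt f lam) (hF : Fop l f = 0) (P Q : Fin n → ℂ) (a y s t : ℂ) :
    eval (pt (Function.update P l (t * P l + s)) (Function.update Q l (t * Q l + s)) a y) f
      = t ^ (lam ⟨l, (1 : Fin 2)⟩) * eval (pt P Q a y) f := by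
  classical
  set r : (Σ i : Fin n, Fin (two n i)) → ℂ :=
    fun u => if u = ⟨l, (1 : Fin 2)⟩ then t else 1 with hr
  have hr1 : ∀ w : Wd (two n), ∏ i, r ⟨i, w i⟩ = t ^ (w l : ℕ) := by
    intro w
    rw [Finset.prod_eq_single l]
    · rcases fin2_cases (w l) with h | h
      · rw [hr]
        simp [h]
      · rw [hr]
        simp [h]
    · intro i _ hi
      rw [hr]
      simp only
      rw [if_neg]
      intro h
      exact hi (congrArg Sigma.fst h)
    · simp
  have h1 := eval_torus hf r (pt P Q a y)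
  have hr2 : ∏ u, r u ^ lam u = t ^ (lam ⟨l, (1 : Fin 2)⟩) := by
    rw [Finset.prod_eq_single (⟨l, (1 : Fin 2)⟩ : Σ i : Fin n, Fin (two n i))]
    · rw [hr]; simp
    · intro u _ hu
      rw [hr]
      simp only
      rw [if_neg hu, one_pow]
    · simp
  rw [hr2] at h1
  have h2 := eval_unip hF s (fun w => (∏ i, r ⟨i, w i⟩) * pt P Q a y w)
  rw [← h1, ← h2]
  congr 2
  funext w
  simp only [hr1]
  rcases fin2_cases (w l) with h | h
  · rw [if_neg (by rw [h]; exact ne01)]
    simp only [pt]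
    rw [prod_update_pow, prod_update_pow, prod_erase_pow P l w, prod_erase_pow Q l w, h]
    simp
  · rw [if_pos h]
    simp only [pt]
    rw [prod_update_pow, prod_update_pow, prod_update_word, prod_update_word,
      prod_erase_pow P l w, prod_erase_pow Q l w, h]
    simp
    ring

theorem eval_scale [NeZero n] {f : Pol (two n)} {lam : (Σ i : Fin n, Fin (two n i)) →₀ ℕ}
    (hf : IsWeightedHomogeneous wt f lam) (l : Fin n) (P Q : Fin n → ℂ) (a y : ℂ) :
    eval (pt P Q a y) f
      = a ^ (lam ⟨l, (0 : Fin 2)⟩ + lam ⟨l, (1 : Fin 2)⟩) * eval (pt P Q 1 y) f := by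
  classical
  set r : (Σ i : Fin n, Fin (two n i)) → ℂ := fun u => if u.1 = l then a else 1 with hr
  have hr1 : ∀ w : Wd (two n), ∏ i, r ⟨i, w i⟩ = a := by
    intro w
    rw [Finset.prod_eq_single l]
    · rw [hr]; simp
    · intro i _ hi
      rw [hr]
      simp [hi]
    · simp
  have h1 := eval_torus hf r (pt P Q 1 y)
  have hr2 : ∏ u, r u ^ lam u = a ^ (lam ⟨l, (0 : Fin 2)⟩ + lam ⟨l, (1 : Fin 2)⟩) := by
    rw [Fintype.prod_sigma, Finset.prod_eq_single l]
    · rw [Fin.prod_univ_two]
      simp [hr, pow_add]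
    · intro i _ hi
      rw [Fin.prod_univ_two]
      simp [hr, hi]
    · simp
  rw [hr2] at h1
  rw [← h1]
  congr 2
  funext w
  rw [hr1]
  simp [pt]

end Pool.Agent.Helper929_delta
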