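import Mathlib

namespace Pool.Agent.Helper929_delta

/-- a good triple -/
def Good (i j : ℕ) (m : Multiset ℕ) : Prop :=
  (∀ c ∈ m, c ≤ j) ∧ j ≤ i ∧ 2 * j ≤ m.sum ∧ (i = j → Even m.sum)

/-- one step -/
def Step (i j : ℕ) (m : Multiset ℕ) (i' j' : ℕ) (m' : Multiset ℕ) : Prop :=
  ∃ (p q z : ℕ) (P : Multiset ℕ) (M : Multiset (ℕ × ℕ)),
    i' = i + p ∧ j' = j + q ∧ q ≤ p ∧ (∀ a ∈ P, a ≤ j) ∧
    M.map Prod.fst = m + P + P + Multiset.replicate z 0 ∧
    M.map Prod.snd = m' ∧
    (∀ x ∈ M, x.1 ≤ x.2 ∧ x.2 ≤ x.1 + q) ∧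
    2 * q + (M.map Prod.fst).sum ≤ m'.sum ∧
    (p = q → Even (m'.sum + m.sum))

/-- Two multisets of the same size can be matched. -/
theorem exists_zip {α β : Type*} (A : Multiset α) : ∀ (B : Multiset β), A.card = B.card →
    ∃ M : Multiset (α × β), M.map Prod.fst = A ∧ M.map Prod.snd = B := by
  induction A using Multiset.induction with
  | empty =>
    intro B h
    refine ⟨0, by simp, ?_⟩
    rw [Multiset.card_zero] at h
    rw [Multiset.card_eq_zero.1 h.symm]; simp
  | cons a A ih =>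
    intro B h
    rw [Multiset.card_cons] at h
    have hB : 0 < B.card := by omega
    obtain ⟨b, hb⟩ := Multiset.card_pos_iff_exists_mem.1 hB
    obtain ⟨C, rfl⟩ := Multiset.exists_cons_of_mem hb
    rw [Multiset.card_cons] at h
    obtain ⟨M, h1, h2⟩ := ih C (by omega)
    exact ⟨(a, b) ::ₘ M, by simp [h1], by simp [h2]⟩

/-- A multiset can be split with a prescribed size of the first part. -/
theorem exists_split {α : Type*} (M : Multiset α) (n : ℕ) (h : n ≤ M.card) :
    ∃ A C, M = A + C ∧ A.card = n := by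
  induction n with
  | zero => exact ⟨0, M, by simp, by simp⟩
  | succ n ih =>
    obtain ⟨A, C, h1, h2⟩ := ih (by omega)
    have hC : 0 < C.card := by
      have := congrArg Multiset.card h1
      rw [Multiset.card_add] at this
      omega
    obtain ⟨b, hb⟩ := Multiset.card_pos_iff_exists_mem.1 hC
    obtain ⟨D, rfl⟩ := Multiset.exists_cons_of_mem hb
    exact ⟨b ::ₘ A, D, by rw [h1, Multiset.cons_add, Multiset.add_cons], by simp [h2]⟩

/-- Pairing up an even number of large letters. -/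
theorem pairing (j j' : ℕ) (hj : j ≤ j') (k : ℕ) : ∀ R : Multiset ℕ, R.card = 2 * k →
    (∀ y ∈ R, j ≤ y ∧ y ≤ j') →
    ∃ (P : Multiset ℕ) (M : Multiset (ℕ × ℕ)), (∀ a ∈ P, a ≤ j) ∧ M.map Prod.fst = P + P ∧
      M.map Prod.snd = R ∧ ∀ x ∈ M, x.1 ≤ x.2 ∧ x.2 ≤ x.1 + (j' - j) ∧ x.1 ≤ j := by
  induction k with
  | zero =>
    intro R hR _
    have hR0 : R = 0 := Multiset.card_eq_zero.1 (by simpa using hR)
    subst hR0
    exact ⟨0, 0, by simp, by simp, by simp, by simp⟩
  | succ k ih =>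
    intro R hR hy
    obtain ⟨b, hb⟩ := Multiset.card_pos_iff_exists_mem.1 (show 0 < R.card by omega)
    obtain ⟨D, rfl⟩ := Multiset.exists_cons_of_mem hb
    rw [Multiset.card_cons] at hR
    obtain ⟨c, hc⟩ := Multiset.card_pos_iff_exists_mem.1 (show 0 < D.card by omega)
    obtain ⟨E, rfl⟩ := Multiset.exists_cons_of_mem hc
    rw [Multiset.card_cons] at hR
    obtain ⟨P, M, h1, h2, h3, h4⟩ := ih E (by omega) (fun y h => hy y (by simp [h]))
    have hb' := hy b (by simp)
    have hc' := hy c (by simp)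
    refine ⟨(j - min (j' - b) (j' - c)) ::ₘ P,
      (j - min (j' - b) (j' - c), b) ::ₘ (j - min (j' - b) (j' - c), c) ::ₘ M, ?_, ?_, ?_, ?_⟩
    · intro a ha
      rcases Multiset.mem_cons.1 ha with rfl | ha
      · omega
      · exact h1 a ha
    · simp [h2]
    · simp [h3]
    · intro x hx
      rcases Multiset.mem_cons.1 hx with rfl | hx
      · simp only; omega
      rcases Multiset.mem_cons.1 hx with rfl | hx
      · simp only; omega
      exact h4 x hx

theorem sum_fst_le_snd (M : Multiset (ℕ × ℕ)) (h : ∀ x ∈ M, x.1 ≤ x.2) :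
    (M.map Prod.fst).sum ≤ (M.map Prod.snd).sum :=
  Multiset.sum_map_le_sum_map _ _ h

theorem sum_fst_add_le (M : Multiset (ℕ × ℕ)) (q : ℕ) (h : ∀ x ∈ M, x.1 + q ≤ x.2) :
    (M.map Prod.fst).sum + M.card * q ≤ (M.map Prod.snd).sum := by
  have : (M.map (fun x => x.1 + q)).sum ≤ (M.map Prod.snd).sum :=
    Multiset.sum_map_le_sum_map _ _ h
  rw [Multiset.sum_map_add, Multiset.map_const', Multiset.sum_replicate, smul_eq_mul] at this
  exact this

/-- The end of case D. -/
theorem caseD_core (i j i' j' : ℕ) (m m' : Multiset ℕ) (hg : Good i j m) (hg' : Good i' j' m')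
    (h1 : j ≤ j') (h2 : i - j ≤ i' - j') (hpar : Even (m'.sum + m.sum)) (B : ℕ)
    (hmid : m.card + 4 ≤ (m'.filter (fun y => j < j' - y ∧ j' - y ≤ B)).card)
    (hbig : 3 * (B + j) + 2 * j ≤ j') : Step i j m i' j' m' := by
  classical
  obtain ⟨ha, hb, hc, hd⟩ := hg
  obtain ⟨ha', hb', hc', hd'⟩ := hg'
  set Mid := m'.filter (fun y => j < j' - y ∧ j' - y ≤ B) with hMid
  have hMidmem : ∀ y ∈ Mid, y ∈ m' ∧ j < j' - y ∧ j' - y ≤ B := by
    intro y hy
    exact Multiset.mem_filter.1 hy
  obtain ⟨A, C, hAC, hAcard⟩ := exists_split Mid m.card (by omega)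
  have hCcard : 4 ≤ C.card := by
    have := congrArg Multiset.card hAC
    rw [Multiset.card_add] at this
    omega
  obtain ⟨MA, hMA1, hMA2⟩ := exists_zip m A hAcard.symm
  set R0 := m'.filter (fun y => ¬ (j < j' - y ∧ j' - y ≤ B)) with hR0
  have hm' : Mid + R0 = m' := Multiset.filter_add_not _ _
  set L := C + R0 with hL
  have hAL : A + L = m' := by rw [hL, ← add_assoc, ← hAC, hm']
  have hAmem : ∀ y ∈ A, y ∈ m' ∧ j < j' - y ∧ j' - y ≤ B := by
    intro y hy
    exact hMidmem y (by rw [hAC]; exact Multiset.mem_add.2 (Or.inl hy))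
  have hCmem : ∀ y ∈ C, y ∈ m' ∧ j < j' - y ∧ j' - y ≤ B := by
    intro y hy
    exact hMidmem y (by rw [hAC]; exact Multiset.mem_add.2 (Or.inr hy))
  have hLmem : ∀ y ∈ L, y ∈ m' := by
    intro y hy
    rw [← hAL]; exact Multiset.mem_add.2 (Or.inr hy)
  set S := L.filter (fun y => y < j) with hS
  set G := L.filter (fun y => ¬ y < j) with hG
  have hSG : S + G = L := Multiset.filter_add_not _ _
  -- parity
  have key : ∃ (z' : ℕ) (P : Multiset ℕ) (N : Multiset (ℕ × ℕ)), (∀ a ∈ P, a ≤ j) ∧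
      N.map Prod.fst = P + P + Multiset.replicate z' 0 ∧ N.map Prod.snd = G ∧
      ∀ x ∈ N, x.1 ≤ x.2 ∧ x.2 ≤ x.1 + (j' - j) ∧ x.1 ≤ j := by
    rcases Nat.even_or_odd G.card with he | ho
    · obtain ⟨k, hk⟩ := he
      obtain ⟨P, M, h1, h2, h3, h4⟩ := pairing j j' h1 k G (by omega) (by
        intro y hy
        obtain ⟨hy1, hy2⟩ := Multiset.mem_filter.1 hy
        exact ⟨by omega, ha' y (hLmem y hy1)⟩)
      exact ⟨0, P, M, h1, by simp [h2], h3, h4⟩
    · obtain ⟨k, hk⟩ := ho
      obtain ⟨c, hcC⟩ := Multiset.card_pos_iff_exists_mem.1 (show 0 < C.card by omega)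
      have hc3 := hCmem c hcC
      have hcj := ha' c hc3.1
      have hcG : c ∈ G := by
        rw [hG, Multiset.mem_filter]
        refine ⟨by rw [hL]; exact Multiset.mem_add.2 (Or.inl hcC), ?_⟩
        omega
      obtain ⟨G', hG'⟩ := Multiset.exists_cons_of_mem hcG
      have hcard : G.card = G'.card + 1 := by rw [hG']; simp
      obtain ⟨P, M, h1, h2, h3, h4⟩ := pairing j j' h1 k G' (by omega) (by
        intro y hy
        have hy0 : y ∈ G := by rw [hG']; exact Multiset.mem_cons_of_mem hy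
        obtain ⟨hy1, hy2⟩ := Multiset.mem_filter.1 hy0
        exact ⟨by omega, ha' y (hLmem y hy1)⟩)
      refine ⟨1, P, (0, c) ::ₘ M, h1, ?_, ?_, ?_⟩
      · rw [Multiset.map_cons, h2, Multiset.replicate_one, ← Multiset.singleton_add, add_comm]
      · rw [Multiset.map_cons, h3, hG']
      · intro x hx
        rcases Multiset.mem_cons.1 hx with rfl | hx
        · simp only; omega
        exact h4 x hx
  obtain ⟨z', P, N, hP, hN1, hN2, hN3⟩ := key
  set M := MA + S.map (fun y => (0, y)) + N with hM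
  have hMfst : M.map Prod.fst = m + P + P + Multiset.replicate (S.card + z') 0 := by
    rw [hM, Multiset.map_add, Multiset.map_add, hMA1, hN1, Multiset.map_map]
    have : S.map (Prod.fst ∘ fun y => ((0 : ℕ), y)) = Multiset.replicate S.card 0 := by
      rw [show (Prod.fst ∘ fun y : ℕ => ((0 : ℕ), y)) = fun _ => 0 from rfl, Multiset.map_const']
    rw [this, Multiset.replicate_add]
    abel
  have hMsnd : M.map Prod.snd = m' := by
    rw [hM, Multiset.map_add, Multiset.map_add, hMA2, hN2, Multiset.map_map]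
    have : S.map (Prod.snd ∘ fun y => ((0 : ℕ), y)) = S := by
      rw [show (Prod.snd ∘ fun y : ℕ => ((0 : ℕ), y)) = id from rfl, Multiset.map_id]
    rw [this, add_assoc, hSG, hAL]
  have hMmem : ∀ x ∈ M, x.1 ≤ x.2 ∧ x.2 ≤ x.1 + (j' - j) ∧ x.1 ≤ j := by
    intro x hx
    rw [hM] at hx
    rcases Multiset.mem_add.1 hx with hx | hx
    · rcases Multiset.mem_add.1 hx with hx | hx
      · have e1 : x.1 ∈ m := by rw [← hMA1]; exact Multiset.mem_map_of_mem _ hx
        have e2 : x.2 ∈ A := by rw [← hMA2]; exact Multiset.mem_map_of_mem _ hx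
        have e3 := ha _ e1
        have e4 := hAmem _ e2
        have e5 := ha' _ e4.1
        omega
      · obtain ⟨y, hy, rfl⟩ := Multiset.mem_map.1 hx
        have := (Multiset.mem_filter.1 hy).2
        simp only; omega
    · exact hN3 x hx
  refine ⟨i' - i, j' - j, S.card + z', P, M, by omega, by omega, by omega, hP, hMfst, hMsnd,
    fun x hx => ⟨(hMmem x hx).1, (hMmem x hx).2.1⟩, ?_, fun _ => hpar⟩
  -- the sum condition
  have s1 : (M.map Prod.fst).sum ≤ (M.map (fun x => min x.2 j)).sum :=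
    Multiset.sum_map_le_sum_map _ _ (fun x hx => le_min (hMmem x hx).1 (hMmem x hx).2.2)
  have s2 : M.map (fun x => min x.2 j) = m'.map (fun y => min y j) := by
    rw [← hMsnd, Multiset.map_map]; rfl
  have s3 : (m'.map (fun y => min y j)).sum + 4 * (j' - B - j) ≤ m'.sum := by
    have t1 : (Mid.map (fun y => min y j + (j' - B - j))).sum ≤ (Mid.map (fun y => y)).sum := by
      apply Multiset.sum_map_le_sum_map
      intro y hy
      have := hMidmem y hy
      have := ha' y this.1
      omega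
    rw [Multiset.sum_map_add, Multiset.map_const', Multiset.sum_replicate, smul_eq_mul] at t1
    have t2 : (R0.map (fun y => min y j)).sum ≤ (R0.map (fun y => y)).sum := by
      apply Multiset.sum_map_le_sum_map
      intro y hy
      simp
    have t3 : m'.sum = (Mid.map (fun y => y)).sum + (R0.map (fun y => y)).sum := by
      rw [Multiset.map_id', Multiset.map_id', ← Multiset.sum_add, hm']
    have t4 : (m'.map (fun y => min y j)).sum
        = (Mid.map (fun y => min y j)).sum + (R0.map (fun y => min y j)).sum := by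
      rw [← Multiset.sum_add, ← Multiset.map_add, hm']
    have t5 : 4 * (j' - B - j) ≤ Mid.card * (j' - B - j) :=
      Nat.mul_le_mul_right _ (by omega)
    omega
  rw [s2] at s1
  omega

/-- The end of case C. -/
theorem caseC_core (v i j i' j' : ℕ) (m m' : Multiset ℕ) (hg : Good i j m) (hg' : Good i' j' m')
    (h1 : j ≤ j') (h2 : i - j ≤ i' - j') (h3 : m.sum - 2 * j ≤ m'.sum - 2 * j')
    (hpar : Even (m'.sum + m.sum)) (hv : j = j' ∨ v ≤ j)
    (H : Multiset ℕ)
    (hH : (m'.filter (fun y => j' - y ≤ v)).map (fun y => j' - y)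
      = (m.filter (fun y => j - y ≤ v)).map (fun y => j - y) + H + H)
    (hgap : ∀ y ∈ m', ¬ (v < j' - y ∧ j' - y ≤ j))
    (M₁ : Multiset (ℕ × ℕ)) (hM1 : M₁.map Prod.fst = m.filter (fun y => ¬ j - y ≤ v))
    (hM2 : M₁.map Prod.snd ≤ m'.filter (fun y => ¬ j' - y ≤ v))
    (hM3 : ∀ x ∈ M₁, x.1 ≤ x.2 ∧ x.2 ≤ x.1 + (j' - j)) : Step i j m i' j' m' := by
  classical
  obtain ⟨ha, hb, hc, hd⟩ := hg
  obtain ⟨ha', hb', hc', hd'⟩ := hg'
  obtain ⟨Z, hZ⟩ := Multiset.le_iff_exists_add.1 hM2
  set D' := (m'.filter (fun y => j' - y ≤ v)).map (fun y => j' - y) with hD'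
  set D := (m.filter (fun y => j - y ≤ v)).map (fun y => j - y) with hD
  have hDnear : D.map (fun u => j - u) = m.filter (fun y => j - y ≤ v) := by
    rw [hD, Multiset.map_map]
    conv_rhs => rw [← Multiset.map_id (m.filter (fun y => j - y ≤ v))]
    apply Multiset.map_congr rfl
    intro y hy
    have := ha y (Multiset.mem_filter.1 hy).1
    simp only [Function.comp, id]; omega
  have hDnear' : D'.map (fun u => j' - u) = m'.filter (fun y => j' - y ≤ v) := by
    rw [hD', Multiset.map_map]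
    conv_rhs => rw [← Multiset.map_id (m'.filter (fun y => j' - y ≤ v))]
    apply Multiset.map_congr rfl
    intro y hy
    have := ha' y (Multiset.mem_filter.1 hy).1
    simp only [Function.comp, id]; omega
  set P := H.map (fun u => j - u) with hP
  set N := D'.map (fun u => (j - u, j' - u)) with hN
  have hNfst : N.map Prod.fst = m.filter (fun y => j - y ≤ v) + P + P := by
    rw [hN, Multiset.map_map, show (Prod.fst ∘ fun u : ℕ => (j - u, j' - u)) = fun u => j - u from rfl,
      hH, Multiset.map_add, Multiset.map_add, hDnear]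
  have hNsnd : N.map Prod.snd = m'.filter (fun y => j' - y ≤ v) := by
    rw [hN, Multiset.map_map,
      show (Prod.snd ∘ fun u : ℕ => (j - u, j' - u)) = fun u => j' - u from rfl, hDnear']
  set K := Z.map (fun y => ((0 : ℕ), y)) with hK
  have hKfst : K.map Prod.fst = Multiset.replicate Z.card 0 := by
    rw [hK, Multiset.map_map,
      show (Prod.fst ∘ fun y : ℕ => ((0 : ℕ), y)) = fun _ => 0 from rfl, Multiset.map_const']
  have hKsnd : K.map Prod.snd = Z := by
    rw [hK, Multiset.map_map,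
      show (Prod.snd ∘ fun y : ℕ => ((0 : ℕ), y)) = id from rfl, Multiset.map_id]
  have hNmem : ∀ x ∈ N, x.1 ≤ x.2 ∧ x.2 ≤ x.1 + (j' - j) := by
    intro x hx
    obtain ⟨u, hu, rfl⟩ := Multiset.mem_map.1 hx
    simp only; omega
  have hKmem : ∀ x ∈ K, x.1 ≤ x.2 ∧ x.2 ≤ x.1 + (j' - j) := by
    intro x hx
    obtain ⟨y, hy, rfl⟩ := Multiset.mem_map.1 hx
    have hy' : y ∈ m'.filter (fun y => ¬ j' - y ≤ v) := by
      rw [hZ]; exact Multiset.mem_add.2 (Or.inr hy)
    obtain ⟨hy1, hy2⟩ := Multiset.mem_filter.1 hy'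
    have := hgap y hy1
    have := ha' y hy1
    simp only
    omega
  have hm : m.filter (fun y => j - y ≤ v) + m.filter (fun y => ¬ j - y ≤ v) = m :=
    Multiset.filter_add_not _ _
  have hm' : m'.filter (fun y => j' - y ≤ v) + m'.filter (fun y => ¬ j' - y ≤ v) = m' :=
    Multiset.filter_add_not _ _
  have hMfst : (N + M₁ + K).map Prod.fst = m + P + P + Multiset.replicate Z.card 0 := by
    rw [Multiset.map_add, Multiset.map_add, hNfst, hM1, hKfst]
    conv_rhs => rw [← hm]
    abel
  have hMsnd : (N + M₁ + K).map Prod.snd = m' := by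
    rw [Multiset.map_add, Multiset.map_add, hNsnd, hKsnd, add_assoc, ← hZ, hm']
  have hMmem : ∀ x ∈ N + M₁ + K, x.1 ≤ x.2 ∧ x.2 ≤ x.1 + (j' - j) := by
    intro x hx
    rcases Multiset.mem_add.1 hx with hx | hx
    · rcases Multiset.mem_add.1 hx with hx | hx
      · exact hNmem x hx
      · exact hM3 x hx
    · exact hKmem x hx
  refine ⟨i' - i, j' - j, Z.card, P, N + M₁ + K, by omega, by omega, by omega, ?_, hMfst, hMsnd,
    hMmem, ?_, fun _ => hpar⟩
  · intro a haP
    obtain ⟨u, _, rfl⟩ := Multiset.mem_map.1 haP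
    omega
  -- the sum condition
  rcases hv with hv | hv
  · subst hv
    have := sum_fst_le_snd _ (fun x hx => (hMmem x hx).1)
    rw [hMsnd] at this
    omega
  by_cases hcard : 2 ≤ D'.card
  · have e1 : (N.map Prod.fst).sum + N.card * (j' - j) ≤ (N.map Prod.snd).sum := by
      apply sum_fst_add_le
      intro x hx
      obtain ⟨u, hu, rfl⟩ := Multiset.mem_map.1 hx
      obtain ⟨y, hy, rfl⟩ := Multiset.mem_map.1 hu
      have h5 := (Multiset.mem_filter.1 hy).2
      have h6 := ha' y (Multiset.mem_filter.1 hy).1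
      simp only; omega
    have e2 := sum_fst_le_snd _ (fun x hx => (hM3 x hx).1)
    have e3 := sum_fst_le_snd _ (fun x hx => (hKmem x hx).1)
    have e4 : ((N + M₁ + K).map Prod.fst).sum
        = (N.map Prod.fst).sum + (M₁.map Prod.fst).sum + (K.map Prod.fst).sum := by
      rw [Multiset.map_add, Multiset.map_add, Multiset.sum_add, Multiset.sum_add]
    have e5 : m'.sum
        = (N.map Prod.snd).sum + (M₁.map Prod.snd).sum + (K.map Prod.snd).sum := by
      rw [← hMsnd, Multiset.map_add, Multiset.map_add, Multiset.sum_add, Multiset.sum_add]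
    have e6 : N.card = D'.card := by rw [hN, Multiset.card_map]
    have e7 : 2 * (j' - j) ≤ N.card * (j' - j) := Nat.mul_le_mul_right _ (by omega)
    omega
  · have hHcard : H.card = 0 := by
      have := congrArg Multiset.card hH
      rw [Multiset.card_add, Multiset.card_add] at this
      omega
    have hH0 : H = 0 := Multiset.card_eq_zero.1 hHcard
    have hP0 : P = 0 := by rw [hP, hH0]; simp
    rw [hMfst, hP0]
    simp only [add_zero, Multiset.sum_add, Multiset.sum_replicate, smul_eq_mul, mul_zero]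
    omega

/-- The relation of the lists gives a matching. -/
theorem forall₂_matching {α β : Type*} {R : α → β → Prop} {l₁ : List α} {l₂ : List β}
    (h : List.Forall₂ R l₁ l₂) : ∃ M : Multiset (α × β), M.map Prod.fst = (l₁ : Multiset α) ∧
      M.map Prod.snd = (l₂ : Multiset β) ∧ ∀ x ∈ M, R x.1 x.2 := by
  induction h with
  | nil => exact ⟨0, by simp, by simp, by simp⟩
  | @cons a b l₁ l₂ hab _ ih =>
    obtain ⟨M, h1, h2, h3⟩ := ih
    refine ⟨(a, b) ::ₘ M, by simp [h1], by simp [h2], ?_⟩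
    intro x hx
    rcases Multiset.mem_cons.1 hx with rfl | hx
    · exact hab
    · exact h3 x hx

/-- The list of the deep letters, with their depths. -/
noncomputable def deep (v j : ℕ) (m : Multiset ℕ) : List (ℕ × ℕ) :=
  (m.filter (fun y => ¬ j - y ≤ v)).toList.map (fun y => (y, j - y))

theorem deep_matching (v j j' : ℕ) (m m' : Multiset ℕ) (h1 : j ≤ j')
    (ha : ∀ c ∈ m, c ≤ j) (ha' : ∀ c ∈ m', c ≤ j')
    (h : List.SublistForall₂ (fun a b : ℕ × ℕ => a ≤ b) (deep v j m) (deep v j' m')) :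
    ∃ M₁ : Multiset (ℕ × ℕ), M₁.map Prod.fst = m.filter (fun y => ¬ j - y ≤ v) ∧
      M₁.map Prod.snd ≤ m'.filter (fun y => ¬ j' - y ≤ v) ∧
      ∀ x ∈ M₁, x.1 ≤ x.2 ∧ x.2 ≤ x.1 + (j' - j) := by
  obtain ⟨l, hl1, hl2⟩ := List.sublistForall₂_iff.1 h
  obtain ⟨M, hM1, hM2, hM3⟩ := forall₂_matching hl1
  have hdeep : ∀ (j : ℕ) (m : Multiset ℕ), ((deep v j m : List (ℕ × ℕ)) : Multiset (ℕ × ℕ))
      = (m.filter (fun y => ¬ j - y ≤ v)).map (fun y => (y, j - y)) := by
    intro j m
    rw [deep, ← Multiset.map_coe, Multiset.coe_toList]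
  have hle : M.map Prod.snd ≤ (m'.filter (fun y => ¬ j' - y ≤ v)).map (fun y => (y, j' - y)) := by
    rw [hM2, ← hdeep]
    exact Multiset.coe_le.2 hl2.subperm
  refine ⟨M.map (fun p => (p.1.1, p.2.1)), ?_, ?_, ?_⟩
  · have : (M.map (fun p => (p.1.1, p.2.1))).map Prod.fst = (M.map Prod.fst).map Prod.fst := by
      rw [Multiset.map_map, Multiset.map_map]; rfl
    rw [this, hM1, hdeep, Multiset.map_map]
    rw [show (Prod.fst ∘ fun y : ℕ => (y, j - y)) = id from rfl, Multiset.map_id]
  · have : (M.map (fun p => (p.1.1, p.2.1))).map Prod.snd = (M.map Prod.snd).map Prod.fst := by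
      rw [Multiset.map_map, Multiset.map_map]; rfl
    rw [this]
    refine (Multiset.map_le_map hle).trans ?_
    rw [Multiset.map_map, show (Prod.fst ∘ fun y : ℕ => (y, j' - y)) = id from rfl,
      Multiset.map_id]
  · intro x hx
    obtain ⟨p, hp, rfl⟩ := Multiset.mem_map.1 hx
    have e1 : p.1 ∈ (m.filter (fun y => ¬ j - y ≤ v)).map (fun y => (y, j - y)) := by
      rw [← hdeep, ← hM1]; exact Multiset.mem_map_of_mem _ hp
    have e2 : p.2 ∈ (m'.filter (fun y => ¬ j' - y ≤ v)).map (fun y => (y, j' - y)) :=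
      Multiset.mem_of_le hle (Multiset.mem_map_of_mem _ hp)
    obtain ⟨y, hy, hy'⟩ := Multiset.mem_map.1 e1
    obtain ⟨y2, hy2, hy2'⟩ := Multiset.mem_map.1 e2
    have e3 := hM3 p hp
    rw [← hy', ← hy2'] at e3 ⊢
    have e4 := ha y (Multiset.mem_filter.1 hy).1
    have e5 := ha' y2 (Multiset.mem_filter.1 hy2).1
    have e6 := e3.1
    have e7 := e3.2
    simp only at e6 e7 ⊢
    omega

/-- Doubling: if the counts differ by even numbers. -/
theorem exists_double (v : ℕ) (D D' : Multiset ℕ) (hD : ∀ u ∈ D, u ≤ v) (hD' : ∀ u ∈ D', u ≤ v)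
    (h : ∀ u ≤ v, D.count u ≤ D'.count u ∧ D.count u % 2 = D'.count u % 2) :
    ∃ H : Multiset ℕ, D' = D + H + H := by
  refine ⟨∑ u ∈ Finset.range (v + 1), Multiset.replicate ((D'.count u - D.count u) / 2) u, ?_⟩
  ext u
  rw [Multiset.count_add, Multiset.count_add, Multiset.count_sum']
  simp only [Multiset.count_replicate]
  rw [Finset.sum_ite_eq' (Finset.range (v + 1)) u]
  by_cases hu : u ≤ v
  · rw [if_pos (Finset.mem_range.2 (by omega))]
    have := h u hu
    omega
  · rw [if_neg (by rw [Finset.mem_range]; omega)]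
    rw [Multiset.count_eq_zero.2 (fun h => hu (hD u h)),
      Multiset.count_eq_zero.2 (fun h => hu (hD' u h))]
    rfl

/-- The quantities used in case D. -/
def dataD (i j : ℕ) (m : Multiset ℕ) : ℕ × ℕ × ℕ × ℕ × ℕ :=
  (j, i - j, m.sum - 2 * j, m.sum % 2, 1 - m.sum % 2)

/-- The quantities used in case C. -/
def dataC (v i j : ℕ) (m : Multiset ℕ) : (ℕ × ℕ × ℕ × ℕ × ℕ) × (ℕ × ℕ) ×
    (Fin (v + 1) → ℕ × ℕ × ℕ) :=
  (dataD i j m, (min j v, v - min j v), fun u =>
    (((m.filter (fun y => j - y ≤ v)).map (fun y => j - y)).count (u : ℕ),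
      ((m.filter (fun y => j - y ≤ v)).map (fun y => j - y)).count (u : ℕ) % 2,
      1 - ((m.filter (fun y => j - y ≤ v)).map (fun y => j - y)).count (u : ℕ) % 2))

theorem higman : WellQuasiOrdered (List.SublistForall₂ (fun a b : ℕ × ℕ => a ≤ b)) := by
  have h := Set.PartiallyWellOrderedOn.partiallyWellOrderedOn_sublistForall₂
    (fun a b : ℕ × ℕ => a ≤ b) (s := Set.univ)
    (Set.partiallyWellOrderedOn_univ_iff.2 wellQuasiOrdered_le)
  have e : {l : List (ℕ × ℕ) | ∀ x, x ∈ l → x ∈ (Set.univ : Set (ℕ × ℕ))} = Set.univ := by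
    ext l; simp
  rw [e] at h
  exact Set.partiallyWellOrderedOn_univ_iff.1 h

/-- TARGET -/
theorem exists_step (i j : ℕ → ℕ) (m : ℕ → Multiset ℕ)
    (hgood : ∀ t, Good (i t) (j t) (m t)) :
    ∃ r s, r < s ∧ Step (i r) (j r) (m r) (i s) (j s) (m s) := by
  classical
  by_cases hC : ∃ v, ∀ B N, ∃ s, N ≤ s ∧ ∀ y ∈ m s, ¬ (v < j s - y ∧ j s - y ≤ B)
  · obtain ⟨v, hv⟩ := hC
    obtain ⟨φ, -, hφ⟩ := exists_seq_of_forall_finset_exists (fun _ : ℕ => True)
      (fun x y => x < y ∧ ∀ c ∈ m y, ¬ (v < j y - c ∧ j y - c ≤ j x)) (by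
        intro S _
        obtain ⟨s, hs1, hs2⟩ := hv (S.sup j) (S.sup id + 1)
        refine ⟨s, trivial, fun x hx => ⟨?_, ?_⟩⟩
        · have : id x ≤ S.sup id := Finset.le_sup hx
          simp only [id] at this
          omega
        · intro c hc hcc
          have : j x ≤ S.sup j := Finset.le_sup hx
          exact hs2 c hc ⟨hcc.1, by omega⟩)
    have hw := (wellQuasiOrdered_le (α := (ℕ × ℕ × ℕ × ℕ × ℕ) × (ℕ × ℕ) ×
      (Fin (v + 1) → ℕ × ℕ × ℕ))).prod higman
    obtain ⟨r, s, hrs, hle, hsub⟩ := hw (fun t => (dataC v (i (φ t)) (j (φ t)) (m (φ t)),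
      deep v (j (φ t)) (m (φ t))))
    have hφrs := hφ r s hrs
    simp only at hle hsub
    set a := φ r
    set b := φ s
    obtain ⟨⟨q1, q2, q3, q4, q5⟩, ⟨q6, q7⟩, q8⟩ := hle
    simp only [dataC, dataD] at q1 q2 q3 q4 q5 q6 q7
    have q8' : ∀ u : Fin (v + 1), _ := fun u => q8 u
    simp only [dataC] at q8'
    have hga := hgood a
    have hgb := hgood b
    obtain ⟨H, hH⟩ := exists_double v
      (((m a).filter (fun y => j a - y ≤ v)).map (fun y => j a - y))
      (((m b).filter (fun y => j b - y ≤ v)).map (fun y => j b - y))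
      (by
        intro u hu
        obtain ⟨y, hy, rfl⟩ := Multiset.mem_map.1 hu
        exact (Multiset.mem_filter.1 hy).2)
      (by
        intro u hu
        obtain ⟨y, hy, rfl⟩ := Multiset.mem_map.1 hu
        exact (Multiset.mem_filter.1 hy).2)
      (by
        intro u hu
        have := q8' ⟨u, by omega⟩
        obtain ⟨p1, p2, p3⟩ := this
        simp only at p1 p2 p3
        refine ⟨p1, ?_⟩
        omega)
    obtain ⟨M₁, w1, w2, w3⟩ := deep_matching v (j a) (j b) (m a) (m b) q1 hga.1 hgb.1 hsub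
    refine ⟨a, b, hφrs.1, caseC_core v _ _ _ _ _ _ hga hgb q1 q2 q3 ?_ ?_ H hH hφrs.2 M₁ w1 w2 w3⟩
    · rw [Nat.even_iff]; omega
    · omega
  · push Not at hC
    -- many letters
    have hmany : ∀ K v, ∃ B N, v ≤ B ∧ ∀ s, N ≤ s →
        K ≤ ((m s).filter (fun y => v < j s - y ∧ j s - y ≤ B)).card := by
      intro K
      induction K with
      | zero => intro v; exact ⟨v, 0, le_refl _, by simp⟩
      | succ K ih =>
        intro v
        obtain ⟨B, N, hBN⟩ := hC v
        obtain ⟨B', N', hB', hBN'⟩ := ih (max B v)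
        refine ⟨B', max N N', by omega, fun s hs => ?_⟩
        obtain ⟨y, hy, hy1, hy2⟩ := hBN s (by omega)
        have e1 := hBN' s (by omega)
        have e2 : y ::ₘ (m s).filter (fun y => max B v < j s - y ∧ j s - y ≤ B')
            ≤ (m s).filter (fun y => v < j s - y ∧ j s - y ≤ B') := by
          rw [Multiset.le_iff_count]
          intro c
          rw [Multiset.count_cons, Multiset.count_filter, Multiset.count_filter]
          have := Multiset.count_pos.2 hy
          by_cases hcy : c = y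
          · subst hcy
            rw [if_neg (by omega), if_pos rfl, if_pos (by omega)]
            omega
          · rw [if_neg hcy]
            split_ifs with f1 f2 f2
            · omega
            · omega
            · omega
            · omega
        have e3 := Multiset.card_le_card e2
        rw [Multiset.card_cons] at e3
        omega
    obtain ⟨g, hg⟩ := (wellQuasiOrdered_le (α := ℕ × ℕ × ℕ × ℕ × ℕ)).exists_monotone_subseq
      (fun t => dataD (i t) (j t) (m t))
    obtain ⟨B, N, -, hBN⟩ := hmany ((m (g 0)).card + 4) (j (g 0))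
    obtain ⟨B2, N2, hB2⟩ := hC (3 * (B + j (g 0)) + 2 * j (g 0))
    have hgs : ∀ n, n ≤ g n := fun n => g.strictMono.id_le n
    set s := max 1 (max N N2) with hs
    have hs1 := hgs s
    obtain ⟨q1, q2, q3, q4, q5⟩ := hg 0 s (by omega)
    simp only [dataD] at q1 q2 q3 q4 q5
    obtain ⟨y, hy, hy1, hy2⟩ := hB2 (g s) (by omega)
    refine ⟨g 0, g s, g.strictMono (by omega), caseD_core _ _ _ _ _ _ (hgood _) (hgood _) q1 q2 ?_ B
      (hBN _ (by omega)) (by omega)⟩
    rw [Nat.even_iff]; omega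

end Pool.Agent.Helper929_delta
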