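import Pool.Agent.Helper929_delta.Acc

/-
From Delta-ideals to families in factors of dimension two.
-/

namespace Pool.Agent.Helper929_delta

open MvPolynomial

theorem mapLin_X_of {n : ℕ} {m m' : Fin n → ℕ} (A : ∀ i, Matrix (Fin (m' i)) (Fin (m i)) ℂ)
    (w : Wd m) {κ : Type*} [Fintype κ] (e : κ → Wd m') (he : Function.Injective e) (γ : κ → ℂ)
    (h1 : ∀ x, ∏ i, A i (e x i) (w i) = γ x)
    (h2 : ∀ w', w' ∉ Set.range e → ∏ i, A i (w' i) (w i) = 0) :
    mapLin A (X w) = ∑ x, C (γ x) * X (e x) := by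
  classical
  rw [mapLin, aeval_X, ← Finset.sum_subset (Finset.subset_univ (Finset.univ.image e))]
  · rw [Finset.sum_image (fun x _ y _ h => he h)]
    refine Finset.sum_congr rfl fun x _ => ?_
    rw [h1]
  · intro w' _ hw'
    rw [h2, C_0, zero_mul]
    rintro ⟨x, rfl⟩
    exact hw' (Finset.mem_image_of_mem e (Finset.mem_univ x))

/-- words for two families with the same dimensions -/
def castWord {n : ℕ} {m m' : Fin n → ℕ} (h : ∀ i, m i = m' i) (w : Wd m) : Wd m' :=
  fun i => Fin.cast (h i) (w i)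

theorem mapLin_cast {n : ℕ} {m m' : Fin n → ℕ} (h : ∀ i, m i = m' i) (f : Pol m) :
    mapLin (fun i => (Matrix.of fun (a : Fin (m' i)) (b : Fin (m i)) =>
      if (a : ℕ) = (b : ℕ) then (1 : ℂ) else 0)) f = rename (castWord h) f := by
  have key : mapLin (fun i => (Matrix.of fun (a : Fin (m' i)) (b : Fin (m i)) =>
      if (a : ℕ) = (b : ℕ) then (1 : ℂ) else 0)) = rename (castWord h) := by
    apply MvPolynomial.algHom_ext
    intro w
    rw [rename_X, mapLin_X_of (κ := Unit) _ w (fun _ => castWord h w) (fun _ _ _ => rfl)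
      (fun _ => 1)]
    · simp
    · intro _
      simp [castWord]
    · intro w' hw'
      obtain ⟨i, hi⟩ : ∃ i, w' i ≠ castWord h w i := by
        by_contra hcon
        push Not at hcon
        exact hw' ⟨(), (funext hcon).symm⟩
      rw [Finset.prod_eq_zero (Finset.mem_univ i)]
      simp only [Matrix.of_apply]
      rw [if_neg]
      intro h3
      apply hi
      ext
      simpa [castWord] using h3
  rw [key]

theorem DeltaIdeal.cast_mem (J : DeltaIdeal) {n : ℕ} {m m' : Fin (n + 1) → ℕ}
    (h : ∀ i, m i = m' i) {f : Pol m} (hf : f ∈ J.I m) : rename (castWord h) f ∈ J.I m' := by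
  rw [← mapLin_cast]
  exact J.lin m m' _ f hf

/-- put a new letter in front of a word -/
def frontWord {n : ℕ} (a b : ℕ) (m : Fin n → ℕ) (z : Fin a)
    (w : Wd (Fin.cons b m : Fin (n + 1) → ℕ)) :
    Wd (Fin.cons a (Fin.cons b m : Fin (n + 1) → ℕ) : Fin (n + 2) → ℕ) :=
  Fin.cons z w

theorem DeltaIdeal.insert_mem (J : DeltaIdeal) {n : ℕ} (a b : ℕ) (m : Fin n → ℕ) (y : Fin a → ℂ)
    {f : Pol (Fin.cons b m : Fin (n + 1) → ℕ)} (hf : f ∈ J.I (Fin.cons b m : Fin (n + 1) → ℕ)) :
    aeval (fun w : Wd (Fin.cons b m : Fin (n + 1) → ℕ) =>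
      ∑ z : Fin a, C (y z) * X (frontWord a b m z w)) f
      ∈ J.I (Fin.cons a (Fin.cons b m : Fin (n + 1) → ℕ) : Fin (n + 2) → ℕ) := by
  classical
  set A : ∀ i : Fin (n + 1), Matrix (Fin ((Fin.cons (a * b) m : Fin (n + 1) → ℕ) i))
      (Fin ((Fin.cons b m : Fin (n + 1) → ℕ) i)) ℂ :=
    Fin.cases (motive := fun i => Matrix (Fin ((Fin.cons (a * b) m : Fin (n + 1) → ℕ) i))
      (Fin ((Fin.cons b m : Fin (n + 1) → ℕ) i)) ℂ)
      (Matrix.of fun (x : Fin (a * b)) (c : Fin b) =>
        y (finProdFinEquiv.symm x).1 * if (finProdFinEquiv.symm x).2 = c then 1 else 0)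
      (fun i => (1 : Matrix (Fin (m i)) (Fin (m i)) ℂ)) with hA
  have h1 := J.lin _ _ A f hf
  have h2 := J.split a b m _ h1
  have key : ((rename (splitWord a b m)).comp (mapLin A))
      = (aeval (fun w : Wd (Fin.cons b m : Fin (n + 1) → ℕ) =>
        ∑ z : Fin a, C (y z) * X (frontWord a b m z w)) :
        Pol (Fin.cons b m : Fin (n + 1) → ℕ) →ₐ[ℂ] _) := by
    apply MvPolynomial.algHom_ext
    intro w
    rw [AlgHom.comp_apply, aeval_X]
    rw [mapLin_X_of (κ := Fin a) A w
      (fun z => (Fin.cons (α := fun i => Fin ((Fin.cons (a * b) m : Fin (n + 1) → ℕ) i))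
        (finProdFinEquiv (z, (w 0 : Fin b)) : Fin (a * b)) (fun i : Fin n => (w i.succ : Fin (m i)))))
      ?_ y ?_ ?_]
    · rw [map_sum]
      refine Finset.sum_congr rfl fun z _ => ?_
      rw [map_mul, rename_C, rename_X]
      congr 2
      funext i
      refine Fin.cases ?_ (fun i => ?_) i
      · change (finProdFinEquiv.symm (finProdFinEquiv (z, (w 0 : Fin b)))).1 = z
        rw [Equiv.symm_apply_apply]
      · refine Fin.cases ?_ (fun i => ?_) i
        · change (finProdFinEquiv.symm (finProdFinEquiv (z, (w 0 : Fin b)))).2 = (w 0 : Fin b)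
          rw [Equiv.symm_apply_apply]
        · rfl
    · intro z z' hz
      have h4 := congrFun hz 0
      change finProdFinEquiv (z, (w 0 : Fin b)) = finProdFinEquiv (z', (w 0 : Fin b)) at h4
      exact (Prod.ext_iff.mp (finProdFinEquiv.injective h4)).1
    · intro z
      rw [Fin.prod_univ_succ]
      have h4 : A 0 (Fin.cons (α := fun i => Fin ((Fin.cons (a * b) m : Fin (n + 1) → ℕ) i))
          (finProdFinEquiv (z, (w 0 : Fin b)) : Fin (a * b))
          (fun i : Fin n => (w i.succ : Fin (m i))) 0) (w 0) = y z := by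
        change y (finProdFinEquiv.symm (finProdFinEquiv (z, (w 0 : Fin b)))).1
          * (if (finProdFinEquiv.symm (finProdFinEquiv (z, (w 0 : Fin b)))).2 = (w 0 : Fin b)
            then 1 else 0) = y z
        rw [Equiv.symm_apply_apply, if_pos rfl, mul_one]
      rw [h4, Finset.prod_eq_one, mul_one]
      intro i _
      change (1 : Matrix (Fin (m i)) (Fin (m i)) ℂ) (w i.succ) (w i.succ) = 1
      exact Matrix.one_apply_eq _
    · intro w' hw'
      by_cases h3 : ∀ i : Fin n, w' i.succ = w i.succ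
      · have h4 : (finProdFinEquiv.symm (w' 0 : Fin (a * b))).2 ≠ (w 0 : Fin b) := by
          intro h5
          apply hw'
          refine ⟨(finProdFinEquiv.symm (w' 0 : Fin (a * b))).1, ?_⟩
          funext i
          refine Fin.cases ?_ (fun i => ?_) i
          · change finProdFinEquiv ((finProdFinEquiv.symm (w' 0 : Fin (a * b))).1, (w 0 : Fin b))
              = (w' 0 : Fin (a * b))
            rw [← h5]
            exact Equiv.apply_symm_apply finProdFinEquiv (w' 0 : Fin (a * b))
          · exact (h3 i).symm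
        rw [Fin.prod_univ_succ]
        have h6 : A 0 (w' 0) (w 0) = 0 := by
          have h7 : A 0 (w' 0) (w 0) = y (finProdFinEquiv.symm (w' 0 : Fin (a * b))).1
            * @ite ℂ ((finProdFinEquiv.symm (w' 0 : Fin (a * b))).2 = (w 0 : Fin b))
              (instDecidableEqFin b _ _) 1 0 := rfl
          rw [h7, if_neg h4, mul_zero]
        rw [h6, zero_mul]
      · push Not at h3
        obtain ⟨i, hi⟩ := h3
        rw [Finset.prod_eq_zero (Finset.mem_univ i.succ)]
        change (1 : Matrix (Fin (m i)) (Fin (m i)) ℂ) (w' i.succ) (w i.succ) = 0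
        exact Matrix.one_apply_ne hi
  have h3 : rename (splitWord a b m) (mapLin A f)
      = aeval (fun w : Wd (Fin.cons b m : Fin (n + 1) → ℕ) =>
        ∑ z : Fin a, C (y z) * X (frontWord a b m z w)) f := by
    rw [← key]
    rfl
  rw [← h3]
  exact h2

end Pool.Agent.Helper929_delta
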