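import Pool.Agent.Helper929_delta.XBasic

/-
Extraction of highest weight vectors in the rings with special variables.
-/

namespace Pool.Agent.Helper929_delta

open MvPolynomial

section X1aux

variable {κ : Type} {n : ℕ} {m : Fin n → ℕ}

/-- the one-parameter family in a column, as a polynomial in the parameter -/
noncomputable def XUni (l : Fin n) (a b : Fin (m l)) : XP κ m →ₐ[ℂ] Polynomial (XP κ m) :=
  aeval (fun v : Option κ × Wd m => Polynomial.C (X v) +
    (if v.2 l = b then Polynomial.X * Polynomial.C (X (v.1, Function.update v.2 l a)) else 0))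

theorem eval_xuni (l : Fin n) {a b : Fin (m l)} (s : ℂ) (f : XP κ m) :
    (XUni l a b f).eval (algebraMap ℂ (XP κ m) s)
      = colMap l (1 + Matrix.single a b s) f := by
  classical
  have key : ((Polynomial.evalRingHom (algebraMap ℂ (XP κ m) s)).comp (XUni l a b).toRingHom)
      = (colMap l (1 + Matrix.single a b s) : XP κ m →ₐ[ℂ] XP κ m).toRingHom := by
    apply MvPolynomial.ringHom_ext
    · intro r
      simp [XUni, colMap, MvPolynomial.algebraMap_eq]
    · intro v
      simp only [AlgHom.toRingHom_eq_coe, RingHom.coe_comp, RingHom.coe_coe, Function.comp_apply]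
      simp only [XUni, colMap, aeval_X, map_add, Polynomial.coe_evalRingHom, Polynomial.eval_C,
        Matrix.add_apply, add_mul, Finset.sum_add_distrib]
      congr 1
      · rw [Finset.sum_eq_single (v.2 l)]
        · simp
        · intro c _ hc
          rw [Matrix.one_apply_ne hc, C_0, zero_mul]
        · simp
      · split_ifs with h
        · rw [Finset.sum_eq_single a]
          · simp only [h, MvPolynomial.algebraMap_eq, Polynomial.eval_mul, Polynomial.eval_X,
              Polynomial.eval_C, Matrix.single_apply_same]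
          · intro c _ hc
            rw [Matrix.single_apply_of_row_ne (Ne.symm hc), C_0, zero_mul]
          · simp
        · rw [Finset.sum_eq_zero]
          · simp
          · intro c _
            rw [Matrix.single_apply_of_col_ne _ _ (Ne.symm h), C_0, zero_mul]
  exact congrArg (fun φ : XP κ m →+* XP κ m => φ f) key

theorem coeff_zero_xuni (l : Fin n) {a b : Fin (m l)} (f : XP κ m) :
    (XUni l a b f).coeff 0 = f := by
  have key : ((Polynomial.constantCoeff).comp (XUni l a b).toRingHom) = RingHom.id (XP κ m) := by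
    apply MvPolynomial.ringHom_ext
    · intro r
      simp [XUni, MvPolynomial.algebraMap_eq]
    · intro w
      simp only [XUni, AlgHom.toRingHom_eq_coe, RingHom.coe_comp, RingHom.coe_coe,
        Function.comp_apply, aeval_X, map_add, Polynomial.constantCoeff_apply,
        Polynomial.coeff_C_zero, RingHom.id_apply]
      split_ifs <;> simp
  exact congrArg (fun φ : XP κ m →+* XP κ m => φ f) key

theorem coeff_one_xuni (l : Fin n) {a b : Fin (m l)} (f : XP κ m) :
    (XUni l a b f).coeff 1 = XD l a b f := by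
  induction f using MvPolynomial.induction_on with
  | C r =>
    rw [MvPolynomial.derivation_C]
    simp [XUni, MvPolynomial.algebraMap_eq]
  | add p q hp hq => simp [hp, hq]
  | mul_X p v hp =>
    rw [Derivation.leibniz, map_mul, Polynomial.mul_coeff_one, hp, coeff_zero_xuni,
      coeff_zero_xuni, smul_eq_mul, smul_eq_mul]
    have h1 : (XUni l a b (X v : XP κ m)).coeff 1 = XD l a b (X v) := by
      rw [XD, mkDerivation_X, XUni, aeval_X, Polynomial.coeff_add, Polynomial.coeff_C]
      split_ifs with h h' <;> simp_all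
    rw [h1]
    ring

/-- the weight of a variable -/
theorem xwt_inr (v : Option κ × Wd m) (l : Fin n) (a : Fin (m l)) :
    xwt v (Sum.inr ⟨l, a⟩) = if v.2 l = a then 1 else 0 := by
  classical
  rw [xwt, Finsupp.add_apply, Finsupp.finsetSum_apply, Finset.sum_eq_single l]
  · rw [Finsupp.single_apply, Finsupp.single_apply, if_neg (by simp), zero_add]
    by_cases h : v.2 l = a
    · rw [if_pos h, if_pos (by rw [h])]
    · rw [if_neg h, if_neg]
      intro h'
      apply h
      simpa using h'
  · intro i _ hi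
    rw [Finsupp.single_apply, if_neg]
    intro h'
    exact hi (congrArg Sigma.fst (Sum.inr_injective h'))
  · simp

theorem weight_xwt_inr (d : (Option κ × Wd m) →₀ ℕ) (l : Fin n) (a : Fin (m l)) :
    Finsupp.weight xwt d (Sum.inr ⟨l, a⟩)
      = ∑ v ∈ d.support, d v * (if v.2 l = a then 1 else 0) := by
  rw [Finsupp.weight_apply, Finsupp.sum, Finsupp.finsetSum_apply]
  refine Finset.sum_congr rfl fun w _ => ?_
  rw [Finsupp.smul_apply, xwt_inr, smul_eq_mul]

theorem xwt_update (l : Fin n) (a b : Fin (m l)) (v : Option κ × Wd m) (h : v.2 l = b) :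
    xwt (v.1, Function.update v.2 l a) + Finsupp.single (Sum.inr ⟨l, b⟩) 1
      = xwt v + Finsupp.single (Sum.inr ⟨l, a⟩) 1 := by
  classical
  rw [xwt, xwt, ← Finset.add_sum_erase _ _ (Finset.mem_univ l),
    ← Finset.add_sum_erase Finset.univ
      (fun i => Finsupp.single (Sum.inr ⟨i, v.2 i⟩ : Option κ ⊕ (Σ i, Fin (m i))) 1)
      (Finset.mem_univ l)]
  have : ∑ x ∈ Finset.univ.erase l,
      Finsupp.single (Sum.inr ⟨x, Function.update v.2 l a x⟩ : Option κ ⊕ (Σ i, Fin (m i))) 1
      = ∑ x ∈ Finset.univ.erase l,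
        Finsupp.single (Sum.inr ⟨x, v.2 x⟩ : Option κ ⊕ (Σ i, Fin (m i))) 1 := by
    refine Finset.sum_congr rfl fun x hx => ?_
    rw [Function.update_of_ne (Finset.ne_of_mem_erase hx)]
  simp only [this]
  simp only [Function.update_self, h]
  abel

theorem prod_xwt (s : (Option κ ⊕ (Σ i, Fin (m i))) → ℂ) (v : Option κ × Wd m) :
    ((xwt v).prod fun t k => s t ^ k) = s (Sum.inl v.1) * ∏ i, s (Sum.inr ⟨i, v.2 i⟩) := by
  classical
  rw [xwt, Finsupp.prod_add_index' (by simp) (fun a b c => by rw [pow_add]),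
    Finsupp.prod_single_index (by simp), pow_one, ← Finsupp.prod_finsetSum_index]
  · congr 1
    refine Finset.prod_congr rfl fun i _ => ?_
    rw [Finsupp.prod_single_index] <;> simp
  · simp
  · intro a b c; rw [pow_add]

theorem XStable.torus_mem {I : Ideal (XP κ m)} (hI : XStable I)
    (s : (Option κ ⊕ (Σ i, Fin (m i))) → ℂ) {f : XP κ m} (hf : f ∈ I) :
    aeval (fun v : Option κ × Wd m => C ((xwt v).prod fun t k => s t ^ k) * X v) f ∈ I := by
  classical
  have key : ∀ S : Finset (Fin n), aeval (fun v : Option κ × Wd m =>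
      C (s (Sum.inl v.1) * ∏ i ∈ S, s (Sum.inr ⟨i, v.2 i⟩)) * (X v : XP κ m)) f ∈ I := by
    intro S
    induction S using Finset.induction_on with
    | empty =>
      have h1 := hI.2 (fun k => s (Sum.inl k)) f hf
      rw [kindMap] at h1
      simpa using h1
    | insert l S hl ih =>
      have h1 := hI.1 l (Matrix.diagonal (fun a => s (Sum.inr ⟨l, a⟩))) _ ih
      have h2 : colMap l (Matrix.diagonal (fun a => s (Sum.inr ⟨l, a⟩)))
          (aeval (fun v : Option κ × Wd m =>
            C (s (Sum.inl v.1) * ∏ i ∈ S, s (Sum.inr ⟨i, v.2 i⟩)) * (X v : XP κ m)) f)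
          = aeval (fun v : Option κ × Wd m =>
            C (s (Sum.inl v.1) * ∏ i ∈ insert l S, s (Sum.inr ⟨i, v.2 i⟩)) * (X v : XP κ m)) f := by
        have h3 : ((colMap l (Matrix.diagonal (fun a => s (Sum.inr ⟨l, a⟩)))).comp
            (aeval (fun v : Option κ × Wd m =>
            C (s (Sum.inl v.1) * ∏ i ∈ S, s (Sum.inr ⟨i, v.2 i⟩)) * (X v : XP κ m))) :
              XP κ m →ₐ[ℂ] XP κ m)
            = aeval (fun v : Option κ × Wd m =>
            C (s (Sum.inl v.1) * ∏ i ∈ insert l S, s (Sum.inr ⟨i, v.2 i⟩)) * (X v : XP κ m)) := by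
          apply MvPolynomial.algHom_ext
          intro v
          rw [AlgHom.comp_apply, aeval_X, aeval_X, map_mul, colMap, algHom_C, aeval_X,
            Finset.sum_eq_single (v.2 l)]
          · rw [Matrix.diagonal_apply_eq, Function.update_eq_self, Finset.prod_insert hl,
              MvPolynomial.algebraMap_eq]
            simp only [C_mul]
            ring
          · intro c _ hc
            rw [Matrix.diagonal_apply_ne _ hc, C_0, zero_mul]
          · simp
        exact congrArg (fun φ : XP κ m →ₐ[ℂ] XP κ m => φ f) h3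
      rw [h2] at h1
      exact h1
  have h1 := key Finset.univ
  have h2 : (fun v : Option κ × Wd m => C ((xwt v).prod fun t k => s t ^ k) * (X v : XP κ m))
      = fun v : Option κ × Wd m =>
        C (s (Sum.inl v.1) * ∏ i ∈ Finset.univ, s (Sum.inr ⟨i, v.2 i⟩)) * (X v : XP κ m) := by
    funext v
    rw [prod_xwt]
  rw [h2]
  exact h1

theorem coeff_XD_weight {M : Type*} [AddCommMonoid M] [IsCancelAdd M] (W : Option κ × Wd m → M)
    (l : Fin n) (a b : Fin (m l)) (δ δ' : M)
    (hW : ∀ v : Option κ × Wd m, v.2 l = b → W (v.1, Function.update v.2 l a) + δ = W v + δ')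
    {μ μ' : M} {f : XP κ m}
    (hf : ∀ e, coeff e f ≠ 0 → Finsupp.weight W e + μ = μ') :
    ∀ e, coeff e (XD l a b f) ≠ 0 → Finsupp.weight W e + (μ + δ) = μ' + δ' := by
  classical
  intro e he
  have h1 : XD l a b f = ∑ d ∈ f.support, XD l a b (monomial d (coeff d f)) := by
    conv_lhs => rw [f.as_sum]
    rw [map_sum]
  rw [h1, coeff_sum] at he
  obtain ⟨d, hd, hde⟩ := Finset.exists_ne_zero_of_sum_ne_zero he
  rw [XD, mkDerivation_monomial, coeff_smul, Finsupp.sum, coeff_sum, smul_eq_mul] at hde
  obtain ⟨w, hw, hwe⟩ := Finset.exists_ne_zero_of_sum_ne_zero (right_ne_zero_of_mul hde)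
  by_cases hwl : w.2 l = b
  · rw [if_pos hwl, smul_eq_mul, coeff_mul_X', coeff_monomial] at hwe
    split_ifs at hwe with h2 h3
    · have hdw : d w ≠ 0 := Finsupp.mem_support_iff.mp hw
      have hd' : d = e - Finsupp.single (w.1, Function.update w.2 l a) 1
          + Finsupp.single w 1 := by
        rw [← h3]
        ext x
        simp only [Finsupp.add_apply, Finsupp.tsub_apply, Finsupp.single_apply]
        split_ifs with hx
        · subst hx; omega
        · simp
      have he' : e = e - Finsupp.single (w.1, Function.update w.2 l a) 1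
          + Finsupp.single (w.1, Function.update w.2 l a) 1 := by
        have : e (w.1, Function.update w.2 l a) ≠ 0 := Finsupp.mem_support_iff.mp h2
        ext x
        simp only [Finsupp.add_apply, Finsupp.tsub_apply, Finsupp.single_apply]
        split_ifs with hx
        · subst hx; omega
        · simp
      set g := e - Finsupp.single (w.1, Function.update w.2 l a) 1
      have h4 := hf d (mem_support_iff.mp hd)
      rw [hd', map_add, Finsupp.weight_single, one_smul] at h4
      rw [he', map_add, Finsupp.weight_single, one_smul, ← h4]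
      have h5 := hW w hwl
      calc Finsupp.weight W g + W (w.1, Function.update w.2 l a) + (μ + δ)
          = Finsupp.weight W g + (W (w.1, Function.update w.2 l a) + δ) + μ := by abel
        _ = Finsupp.weight W g + W w + μ + δ' := by rw [h5]; abel
    · exact absurd rfl hwe
    · exact absurd rfl hwe
  · rw [if_neg hwl] at hwe
    simp at hwe

/-- the cost of a weight -/
def xcost (lam : (Option κ ⊕ (Σ i, Fin (m i))) →₀ ℕ) : ℕ :=
  ∑ t : (Σ i, Fin (m i)), (t.2 : ℕ) * lam (Sum.inr t)

theorem xcost_add (x y : (Option κ ⊕ (Σ i, Fin (m i))) →₀ ℕ) :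
    xcost (x + y) = xcost x + xcost y := by
  simp [xcost, mul_add, Finset.sum_add_distrib]

theorem xcost_single (l : Fin n) (a : Fin (m l)) :
    xcost (Finsupp.single (Sum.inr ⟨l, a⟩ : Option κ ⊕ (Σ i, Fin (m i))) 1) = a := by
  classical
  rw [xcost, Finset.sum_eq_single ⟨l, a⟩]
  · simp
  · intro t _ ht
    rw [Finsupp.single_apply, if_neg, mul_zero]
    intro h
    exact ht (Sum.inr_injective h).symm
  · simp

end X1aux

variable {κ : Type} [Fintype κ] [DecidableEq κ] {n : ℕ} {m : Fin n → ℕ}

theorem XStable.component_mem {I : Ideal (XP κ m)} (hI : XStable I)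
    (lam : (Option κ ⊕ (Σ i, Fin (m i))) →₀ ℕ) {f : XP κ m} (hf : f ∈ I) :
    weightedHomogeneousComponent xwt lam f ∈ I := by
  have := Helper929_delta.component_mem (xwt (κ := κ) (m := m)) (I.restrictScalars ℂ)
    (fun s g hg => hI.torus_mem s hg) lam f hf
  exact this

/-- the diagonal operator -/
theorem XD_diag (l : Fin n) (a : Fin (m l)) {f : XP κ m}
    {lam : (Option κ ⊕ (Σ i, Fin (m i))) →₀ ℕ} (hf : IsWeightedHomogeneous xwt f lam) :
    XD l a a f = C (lam (Sum.inr ⟨l, a⟩) : ℂ) * f := by
  classical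
  conv_lhs => rw [f.as_sum]
  conv_rhs => rw [f.as_sum]
  rw [map_sum, Finset.mul_sum]
  refine Finset.sum_congr rfl fun d hd => ?_
  have hlam := hf (mem_support_iff.mp hd)
  rw [XD, mkDerivation_monomial, ← hlam, weight_xwt_inr, Finsupp.sum]
  push_cast
  rw [← smul_eq_C_mul, smul_monomial, Finset.smul_sum]
  rw [smul_eq_mul, Finset.sum_mul, map_sum]
  refine Finset.sum_congr rfl fun w hw => ?_
  have hdw : d w ≠ 0 := Finsupp.mem_support_iff.mp hw
  have h1 : d - Finsupp.single w 1 + Finsupp.single w 1 = d := by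
    ext x
    simp only [Finsupp.add_apply, Finsupp.tsub_apply, Finsupp.single_apply]
    split_ifs with hx
    · subst hx; omega
    · simp
  have h2 : (monomial (d - Finsupp.single w 1)) ((d w : ℕ) : ℂ) * (X w : XP κ m)
      = monomial d ((d w : ℕ) : ℂ) := by
    rw [X, monomial_mul, h1, mul_one]
  by_cases h : w.2 l = a
  · rw [if_pos h, if_pos h]
    have h3 : (w.1, Function.update w.2 l a) = w := by rw [← h, Function.update_eq_self]
    rw [h3, smul_eq_mul, h2, smul_monomial]
    congr 1
    simp [mul_comm]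
  · rw [if_neg h, if_neg h]
    simp

theorem XStable.D_mem {I : Ideal (XP κ m)} (hI : XStable I) (l : Fin n) (a b : Fin (m l))
    {f : XP κ m} (hf : f ∈ I) : XD l a b f ∈ I := by
  rw [← coeff_one_xuni l]
  have := coeff_mem_of_eval_mem (I.restrictScalars ℂ) (XUni l a b f) (fun s => by
    rw [eval_xuni]
    exact hI.1 l _ f hf) 1
  exact this

/-- the weight of a derivative -/
theorem XD_weight (l : Fin n) (a b : Fin (m l)) {f : XP κ m}
    {lam : (Option κ ⊕ (Σ i, Fin (m i))) →₀ ℕ} (hf : IsWeightedHomogeneous xwt f lam) :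
    ∀ e, coeff e (XD l a b f) ≠ 0 → Finsupp.weight xwt e + Finsupp.single (Sum.inr ⟨l, b⟩) 1
      = lam + Finsupp.single (Sum.inr ⟨l, a⟩) 1 := by
  have hw := coeff_XD_weight (xwt (κ := κ) (m := m)) l a b (Finsupp.single (Sum.inr ⟨l, b⟩) 1)
    (Finsupp.single (Sum.inr ⟨l, a⟩) 1) (xwt_update l a b) (μ := 0) (μ' := lam) (f := f)
    (fun e he => by rw [add_zero]; exact hf he)
  simpa only [zero_add] using hw

/-- lowering and raising again preserves the weight -/
theorem XD_XD_weight (l : Fin n) (a b : Fin (m l)) {f : XP κ m}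
    {lam : (Option κ ⊕ (Σ i, Fin (m i))) →₀ ℕ} (hf : IsWeightedHomogeneous xwt f lam) :
    IsWeightedHomogeneous xwt (XD l a b (XD l b a f)) lam := by
  intro e he
  have hw := coeff_XD_weight (xwt (κ := κ) (m := m)) l a b (Finsupp.single (Sum.inr ⟨l, b⟩) 1)
    (Finsupp.single (Sum.inr ⟨l, a⟩) 1) (xwt_update l a b)
    (μ := Finsupp.single (Sum.inr ⟨l, a⟩) 1)
    (μ' := lam + Finsupp.single (Sum.inr ⟨l, b⟩) 1) (f := XD l b a f) (XD_weight l b a hf) e he
  have h4 : (Finsupp.single (Sum.inr ⟨l, b⟩) 1 + Finsupp.single (Sum.inr ⟨l, a⟩) 1 :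
      (Option κ ⊕ (Σ i, Fin (m i))) →₀ ℕ)
      = Finsupp.single (Sum.inr ⟨l, a⟩) 1 + Finsupp.single (Sum.inr ⟨l, b⟩) 1 := add_comm _ _
  rw [add_assoc lam, h4] at hw
  exact add_right_cancel hw

/-- iterated derivatives vanish -/
theorem XD_iterate_eq_zero (l : Fin n) {a b : Fin (m l)} (hab : a ≠ b) {f : XP κ m}
    {lam : (Option κ ⊕ (Σ i, Fin (m i))) →₀ ℕ} (hf : IsWeightedHomogeneous xwt f lam) :
    (XD l a b)^[lam (Sum.inr ⟨l, b⟩) + 1] f = 0 := by
  have key : ∀ k : ℕ, ∀ e, coeff e ((XD l a b)^[k] f) ≠ 0 →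
      Finsupp.weight xwt e + k • Finsupp.single (Sum.inr ⟨l, b⟩) 1
        = lam + k • Finsupp.single (Sum.inr ⟨l, a⟩) 1 := by
    intro k
    induction k with
    | zero =>
      intro e he
      simp only [zero_smul, add_zero]
      exact hf he
    | succ k ih =>
      intro e he
      rw [Function.iterate_succ_apply'] at he
      have hw := coeff_XD_weight (xwt (κ := κ) (m := m)) l a b
        (Finsupp.single (Sum.inr ⟨l, b⟩) 1)
        (Finsupp.single (Sum.inr ⟨l, a⟩) 1) (xwt_update l a b) ih e he
      rw [succ_nsmul, succ_nsmul, ← add_assoc lam]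
      exact hw
  by_contra hne
  obtain ⟨e, he⟩ := MvPolynomial.ne_zero_iff.mp hne
  have h1 := key _ e he
  have h2 := DFunLike.congr_fun h1 (Sum.inr ⟨l, b⟩)
  rw [Finsupp.add_apply, Finsupp.add_apply, Finsupp.smul_apply, Finsupp.smul_apply,
    Finsupp.single_apply, Finsupp.single_apply, if_pos rfl, if_neg] at h2
  · simp only [smul_eq_mul, mul_one, mul_zero, add_zero] at h2
    omega
  · intro h3
    apply hab
    simpa using h3

/-- highest weight vectors -/
theorem exists_xhw (I I' : Ideal (XP κ m)) (hI' : XStable I') (hne : ¬ I' ≤ I) :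
    ∃ (lam : (Option κ ⊕ (Σ i, Fin (m i))) →₀ ℕ) (f : XP κ m), f ∈ I' ∧ f ∉ I ∧
      IsWeightedHomogeneous xwt f lam ∧ ∀ (l : Fin n) (a b : Fin (m l)), a < b → XD l a b f ∈ I := by
  classical
  have hex : ∃ c : ℕ, ∃ (lam : (Option κ ⊕ (Σ i, Fin (m i))) →₀ ℕ) (f : XP κ m), f ∈ I' ∧ f ∉ I ∧
      IsWeightedHomogeneous xwt f lam ∧ xcost lam = c := by
    obtain ⟨f, hf', hf⟩ := SetLike.not_le_iff_exists.mp hne
    obtain ⟨lam, hlam⟩ := exists_component_notMem (xwt (κ := κ) (m := m)) I hf
    exact ⟨_, lam, _, hI'.component_mem lam hf', hlam,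
      weightedHomogeneousComponent_isWeightedHomogeneous lam f, rfl⟩
  obtain ⟨lam, f, hf', hf, hhom, hc⟩ := Nat.find_spec hex
  have hmin : ∀ (lam' : (Option κ ⊕ (Σ i, Fin (m i))) →₀ ℕ) (g : XP κ m), g ∈ I' → g ∉ I →
        IsWeightedHomogeneous xwt g lam' → xcost lam ≤ xcost lam' := by
    intro lam' g hg' hg hgh
    rw [hc]
    exact Nat.find_min' hex ⟨lam', g, hg', hg, hgh, rfl⟩
  refine ⟨lam, f, hf', hf, hhom, ?_⟩
  intro l a b hab
  by_contra hcon
  have hw := XD_weight l a b hhom
  have hne0 : XD l a b f ≠ 0 := by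
    intro h0
    exact hcon (h0 ▸ I.zero_mem)
  obtain ⟨e₀, he₀⟩ := MvPolynomial.ne_zero_iff.mp hne0
  have h0 := hw e₀ he₀
  have hDh : IsWeightedHomogeneous xwt (XD l a b f) (Finsupp.weight xwt e₀) := by
    intro e he
    have h1 := hw e he
    rw [← h0] at h1
    exact add_right_cancel h1
  have h2 := hmin _ _ (hI'.D_mem l a b hf') hcon hDh
  have h3 := congrArg xcost h0
  rw [xcost_add, xcost_add, xcost_single, xcost_single] at h3
  have : (a : ℕ) < b := hab
  omega

end Pool.Agent.Helper929_delta
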