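import Pool.Agent.Helper929_delta.XBasic

/-
An sl_2 identity and powers of the ideals of minors.
-/

namespace Pool.Agent.Helper929_delta

open MvPolynomial

set_option linter.unusedSectionVars false

variable {κ : Type} [Fintype κ] [DecidableEq κ] {n : ℕ} {m : Fin n → ℕ}

/-! ### auxiliary facts on the derivations -/

theorem X2_X (l : Fin n) (a b : Fin (m l)) (v : Option κ × Wd m) :
    XD l a b (X v : XP κ m) = if v.2 l = b then X (v.1, Function.update v.2 l a) else 0 := by
  unfold XD
  rw [mkDerivation_X]

theorem X2_mul (l : Fin n) (a b : Fin (m l)) (f g : XP κ m) :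
    XD l a b (f * g) = f * XD l a b g + g * XD l a b f := by
  rw [Derivation.leibniz, smul_eq_mul, smul_eq_mul]

theorem X2_C (l : Fin n) (a b : Fin (m l)) (r : ℂ) : XD l a b (C r : XP κ m) = 0 := by
  rw [← MvPolynomial.algebraMap_eq, Derivation.map_algebraMap]

theorem X2_C_mul (l : Fin n) (a b : Fin (m l)) (r : ℂ) (f : XP κ m) :
    XD l a b (C r * f) = C r * XD l a b f := by
  rw [X2_mul, X2_C, mul_zero, add_zero]

/-- the cross term -/
noncomputable def X2_cross (l : Fin n) (a b : Fin (m l)) (g x : XP κ m) : XP κ m :=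
  XD l a b g * XD l b a x + XD l b a g * XD l a b x - XD l b b g * XD l a a x
    - XD l a a g * XD l b b x

theorem X2_cross_mul (l : Fin n) (a b : Fin (m l)) (g h x : XP κ m) :
    X2_cross l a b (g * h) x = g * X2_cross l a b h x + h * X2_cross l a b g x := by
  unfold X2_cross
  simp only [X2_mul]
  ring

theorem X2_gen_mem (l : Fin n) {a b : Fin (m l)} {v u : Option κ × Wd m} (hv : v.2 l = a)
    (hu : u.2 l = b) :
    (X v * X u - X (v.1, Function.update v.2 l b) * X (u.1, Function.update u.2 l a) : XP κ m)
      ∈ (minorIdeal l a b : Ideal (XP κ m)) :=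
  Ideal.subset_span ⟨v.1, u.1, v.2, u.2, hv, hu, rfl⟩

theorem X2_cross_X (l : Fin n) {a b : Fin (m l)} (hab : a ≠ b) (u v : Option κ × Wd m) :
    X2_cross l a b (X u) (X v) ∈ (minorIdeal l a b : Ideal (XP κ m)) := by
  unfold X2_cross
  simp only [X2_X]
  by_cases hua : u.2 l = a
  · have hub : u.2 l ≠ b := by rw [hua]; exact hab
    by_cases hva : v.2 l = a
    · have hvb : v.2 l ≠ b := by rw [hva]; exact hab
      simp [hua, hva, hab]
    · by_cases hvb : v.2 l = b
      · have e : (u.1, Function.update u.2 l a) = u := by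
          rw [← hua, Function.update_eq_self]
        have e' : (v.1, Function.update v.2 l b) = v := by
          rw [← hvb, Function.update_eq_self]
        have h1 := X2_gen_mem (κ := κ) l hua hvb
        rw [if_neg hub, if_neg hva, if_pos hua, if_pos hvb, if_neg hub, if_neg hva, if_pos hua,
          if_pos hvb, e, e']
        have h2 : (0 * 0 + X (u.1, Function.update u.2 l b) * X (v.1, Function.update v.2 l a)
            - 0 * 0 - X u * X v : XP κ m) =
            -(X u * X v - X (u.1, Function.update u.2 l b) * X (v.1, Function.update v.2 l a)) := by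
          ring
        rw [h2]
        exact Submodule.neg_mem _ h1
      · simp [hva, hvb]
  · by_cases hub : u.2 l = b
    · by_cases hva : v.2 l = a
      · have hvb : v.2 l ≠ b := by rw [hva]; exact hab
        have e : (u.1, Function.update u.2 l b) = u := by
          rw [← hub, Function.update_eq_self]
        have e' : (v.1, Function.update v.2 l a) = v := by
          rw [← hva, Function.update_eq_self]
        have h1 := X2_gen_mem (κ := κ) l hva hub
        rw [if_pos hub, if_pos hva, if_neg hua, if_neg hvb, if_pos hub, if_pos hva, if_neg hua,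
          if_neg hvb, e, e']
        have h2 : (X (u.1, Function.update u.2 l a) * X (v.1, Function.update v.2 l b) + 0 * 0
            - X u * X v - 0 * 0 : XP κ m) =
            -(X v * X u - X (v.1, Function.update v.2 l b) * X (u.1, Function.update u.2 l a)) := by
          ring
        rw [h2]
        exact Submodule.neg_mem _ h1
      · simp [hua, hva]
    · simp [hua, hub]

theorem X2_cross_mem (l : Fin n) {a b : Fin (m l)} (hab : a ≠ b) (g : XP κ m)
    (v : Option κ × Wd m) :
    X2_cross l a b g (X v) ∈ (minorIdeal l a b : Ideal (XP κ m)) := by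
  induction g using MvPolynomial.induction_on with
  | C r =>
    unfold X2_cross
    simp only [X2_C]
    simp
  | add p q hp hq =>
    have : X2_cross l a b (p + q) (X v) = X2_cross l a b p (X v) + X2_cross l a b q (X v) := by
      unfold X2_cross
      simp only [map_add]
      ring
    rw [this]
    exact Ideal.add_mem _ hp hq
  | mul_X p u hp =>
    rw [X2_cross_mul]
    exact Ideal.add_mem _ (Ideal.mul_mem_left _ _ (X2_cross_X l hab u v))
      (Ideal.mul_mem_left _ _ hp)

/-- the operator of Step 2 -/
noncomputable def X2_Psi (l : Fin n) (a b : Fin (m l)) (M : ℕ) (h : XP κ m) : XP κ m :=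
  XD l a b (XD l b a h) - XD l b b (XD l a a h) - (1 - (M : XP κ m)) * XD l a a h
    + (M : XP κ m) * XD l b b h + (M : XP κ m) * (1 - (M : XP κ m)) * h

theorem X2_Psi_add (l : Fin n) (a b : Fin (m l)) (M : ℕ) (f g : XP κ m) :
    X2_Psi l a b M (f + g) = X2_Psi l a b M f + X2_Psi l a b M g := by
  unfold X2_Psi
  simp only [map_add]
  ring

theorem X2_Psi_zero (l : Fin n) (a b : Fin (m l)) (M : ℕ) :
    X2_Psi l a b M (0 : XP κ m) = 0 := by
  unfold X2_Psi
  simp

/-- Step 1 -/
theorem X2_step1 (l : Fin n) {a b : Fin (m l)} (hab : a ≠ b) (g : XP κ m) :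
    X2_Psi l a b 0 g ∈ (minorIdeal l a b : Ideal (XP κ m)) := by
  induction g using MvPolynomial.induction_on with
  | C r =>
    unfold X2_Psi
    simp only [X2_C, map_zero]
    simp
  | add p q hp hq =>
    rw [X2_Psi_add]
    exact Ideal.add_mem _ hp hq
  | mul_X p v hp =>
    have h0 : X2_Psi l a b 0 (X v : XP κ m) = 0 := by
      unfold X2_Psi
      simp only [X2_X]
      by_cases hva : v.2 l = a
      · have e : (v.1, Function.update v.2 l a) = v := by
          rw [← hva, Function.update_eq_self]
        have hvb : v.2 l ≠ b := by rw [hva]; exact hab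
        have hX : (X (v.1, Function.update v.2 l a) : XP κ m) = X v := by rw [e]
        rw [if_pos hva, if_pos hva, if_neg hvb, X2_X, X2_X]
        simp [hab, hX]
      · rw [if_neg hva, if_neg hva]
        simp
    have h1 : X2_Psi l a b 0 (p * X v) = X2_Psi l a b 0 p * X v + p * X2_Psi l a b 0 (X v)
        + X2_cross l a b p (X v) := by
      unfold X2_Psi X2_cross
      simp only [X2_mul, map_add]
      push_cast
      ring
    rw [h1, h0, mul_zero, add_zero]
    exact Ideal.add_mem _ (Ideal.mul_mem_right _ _ hp) (X2_cross_mem l hab p v)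

/-- the operator for `M + 1` on a multiple of a generator -/
theorem X2_Psi_gen (l : Fin n) {a b : Fin (m l)} (hab : a ≠ b) (M : ℕ) {v u : Option κ × Wd m}
    (hv : v.2 l = a) (hu : u.2 l = b) (h : XP κ m) :
    X2_Psi l a b (M + 1)
      ((X v * X u - X (v.1, Function.update v.2 l b) * X (u.1, Function.update u.2 l a)) * h)
    = (X v * X u - X (v.1, Function.update v.2 l b) * X (u.1, Function.update u.2 l a))
      * X2_Psi l a b M h := by
  set Δ : XP κ m := X v * X u - X (v.1, Function.update v.2 l b) * X (u.1, Function.update u.2 l a)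
    with hΔ
  have ev : (v.1, Function.update v.2 l a) = v := by rw [← hv, Function.update_eq_self]
  have eu : (u.1, Function.update u.2 l b) = u := by rw [← hu, Function.update_eq_self]
  have hva : v.2 l ≠ b := by rw [hv]; exact hab
  have hub : u.2 l ≠ a := by rw [hu]; exact hab.symm
  have e1 : XD l a b Δ = 0 := by
    rw [hΔ, map_sub, X2_mul, X2_mul, X2_X, X2_X, X2_X, X2_X]
    simp only [Function.update_self, Function.update_idem]
    rw [if_pos hu, if_neg hva, if_neg hab, if_pos trivial, ev]
    ring
  have e2 : XD l b a Δ = 0 := by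
    rw [hΔ, map_sub, X2_mul, X2_mul, X2_X, X2_X, X2_X, X2_X]
    simp only [Function.update_self, Function.update_idem]
    rw [if_neg hub, if_pos hv, if_pos trivial, if_neg hab.symm, eu]
    ring
  have e3 : XD l a a Δ = Δ := by
    rw [hΔ, map_sub, X2_mul, X2_mul, X2_X, X2_X, X2_X, X2_X]
    simp only [Function.update_self, Function.update_idem]
    rw [if_neg hub, if_pos hv, if_pos trivial, if_neg hab.symm, ev]
    ring
  have e4 : XD l b b Δ = Δ := by
    rw [hΔ, map_sub, X2_mul, X2_mul, X2_X, X2_X, X2_X, X2_X]
    simp only [Function.update_self, Function.update_idem]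
    rw [if_pos hu, if_neg hva, if_neg hab, if_pos trivial, eu]
    ring
  unfold X2_Psi
  simp only [X2_mul, map_add, e1, e2, e3, e4, mul_zero, add_zero]
  push_cast
  ring

/-- Step 2 -/
theorem X2_step2 (l : Fin n) {a b : Fin (m l)} (hab : a ≠ b) (M : ℕ) :
    ∀ h ∈ (minorIdeal l a b : Ideal (XP κ m)) ^ M,
      X2_Psi l a b M h ∈ (minorIdeal l a b : Ideal (XP κ m)) ^ (M + 1) := by
  induction M with
  | zero =>
    intro h _
    rw [zero_add, pow_one]
    exact X2_step1 l hab h
  | succ M ih =>
    intro h hh
    rw [pow_succ'] at hh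
    refine Submodule.mul_induction_on hh ?_ ?_
    · intro x hx y hy
      -- `x` is a combination of generators
      have key : ∀ x ∈ (minorIdeal l a b : Ideal (XP κ m)),
          ∀ y ∈ (minorIdeal l a b : Ideal (XP κ m)) ^ M,
          X2_Psi l a b (M + 1) (x * y) ∈ (minorIdeal l a b : Ideal (XP κ m)) ^ (M + 1 + 1) := by
        intro x hx
        unfold minorIdeal at hx
        refine Submodule.span_induction ?_ ?_ ?_ ?_ hx
        · rintro g ⟨k, k', p, q, hp, hq, rfl⟩ y hy
          have h1 := X2_Psi_gen l hab M (v := (k, p)) (u := (k', q)) hp hq y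
          rw [h1, pow_succ' _ (M + 1)]
          exact Ideal.mul_mem_mul (X2_gen_mem l hp hq) (ih y hy)
        · intro y _
          rw [zero_mul, X2_Psi_zero]
          exact Submodule.zero_mem _
        · intro g g' _ _ hg hg' y hy
          rw [add_mul, X2_Psi_add]
          exact Submodule.add_mem _ (hg y hy) (hg' y hy)
        · intro r g _ hg y hy
          have h1 : r • g * y = g * (r * y) := by
            rw [smul_eq_mul]
            ring
          rw [h1]
          exact hg _ (Ideal.mul_mem_left _ _ hy)
      exact key x hx y hy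
    · intro x y hx hy
      rw [X2_Psi_add]
      exact Submodule.add_mem _ hx hy

/-! ### weights -/

theorem X2_xwt_inr (v : Option κ × Wd m) (l : Fin n) (a : Fin (m l)) :
    xwt v (Sum.inr ⟨l, a⟩) = if v.2 l = a then 1 else 0 := by
  classical
  unfold xwt
  rw [Finsupp.add_apply, Finsupp.finsetSum_apply]
  rw [Finsupp.single_apply, if_neg (by simp), zero_add]
  rw [Finset.sum_eq_single l]
  · rw [Finsupp.single_apply]
    simp
  · intro i _ hi
    rw [Finsupp.single_apply, if_neg]
    intro h
    apply hi
    have := Sum.inr.inj h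
    exact congrArg Sigma.fst this
  · intro h
    exact absurd (Finset.mem_univ _) h

theorem X2_xwt_update (l : Fin n) (a b : Fin (m l)) (v : Option κ × Wd m) (h : v.2 l = b) :
    xwt (v.1, Function.update v.2 l a) + Finsupp.single (Sum.inr ⟨l, b⟩) 1
      = xwt v + Finsupp.single (Sum.inr ⟨l, a⟩) 1 := by
  classical
  unfold xwt
  simp only
  rw [← Finset.add_sum_erase Finset.univ (fun i => (Finsupp.single
      (Sum.inr ⟨i, Function.update v.2 l a i⟩) 1 : (Option κ ⊕ (Σ i, Fin (m i))) →₀ ℕ))
      (Finset.mem_univ l),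
    ← Finset.add_sum_erase Finset.univ (fun i => (Finsupp.single (Sum.inr ⟨i, v.2 i⟩) 1 :
      (Option κ ⊕ (Σ i, Fin (m i))) →₀ ℕ)) (Finset.mem_univ l)]
  have : ∑ x ∈ Finset.univ.erase l,
      (Finsupp.single (Sum.inr ⟨x, Function.update v.2 l a x⟩) 1 :
        (Option κ ⊕ (Σ i, Fin (m i))) →₀ ℕ)
      = ∑ x ∈ Finset.univ.erase l, Finsupp.single (Sum.inr ⟨x, v.2 x⟩) 1 := by
    refine Finset.sum_congr rfl fun x hx => ?_
    rw [Function.update_of_ne (Finset.ne_of_mem_erase hx)]
  rw [this]
  simp only [Function.update_self, h]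
  abel

theorem X2_coeff_weight {N : Type*} [AddCommMonoid N] [IsCancelAdd N]
    (W : Option κ × Wd m → N) (l : Fin n) (a b : Fin (m l)) (δ δ' : N)
    (hW : ∀ v : Option κ × Wd m, v.2 l = b →
      W (v.1, Function.update v.2 l a) + δ = W v + δ') {μ μ' : N} {f : XP κ m}
    (hf : ∀ e, coeff e f ≠ 0 → Finsupp.weight W e + μ = μ') :
    ∀ e, coeff e (XD l a b f) ≠ 0 → Finsupp.weight W e + (μ + δ) = μ' + δ' := by
  classical
  intro e he
  have h1 : XD l a b f = ∑ d ∈ f.support, XD l a b (monomial d (coeff d f)) := by
    conv_lhs => rw [f.as_sum]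
    rw [map_sum]
  rw [h1, coeff_sum] at he
  obtain ⟨d, hd, hde⟩ := Finset.exists_ne_zero_of_sum_ne_zero he
  rw [XD, mkDerivation_monomial, coeff_smul, Finsupp.sum, coeff_sum, smul_eq_mul] at hde
  obtain ⟨w, hw, hwe⟩ := Finset.exists_ne_zero_of_sum_ne_zero (right_ne_zero_of_mul hde)
  by_cases hwl : w.2 l = b
  · rw [if_pos hwl, smul_eq_mul, coeff_mul_X', coeff_monomial] at hwe
    split_ifs at hwe with h2 h3
    · have hdw : d w ≠ 0 := Finsupp.mem_support_iff.mp hw
      have hd' : d = e - Finsupp.single (w.1, Function.update w.2 l a) 1 + Finsupp.single w 1 := by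
        rw [← h3]
        ext x
        simp only [Finsupp.add_apply, Finsupp.tsub_apply, Finsupp.single_apply]
        split_ifs with hx
        · subst hx; omega
        · simp
      have he' : e = e - Finsupp.single (w.1, Function.update w.2 l a) 1
          + Finsupp.single (w.1, Function.update w.2 l a) 1 := by
        have : e (w.1, Function.update w.2 l a) ≠ 0 := Finsupp.mem_support_iff.mp h2
        ext x
        simp only [Finsupp.add_apply, Finsupp.tsub_apply, Finsupp.single_apply]
        split_ifs with hx
        · subst hx; omega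
        · simp
      set g := e - Finsupp.single (w.1, Function.update w.2 l a) 1
      have h4 := hf d (mem_support_iff.mp hd)
      rw [hd', map_add, Finsupp.weight_single, one_smul] at h4
      rw [he', map_add, Finsupp.weight_single, one_smul, ← h4]
      have h5 := hW w hwl
      calc Finsupp.weight W g + W (w.1, Function.update w.2 l a) + (μ + δ)
          = Finsupp.weight W g + (W (w.1, Function.update w.2 l a) + δ) + μ := by abel
        _ = Finsupp.weight W g + W w + μ + δ' := by rw [h5]; abel
    · exact absurd rfl hwe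
    · exact absurd rfl hwe
  · rw [if_neg hwl] at hwe
    simp at hwe

theorem X2_EF_weight (l : Fin n) (a b : Fin (m l)) {f : XP κ m}
    {lam : (Option κ ⊕ (Σ i, Fin (m i))) →₀ ℕ} (hf : IsWeightedHomogeneous xwt f lam) :
    IsWeightedHomogeneous xwt (XD l a b (XD l b a f)) lam := by
  have h1 : ∀ e, coeff e f ≠ 0 → Finsupp.weight xwt e + 0 = lam := by
    intro e he
    rw [add_zero]
    exact hf he
  have h2 := X2_coeff_weight xwt l b a _ _ (fun v hv => X2_xwt_update l b a v hv) h1
  have h3 := X2_coeff_weight xwt l a b _ _ (fun v hv => X2_xwt_update l a b v hv) h2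
  intro e he
  have h4 := h3 e he
  have h5 : Finsupp.weight xwt e + (Finsupp.single (Sum.inr ⟨l, a⟩) 1
      + Finsupp.single (Sum.inr ⟨l, b⟩) 1) = lam + (Finsupp.single (Sum.inr ⟨l, a⟩) 1
      + Finsupp.single (Sum.inr ⟨l, b⟩) 1) := by
    rw [zero_add] at h4
    rw [h4]
    abel
  exact add_right_cancel h5

/-- a derivation maps powers of an ideal into themselves if it does so for the ideal -/
theorem X2_pow (I : Ideal (XP κ m)) (l : Fin n) (a b : Fin (m l))
    (hI : ∀ f ∈ I, XD l a b f ∈ I) (M : ℕ) : ∀ f ∈ I ^ M, XD l a b f ∈ I ^ M := by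
  induction M with
  | zero => intro f _; rw [pow_zero, Ideal.one_eq_top]; exact Submodule.mem_top
  | succ M ih =>
    intro f hf
    rw [pow_succ'] at hf ⊢
    refine Submodule.mul_induction_on hf ?_ ?_
    · intro x hx y hy
      rw [X2_mul]
      refine Ideal.add_mem _ (Ideal.mul_mem_mul hx (ih y hy)) ?_
      have e : y * XD l a b x = XD l a b x * y := mul_comm _ _
      rw [e]
      exact Ideal.mul_mem_mul (hI x hx) hy
    · intro x y hx hy
      rw [map_add]
      exact Ideal.add_mem _ hx hy

theorem X2_swap_gen (S : Finset (Fin n)) (l : Fin n) (a b : Fin (m l)) (k k' : Option κ)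
    (p q : Wd m) : XD l a b (X (k, p) * X (k', q) - X (k, mix S q p) * X (k', mix S p q) : XP κ m)
      ∈ swapIdeal κ m S := by
  classical
  have gen : ∀ (p q : Wd m), (X (k, p) * X (k', q) - X (k, mix S q p) * X (k', mix S p q) : XP κ m)
      ∈ swapIdeal κ m S := fun p q => Ideal.subset_span ⟨k, k', p, q, rfl⟩
  rw [map_sub, X2_mul, X2_mul, X2_X, X2_X, X2_X, X2_X]
  simp only
  by_cases hl : l ∈ S
  · have e1 : mix S q p l = q l := by simp [mix, hl]
    have e2 : mix S p q l = p l := by simp [mix, hl]
    have e3 : Function.update (mix S q p) l a = mix S (Function.update q l a) p := by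
      funext i
      by_cases hi : i = l
      · subst hi; simp [mix, hl]
      · simp [mix, hi]
    have e4 : Function.update (mix S p q) l a = mix S (Function.update p l a) q := by
      funext i
      by_cases hi : i = l
      · subst hi; simp [mix, hl]
      · simp [mix, hi]
    have e5 : mix S p (Function.update q l a) = mix S p q := by
      funext i
      by_cases hi : i = l
      · subst hi; simp [mix, hl]
      · simp [mix, hi]
    have e6 : mix S q (Function.update p l a) = mix S q p := by
      funext i
      by_cases hi : i = l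
      · subst hi; simp [mix, hl]
      · simp [mix, hi]
    rw [e1, e2, e3, e4]
    have g1 := gen p (Function.update q l a)
    have g2 := gen (Function.update p l a) q
    rw [e5] at g1
    rw [e6] at g2
    by_cases hq : q l = b
    · by_cases hp : p l = b
      · simp only [if_pos hq, if_pos hp]
        have := Ideal.add_mem _ g1 g2
        refine (congrArg (· ∈ swapIdeal κ m S) ?_).mp this
        ring
      · simp only [if_pos hq, if_neg hp]
        refine (congrArg (· ∈ swapIdeal κ m S) ?_).mp g1
        ring
    · by_cases hp : p l = b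
      · simp only [if_neg hq, if_pos hp]
        refine (congrArg (· ∈ swapIdeal κ m S) ?_).mp g2
        ring
      · simp [if_neg hq, if_neg hp]
  · have e1 : mix S q p l = p l := by simp [mix, hl]
    have e2 : mix S p q l = q l := by simp [mix, hl]
    have e3 : Function.update (mix S q p) l a = mix S q (Function.update p l a) := by
      funext i
      by_cases hi : i = l
      · subst hi; simp [mix, hl]
      · simp [mix, hi]
    have e4 : Function.update (mix S p q) l a = mix S p (Function.update q l a) := by
      funext i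
      by_cases hi : i = l
      · subst hi; simp [mix, hl]
      · simp [mix, hi]
    have e5 : mix S (Function.update q l a) p = mix S q p := by
      funext i
      by_cases hi : i = l
      · subst hi; simp [mix, hl]
      · simp [mix, hi]
    have e6 : mix S (Function.update p l a) q = mix S p q := by
      funext i
      by_cases hi : i = l
      · subst hi; simp [mix, hl]
      · simp [mix, hi]
    rw [e1, e2, e3, e4]
    have g1 := gen p (Function.update q l a)
    have g2 := gen (Function.update p l a) q
    rw [e5] at g1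
    rw [e6] at g2
    by_cases hq : q l = b
    · by_cases hp : p l = b
      · simp only [if_pos hq, if_pos hp]
        have := Ideal.add_mem _ g1 g2
        refine (congrArg (· ∈ swapIdeal κ m S) ?_).mp this
        ring
      · simp only [if_pos hq, if_neg hp]
        refine (congrArg (· ∈ swapIdeal κ m S) ?_).mp g1
        ring
    · by_cases hp : p l = b
      · simp only [if_neg hq, if_pos hp]
        refine (congrArg (· ∈ swapIdeal κ m S) ?_).mp g2
        ring
      · simp [if_neg hq, if_neg hp]

/-- iterated operator -/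
noncomputable def xproj (l : Fin n) (a b : Fin (m l)) (q p : ℕ) : ℕ → XP κ m → XP κ m
  | 0, g => g
  | M + 1, g => XD l a b (XD l b a (xproj l a b q p M g))
      - C (((q : ℂ) - M) * ((p : ℂ) - M + 1)) * xproj l a b q p M g

/-- (the same as in job X1, prove it here again under this name) -/
theorem xproj_diag (l : Fin n) (a : Fin (m l)) {f : XP κ m}
    {lam : (Option κ ⊕ (Σ i, Fin (m i))) →₀ ℕ} (hf : IsWeightedHomogeneous xwt f lam) :
    XD l a a f = C (lam (Sum.inr ⟨l, a⟩) : ℂ) * f := by
  classical
  conv_lhs => rw [f.as_sum]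
  conv_rhs => rw [f.as_sum]
  rw [map_sum, Finset.mul_sum]
  refine Finset.sum_congr rfl fun d hd => ?_
  have hlam := hf (mem_support_iff.mp hd)
  have hval : lam (Sum.inr ⟨l, a⟩) = d.sum fun v c => c * (if v.2 l = a then 1 else 0) := by
    rw [← hlam, Finsupp.weight_apply, Finsupp.sum, Finsupp.finsetSum_apply, Finsupp.sum]
    refine Finset.sum_congr rfl fun v _ => ?_
    rw [Finsupp.smul_apply, X2_xwt_inr, smul_eq_mul]
  rw [XD, mkDerivation_monomial, hval, Finsupp.sum, Finsupp.sum]
  push_cast
  rw [C_mul_monomial, Finset.smul_sum, Finset.sum_mul, map_sum]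
  refine Finset.sum_congr rfl fun w hw => ?_
  have hdw : d w ≠ 0 := Finsupp.mem_support_iff.mp hw
  have h1 : d - Finsupp.single w 1 + Finsupp.single w 1 = d := by
    ext x
    simp only [Finsupp.add_apply, Finsupp.tsub_apply, Finsupp.single_apply]
    split_ifs with hx
    · subst hx; omega
    · simp
  have h2 : (monomial (d - Finsupp.single w 1)) ((d w : ℕ) : ℂ) * (X w : XP κ m)
      = monomial d ((d w : ℕ) : ℂ) := by
    rw [X, monomial_mul, h1, mul_one]
  by_cases h : w.2 l = a
  · rw [if_pos h, if_pos h]
    have h3 : (w.1, Function.update w.2 l a) = w := by rw [← h, Function.update_eq_self]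
    rw [h3, smul_eq_mul, h2, smul_monomial]
    congr 1
    rw [smul_eq_mul]
    ring
  · rw [if_neg h, if_neg h]
    simp

theorem xproj_weight (l : Fin n) (a b : Fin (m l)) (q p M : ℕ) {f : XP κ m}
    {lam : (Option κ ⊕ (Σ i, Fin (m i))) →₀ ℕ} (hf : IsWeightedHomogeneous xwt f lam) :
    IsWeightedHomogeneous xwt (xproj l a b q p M f) lam := by
  induction M with
  | zero => exact hf
  | succ M ih =>
    rw [xproj]
    apply IsWeightedHomogeneous.sub
    · exact X2_EF_weight l a b ih
    · have h1 : IsWeightedHomogeneous xwt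
          (C (((q : ℂ) - M) * ((p : ℂ) - M + 1)) : XP κ m) 0 := isWeightedHomogeneous_C _ _
      have := h1.mul ih
      rwa [zero_add] at this

theorem xproj_mem (l : Fin n) {a b : Fin (m l)} (hab : a ≠ b) (M : ℕ) {f : XP κ m}
    {lam : (Option κ ⊕ (Σ i, Fin (m i))) →₀ ℕ} (hf : IsWeightedHomogeneous xwt f lam) :
    xproj l a b (lam (Sum.inr ⟨l, a⟩)) (lam (Sum.inr ⟨l, b⟩)) M f ∈ (minorIdeal l a b : Ideal (XP κ m)) ^ M := by
  induction M with
  | zero => rw [pow_zero, Ideal.one_eq_top]; exact Submodule.mem_top
  | succ M ih =>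
    have h1 := X2_step2 l hab M _ ih
    have hw := xproj_weight l a b (lam (Sum.inr ⟨l, a⟩)) (lam (Sum.inr ⟨l, b⟩)) M hf
    rw [xproj]
    set q := lam (Sum.inr ⟨l, a⟩) with hq
    set p := lam (Sum.inr ⟨l, b⟩) with hp
    set h := xproj l a b q p M f with hh
    have eA : XD l a a h = C (q : ℂ) * h := xproj_diag l a hw
    have eB : XD l b b h = C (p : ℂ) * h := xproj_diag l b hw
    have e : XD l a b (XD l b a h) - C (((q : ℂ) - M) * ((p : ℂ) - M + 1)) * h
        = X2_Psi l a b M h := by
      unfold X2_Psi
      rw [eA, X2_C_mul, eB]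
      have hM : (M : XP κ m) = C (M : ℂ) := by simp
      rw [hM]
      simp only [C_mul, C_sub, C_add, C_1]
      ring
    rw [e]
    exact h1

/-- `minorIdeal` is contained in the ideal of minors of the column `l`. -/
theorem minorIdeal_le (l : Fin n) (a b : Fin (m l)) :
    (minorIdeal l a b : Ideal (XP κ m)) ≤ swapIdeal κ m {l} := by
  classical
  unfold minorIdeal
  rw [Ideal.span_le]
  rintro g ⟨k, k', p, q, hp, hq, rfl⟩
  refine Ideal.subset_span ⟨k, k', p, q, ?_⟩
  have e1 : Function.update p l b = mix {l} q p := by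
    funext i
    by_cases hi : i = l
    · subst hi; simp [mix, hq]
    · simp [mix, hi]
  have e2 : Function.update q l a = mix {l} p q := by
    funext i
    by_cases hi : i = l
    · subst hi; simp [mix, hp]
    · simp [mix, hi]
  rw [e1, e2]

/-- The operator preserves every ideal closed under the derivations. -/
theorem xproj_mem_of_mem (I : Ideal (XP κ m)) (l : Fin n)
    (hI : ∀ (a b : Fin (m l)) (f : XP κ m), f ∈ I → XD l a b f ∈ I)
    (a b : Fin (m l)) (q p M : ℕ) {f : XP κ m} (hf : f ∈ I) : xproj l a b q p M f ∈ I := by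
  induction M with
  | zero => exact hf
  | succ M ih =>
    rw [xproj]
    exact Ideal.sub_mem _ (hI _ _ _ (hI _ _ _ ih)) (Ideal.mul_mem_left _ _ ih)

/-- linearity -/
theorem xproj_add (l : Fin n) (a b : Fin (m l)) (q p M : ℕ) (f g : XP κ m) :
    xproj l a b q p M (f + g) = xproj l a b q p M f + xproj l a b q p M g := by
  induction M with
  | zero => rfl
  | succ M ih =>
    rw [xproj, xproj, xproj, ih]
    simp only [map_add]
    ring

theorem xproj_C_mul (l : Fin n) (a b : Fin (m l)) (q p M : ℕ) (c : ℂ) (f : XP κ m) :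
    xproj l a b q p M (C c * f) = C c * xproj l a b q p M f := by
  induction M with
  | zero => rfl
  | succ M ih =>
    rw [xproj, xproj, ih, X2_C_mul, X2_C_mul]
    ring

/-- The operator is a non-zero scalar modulo an ideal `I` closed under the operators, on a vector `f` killed by
`XD l b a` modulo `I`. -/
theorem xproj_modEq (I : Ideal (XP κ m)) (l : Fin n) (hI : ∀ (a b : Fin (m l)) (f : XP κ m), f ∈ I → XD l a b f ∈ I)
    (a b : Fin (m l)) (q p M : ℕ) (hM : M ≤ q) (hqp : q ≤ p) {f : XP κ m} (hf : XD l b a f ∈ I) :
    ∃ c : ℂ, c ≠ 0 ∧ xproj l a b q p M f - C c * f ∈ I := by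
  induction M with
  | zero => exact ⟨1, one_ne_zero, by rw [xproj, C_1, one_mul, sub_self]; exact I.zero_mem⟩
  | succ M ih =>
    obtain ⟨c, hc, h1⟩ := ih (by omega)
    refine ⟨-((((q : ℂ) - M) * ((p : ℂ) - M + 1)) * c), ?_, ?_⟩
    · have h2 : (q : ℂ) - M ≠ 0 := by
        rw [sub_ne_zero]
        exact_mod_cast (by omega : q ≠ M)
      have h3 : (p : ℂ) - M + 1 ≠ 0 := by
        have : ((p + 1 - M : ℕ) : ℂ) = (p : ℂ) - M + 1 := by
          rw [Nat.cast_sub (by omega)]
          push_cast
          ring
        rw [← this]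
        exact_mod_cast (by omega : p + 1 - M ≠ 0)
      exact neg_ne_zero.2 (mul_ne_zero (mul_ne_zero h2 h3) hc)
    · rw [xproj]
      set h := xproj l a b q p M f with hh
      have h4 : XD l a b (XD l b a h) ∈ I := by
        have h5 : XD l b a h = XD l b a (h - C c * f) + C c * XD l b a f := by
          rw [map_sub, X2_C_mul]
          ring
        apply hI
        rw [h5]
        exact Ideal.add_mem _ (hI _ _ _ h1) (Ideal.mul_mem_left _ _ hf)
      have h6 : XD l a b (XD l b a h) - C (((q : ℂ) - M) * ((p : ℂ) - M + 1)) * h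
          - C (-((((q : ℂ) - M) * ((p : ℂ) - M + 1)) * c)) * f
          = XD l a b (XD l b a h) - C (((q : ℂ) - M) * ((p : ℂ) - M + 1)) * (h - C c * f) := by
        rw [C_neg, C_mul (a := ((q : ℂ) - M) * ((p : ℂ) - M + 1)) (a' := c)]
        ring
      rw [h6]
      exact Ideal.sub_mem _ h4 (Ideal.mul_mem_left _ _ h1)

/-- Powers of the swap ideals are closed under the derivations. -/
theorem swapIdeal_pow_XD (S : Finset (Fin n)) (M : ℕ) (l : Fin n) (a b : Fin (m l)) {f : XP κ m}
    (hf : f ∈ swapIdeal κ m S ^ M) : XD l a b f ∈ swapIdeal κ m S ^ M := by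
  refine X2_pow _ l a b ?_ M f hf
  intro g hg
  unfold swapIdeal at hg
  refine Submodule.span_induction ?_ ?_ ?_ ?_ hg
  · rintro x ⟨k, k', p, q, rfl⟩
    exact X2_swap_gen S l a b k k' p q
  · rw [map_zero]
    exact Submodule.zero_mem _
  · intro x y _ _ hx hy
    rw [map_add]
    exact Submodule.add_mem _ hx hy
  · intro r x hx' hx
    rw [smul_eq_mul, X2_mul]
    have hx'' : x ∈ swapIdeal κ m S := hx'
    exact Ideal.add_mem _ (Ideal.mul_mem_left _ _ hx) (Ideal.mul_mem_right _ _ hx'')

end Pool.Agent.Helper929_delta
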