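import Pool.Agent.Helper929_delta.XBasic

/-
Dominance of the weights of highest weight vectors modulo a stable ideal.
-/

namespace Pool.Agent.Helper929_delta

open MvPolynomial

variable {κ : Type} [Fintype κ] [DecidableEq κ] {n : ℕ} {m : Fin n → ℕ}

omit [Fintype κ] [DecidableEq κ] in
theorem xdominant_aux_X (l : Fin n) (a b : Fin (m l)) (v : Option κ × Wd m) :
    XD l a b (X v) = if v.2 l = b then X (v.1, Function.update v.2 l a) else 0 := by
  rw [XD, mkDerivation_X]

omit [Fintype κ] [DecidableEq κ] in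
theorem xdominant_aux_wt_apply (v : Option κ × Wd m) (l : Fin n) (a : Fin (m l)) :
    xwt v (Sum.inr ⟨l, a⟩) = if v.2 l = a then 1 else 0 := by
  classical
  rw [xwt, Finsupp.add_apply, Finsupp.single_apply, if_neg (by simp), zero_add,
    Finsupp.finsetSum_apply, Finset.sum_eq_single l]
  · rw [Finsupp.single_apply]
    by_cases h : v.2 l = a
    · rw [if_pos h, if_pos (by rw [h])]
    · rw [if_neg h, if_neg]
      intro h'
      apply h
      simpa using h'
  · intro i _ hi
    rw [Finsupp.single_apply, if_neg]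
    intro h'
    exact hi (congrArg Sigma.fst (Sum.inr_injective h'))
  · simp

omit [Fintype κ] [DecidableEq κ] in
theorem xdominant_aux_weight_apply (d : (Option κ × Wd m) →₀ ℕ) (l : Fin n) (a : Fin (m l)) :
    Finsupp.weight xwt d (Sum.inr ⟨l, a⟩)
      = ∑ w ∈ d.support, d w * (if w.2 l = a then 1 else 0) := by
  rw [Finsupp.weight_apply, Finsupp.sum, Finsupp.finsetSum_apply]
  refine Finset.sum_congr rfl fun w _ => ?_
  rw [Finsupp.smul_apply, xdominant_aux_wt_apply, smul_eq_mul]

/-- the torus element -/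
noncomputable def xdominant_aux_H (κ : Type) {n : ℕ} {m : Fin n → ℕ} (l : Fin n)
    (a b : Fin (m l)) : Derivation ℂ (XP κ m) (XP κ m) :=
  mkDerivation ℂ (fun v : Option κ × Wd m =>
    ((if v.2 l = b then (1 : ℂ) else 0) - (if v.2 l = a then (1 : ℂ) else 0)) • X v)

omit [Fintype κ] [DecidableEq κ] in
theorem xdominant_aux_H_X (l : Fin n) (a b : Fin (m l)) (v : Option κ × Wd m) :
    xdominant_aux_H κ l a b (X v)
      = ((if v.2 l = b then (1 : ℂ) else 0) - (if v.2 l = a then (1 : ℂ) else 0)) • X v := by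
  rw [xdominant_aux_H, mkDerivation_X]

omit [Fintype κ] [DecidableEq κ] in
theorem xdominant_aux_H_of_weight (l : Fin n) (a b : Fin (m l)) {f : XP κ m}
    {lam : (Option κ ⊕ (Σ i, Fin (m i))) →₀ ℕ} (hf : IsWeightedHomogeneous xwt f lam) :
    xdominant_aux_H κ l a b f
      = ((lam (Sum.inr ⟨l, b⟩) : ℂ) - lam (Sum.inr ⟨l, a⟩)) • f := by
  classical
  conv_lhs => rw [f.as_sum]
  conv_rhs => rw [f.as_sum]
  rw [map_sum, Finset.smul_sum]
  refine Finset.sum_congr rfl fun d hd => ?_
  have hlam := hf (mem_support_iff.mp hd)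
  rw [xdominant_aux_H, mkDerivation_monomial, ← hlam, xdominant_aux_weight_apply,
    xdominant_aux_weight_apply, Finsupp.sum]
  push_cast
  rw [← Finset.sum_sub_distrib, smul_monomial, Finset.smul_sum]
  rw [smul_eq_mul, Finset.sum_mul, map_sum]
  refine Finset.sum_congr rfl fun w hw => ?_
  have hdw : d w ≠ 0 := Finsupp.mem_support_iff.mp hw
  have h1 : d - Finsupp.single w 1 + Finsupp.single w 1 = d := by
    ext x
    simp only [Finsupp.add_apply, Finsupp.tsub_apply, Finsupp.single_apply]
    split_ifs with hx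
    · subst hx; omega
    · simp
  have h2 : (monomial (d - Finsupp.single w 1)) ((d w : ℕ) : ℂ) * (X w : XP κ m)
      = monomial d ((d w : ℕ) : ℂ) := by
    rw [X, monomial_mul, h1, mul_one]
  rw [smul_eq_mul, mul_smul_comm, h2, smul_monomial, smul_monomial]
  congr 1
  simp only [smul_eq_mul]
  ring

omit [Fintype κ] [DecidableEq κ] in
theorem xdominant_aux_FE (l : Fin n) {a b : Fin (m l)} (hab : a ≠ b) (f : XP κ m) :
    XD l b a (XD l a b f) - XD l a b (XD l b a f) = xdominant_aux_H κ l a b f := by
  rw [← Derivation.commutator_apply]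
  congr 1
  apply MvPolynomial.derivation_ext
  intro w
  rw [Derivation.commutator_apply, xdominant_aux_H_X, xdominant_aux_X, xdominant_aux_X]
  by_cases h : w.2 l = b
  · have h' : ¬ w.2 l = a := fun h0 => hab (h0.symm.trans h)
    rw [if_pos h, if_neg h', map_zero, xdominant_aux_X, if_pos (by simp), if_pos h, if_neg h',
      Function.update_idem, ← h, Function.update_eq_self]
    simp
  · by_cases h' : w.2 l = a
    · rw [if_neg h, if_pos h', map_zero, xdominant_aux_X, if_pos (by simp), if_neg h, if_pos h',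
        Function.update_idem, ← h', Function.update_eq_self]
      simp
    · rw [if_neg h, if_neg h', if_neg h, if_neg h']
      simp

omit [Fintype κ] [DecidableEq κ] in
theorem xdominant_aux_HE (l : Fin n) {a b : Fin (m l)} (hab : a ≠ b) (f : XP κ m) :
    xdominant_aux_H κ l a b (XD l a b f) - XD l a b (xdominant_aux_H κ l a b f)
      = (-2 : ℂ) • XD l a b f := by
  rw [← Derivation.commutator_apply, ← Derivation.smul_apply]
  congr 1
  apply MvPolynomial.derivation_ext
  intro w
  rw [Derivation.commutator_apply, Derivation.smul_apply, xdominant_aux_H_X, xdominant_aux_X,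
    Derivation.map_smul, xdominant_aux_X]
  by_cases h : w.2 l = b
  · have h' : ¬ w.2 l = a := fun h0 => hab (h0.symm.trans h)
    rw [if_pos h, if_pos h, if_neg h', xdominant_aux_H_X, if_neg (by simpa using hab),
      if_pos (by simp)]
    module
  · rw [if_neg h, if_neg h]
    simp

omit [Fintype κ] [DecidableEq κ] in
theorem xdominant_aux_coeff {M : Type*} [AddCommMonoid M] [IsCancelAdd M]
    (W : Option κ × Wd m → M) (l : Fin n)
    (a b : Fin (m l)) (δ δ' : M)
    (hW : ∀ w, w.2 l = b → W (w.1, Function.update w.2 l a) + δ = W w + δ') {μ μ' : M}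
    {f : XP κ m}
    (hf : ∀ e, coeff e f ≠ 0 → Finsupp.weight W e + μ = μ') :
    ∀ e, coeff e (XD l a b f) ≠ 0 → Finsupp.weight W e + (μ + δ) = μ' + δ' := by
  classical
  intro e he
  have h1 : XD l a b f = ∑ d ∈ f.support, XD l a b (monomial d (coeff d f)) := by
    conv_lhs => rw [f.as_sum]
    rw [map_sum]
  rw [h1, coeff_sum] at he
  obtain ⟨d, hd, hde⟩ := Finset.exists_ne_zero_of_sum_ne_zero he
  rw [XD, mkDerivation_monomial, coeff_smul, Finsupp.sum, coeff_sum, smul_eq_mul] at hde
  obtain ⟨w, hw, hwe⟩ := Finset.exists_ne_zero_of_sum_ne_zero (right_ne_zero_of_mul hde)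
  by_cases hwl : w.2 l = b
  · rw [if_pos hwl, smul_eq_mul, coeff_mul_X', coeff_monomial] at hwe
    split_ifs at hwe with h2 h3
    · have hdw : d w ≠ 0 := Finsupp.mem_support_iff.mp hw
      have hd' : d = e - Finsupp.single (w.1, Function.update w.2 l a) 1
          + Finsupp.single w 1 := by
        rw [← h3]
        ext x
        simp only [Finsupp.add_apply, Finsupp.tsub_apply, Finsupp.single_apply]
        split_ifs with hx
        · subst hx; omega
        · simp
      have he' : e = e - Finsupp.single (w.1, Function.update w.2 l a) 1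
          + Finsupp.single (w.1, Function.update w.2 l a) 1 := by
        have : e (w.1, Function.update w.2 l a) ≠ 0 := Finsupp.mem_support_iff.mp h2
        ext x
        simp only [Finsupp.add_apply, Finsupp.tsub_apply, Finsupp.single_apply]
        split_ifs with hx
        · subst hx; omega
        · simp
      set g := e - Finsupp.single (w.1, Function.update w.2 l a) 1
      have h4 := hf d (mem_support_iff.mp hd)
      rw [hd', map_add, Finsupp.weight_single, one_smul] at h4
      rw [he', map_add, Finsupp.weight_single, one_smul, ← h4]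
      have h5 := hW w hwl
      calc Finsupp.weight W g + W (w.1, Function.update w.2 l a) + (μ + δ)
          = Finsupp.weight W g + (W (w.1, Function.update w.2 l a) + δ) + μ := by abel
        _ = Finsupp.weight W g + W w + μ + δ' := by rw [h5]; abel
    · exact absurd rfl hwe
    · exact absurd rfl hwe
  · rw [if_neg hwl] at hwe
    simp at hwe

omit [Fintype κ] [DecidableEq κ] in
/-- each application lowers the number of letters `b` -/
theorem xdominant_aux_iter (l : Fin n) {a b : Fin (m l)} (hab : a ≠ b) {f : XP κ m}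
    {lam : (Option κ ⊕ (Σ i, Fin (m i))) →₀ ℕ} (hf : IsWeightedHomogeneous xwt f lam) (i : ℕ) :
    ∀ e, coeff e ((XD l a b)^[i] f) ≠ 0 →
      Finsupp.weight (fun v : Option κ × Wd m => xwt v (Sum.inr ⟨l, b⟩)) e + i
        = lam (Sum.inr ⟨l, b⟩) := by
  induction i with
  | zero =>
    intro e he
    have h := hf he
    rw [← h, xdominant_aux_weight_apply, Finsupp.weight_apply, Finsupp.sum, add_zero]
    refine Finset.sum_congr rfl fun w _ => ?_
    rw [xdominant_aux_wt_apply, smul_eq_mul]
  | succ i ih =>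
    intro e he
    rw [Function.iterate_succ_apply'] at he
    have := xdominant_aux_coeff (fun v : Option κ × Wd m => xwt v (Sum.inr ⟨l, b⟩)) l a b 1 0
      (fun w hw => by
        rw [xdominant_aux_wt_apply, xdominant_aux_wt_apply, if_pos hw, if_neg (by simpa using hab)])
      ih e he
    rw [add_zero] at this
    exact this

omit [Fintype κ] [DecidableEq κ] in
theorem xdominant_aux_zero (l : Fin n) {a b : Fin (m l)} (hab : a ≠ b) {f : XP κ m}
    {lam : (Option κ ⊕ (Σ i, Fin (m i))) →₀ ℕ} (hf : IsWeightedHomogeneous xwt f lam) :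
    (XD l a b)^[lam (Sum.inr ⟨l, b⟩) + 1] f = 0 := by
  by_contra hne
  obtain ⟨e, he⟩ := MvPolynomial.ne_zero_iff.mp hne
  have h := xdominant_aux_iter l hab hf _ e he
  omega

theorem xdominant {I : Ideal (XP κ m)} (l : Fin n)
    (hI : ∀ (a b : Fin (m l)) (f : XP κ m), f ∈ I → XD l a b f ∈ I) {a b : Fin (m l)} (hab : a ≠ b)
    {f : XP κ m} {lam : (Option κ ⊕ (Σ i, Fin (m i))) →₀ ℕ} (hf : IsWeightedHomogeneous xwt f lam)
    (hF : XD l b a f ∈ I) (hfI : f ∉ I) :
    lam (Sum.inr ⟨l, a⟩) ≤ lam (Sum.inr ⟨l, b⟩) := by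
  by_contra hlt
  push Not at hlt
  apply hfI
  have hE : ∀ (i : ℕ) (g : XP κ m), g ∈ I → (XD l a b)^[i] g ∈ I := by
    intro i g hg
    induction i with
    | zero => exact hg
    | succ i ih =>
      rw [Function.iterate_succ_apply']
      exact hI a b _ ih
  have hdesc : ∀ i : ℕ, (XD l a b)^[i] f ∈ I → f ∈ I := by
    intro i
    induction i with
    | zero => exact fun h => h
    | succ i ih =>
      intro h
      apply ih
      have h1 := F_iterate_E (XD l a b).toLinearMap (XD l b a).toLinearMap
        (xdominant_aux_H κ l a b).toLinearMap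
        (xdominant_aux_FE l hab) (xdominant_aux_HE l hab) f _ (xdominant_aux_H_of_weight l a b hf) i
      have h2 : XD l b a ((XD l a b)^[i + 1] f) ∈ I := hI b a _ h
      have h3 : XD l b a ((XD l a b)^[i + 1] f) = (XD l a b)^[i + 1] (XD l b a f)
        + ((i + 1) * (((lam (Sum.inr ⟨l, b⟩) : ℂ) - lam (Sum.inr ⟨l, a⟩)) - i))
          • (XD l a b)^[i] f := h1
      rw [h3] at h2
      have h4 := (Ideal.add_mem_iff_right I (hE (i + 1) _ hF)).mp h2
      have hne : (((i : ℂ) + 1) * (((lam (Sum.inr ⟨l, b⟩) : ℂ) - lam (Sum.inr ⟨l, a⟩)) - i)) ≠ 0 := by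
        apply mul_ne_zero
        · exact_mod_cast Nat.succ_ne_zero i
        · intro h0
          have : ((lam (Sum.inr ⟨l, b⟩) : ℕ) : ℂ) = ((lam (Sum.inr ⟨l, a⟩) + i : ℕ) : ℂ) := by
            push_cast
            linear_combination h0
          have := Nat.cast_injective this
          omega
      rw [MvPolynomial.smul_eq_C_mul] at h4
      have h5 := I.mul_mem_left (C ((((i : ℂ) + 1)
        * (((lam (Sum.inr ⟨l, b⟩) : ℂ) - lam (Sum.inr ⟨l, a⟩)) - i))⁻¹)) h4
      rwa [← mul_assoc, ← C_mul, inv_mul_cancel₀ hne, C_1, one_mul] at h5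
  apply hdesc (lam (Sum.inr ⟨l, b⟩) + 1)
  rw [xdominant_aux_zero l hab hf]
  exact I.zero_mem

end Pool.Agent.Helper929_delta
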