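import Pool.Agent.Helper929_delta.XDefs

/-
Rewriting by exchanges of letters.
-/

namespace Pool.Agent.Helper929_delta

open MvPolynomial

variable {κ : Type} [Fintype κ] [DecidableEq κ] {c n : ℕ}

/-- a product of `M` exchange binomials and a monomial, of total weight `lam` -/
def IsExchProd (B : Finset (Fin n)) (M : ℕ) (lam : (Option κ ⊕ (Σ i : Fin n, Fin (cdim c n i))) →₀ ℕ)
    (y : XP κ (cdim c n)) : Prop :=
  ∃ (l : Fin M → Fin n) (p q : Fin M → Wd (cdim c n)) (e : (Option κ × Wd (cdim c n)) →₀ ℕ),
    (∀ j, l j ∉ B ∧ q j (l j) = (0 : Fin (c + 1)) ∧ p j (l j) ≠ (0 : Fin (c + 1))) ∧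
    (∑ j, (xwt ((none : Option κ), p j) + xwt ((none : Option κ), q j))) + Finsupp.weight xwt e = lam ∧
    y = (∏ j, exch (l j) (p j) (q j)) * monomial e 1


section rewr

open Classical in
/-- number of non-zero letters in the column `l` -/
noncomputable def rw_col (l : Fin n) :
    ((Option κ ⊕ (Σ i : Fin n, Fin (cdim c n i))) →₀ ℕ) →+ ℕ where
  toFun lam := ∑ a : Fin (c + 1), (if a = 0 then 0 else lam (Sum.inr ⟨l, a⟩))
  map_zero' := by simp
  map_add' := by
    intro x y
    rw [← Finset.sum_add_distrib]
    refine Finset.sum_congr rfl fun a _ => ?_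
    split_ifs <;> simp

/-- number of special variables -/
noncomputable def rw_spec :
    ((Option κ ⊕ (Σ i : Fin n, Fin (cdim c n i))) →₀ ℕ) →+ ℕ where
  toFun lam := ∑ r : κ, lam (Sum.inl (some r))
  map_zero' := by simp
  map_add' := by
    intro x y
    rw [← Finset.sum_add_distrib]
    rfl

theorem rw_col_apply (l : Fin n) (lam : (Option κ ⊕ (Σ i : Fin n, Fin (cdim c n i))) →₀ ℕ) :
    rw_col l lam = ∑ a : Fin (c + 1), (if a = 0 then 0 else lam (Sum.inr ⟨l, a⟩)) := rfl

theorem rw_spec_apply (lam : (Option κ ⊕ (Σ i : Fin n, Fin (cdim c n i))) →₀ ℕ) :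
    rw_spec lam = ∑ r : κ, lam (Sum.inl (some r)) := rfl

theorem rw_col_xwt (l : Fin n) (v : Option κ × Wd (cdim c n)) :
    rw_col l (xwt v) = if v.2 l = (0 : Fin (c + 1)) then 0 else 1 := by
  rw [rw_col_apply]
  have h : ∀ a : Fin (c + 1), (xwt v) (Sum.inr ⟨l, a⟩) = if v.2 l = a then 1 else 0 := by
    intro a
    rw [xwt, Finsupp.add_apply, Finsupp.finsetSum_apply]
    rw [Finsupp.single_eq_of_ne (by simp), zero_add]
    rw [Finset.sum_eq_single l]
    · rw [Finsupp.single_apply]
      by_cases h : v.2 l = a
      · rw [if_pos h, if_pos (by rw [h])]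
      · rw [if_neg h, if_neg]
        intro h2
        apply h
        have := Sum.inr.inj h2
        simpa using this
    · intro i _ hi
      rw [Finsupp.single_eq_of_ne]
      intro h2
      apply hi
      have := Sum.inr.inj h2
      exact (congrArg Sigma.fst this).symm
    · intro h; exact absurd (Finset.mem_univ _) h
  simp only [h]
  by_cases h0 : v.2 l = (0 : Fin (c + 1))
  · rw [if_pos h0]
    refine Finset.sum_eq_zero fun a _ => ?_
    by_cases ha : a = 0
    · rw [if_pos ha]
    · rw [if_neg ha, if_neg]
      rw [h0]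
      exact fun h => ha h.symm
  · rw [if_neg h0, Finset.sum_eq_single (v.2 l)]
    · rw [if_neg h0, if_pos rfl]
    · intro a _ ha
      by_cases ha0 : a = 0
      · rw [if_pos ha0]
      · rw [if_neg ha0, if_neg (fun h => ha h.symm)]
    · intro h; exact absurd (Finset.mem_univ _) h

theorem rw_spec_xwt (v : Option κ × Wd (cdim c n)) :
    rw_spec (xwt v) = if v.1 = none then 0 else 1 := by
  rw [rw_spec_apply]
  have h : ∀ r : κ, (xwt v) (Sum.inl (some r)) = if v.1 = some r then 1 else 0 := by
    intro r
    rw [xwt, Finsupp.add_apply, Finsupp.finsetSum_apply]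
    rw [Finset.sum_eq_zero, add_zero]
    · rw [Finsupp.single_apply]
      by_cases h : v.1 = some r
      · rw [if_pos h, if_pos (by rw [h])]
      · rw [if_neg h, if_neg]
        intro h2
        exact h (Sum.inl.inj h2)
    · intro i _
      rw [Finsupp.single_eq_of_ne (by simp)]
  simp only [h]
  rcases hv : v.1 with _ | r
  · simp
  · rw [if_neg (by simp), Finset.sum_eq_single r]
    · simp
    · intro b _ hb
      rw [if_neg]
      intro h2
      exact hb (Option.some.inj h2).symm
    · intro h; exact absurd (Finset.mem_univ _) h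

/-- number of ordinary variables -/
noncomputable def rw_ord (e : (Option κ × Wd (cdim c n)) →₀ ℕ) : ℕ :=
  e.sum fun v k => if v.1 = none then k else 0

theorem rw_ord_add (e e' : (Option κ × Wd (cdim c n)) →₀ ℕ) :
    rw_ord (e + e') = rw_ord e + rw_ord e' := by
  unfold rw_ord
  rw [Finsupp.sum_add_index']
  · intro a; simp
  · intro a b1 b2; split_ifs <;> simp

theorem rw_ord_single (v : Option κ × Wd (cdim c n)) (k : ℕ) :
    rw_ord (Finsupp.single v k) = if v.1 = none then k else 0 := by
  unfold rw_ord
  rw [Finsupp.sum_single_index]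
  simp

theorem rw_dirt_add (B : Finset (Fin n)) (e e' : (Option κ × Wd (cdim c n)) →₀ ℕ) :
    dirt B (e + e') = dirt B e + dirt B e' := by
  unfold dirt
  rw [Finsupp.sum_add_index']
  · intro a; simp
  · intro a b1 b2; split_ifs <;> simp

theorem rw_dirt_single (B : Finset (Fin n)) (v : Option κ × Wd (cdim c n)) :
    dirt B (Finsupp.single v 1) ≤ 1 := by
  unfold dirt
  rw [Finsupp.sum_single_index (by simp)]
  split_ifs <;> simp

theorem rw_weight_col (l : Fin n) (e : (Option κ × Wd (cdim c n)) →₀ ℕ) :
    rw_col l (Finsupp.weight xwt e) = e.sum fun v k => if v.2 l = (0 : Fin (c + 1)) then 0 else k := by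
  rw [Finsupp.weight_apply, map_finsuppSum]
  refine Finsupp.sum_congr fun v _ => ?_
  rw [map_nsmul, rw_col_xwt]
  split_ifs <;> simp

theorem rw_weight_spec (e : (Option κ × Wd (cdim c n)) →₀ ℕ) :
    rw_spec (Finsupp.weight xwt e) = e.sum fun v k => if v.1 = none then 0 else k := by
  rw [Finsupp.weight_apply, map_finsuppSum]
  refine Finsupp.sum_congr fun v _ => ?_
  rw [map_nsmul, rw_spec_xwt]
  split_ifs <;> simp

theorem rw_dirt_le (B : Finset (Fin n)) (e : (Option κ × Wd (cdim c n)) →₀ ℕ) :
    dirt B e ≤ rw_ord e + rw_spec (Finsupp.weight xwt e) := by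
  rw [rw_weight_spec]
  unfold dirt rw_ord
  rw [← Finsupp.sum_add]
  refine Finset.sum_le_sum fun v _ => ?_
  simp only
  split_ifs <;> simp

theorem rw_exists_zero (l : Fin n) (D : ℕ) (e : (Option κ × Wd (cdim c n)) →₀ ℕ)
    (h1 : D ≤ rw_ord e) (h2 : rw_col l (Finsupp.weight xwt e) < D) :
    ∃ q : Wd (cdim c n), q l = (0 : Fin (c + 1)) ∧ 0 < e (none, q) := by
  by_contra hcon
  push Not at hcon
  rw [rw_weight_col] at h2
  have : rw_ord e ≤ e.sum fun v k => if v.2 l = (0 : Fin (c + 1)) then 0 else k := by
    unfold rw_ord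
    refine Finset.sum_le_sum fun v _ => ?_
    obtain ⟨o, q⟩ := v
    simp only
    rcases o with _ | r
    · rw [if_pos rfl]
      by_cases hq : q l = (0 : Fin (c + 1))
      · have := hcon q hq
        omega
      · rw [if_neg hq]
    · rw [if_neg (by simp)]
      exact Nat.zero_le _
  omega

/-- the polynomials with bounded dirt, as a subspace -/
noncomputable def rw_G (κ : Type) (B : Finset (Fin n)) (K : ℕ) : Submodule ℂ (XP κ (cdim c n)) where
  carrier := {f | DirtLE B K f}
  zero_mem' := by intro e he; simp at he
  add_mem' := by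
    classical
    intro f g hf hg e he
    have := MvPolynomial.support_add he
    rw [Finset.mem_union] at this
    rcases this with h | h
    · exact hf e h
    · exact hg e h
  smul_mem' := by
    intro a f hf e he
    exact hf e (MvPolynomial.support_smul he)

theorem rw_mem_G (B : Finset (Fin n)) (K : ℕ) (f : XP κ (cdim c n)) :
    f ∈ rw_G κ B K ↔ DirtLE B K f := Iff.rfl

theorem rw_dirt_mul (B : Finset (Fin n)) (a b : ℕ) (f g : XP κ (cdim c n)) (hf : DirtLE B a f)
    (hg : DirtLE B b g) : DirtLE B (a + b) (f * g) := by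
  classical
  intro e he
  have := MvPolynomial.support_mul f g he
  rw [Finset.mem_add] at this
  obtain ⟨e1, h1, e2, h2, rfl⟩ := this
  rw [rw_dirt_add]
  exact Nat.add_le_add (hf e1 h1) (hg e2 h2)

theorem rw_dirt_mono (B : Finset (Fin n)) {a b : ℕ} (h : a ≤ b) (f : XP κ (cdim c n))
    (hf : DirtLE B a f) : DirtLE B b f := fun e he => (hf e he).trans h

theorem rw_dirt_X (B : Finset (Fin n)) (v : Option κ × Wd (cdim c n)) :
    DirtLE B 1 (X v : XP κ (cdim c n)) := by
  classical
  intro e he
  rw [MvPolynomial.support_X, Finset.mem_singleton] at he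
  rw [he]
  exact rw_dirt_single B v

theorem rw_dirt_monomial (B : Finset (Fin n)) (e : (Option κ × Wd (cdim c n)) →₀ ℕ) :
    DirtLE B (dirt B e) (monomial e (1 : ℂ)) := by
  classical
  intro e' he
  have := MvPolynomial.support_monomial_subset he
  rw [Finset.mem_singleton] at this
  rw [this]

theorem rw_dirt_exch (B : Finset (Fin n)) (l : Fin n) (p q : Wd (cdim c n)) :
    DirtLE B 2 (exch l p q : XP κ (cdim c n)) := by
  rw [← rw_mem_G]
  unfold exch
  apply Submodule.sub_mem
  · exact rw_dirt_mul B 1 1 _ _ (rw_dirt_X B _) (rw_dirt_X B _)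
  · exact rw_dirt_mul B 1 1 _ _ (rw_dirt_X B _) (rw_dirt_X B _)

/-- product of exchange binomials -/
noncomputable def rw_LP (κ : Type) (L : List (Fin n × Wd (cdim c n) × Wd (cdim c n))) :
    XP κ (cdim c n) :=
  (L.map fun t => exch t.1 t.2.1 t.2.2).prod

/-- weight of a product of exchange binomials -/
noncomputable def rw_LW (κ : Type) (L : List (Fin n × Wd (cdim c n) × Wd (cdim c n))) :
    (Option κ ⊕ (Σ i : Fin n, Fin (cdim c n i))) →₀ ℕ :=
  (L.map fun t => xwt ((none : Option κ), t.2.1) + xwt ((none : Option κ), t.2.2)).sum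

/-- admissible exchanges -/
def rw_ok (B : Finset (Fin n)) (t : Fin n × Wd (cdim c n) × Wd (cdim c n)) : Prop :=
  t.1 ∉ B ∧ t.2.2 t.1 = (0 : Fin (c + 1)) ∧ t.2.1 t.1 ≠ (0 : Fin (c + 1))

theorem rw_dirt_LP (B : Finset (Fin n)) (L : List (Fin n × Wd (cdim c n) × Wd (cdim c n))) :
    DirtLE B (2 * L.length) (rw_LP κ L) := by
  induction L with
  | nil =>
    intro e he
    rw [rw_LP, List.map_nil, List.prod_nil, ← MvPolynomial.C_1, MvPolynomial.C_apply] at he
    have h1 := rw_dirt_monomial (κ := κ) B (0 : (Option κ × Wd (cdim c n)) →₀ ℕ) e he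
    have h2 : dirt B (0 : (Option κ × Wd (cdim c n)) →₀ ℕ) = 0 := by
      rw [dirt, Finsupp.sum_zero_index]
    omega
  | cons t L ih =>
    rw [rw_LP, List.map_cons, List.prod_cons, List.length_cons]
    have := rw_dirt_mul B 2 (2 * L.length) _ _ (rw_dirt_exch (κ := κ) B t.1 t.2.1 t.2.2) ih
    exact rw_dirt_mono B (by omega) _ this

theorem rw_xwt_exch (l : Fin n) (p q : Wd (cdim c n)) :
    xwt ((none : Option κ), Function.update p l (q l)) +
      xwt ((none : Option κ), Function.update q l (p l)) =
    xwt ((none : Option κ), p) + xwt ((none : Option κ), q) := by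
  unfold xwt
  simp only
  have h : (∑ i, Finsupp.single (Sum.inr ⟨i, Function.update p l (q l) i⟩ :
        Option κ ⊕ (Σ i : Fin n, Fin (cdim c n i))) 1) +
      (∑ i, Finsupp.single (Sum.inr ⟨i, Function.update q l (p l) i⟩ :
        Option κ ⊕ (Σ i : Fin n, Fin (cdim c n i))) 1) =
      (∑ i, Finsupp.single (Sum.inr ⟨i, p i⟩ : Option κ ⊕ (Σ i : Fin n, Fin (cdim c n i))) 1) +
      (∑ i, Finsupp.single (Sum.inr ⟨i, q i⟩ :
        Option κ ⊕ (Σ i : Fin n, Fin (cdim c n i))) (1 : ℕ)) := by
    rw [← Finset.sum_add_distrib, ← Finset.sum_add_distrib]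
    refine Finset.sum_congr rfl fun i _ => ?_
    by_cases hi : i = l
    · subst hi
      rw [Function.update_self, Function.update_self, add_comm]
    · rw [Function.update_of_ne hi, Function.update_of_ne hi]
  rw [add_add_add_comm, h, add_add_add_comm]

theorem rw_weight_single (v : Option κ × Wd (cdim c n)) :
    Finsupp.weight xwt (Finsupp.single v 1) = xwt v := by
  rw [Finsupp.weight_single, one_smul]

/-- the target subspace -/
noncomputable def rw_W (B : Finset (Fin n)) (K M : ℕ)
    (lam : (Option κ ⊕ (Σ i : Fin n, Fin (cdim c n i))) →₀ ℕ) : Submodule ℂ (XP κ (cdim c n)) :=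
  rw_G κ B K ⊔ Submodule.span ℂ {y | IsExchProd B M lam y}

theorem rw_full (B : Finset (Fin n)) (K M : ℕ)
    (lam : (Option κ ⊕ (Σ i : Fin n, Fin (cdim c n i))) →₀ ℕ)
    (L : List (Fin n × Wd (cdim c n) × Wd (cdim c n))) (hL : ∀ t ∈ L, rw_ok B t)
    (hlen : L.length = M) (e : (Option κ × Wd (cdim c n)) →₀ ℕ)
    (hw : rw_LW κ L + Finsupp.weight xwt e = lam) :
    rw_LP κ L * monomial e 1 ∈ rw_W B K M lam := by
  apply Submodule.mem_sup_right
  apply Submodule.subset_span
  subst hlen
  refine ⟨fun j => (L.get j).1, fun j => (L.get j).2.1, fun j => (L.get j).2.2, e, ?_, ?_, ?_⟩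
  · intro j
    exact hL _ (List.get_mem L j)
  · rw [← hw]
    congr 1
    unfold rw_LW
    rw [← List.sum_ofFn]
    congr 1
    apply List.ext_get
    · simp
    · intro i h1 h2
      simp
  · congr 1
    unfold rw_LP
    rw [← List.prod_ofFn]
    congr 1
    apply List.ext_get
    · simp
    · intro i h1 h2
      simp

/-- number of non-zero letters outside `B` -/
def rw_z (B : Finset (Fin n)) (p : Wd (cdim c n)) : ℕ :=
  (Finset.univ.filter (fun l : Fin n => l ∉ B ∧ p l ≠ (0 : Fin (c + 1)))).card

theorem rw_z_update (B : Finset (Fin n)) (p : Wd (cdim c n)) (l : Fin n) (hl : l ∉ B)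
    (hp : p l ≠ (0 : Fin (c + 1))) (a : Fin (cdim c n l)) (ha : a = (0 : Fin (c + 1))) :
    rw_z B (Function.update p l a) + 1 = rw_z B p := by
  unfold rw_z
  rw [← Finset.card_erase_add_one (s := Finset.univ.filter (fun l : Fin n => l ∉ B ∧
    p l ≠ (0 : Fin (c + 1)))) (a := l) (by simp [hl, hp])]
  congr 2
  ext i
  simp only [Finset.mem_filter, Finset.mem_univ, true_and, Finset.mem_erase]
  by_cases hi : i = l
  · subst hi
    rw [Function.update_self]
    constructor
    · rintro ⟨_, h⟩; exact absurd ha h
    · rintro ⟨h, _⟩; exact absurd rfl h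
  · rw [Function.update_of_ne hi]
    constructor
    · rintro ⟨h1, h2⟩; exact ⟨hi, h1, h2⟩
    · rintro ⟨_, h1, h2⟩; exact ⟨h1, h2⟩

theorem rw_main (B : Finset (Fin n)) (D M K : ℕ)
    (lam : (Option κ ⊕ (Σ i : Fin n, Fin (cdim c n i))) →₀ ℕ)
    (hK : 2 * M + D + rw_spec lam ≤ K) (hlam : ∀ l : Fin n, l ∉ B → rw_col l lam ≤ D) :
    ∀ (k : ℕ) (L : List (Fin n × Wd (cdim c n) × Wd (cdim c n))), (∀ t ∈ L, rw_ok B t) →
      L.length + k = M → ∀ (N : ℕ) (c0 e : (Option κ × Wd (cdim c n)) →₀ ℕ), rw_ord e = N →
      dirt B c0 = 0 → rw_LW κ L + Finsupp.weight xwt (c0 + e) = lam →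
      rw_LP κ L * monomial (c0 + e) 1 ∈ rw_W B K M lam := by
  classical
  intro k
  induction k with
  | zero =>
    intro L hL hlen N c0 e _ _ hw
    exact rw_full B K M lam L hL (by omega) _ hw
  | succ k ihk =>
    intro L hL hlen N
    induction N with
    | zero =>
      intro c0 e hN hc hw
      apply Submodule.mem_sup_left
      rw [rw_mem_G]
      have h1 := rw_dirt_mul B _ _ _ _ (rw_dirt_LP (κ := κ) B L) (rw_dirt_monomial B (c0 + e))
      refine rw_dirt_mono B ?_ _ h1
      rw [rw_dirt_add, hc]
      have h2 := rw_dirt_le B e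
      have h3 : rw_spec (Finsupp.weight xwt e) ≤ rw_spec lam := by
        rw [← hw, map_add, map_add, map_add]
        omega
      omega
    | succ N ihN =>
      intro c0 e hN hc hw
      by_cases hD : N + 1 ≤ D
      · apply Submodule.mem_sup_left
        rw [rw_mem_G]
        have h1 := rw_dirt_mul B _ _ _ _ (rw_dirt_LP (κ := κ) B L) (rw_dirt_monomial B (c0 + e))
        refine rw_dirt_mono B ?_ _ h1
        rw [rw_dirt_add, hc]
        have h2 := rw_dirt_le B e
        have h3 : rw_spec (Finsupp.weight xwt e) ≤ rw_spec lam := by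
          rw [← hw, map_add, map_add, map_add]
          omega
        omega
      · -- there is an ordinary variable in `e`
        have hex : ∃ p : Wd (cdim c n), 0 < e (none, p) := by
          by_contra hcon
          push Not at hcon
          have : rw_ord e = 0 := by
            unfold rw_ord
            refine Finset.sum_eq_zero fun v _ => ?_
            obtain ⟨o, q⟩ := v
            rcases o with _ | r
            · have := hcon q
              simp only
              rw [if_pos trivial]
              omega
            · simp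
          omega
        obtain ⟨p, hp⟩ := hex
        obtain ⟨e', rfl⟩ : ∃ e', e = Finsupp.single (none, p) 1 + e' := by
          refine ⟨e - Finsupp.single (none, p) 1, ?_⟩
          rw [add_tsub_cancel_of_le]
          rw [Finsupp.single_le_iff]
          exact hp
        -- induction on the number of non-zero letters
        have inner : ∀ (z : ℕ) (p : Wd (cdim c n)) (e' : (Option κ × Wd (cdim c n)) →₀ ℕ),
            rw_z B p = z → rw_ord e' = N →
            rw_LW κ L + Finsupp.weight xwt (c0 + (Finsupp.single (none, p) 1 + e')) = lam →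
            rw_LP κ L * monomial (c0 + (Finsupp.single (none, p) 1 + e')) 1 ∈ rw_W B K M lam := by
          intro z
          induction z with
          | zero =>
            intro p e' hz hN' hw'
            rw [← add_assoc]
            refine ihN _ _ hN' ?_ (by rw [add_assoc]; exact hw')
            rw [rw_dirt_add, hc, zero_add]
            unfold dirt
            rw [Finsupp.sum_single_index (by simp)]
            rw [if_pos]
            refine ⟨rfl, fun l hl => ?_⟩
            by_contra h
            rw [rw_z, Finset.card_eq_zero] at hz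
            have : l ∈ (∅ : Finset (Fin n)) := by
              rw [← hz]
              simp [hl, h]
            simp at this
          | succ z ihz =>
            intro p e' hz hN' hw'
            obtain ⟨l, hl⟩ : (Finset.univ.filter (fun l : Fin n => l ∉ B ∧
                p l ≠ (0 : Fin (c + 1)))).Nonempty := by
              rw [← Finset.card_pos]
              change 0 < rw_z B p
              omega
            rw [Finset.mem_filter] at hl
            obtain ⟨_, hlB, hpl⟩ := hl
            have hcol : rw_col l (Finsupp.weight xwt e') < D := by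
              have h1 := hlam l hlB
              rw [← hw', map_add, map_add, map_add, map_add, map_add, rw_weight_single,
                rw_col_xwt, if_neg hpl] at h1
              omega
            obtain ⟨q, hq0, hq⟩ := rw_exists_zero l D e' (by omega) hcol
            obtain ⟨e'', rfl⟩ : ∃ e'', e' = Finsupp.single (none, q) 1 + e'' := by
              refine ⟨e' - Finsupp.single (none, q) 1, ?_⟩
              rw [add_tsub_cancel_of_le]
              rw [Finsupp.single_le_iff]
              exact hq
            have hsplit : rw_LP κ L * monomial (c0 + (Finsupp.single (none, p) 1 +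
                (Finsupp.single (none, q) 1 + e''))) 1 =
                rw_LP κ ((l, p, q) :: L) * monomial (c0 + e'') 1 +
                rw_LP κ L * monomial (c0 + (Finsupp.single (none, Function.update p l (q l)) 1 +
                  (Finsupp.single (none, Function.update q l (p l)) 1 + e''))) 1 := by
              have hm : ∀ p q : Wd (cdim c n), (monomial (c0 + (Finsupp.single (none, p) 1 +
                  (Finsupp.single (none, q) 1 + e''))) (1 : ℂ) : XP κ (cdim c n)) =
                  X (none, p) * X (none, q) * monomial (c0 + e'') 1 := by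
                intro p q
                rw [X, X, monomial_mul, monomial_mul]
                congr 1
                · abel
                · norm_num
              rw [hm, hm]
              rw [rw_LP, rw_LP, List.map_cons, List.prod_cons]
              simp only [exch]
              ring
            rw [hsplit]
            apply Submodule.add_mem
            · refine ihk ((l, p, q) :: L) ?_ (by rw [List.length_cons]; omega) _ c0 e'' rfl hc ?_
              · intro t ht
                rcases List.mem_cons.1 ht with rfl | ht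
                · exact ⟨hlB, hq0, hpl⟩
                · exact hL t ht
              · rw [← hw']
                simp only [rw_LW, List.map_cons, List.sum_cons, map_add, rw_weight_single]
                abel
            · refine ihz _ _ ?_ ?_ ?_
              · have := rw_z_update B p l hlB hpl (q l) hq0
                omega
              · rw [rw_ord_add, rw_ord_single] at hN' ⊢
                simpa using hN'
              · rw [← hw']
                simp only [map_add, rw_weight_single]
                have := rw_xwt_exch (κ := κ) l p q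
                rw [← add_assoc (xwt (none, Function.update p l (q l))), this]
                abel
        refine inner _ p e' rfl ?_ hw
        rw [rw_ord_add, rw_ord_single] at hN
        simp at hN
        omega

end rewr

/-- TARGET -/
theorem rewriting (B : Finset (Fin n)) (D M : ℕ)
    (lam : (Option κ ⊕ (Σ i : Fin n, Fin (cdim c n i))) →₀ ℕ)
    (hlam : ∀ l : Fin n, l ∉ B → ∑ a : Fin (c + 1), (if a = 0 then 0 else lam (Sum.inr ⟨l, a⟩)) ≤ D)
    (f : XP κ (cdim c n)) (hf : IsWeightedHomogeneous xwt f lam) :
    ∃ g h : XP κ (cdim c n), f = g + h ∧ DirtLE B (2 * M + D + ∑ r : κ, lam (Sum.inl (some r))) g ∧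
      h ∈ Submodule.span ℂ {y | IsExchProd B M lam y} := by
  classical
  have key : f ∈ rw_W B (2 * M + D + ∑ r : κ, lam (Sum.inl (some r))) M lam := by
    rw [MvPolynomial.as_sum f]
    refine Submodule.sum_mem _ fun e he => ?_
    have hwe : Finsupp.weight xwt e = lam := hf (MvPolynomial.mem_support_iff.1 he)
    have h1 := rw_main B D M (2 * M + D + ∑ r : κ, lam (Sum.inl (some r))) lam le_rfl hlam M []
      (by simp) (by simp) _ 0 e rfl (by simp [dirt]) (by simpa [rw_LW] using hwe)
    rw [zero_add] at h1
    have h2 : (monomial e (coeff e f) : XP κ (cdim c n)) = coeff e f • (rw_LP κ [] *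
        monomial e 1) := by
      rw [rw_LP, List.map_nil, List.prod_nil, one_mul, smul_monomial, smul_eq_mul, mul_one]
    rw [h2]
    exact Submodule.smul_mem _ _ h1
  rw [rw_W, Submodule.mem_sup] at key
  obtain ⟨g, hg, h, hh, rfl⟩ := key
  exact ⟨g, h, rfl, hg, hh⟩

end Pool.Agent.Helper929_delta
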