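import Mathlib

/-
Independent sets in a sparse relation.
-/

namespace Pool.Agent.Helper929_delta

theorem exists_independent_aux {ι : Type*} [Fintype ι] [DecidableEq ι] (R : ι → ι → Prop)
    [DecidableRel R] (D : ℕ)
    (hR : ∀ j', (Finset.univ.filter (fun j => R j j')).card ≤ D) (T : ℕ) :
    ∀ A : Finset ι, (2 * D + 1) * T ≤ A.card →
      ∃ S : Finset ι, S ⊆ A ∧ S.card = T ∧ ∀ j ∈ S, ∀ j' ∈ S, j ≠ j' → ¬ R j j' := by
  induction T with
  | zero => intro A _; exact ⟨∅, by simp, by simp, by simp⟩
  | succ T ih =>
    intro A hA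
    have hA' : (2 * D + 1) * T + (2 * D + 1) ≤ A.card := by
      rw [← Nat.mul_succ]; exact hA
    have hne : A.Nonempty := Finset.card_pos.1 (by omega)
    -- some vertex has at most D out-neighbours in A
    obtain ⟨j, hj, hout⟩ : ∃ j ∈ A, (A.filter (fun j' => R j j')).card ≤ D := by
      by_contra hcon
      push Not at hcon
      have h1 : A.card * (D + 1) ≤ ∑ j ∈ A, (A.filter (fun j' => R j j')).card := by
        rw [← smul_eq_mul]
        exact Finset.card_nsmul_le_sum _ _ _ (fun j hj => hcon j hj)
      have h2 : ∑ j ∈ A, (A.filter (fun j' => R j j')).card =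
          ∑ j' ∈ A, (A.filter (fun j => R j j')).card := by
        simp only [Finset.card_filter]
        exact Finset.sum_comm
      have h3 : ∑ j' ∈ A, (A.filter (fun j => R j j')).card ≤ A.card * D := by
        rw [← smul_eq_mul]
        apply Finset.sum_le_card_nsmul
        intro j' _
        exact (Finset.card_le_card (Finset.filter_subset_filter _ (Finset.subset_univ A))).trans
          (hR j')
      have h4 : 0 < A.card := Finset.card_pos.2 hne
      rw [h2] at h1
      nlinarith
    let B : Finset ι := ({j} ∪ A.filter (fun j' => R j j')) ∪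
      Finset.univ.filter (fun j' => R j' j)
    have hB : B.card ≤ 2 * D + 1 := by
      have h1 := Finset.card_union_le ({j} ∪ A.filter (fun j' => R j j'))
        (Finset.univ.filter (fun j' => R j' j))
      have h2 := Finset.card_union_le ({j} : Finset ι) (A.filter (fun j' => R j j'))
      have h3 := hR j
      rw [Finset.card_singleton] at h2
      have : B.card ≤ (({j} : Finset ι) ∪ A.filter (fun j' => R j j')).card +
        (Finset.univ.filter (fun j' => R j' j)).card := h1
      omega
    obtain ⟨S, hSA, hS, hind⟩ := ih (A \ B) (by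
      have := Finset.le_card_sdiff B A
      omega)
    have hmem : ∀ x ∈ S, x ∈ A ∧ x ≠ j ∧ ¬ R j x ∧ ¬ R x j := by
      intro x hx
      have h1 := hSA hx
      simp only [B, Finset.mem_sdiff, Finset.mem_union, Finset.mem_singleton, Finset.mem_filter,
        Finset.mem_univ, true_and, not_or, not_and] at h1
      exact ⟨h1.1, h1.2.1.1, h1.2.1.2 h1.1, h1.2.2⟩
    refine ⟨insert j S, ?_, ?_, ?_⟩
    · intro x hx
      rcases Finset.mem_insert.1 hx with h | h
      · rw [h]; exact hj
      · exact (hmem x h).1
    · rw [Finset.card_insert_of_notMem (fun h => (hmem j h).2.1 rfl), hS]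
    · intro x hx y hy hxy
      rcases Finset.mem_insert.1 hx with h | h <;> rcases Finset.mem_insert.1 hy with h' | h'
      · exact absurd (h.trans h'.symm) hxy
      · rw [h]; exact (hmem y h').2.2.1
      · rw [h']; exact (hmem x h).2.2.2
      · exact hind x h y h' hxy

/-- TARGET -/
theorem exists_independent {ι : Type*} [Fintype ι] [DecidableEq ι] (R : ι → ι → Prop) [DecidableRel R] (D T : ℕ)
    (hR : ∀ j', (Finset.univ.filter (fun j => R j j')).card ≤ D) (hT : (2 * D + 1) * T ≤ Fintype.card ι) :
    ∃ S : Finset ι, S.card = T ∧ ∀ j ∈ S, ∀ j' ∈ S, j ≠ j' → ¬ R j j' := by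
  obtain ⟨S, _, h1, h2⟩ := exists_independent_aux R D hR T Finset.univ
    (by rw [Finset.card_univ]; exact hT)
  exact ⟨S, h1, h2⟩

end Pool.Agent.Helper929_delta
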