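import Pool.Agent.Helper929_delta.X1
import Pool.Agent.Helper929_delta.X2
import Pool.Agent.Helper929_delta.X3
import Pool.Agent.Helper929_delta.X6
import Pool.Agent.Helper929_delta.X7

/-
Reduction to bounded dirty degree.
-/

namespace Pool.Agent.Helper929_delta

open MvPolynomial

variable {κ : Type} [Fintype κ] [DecidableEq κ]

section aux

variable {n : ℕ} {m : Fin n → ℕ}

/-- composition of the operators `xproj` over a list of columns -/
noncomputable def projL (lam : (Option κ ⊕ (Σ i, Fin (m i))) →₀ ℕ) (A z : ∀ l, Fin (m l)) (M : ℕ) :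
    List (Fin n) → XP κ m → XP κ m
  | [], g => g
  | l :: L, g => xproj l (A l) (z l) (lam (Sum.inr ⟨l, A l⟩)) (lam (Sum.inr ⟨l, z l⟩)) M (projL lam A z M L g)

theorem projL_weight (lam : (Option κ ⊕ (Σ i, Fin (m i))) →₀ ℕ) (A z : ∀ l, Fin (m l)) (M : ℕ)
    (L : List (Fin n)) {f : XP κ m} (hf : IsWeightedHomogeneous xwt f lam) :
    IsWeightedHomogeneous xwt (projL lam A z M L f) lam := by
  induction L with
  | nil => exact hf
  | cons l L ih => exact xproj_weight _ _ _ _ _ _ ih

theorem projL_add (lam : (Option κ ⊕ (Σ i, Fin (m i))) →₀ ℕ) (A z : ∀ l, Fin (m l)) (M : ℕ)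
    (L : List (Fin n)) (f g : XP κ m) :
    projL lam A z M L (f + g) = projL lam A z M L f + projL lam A z M L g := by
  induction L with
  | nil => rfl
  | cons l L ih => simp only [projL, ih, xproj_add]

theorem projL_C_mul (lam : (Option κ ⊕ (Σ i, Fin (m i))) →₀ ℕ) (A z : ∀ l, Fin (m l)) (M : ℕ)
    (L : List (Fin n)) (c : ℂ) (f : XP κ m) :
    projL lam A z M L (C c * f) = C c * projL lam A z M L f := by
  induction L with
  | nil => rfl
  | cons l L ih => simp only [projL, ih, xproj_C_mul]

theorem projL_mem_of_mem (lam : (Option κ ⊕ (Σ i, Fin (m i))) →₀ ℕ) (A z : ∀ l, Fin (m l)) (M : ℕ)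
    (I : Ideal (XP κ m))
    (hI : ∀ (l : Fin n) (a b : Fin (m l)) (f : XP κ m), f ∈ I → XD l a b f ∈ I)
    (L : List (Fin n)) {f : XP κ m} (hf : f ∈ I) : projL lam A z M L f ∈ I := by
  induction L with
  | nil => exact hf
  | cons l L ih => exact xproj_mem_of_mem I l (hI l) _ _ _ _ _ ih

theorem projL_modEq (lam : (Option κ ⊕ (Σ i, Fin (m i))) →₀ ℕ) (A z : ∀ l, Fin (m l)) (M : ℕ)
    (I : Ideal (XP κ m))
    (hI : ∀ (l : Fin n) (a b : Fin (m l)) (f : XP κ m), f ∈ I → XD l a b f ∈ I)
    (L : List (Fin n)) (f : XP κ m)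
    (hL : ∀ l ∈ L, XD l (z l) (A l) f ∈ I ∧ M ≤ lam (Sum.inr ⟨l, A l⟩) ∧
      lam (Sum.inr ⟨l, A l⟩) ≤ lam (Sum.inr ⟨l, z l⟩)) :
    ∃ c : ℂ, c ≠ 0 ∧ projL lam A z M L f - C c * f ∈ I := by
  induction L with
  | nil => exact ⟨1, one_ne_zero, by simp [projL]⟩
  | cons l L ih =>
    obtain ⟨c, hc, h⟩ := ih (fun l' hl' => hL l' (List.mem_cons_of_mem _ hl'))
    obtain ⟨h1, h2, h3⟩ := hL l List.mem_cons_self
    obtain ⟨c', hc', h'⟩ := xproj_modEq I l (hI l) (A l) (z l) _ _ M h2 h3 h1
    refine ⟨c * c', mul_ne_zero hc hc', ?_⟩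
    have e1 : projL lam A z M L f = C c * f + (projL lam A z M L f - C c * f) := by ring
    simp only [projL]
    rw [e1, xproj_add, xproj_C_mul, C_mul]
    have h4 := xproj_mem_of_mem I l (hI l) (A l) (z l) (lam (Sum.inr ⟨l, A l⟩)) (lam (Sum.inr ⟨l, z l⟩)) M h
    have h5 := I.mul_mem_left (C c) h'
    have h6 := I.add_mem h5 h4
    convert h6 using 1
    ring

theorem projL_mem_swap (lam : (Option κ ⊕ (Σ i, Fin (m i))) →₀ ℕ) (A z : ∀ l, Fin (m l)) (M : ℕ)
    (L : List (Fin n)) {f : XP κ m} (hf : IsWeightedHomogeneous xwt f lam)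
    (l : Fin n) (hl : l ∈ L) (hAz : A l ≠ z l) :
    projL lam A z M L f ∈ swapIdeal κ m {l} ^ M := by
  induction L with
  | nil => simp at hl
  | cons l' L ih =>
    by_cases h : l = l'
    · subst h
      have h1 := xproj_mem l hAz M (projL_weight lam A z M L hf)
      exact Ideal.pow_right_mono (minorIdeal_le l (A l) (z l)) M h1
    · have h2 : l ∈ L := by
        rcases List.mem_cons.1 hl with h3 | h3
        · exact absurd h3 h
        · exact h3
      exact xproj_mem_of_mem _ l' (fun a b f hf => swapIdeal_pow_XD _ _ _ _ _ hf) _ _ _ _ _ (ih h2)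

end aux

section dirtsec

variable {c n : ℕ}

omit [Fintype κ] [DecidableEq κ] in
theorem dirt_add (B : Finset (Fin n)) (e e' : (Option κ × Wd (cdim c n)) →₀ ℕ) :
    dirt B (e + e') = dirt B e + dirt B e' := by
  classical
  unfold dirt
  rw [Finsupp.sum_add_index']
  · intro v; simp
  · intro v k k'; split_ifs <;> simp

omit [Fintype κ] [DecidableEq κ] in
open Classical in
theorem dirt_single (B : Finset (Fin n)) (v : Option κ × Wd (cdim c n)) :
    dirt B (Finsupp.single v 1) = if Clean B v then 0 else 1 := by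
  unfold dirt
  rw [Finsupp.sum_single_index]
  simp

omit [Fintype κ] [DecidableEq κ] in
theorem DirtLE.add {B : Finset (Fin n)} {k : ℕ} {f g : XP κ (cdim c n)} (hf : DirtLE B k f) (hg : DirtLE B k g) :
    DirtLE B k (f + g) := by
  classical
  intro e he
  rcases Finset.mem_union.1 (MvPolynomial.support_add he) with h | h
  · exact hf e h
  · exact hg e h

omit [Fintype κ] [DecidableEq κ] in
theorem DirtLE.C_mul {B : Finset (Fin n)} {k : ℕ} (x : ℂ) {f : XP κ (cdim c n)} (hf : DirtLE B k f) :
    DirtLE B k (C x * f) := by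
  intro e he
  refine hf e ?_
  rw [mem_support_iff, coeff_C_mul] at he
  rw [mem_support_iff]
  exact right_ne_zero_of_mul he

omit [Fintype κ] [DecidableEq κ] in
theorem DirtLE.zero {B : Finset (Fin n)} {k : ℕ} : DirtLE B k (0 : XP κ (cdim c n)) := by
  intro e he; simp at he

omit [Fintype κ] [DecidableEq κ] in
theorem DirtLE.mono {B : Finset (Fin n)} {k k' : ℕ} (h : k ≤ k') {f : XP κ (cdim c n)} (hf : DirtLE B k f) :
    DirtLE B k' f := fun e he => (hf e he).trans h

omit [Fintype κ] [DecidableEq κ] in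
theorem DirtLE.sum {ι : Type*} {B : Finset (Fin n)} {k : ℕ} (s : Finset ι) (f : ι → XP κ (cdim c n))
    (hf : ∀ i ∈ s, DirtLE B k (f i)) : DirtLE B k (∑ i ∈ s, f i) := by
  classical
  induction s using Finset.induction_on with
  | empty => simpa using DirtLE.zero
  | insert a s ha ih =>
    rw [Finset.sum_insert ha]
    exact (hf a (Finset.mem_insert_self _ _)).add (ih fun i hi => hf i (Finset.mem_insert_of_mem hi))

omit [Fintype κ] in
theorem DirtLE.XD {B : Finset (Fin n)} {k : ℕ} {l : Fin n} (hl : l ∈ B) (a b : Fin (cdim c n l))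
    {f : XP κ (cdim c n)} (hf : DirtLE B k f) : DirtLE B k (XD l a b f) := by
  classical
  rw [f.as_sum, map_sum]
  refine DirtLE.sum _ _ fun e he => ?_
  have hde := hf e he
  unfold Pool.Agent.Helper929_delta.XD
  rw [mkDerivation_monomial, smul_eq_C_mul]
  refine DirtLE.C_mul _ ?_
  unfold Finsupp.sum
  refine DirtLE.sum _ _ fun v hv => ?_
  beta_reduce
  split_ifs with hb
  · rw [smul_eq_mul, X, monomial_mul]
    intro e' he'
    have h1 : e' = e - Finsupp.single v 1 + Finsupp.single (v.1, Function.update v.2 l a) 1 := by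
      have := Finset.mem_singleton.1 (support_monomial_subset he')
      exact this
    have hv1 : Finsupp.single v 1 ≤ e := by
      rw [Finsupp.single_le_iff]
      exact Nat.one_le_iff_ne_zero.2 (Finsupp.mem_support_iff.1 hv)
    have h2 : dirt B e = dirt B (e - Finsupp.single v 1) + dirt B (Finsupp.single v 1) := by
      rw [← dirt_add, tsub_add_cancel_of_le hv1]
    have h3 : Clean B (v.1, Function.update v.2 l a) ↔ Clean B v := by
      unfold Clean
      constructor
      · rintro ⟨h4, h5⟩
        refine ⟨h4, fun l' hl' => ?_⟩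
        have := h5 l' hl'
        have hne : l' ≠ l := fun h => hl' (h ▸ hl)
        simpa [Function.update_of_ne hne] using this
      · rintro ⟨h4, h5⟩
        refine ⟨h4, fun l' hl' => ?_⟩
        have := h5 l' hl'
        have hne : l' ≠ l := fun h => hl' (h ▸ hl)
        simpa [Function.update_of_ne hne] using this
    rw [h1, dirt_add, dirt_single]
    rw [h2, dirt_single] at hde
    simpa [h3] using hde
  · simpa using DirtLE.zero

omit [Fintype κ] in
theorem DirtLE.xproj {B : Finset (Fin n)} {k : ℕ} {l : Fin n} (hl : l ∈ B) (a b : Fin (cdim c n l))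
    (q p M : ℕ) {f : XP κ (cdim c n)} (hf : DirtLE B k f) : DirtLE B k (xproj l a b q p M f) := by
  induction M with
  | zero => exact hf
  | succ M ih =>
    simp only [Pool.Agent.Helper929_delta.xproj]
    rw [sub_eq_add_neg, ← neg_mul, ← C_neg]
    exact ((ih.XD hl b a).XD hl a b).add (ih.C_mul _)

theorem DirtLE.projL {B : Finset (Fin n)} {k : ℕ} (lam : (Option κ ⊕ (Σ i, Fin (cdim c n i))) →₀ ℕ)
    (A z : ∀ l, Fin (cdim c n l)) (M : ℕ) (L : List (Fin n)) (hL : ∀ l ∈ L, l ∈ B)
    {f : XP κ (cdim c n)} (hf : DirtLE B k f) : DirtLE B k (projL lam A z M L f) := by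
  induction L with
  | nil => exact hf
  | cons l L ih =>
    exact (ih fun l' hl' => hL l' (List.mem_cons_of_mem _ hl')).xproj (hL l List.mem_cons_self) _ _ _ _ _

end dirtsec

section claimsec

variable {n : ℕ} {m : Fin n → ℕ}

omit [Fintype κ] in
theorem exch_weight {c n : ℕ} (l : Fin n) (p q : Wd (cdim c n)) :
    IsWeightedHomogeneous xwt (exch (κ := κ) l p q) (xwt (none, p) + xwt (none, q)) := by
  unfold exch
  refine IsWeightedHomogeneous.sub ?_ ?_
  · exact (isWeightedHomogeneous_X ℂ xwt _).mul (isWeightedHomogeneous_X ℂ xwt _)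
  · have h := (isWeightedHomogeneous_X ℂ (xwt (κ := κ) (m := cdim c n)) (none, Function.update p l (q l))).mul
      (isWeightedHomogeneous_X ℂ (xwt (κ := κ) (m := cdim c n)) (none, Function.update q l (p l)))
    have hwt : (xwt (none, p) + xwt (none, q) : (Option κ ⊕ (Σ i, Fin (cdim c n i))) →₀ ℕ)
      = xwt (none, Function.update p l (q l)) + xwt (none, Function.update q l (p l)) := ?_
    · rw [hwt]; exact h
    unfold xwt
    have key : ∀ (i : Fin n), Finsupp.single (Sum.inr (α := Option κ) (⟨i, p i⟩ : Σ i, Fin (cdim c n i))) 1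
        + Finsupp.single (Sum.inr (α := Option κ) (⟨i, q i⟩ : Σ i, Fin (cdim c n i))) 1
        = Finsupp.single (Sum.inr (α := Option κ) (⟨i, Function.update p l (q l) i⟩ : Σ i, Fin (cdim c n i))) 1
        + Finsupp.single (Sum.inr (α := Option κ) (⟨i, Function.update q l (p l) i⟩ : Σ i, Fin (cdim c n i))) 1 := by
      intro i
      by_cases hi : i = l
      · subst hi
        simp only [Function.update_self]
        rw [add_comm]
      · simp only [Function.update_of_ne hi]
    have h2 := Finset.sum_congr (rfl : (Finset.univ : Finset (Fin n)) = Finset.univ) (fun i _ => key i)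
    rw [Finset.sum_add_distrib, Finset.sum_add_distrib] at h2
    have h3 : ∀ a b x y : (Option κ ⊕ (Σ i, Fin (cdim c n i))) →₀ ℕ,
      (a + x) + (b + y) = (a + b) + (x + y) := fun a b x y => by abel
    exact (h3 _ _ _ _).trans ((congrArg (fun t => _ + t) h2).trans (h3 _ _ _ _).symm)

omit [Fintype κ] in
theorem x10_xwt_inr (w : Wd m) (v : Option κ) (l : Fin n) (a : Fin (m l)) :
    xwt (v, w) (Sum.inr ⟨l, a⟩) = if w l = a then 1 else 0 := by
  classical
  unfold xwt
  rw [Finsupp.add_apply, Finsupp.finsetSum_apply, Finsupp.single_apply, if_neg (by simp), zero_add]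
  rw [Finset.sum_eq_single l]
  · rw [Finsupp.single_apply]
    simp
  · intro b _ hb
    rw [Finsupp.single_apply, if_neg]
    simp only [Sum.inr.injEq, Sigma.mk.injEq, not_and]
    intro h; exact absurd h hb
  · simp

theorem x10_xwt_inl (w : Wd m) (v r : Option κ) :
    xwt (v, w) (Sum.inl r) = if v = r then 1 else 0 := by
  classical
  unfold xwt
  rw [Finsupp.add_apply, Finsupp.finsetSum_apply, Finsupp.single_apply]
  rw [Finset.sum_eq_zero, add_zero]
  · simp
  · intro i _
    rw [Finsupp.single_apply, if_neg (by simp)]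

/-- squares bound the multiplicity of special kinds -/
theorem lam_special_le {I : Ideal (XP κ m)} (hI : Squares I) {f : XP κ m}
    {lam : (Option κ ⊕ (Σ i, Fin (m i))) →₀ ℕ} (hf : IsWeightedHomogeneous xwt f lam) (hfI : f ∉ I) (r : κ) :
    lam (Sum.inl (some r)) ≤ 1 := by
  classical
  by_contra hlt
  push Not at hlt
  apply hfI
  rw [f.as_sum]
  refine I.sum_mem fun e he => ?_
  have hw : Finsupp.weight xwt e = lam := hf (mem_support_iff.1 he)
  -- find a variable
  have step : ∀ e' : (Option κ × Wd m) →₀ ℕ, (Finsupp.weight xwt e') (Sum.inl (some r)) ≠ 0 →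
      ∃ w : Wd m, Finsupp.single (some r, w) 1 ≤ e' := by
    intro e' he'
    rw [Finsupp.weight_apply, Finsupp.sum, Finsupp.finsetSum_apply] at he'
    obtain ⟨v, hv, hv'⟩ := Finset.exists_ne_zero_of_sum_ne_zero he'
    obtain ⟨k, w⟩ := v
    rw [Finsupp.smul_apply, x10_xwt_inl] at hv'
    have hk : k = some r := by
      by_contra hk
      simp [hk] at hv'
    subst hk
    refine ⟨w, ?_⟩
    rw [Finsupp.single_le_iff]
    exact Nat.one_le_iff_ne_zero.2 (Finsupp.mem_support_iff.1 hv)
  obtain ⟨w, hw1⟩ := step e (by rw [hw]; omega)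
  have h2 : Finsupp.weight xwt (e - Finsupp.single (some r, w) 1) + xwt (some r, w) = lam := by
    have : Finsupp.weight xwt (Finsupp.single (some r, w) 1) = xwt (some r, w) := by
      rw [Finsupp.weight_single, one_smul]
    rw [← this, ← map_add, tsub_add_cancel_of_le hw1, hw]
  obtain ⟨w', hw2⟩ := step (e - Finsupp.single (some r, w) 1) (by
    have := congrArg (fun g => g (Sum.inl (some r))) h2
    simp only [Finsupp.add_apply] at this
    rw [x10_xwt_inl, if_pos rfl] at this
    omega)
  have h3 : e = (e - Finsupp.single (some r, w) 1 - Finsupp.single (some r, w') 1)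
      + (Finsupp.single (some r, w) 1 + Finsupp.single (some r, w') 1) := by
    rw [add_comm (Finsupp.single (some r, w) 1), ← add_assoc, tsub_add_cancel_of_le hw2, tsub_add_cancel_of_le hw1]
  have h4 : (monomial e) (coeff e f) = (monomial (e - Finsupp.single (some r, w) 1 - Finsupp.single (some r, w') 1)) (coeff e f)
    * (X (some r, w) * X (some r, w')) := by
    rw [X, X, monomial_mul, monomial_mul, one_mul, mul_one, ← h3]
  rw [h4]
  exact I.mul_mem_left _ (hI r w w')

end claimsec

section claim2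

variable {c n : ℕ}

/-- the number of nonzero letters in a column -/
theorem count_le {B : Finset (Fin n)} {M D : ℕ} {lam : (Option κ ⊕ (Σ i : Fin n, Fin (cdim c n i))) →₀ ℕ}
    (l : Fin M → Fin n) (p q : Fin M → Wd (cdim c n)) (e : (Option κ × Wd (cdim c n)) →₀ ℕ)
    (hlam : ∀ l : Fin n, l ∉ B → ∑ a : Fin (c + 1), (if a = 0 then 0 else lam (Sum.inr ⟨l, a⟩)) ≤ D)
    (h1 : ∀ j, l j ∉ B ∧ q j (l j) = (0 : Fin (c + 1)) ∧ p j (l j) ≠ (0 : Fin (c + 1)))
    (h2 : (∑ j, (xwt ((none : Option κ), p j) + xwt ((none : Option κ), q j))) + Finsupp.weight xwt e = lam)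
    (j' : Fin M) :
    (Finset.univ.filter (fun j => p j (l j') ≠ q j (l j'))).card ≤ D := by
  classical
  refine le_trans ?_ (hlam (l j') (h1 j').1)
  have h3 : ∀ a : Fin (c + 1), (∑ j, ((if p j (l j') = a then 1 else 0) + (if q j (l j') = a then 1 else 0))) ≤
      lam (Sum.inr ⟨l j', a⟩) := by
    intro a
    rw [← h2, Finsupp.add_apply, Finsupp.finsetSum_apply]
    refine le_trans (le_of_eq ?_) (Nat.le_add_right _ _)
    refine Finset.sum_congr rfl fun j _ => ?_
    rw [Finsupp.add_apply]
    erw [x10_xwt_inr, x10_xwt_inr]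
  calc (Finset.univ.filter (fun j => p j (l j') ≠ q j (l j'))).card
      = ∑ j, (if p j (l j') ≠ q j (l j') then 1 else 0) := by
        rw [Finset.card_filter]
    _ ≤ ∑ j, ∑ a : Fin (c + 1), (if a = 0 then 0 else
          ((if p j (l j') = a then 1 else 0) + (if q j (l j') = a then 1 else 0))) := by
        refine Finset.sum_le_sum fun j _ => ?_
        split_ifs with hpq
        · by_cases hp : p j (l j') = (0 : Fin (c + 1))
          · have hq : q j (l j') ≠ (0 : Fin (c + 1)) := fun h => hpq (hp.trans h.symm)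
            refine le_trans ?_ (Finset.single_le_sum (fun _ _ => Nat.zero_le _) (Finset.mem_univ (q j (l j'))))
            rw [if_neg hq]
            simp
          · refine le_trans ?_ (Finset.single_le_sum (fun _ _ => Nat.zero_le _) (Finset.mem_univ (p j (l j'))))
            rw [if_neg hp]
            simp
        · exact Nat.zero_le _
    _ = ∑ a : Fin (c + 1), ∑ j, (if a = 0 then 0 else
          ((if p j (l j') = a then 1 else 0) + (if q j (l j') = a then 1 else 0))) := Finset.sum_comm
    _ ≤ ∑ a : Fin (c + 1), (if a = 0 then 0 else lam (Sum.inr ⟨l j', a⟩)) := by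
        refine Finset.sum_le_sum fun a _ => ?_
        split_ifs with ha
        · simp
        · exact h3 a

theorem x10_claim {s M m0 D : ℕ} (hM : 1 ≤ M) (hm0 : (2 * D + 1) * ((s + 2) * M) ≤ m0)
    {I : Ideal (XP κ (cdim c n))} (hst : XStable I) (hFew : Few s M I)
    {lam : (Option κ ⊕ (Σ i : Fin n, Fin (cdim c n i))) →₀ ℕ} {B : Finset (Fin n)} (hBs : B.card ≤ s)
    (hlam : ∀ l : Fin n, l ∉ B → ∑ a : Fin (c + 1), (if a = 0 then 0 else lam (Sum.inr ⟨l, a⟩)) ≤ D)
    (A z : ∀ l, Fin (cdim c n l)) (hAz : ∀ l ∈ B, A l ≠ z l)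
    {y : XP κ (cdim c n)} (hy : IsExchProd B m0 lam y) :
    projL lam A z M B.toList y ∈ I := by
  classical
  obtain ⟨l, p, q, e, h1, h2, rfl⟩ := hy
  have hyw : IsWeightedHomogeneous xwt ((∏ j, exch (l j) (p j) (q j)) * monomial e (1 : ℂ)) lam := by
    rw [← h2]
    refine IsWeightedHomogeneous.mul ?_ (isWeightedHomogeneous_monomial _ _ _ rfl)
    exact IsWeightedHomogeneous.prod _ _ _ fun j _ => exch_weight _ _ _
  obtain ⟨T, hT, hTR⟩ := exists_independent (fun j j' : Fin m0 => p j (l j') ≠ q j (l j')) D ((s + 2) * M)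
    (count_le l p q e hlam h1 h2) (by simpa using hm0)
  have hinj : ∀ j ∈ T, ∀ j' ∈ T, j ≠ j' → l j ≠ l j' := by
    intro j hj j' hj' hne hl
    apply hTR j hj j' hj' hne
    rw [← hl]
    intro h
    exact (h1 j).2.2 (h.trans (h1 j).2.1)
  have hagree : ∀ j ∈ T, ∀ j' ∈ T, j ≠ j' → p j (l j') = q j (l j') := by
    intro j hj j' hj' hne
    by_contra h
    exact hTR j hj j' hj' hne h
  -- enumeration of T
  let φ : Fin (s + 2) × Fin M → Fin m0 := fun x => T.orderEmbOfFin hT (finProdFinEquiv x)
  have hφT : ∀ x, φ x ∈ T := fun x => Finset.orderEmbOfFin_mem _ _ _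
  have hφi : Function.Injective φ := fun x x' h =>
    finProdFinEquiv.injective ((T.orderEmbOfFin hT).injective h)
  -- enumeration of B
  let eB : Fin B.card → Fin n := fun i => B.orderEmbOfFin rfl i
  have heB : ∀ i, eB i ∈ B := fun i => Finset.orderEmbOfFin_mem _ _ _
  have heBi : Function.Injective eB := fun x x' h => (B.orderEmbOfFin rfl).injective h
  let S : Fin (s + 1) → Finset (Fin n) := fun i =>
    if h : (i : ℕ) < B.card then {eB ⟨i, h⟩} else
      Finset.univ.image (fun t : Fin M => l (φ (i.castSucc, t)))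
  have hS1 : ∀ (i : Fin (s + 1)) (h : (i : ℕ) < B.card), S i = {eB ⟨i, h⟩} := fun i h => dif_pos h
  have hS2 : ∀ (i : Fin (s + 1)) (_ : ¬ (i : ℕ) < B.card), S i =
      Finset.univ.image (fun t : Fin M => l (φ (i.castSucc, t))) := fun i h => dif_neg h
  have hM0 : Nonempty (Fin M) := ⟨⟨0, hM⟩⟩
  refine hFew S ?_ ?_ ?_ ?_
  · intro i
    by_cases h : (i : ℕ) < B.card
    · rw [hS1 i h]; exact Finset.singleton_nonempty _
    · rw [hS2 i h]; exact Finset.univ_nonempty.image _
  · intro i i' hne
    rw [Finset.disjoint_left]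
    intro x hx hx'
    by_cases h : (i : ℕ) < B.card <;> by_cases h' : (i' : ℕ) < B.card
    · rw [hS1 i h, Finset.mem_singleton] at hx
      rw [hS1 i' h', Finset.mem_singleton] at hx'
      have := heBi (hx.symm.trans hx')
      apply hne
      ext
      simpa using this
    · rw [hS1 i h, Finset.mem_singleton] at hx
      rw [hS2 i' h', Finset.mem_image] at hx'
      obtain ⟨t, _, ht⟩ := hx'
      exact (h1 (φ (i'.castSucc, t))).1 (by rw [ht, hx]; exact heB _)
    · rw [hS2 i h, Finset.mem_image] at hx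
      rw [hS1 i' h', Finset.mem_singleton] at hx'
      obtain ⟨t, _, ht⟩ := hx
      exact (h1 (φ (i.castSucc, t))).1 (by rw [ht, hx']; exact heB _)
    · rw [hS2 i h, Finset.mem_image] at hx
      rw [hS2 i' h', Finset.mem_image] at hx'
      obtain ⟨t, _, ht⟩ := hx
      obtain ⟨t', _, ht'⟩ := hx'
      have hφne : φ (i.castSucc, t) ≠ φ (i'.castSucc, t') := by
        intro h0
        have := hφi h0
        simp only [Prod.mk.injEq] at this
        exact hne (Fin.castSucc_injective _ this.1)
      exact hinj _ (hφT _) _ (hφT _) hφne (ht.trans ht'.symm)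
  · refine ⟨l (φ (Fin.last _, ⟨0, hM⟩)), fun i hi => ?_⟩
    by_cases h : (i : ℕ) < B.card
    · rw [hS1 i h, Finset.mem_singleton] at hi
      exact (h1 (φ (Fin.last _, ⟨0, hM⟩))).1 (by rw [hi]; exact heB _)
    · rw [hS2 i h, Finset.mem_image] at hi
      obtain ⟨t, _, ht⟩ := hi
      have hφne : φ (i.castSucc, t) ≠ φ (Fin.last _, ⟨0, hM⟩) := by
        intro h0
        have := hφi h0
        simp only [Prod.mk.injEq] at this
        exact (Fin.castSucc_lt_last i).ne this.1
      exact hinj _ (hφT _) _ (hφT _) hφne ht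
  · rw [Ideal.mem_iInf]
    intro i
    by_cases h : (i : ℕ) < B.card
    · rw [hS1 i h]
      exact projL_mem_swap lam A z M _ hyw _ (Finset.mem_toList.2 (heB _)) (hAz _ (heB _))
    · refine projL_mem_of_mem lam A z M _ (fun l' a b f hf => swapIdeal_pow_XD _ _ _ _ _ hf) _ ?_
      refine Ideal.mul_mem_right _ _ ?_
      -- the product over the group
      have hg : ∀ t : Fin M, exch (κ := κ) (l (φ (i.castSucc, t))) (p (φ (i.castSucc, t))) (q (φ (i.castSucc, t))) ∈
          swapIdeal κ (cdim c n) (S i) := by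
        intro t
        refine Ideal.subset_span ⟨none, none, p (φ (i.castSucc, t)), q (φ (i.castSucc, t)), ?_⟩
        have hmix : ∀ (P Q : Wd (cdim c n)) (hPQ : ∀ l' ∈ S i, l' ≠ l (φ (i.castSucc, t)) → P l' = Q l'),
            mix (S i) Q P = Function.update P (l (φ (i.castSucc, t))) (Q (l (φ (i.castSucc, t)))) := by
          intro P Q hPQ
          funext l'
          unfold mix
          by_cases hl' : l' = l (φ (i.castSucc, t))
          · subst hl'
            rw [Function.update_self, if_pos]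
            rw [hS2 i h]
            exact Finset.mem_image_of_mem _ (Finset.mem_univ t)
          · rw [Function.update_of_ne hl']
            split_ifs with h5
            · exact (hPQ l' h5 hl').symm
            · rfl
        have hpq : ∀ l' ∈ S i, l' ≠ l (φ (i.castSucc, t)) → p (φ (i.castSucc, t)) l' = q (φ (i.castSucc, t)) l' := by
          intro l' hl' hne
          rw [hS2 i h, Finset.mem_image] at hl'
          obtain ⟨t', _, rfl⟩ := hl'
          refine hagree _ (hφT _) _ (hφT _) ?_
          intro h0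
          exact hne (by rw [h0])
        rw [hmix _ _ hpq, hmix _ _ (fun l' h5 h6 => (hpq l' h5 h6).symm)]
        rfl
      have hprod : ∏ t : Fin M, exch (κ := κ) (l (φ (i.castSucc, t))) (p (φ (i.castSucc, t))) (q (φ (i.castSucc, t))) ∈
          swapIdeal κ (cdim c n) (S i) ^ M := by
        have := Ideal.prod_mem_prod (s := (Finset.univ : Finset (Fin M))) (I := fun _ => swapIdeal κ (cdim c n) (S i))
          (x := fun t => exch (κ := κ) (l (φ (i.castSucc, t))) (p (φ (i.castSucc, t))) (q (φ (i.castSucc, t))))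
          (fun t _ => hg t)
        simpa using this
      refine Ideal.mem_of_dvd _ ?_ hprod
      have hinj2 : Function.Injective (fun t : Fin M => φ (i.castSucc, t)) := by
        intro t t' htt
        have := hφi htt
        simpa using this
      have h6 : ∏ t : Fin M, exch (κ := κ) (l (φ (i.castSucc, t))) (p (φ (i.castSucc, t))) (q (φ (i.castSucc, t)))
        = ∏ j ∈ Finset.univ.image (fun t : Fin M => φ (i.castSucc, t)), exch (κ := κ) (l j) (p j) (q j) := by
        rw [Finset.prod_image (fun t _ t' _ htt => hinj2 htt)]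
      rw [h6]
      exact Finset.prod_dvd_prod_of_subset _ _ _ (Finset.subset_univ _)

end claim2

/-- TARGET -/
theorem reduction (κ : Type) [Fintype κ] [DecidableEq κ] (c s M : ℕ) (hM : 1 ≤ M) :
    ∃ k0 : ℕ, ∀ (n : ℕ), s + 2 ≤ n → ∀ I I' : Ideal (XP κ (cdim c n)), XStable I → XStable I' →
      Squares I → Few s M I → I ≤ I' → ¬ I' ≤ I →
      ∃ (B : Finset (Fin n)) (g : XP κ (cdim c n)), B.card ≤ s ∧ g ∈ I' ∧ g ∉ I ∧ DirtLE B k0 g := by
  classical
  set D := c * (M - 1) with hD
  set m0 := (2 * D + 1) * ((s + 2) * M) with hm0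
  refine ⟨2 * m0 + D + Fintype.card κ, ?_⟩
  intro n hn I I' hI hI' hSq hFew hle hne
  obtain ⟨lam, f, hfI', hfI, hfw, hXD⟩ := exists_xhw I I' hI' hne
  have hkap : ∑ r : κ, lam (Sum.inl (some r)) ≤ Fintype.card κ := by
    calc ∑ r : κ, lam (Sum.inl (some r)) ≤ ∑ r : κ, 1 :=
          Finset.sum_le_sum fun r _ => lam_special_le hSq hfw hfI r
      _ = Fintype.card κ := by simp
  let B : Finset (Fin n) := Finset.univ.filter fun l =>
    ∃ a : Fin (c + 1), a ≠ 0 ∧ M ≤ lam (Sum.inr ⟨l, a⟩)
  have hB : ∀ l, l ∈ B ↔ ∃ a : Fin (c + 1), a ≠ 0 ∧ M ≤ lam (Sum.inr ⟨l, a⟩) := by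
    intro l; simp [B]
  let A : ∀ l : Fin n, Fin (c + 1) := fun l =>
    if h : ∃ a : Fin (c + 1), a ≠ 0 ∧ M ≤ lam (Sum.inr ⟨l, a⟩) then h.choose else 0
  have hA : ∀ l ∈ B, A l ≠ 0 ∧ M ≤ lam (Sum.inr ⟨l, A l⟩) := by
    intro l hl
    have h := (hB l).1 hl
    have : A l = h.choose := dif_pos h
    rw [this]
    exact h.choose_spec
  let z : ∀ l : Fin n, Fin (c + 1) := fun _ => 0
  have hlam : ∀ l : Fin n, l ∉ B → ∑ a : Fin (c + 1), (if a = 0 then 0 else lam (Sum.inr ⟨l, a⟩)) ≤ D := by
    intro l hl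
    rw [Fin.sum_univ_succ, if_pos rfl, zero_add]
    calc ∑ i : Fin c, (if i.succ = 0 then 0 else lam (Sum.inr ⟨l, i.succ⟩))
        ≤ ∑ i : Fin c, (M - 1) := by
          refine Finset.sum_le_sum fun i _ => ?_
          rw [if_neg (Fin.succ_ne_zero i)]
          by_contra h
          push Not at h
          exact hl ((hB l).2 ⟨i.succ, Fin.succ_ne_zero i, by omega⟩)
      _ = D := by simp [hD]
  have hst : ∀ (l : Fin n) (a b : Fin (cdim c n l)) (f : XP κ (cdim c n)), f ∈ I → XD l a b f ∈ I :=
    fun l a b f hf => hI.D_mem l a b hf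
  have hXDA : ∀ l ∈ B, XD l (z l : Fin (cdim c n l)) (A l) f ∈ I := by
    intro l hl
    refine hXD l _ _ ?_
    exact Fin.pos_iff_ne_zero.2 (hA l hl).1
  obtain ⟨x, hx, hmod⟩ := projL_modEq lam (fun l => (A l : Fin (cdim c n l))) (fun l => (z l : Fin (cdim c n l))) M I hst
    B.toList f (by
      intro l hl
      rw [Finset.mem_toList] at hl
      refine ⟨hXDA l hl, (hA l hl).2, ?_⟩
      exact xdominant l (fun a b f hf => hst l a b f hf) (hA l hl).1 hfw (hXDA l hl) hfI)
  have hnot : ∀ g : XP κ (cdim c n), g - C x * f ∈ I → g ∉ I := by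
    intro g hg hgI
    apply hfI
    have h1 : C x * f ∈ I := by
      have := I.sub_mem hgI hg
      simpa using this
    have h2 := I.mul_mem_left (C x⁻¹) h1
    rwa [← mul_assoc, ← C_mul, inv_mul_cancel₀ hx, C_1, one_mul] at h2
  have hBs : B.card ≤ s := by
    by_contra hlt
    push Not at hlt
    obtain ⟨T, hTB, hTc⟩ := Finset.exists_subset_card_eq (Nat.succ_le_of_lt hlt)
    refine hnot _ hmod ?_
    refine hFew (fun i => {T.orderEmbOfFin hTc i}) ?_ ?_ ?_ ?_
    · intro i; exact Finset.singleton_nonempty _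
    · intro i j hij
      rw [Finset.disjoint_singleton]
      intro h
      exact hij ((T.orderEmbOfFin hTc).injective h)
    · have : ∃ l, l ∉ T := by
        by_contra hall
        push Not at hall
        have : T = Finset.univ := Finset.eq_univ_iff_forall.2 hall
        rw [this, Finset.card_univ, Fintype.card_fin] at hTc
        omega
      obtain ⟨l, hl⟩ := this
      refine ⟨l, fun i hi => hl ?_⟩
      rw [Finset.mem_singleton] at hi
      rw [hi]
      exact Finset.orderEmbOfFin_mem _ _ _
    · rw [Ideal.mem_iInf]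
      intro i
      have hi : T.orderEmbOfFin hTc i ∈ B := hTB (Finset.orderEmbOfFin_mem _ _ _)
      exact projL_mem_swap lam _ _ M _ hfw _ (Finset.mem_toList.2 hi) (hA _ hi).1
  obtain ⟨g, h, hfgh, hgD, hspan⟩ := rewriting B D m0 lam hlam f hfw
  have hclaim : projL lam (fun l => (A l : Fin (cdim c n l))) (fun l => (z l : Fin (cdim c n l))) M B.toList h ∈ I := by
    refine Submodule.span_induction (p := fun h _ =>
      projL lam (fun l => (A l : Fin (cdim c n l))) (fun l => (z l : Fin (cdim c n l))) M B.toList h ∈ I)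
      ?_ ?_ ?_ ?_ hspan
    · intro y hy
      exact x10_claim hM hm0.ge hI hFew hBs hlam _ _ (fun l hl => (hA l hl).1) hy
    · have := projL_C_mul lam (fun l => (A l : Fin (cdim c n l))) (fun l => (z l : Fin (cdim c n l))) M B.toList 0 0
      rw [C_0, zero_mul, zero_mul] at this
      rw [this]
      exact I.zero_mem
    · intro y y' _ _ hy hy'
      rw [projL_add]
      exact I.add_mem hy hy'
    · intro a y _ hy
      rw [smul_eq_C_mul, projL_C_mul]
      exact I.mul_mem_left _ hy
  have hmod2 : projL lam (fun l => (A l : Fin (cdim c n l))) (fun l => (z l : Fin (cdim c n l))) M B.toList g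
      - C x * f ∈ I := by
    have h1 := hmod
    rw [hfgh, projL_add, ← hfgh] at h1
    have h2 := I.sub_mem h1 hclaim
    convert h2 using 1
    ring
  refine ⟨B, projL lam (fun l => (A l : Fin (cdim c n l))) (fun l => (z l : Fin (cdim c n l))) M B.toList g, hBs,
    ?_, hnot _ hmod2, ?_⟩
  · have h1 := I'.add_mem (hle hmod2) (I'.mul_mem_left (C x) hfI')
    simpa using h1
  · exact (hgD.mono (by omega)).projL lam _ _ M B.toList fun l hl => Finset.mem_toList.1 hl

end Pool.Agent.Helper929_delta
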