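import Pool.Agent.R711.Core

/-
The noetherian property for ordered surjections, for modules.
-/

namespace Pool.Agent.Helper929_delta

open Pool.Agent.R711.Core Pool.Agent.R711.Words

/-- The coefficients at `y` of the members of `H` which vanish at all `y'` with `r y y'`. -/
def leadM {A : Type*} [CommRing A] {M : Type*} [AddCommGroup M] [Module A M] {Y : Type*}
    (r : Y → Y → Prop) (H : Submodule A (Y → M)) (y : Y) : Submodule A M where
  carrier := {b | ∃ f ∈ H, f y = b ∧ ∀ y', r y y' → f y' = 0}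
  zero_mem' := ⟨0, H.zero_mem, rfl, fun _ _ => rfl⟩
  add_mem' := by
    rintro a b ⟨f, hf, hfa, hf0⟩ ⟨g, hg, hgb, hg0⟩
    refine ⟨f + g, H.add_mem hf hg, by simp [hfa, hgb], fun y' hy' => ?_⟩
    simp [hf0 y' hy', hg0 y' hy']
  smul_mem' := by
    rintro c a ⟨f, hf, hfa, hf0⟩
    refine ⟨c • f, H.smul_mem c hf, by simp [hfa], fun y' hy' => ?_⟩
    simp [hf0 y' hy']

theorem leadM_mono {A : Type*} [CommRing A] {M : Type*} [AddCommGroup M] [Module A M] {Y : Type*}
    (r : Y → Y → Prop) {H H' : Submodule A (Y → M)} (h : H ≤ H') (y : Y) :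
    leadM r H y ≤ leadM r H' y := by
  rintro b ⟨f, hf, h1, h2⟩
  exact ⟨f, h hf, h1, h2⟩

theorem le_of_leadM {A : Type*} [CommRing A] {M : Type*} [AddCommGroup M] [Module A M]
    {Y : Type*} [Finite Y] (r : Y → Y → Prop) [IsStrictTotalOrder Y r]
    {H H' : Submodule A (Y → M)} (hle : H ≤ H') (h : ∀ y, leadM r H' y ≤ leadM r H y) :
    H' ≤ H := by
  have h1 : H'.toAddSubgroup ≤ H.toAddSubgroup :=
    le_of_lead r (H := H.toAddSubgroup) (H' := H'.toAddSubgroup) hle (fun y b hb => h y hb)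
  exact h1

/-- Stability under pushing along ordered surjections. -/
def PushStableM {A : Type*} [CommRing A] {M : Type*} [AddCommGroup M] [Module A M]
    {X : Type*} [Fintype X] (K : ∀ k, Submodule A ((Fin k → X) → M)) : Prop :=
  ∀ (l k : ℕ) (φ : Fin l → Fin k) (h : Fin k → Fin l), OrdSurj φ h → ∀ c ∈ K k, push φ c ∈ K l

theorem push_accM {A : Type*} [CommRing A] {M : Type*} [AddCommGroup M] [Module A M]
    [IsNoetherian A M] {X : Type*} [Fintype X] :
    WellFoundedGT {K : ∀ k, Submodule A ((Fin k → X) → M) // PushStableM K} := by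
  classical
  obtain ⟨e⟩ : Nonempty (X ≃ Fin (Fintype.card X)) := ⟨Fintype.equivFin X⟩
  let _ : LinearOrder X := LinearOrder.lift' e e.injective
  refine chain_acc (W := Σ k : ℕ, (Fin k → X)) (R := Rel) exists_subseq
    (Lat := Submodule A M) (fun K w => leadM lexLT (K.1 w.1) w.2) ?_ ?_ ?_
  · intro I J hIJ w
    exact leadM_mono _ (hIJ _) _
  · intro I J hIJ h k
    exact le_of_leadM lexLT (hIJ k) (fun y => h ⟨k, y⟩)
  · rintro K ⟨k, w⟩ ⟨l, u⟩ ⟨φ, h, H, hu⟩
    rintro b ⟨f, hf, hfb, hf0⟩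
    simp only at hu H φ h hf hfb hf0 ⊢
    subst hu
    refine ⟨push φ f, K.2 _ _ _ _ H _ hf, ?_, ?_⟩
    · rw [push_comp H.surj, hfb]
    · intro u' hu'
      by_cases hex : ∃ w' : Fin k → X, w' ∘ φ = u'
      · obtain ⟨w', rfl⟩ := hex
        rw [push_comp H.surj]
        exact hf0 w' (lexLT_of_comp H hu')
      · push Not at hex
        exact push_ne f u' hex

/-- TARGET -/
theorem push_acc_module {A : Type*} [CommRing A] {M : Type*} [AddCommGroup M] [Module A M]
    [IsNoetherian A M] {X : Type*} [Fintype X] (K : ℕ → ∀ k : ℕ, Submodule A ((Fin k → X) → M))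
    (hmono : ∀ t k, K t k ≤ K (t + 1) k)
    (hpush : ∀ (t l k : ℕ) (φ : Fin l → Fin k) (h : Fin k → Fin l), OrdSurj φ h →
      ∀ c ∈ K t k, push φ c ∈ K t l) :
    ∃ N, ∀ t, N ≤ t → ∀ k, K t k = K N k := by
  have := push_accM (A := A) (M := M) (X := X)
  let f : ℕ →o {K : ∀ k, Submodule A ((Fin k → X) → M) // PushStableM K} :=
    ⟨fun t => ⟨K t, fun l k φ h H c hc => hpush t l k φ h H c hc⟩,
      monotone_nat_of_le_succ fun t k => hmono t k⟩
  obtain ⟨N, hN⟩ := WellFoundedGT.monotone_chain_condition f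
  refine ⟨N, fun t ht k => ?_⟩
  have h1 := congrArg Subtype.val (hN t ht)
  exact (congrFun h1 k).symm

end Pool.Agent.Helper929_delta
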