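import Pool.Agent.Helper929_delta.X10
import Pool.Agent.Helper929_delta.X8

/-
The ascending chain condition for families of ideals.
-/

namespace Pool.Agent.Helper929_delta

open MvPolynomial

/-- a family of ideals, for all numbers of columns of dimension `c + 1` -/
structure CFam (κ : Type) (c : ℕ) where
  /-- the ideals -/
  J : ∀ n : ℕ, Ideal (XP κ (cdim c n))
  stable : ∀ n, XStable (J n)
  dup : ∀ (n n' : ℕ) (φ : Fin n' → Fin n), Function.Surjective φ → ∀ f ∈ J n,
    rename (fun v : Option κ × Wd (cdim c n) => ((v.1, fun i => v.2 (φ i)) : Option κ × Wd (cdim c n'))) f ∈ J n'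

/-! ### products over `Fin k` and lists -/

theorem x11_prod_list {α R : Type*} [CommMonoid R] (f : α → R) : ∀ (l : List α) (k : ℕ), l.length ≤ k →
    ∏ i : Fin k, (l[(i : ℕ)]?).elim 1 f = (l.map f).prod
  | [], k, _ => by simp
  | a :: l, 0, h => by simp at h
  | a :: l, k + 1, h => by
    rw [Fin.prod_univ_succ]
    have h1 := x11_prod_list f l k (by simpa using h)
    simp only [Fin.val_zero, Fin.val_succ, List.getElem?_cons_zero, List.getElem?_cons_succ,
      Option.elim_some, List.map_cons, List.prod_cons]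
    rw [h1]

theorem x11_monomial_toMultiset {σ : Type*} (e : σ →₀ ℕ) :
    (monomial e 1 : MvPolynomial σ ℂ) =
      ((Finsupp.toMultiset e).toList.map (fun v => (X v : MvPolynomial σ ℂ))).prod := by
  rw [monomial_eq, C_1, one_mul]
  have h1 : ((Finsupp.toMultiset e).toList.map (fun v => (X v : MvPolynomial σ ℂ))).prod =
      ((Finsupp.toMultiset e).map (fun v => (X v : MvPolynomial σ ℂ))).prod := by
    conv_rhs => rw [← Multiset.coe_toList (Finsupp.toMultiset e)]
    rw [Multiset.map_coe, Multiset.prod_coe]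
  rw [h1, Finsupp.toMultiset_map]
  rw [Finsupp.prod_toMultiset]
  rw [Finsupp.prod_mapDomain_index]
  · intro a; rw [pow_zero]
  · intro a m n; rw [pow_add]

section partA

variable {κ : Type} [Fintype κ] [DecidableEq κ] {c : ℕ}

/-- the type of letters -/
abbrev Ltr (c : ℕ) : Type := Fin (c + 1)

/-- the word with first part `β` and second part `γ` -/
def app {b n' : ℕ} (β : Fin b → Ltr c) (γ : Fin n' → Ltr c) : Fin (b + n') → Ltr c :=
  Fin.append β γ

omit [Fintype κ] [DecidableEq κ] in
theorem app_left {b n' : ℕ} (β : Fin b → Ltr c) (γ : Fin n' → Ltr c) (i : Fin b) :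
    app β γ (Fin.castAdd n' i) = β i := Fin.append_left _ _ _

theorem app_right {b n' : ℕ} (β : Fin b → Ltr c) (γ : Fin n' → Ltr c) (i : Fin n') :
    app β γ (Fin.natAdd b i) = γ i := Fin.append_right _ _ _

theorem app_eta {b n' : ℕ} (w : Fin (b + n') → Ltr c) :
    app (fun i => w (Fin.castAdd n' i)) (fun i => w (Fin.natAdd b i)) = w := by
  funext i
  refine Fin.addCases (fun i => ?_) (fun i => ?_) i
  · rw [app_left]
  · rw [app_right]

/-- the embedding of clean variables -/
def jcl (κ : Type) (c b n' : ℕ) (β : Fin b → Ltr c) : Option κ × Wd (cdim c (b + n')) :=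
  (none, app β fun _ => 0)

theorem jcl_inj (b n' : ℕ) : Function.Injective (jcl κ c b n') := by
  intro β β' h
  have h1 := congrArg Prod.snd h
  funext i
  have h2 := congrFun h1 (Fin.castAdd n' i)
  simp only [jcl, app_left] at h2
  exact h2

/-- the index set of the dirty parts -/
abbrev Ydx (κ : Type) (c k0 b : ℕ) : Type := Fin k0 → Option (Option κ × (Fin b → Ltr c))

/-- the words of dirty parts -/
abbrev Xdx (c k0 : ℕ) : Type := Fin k0 → Ltr c

/-- the dirty factor -/
noncomputable def mono (κ : Type) {c k0 b n' : ℕ} (u : Fin n' → Xdx c k0) (y : Ydx κ c k0 b) :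
    XP κ (cdim c (b + n')) :=
  ∏ i : Fin k0, (y i).elim 1 fun p => X (p.1, app p.2 fun j => u j i)

/-- the parametrisation -/
noncomputable def Psi (κ : Type) [Fintype κ] [DecidableEq κ] {c k0 b n' : ℕ}
    (F : (Fin n' → Xdx c k0) → Ydx κ c k0 b → MvPolynomial (Fin b → Ltr c) ℂ) :
    XP κ (cdim c (b + n')) :=
  ∑ u, ∑ y, rename (jcl κ c b n') (F u y) * mono κ u y

theorem Psi_add {k0 b n' : ℕ}
    (F G : (Fin n' → Xdx c k0) → Ydx κ c k0 b → MvPolynomial (Fin b → Ltr c) ℂ) :
    Psi κ (F + G) = Psi κ F + Psi κ G := by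
  unfold Psi
  rw [← Finset.sum_add_distrib]
  refine Finset.sum_congr rfl fun u _ => ?_
  rw [← Finset.sum_add_distrib]
  refine Finset.sum_congr rfl fun y _ => ?_
  rw [Pi.add_apply, Pi.add_apply, map_add, add_mul]

theorem Psi_zero {k0 b n' : ℕ} :
    Psi κ (0 : (Fin n' → Xdx c k0) → Ydx κ c k0 b → MvPolynomial (Fin b → Ltr c) ℂ) = 0 := by
  unfold Psi
  refine Finset.sum_eq_zero fun u _ => Finset.sum_eq_zero fun y _ => ?_
  rw [Pi.zero_apply, Pi.zero_apply, map_zero, zero_mul]

theorem Psi_smul {k0 b n' : ℕ} (a : MvPolynomial (Fin b → Ltr c) ℂ)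
    (F : (Fin n' → Xdx c k0) → Ydx κ c k0 b → MvPolynomial (Fin b → Ltr c) ℂ) :
    Psi κ (a • F) = rename (jcl κ c b n') a * Psi κ F := by
  unfold Psi
  rw [Finset.mul_sum]
  refine Finset.sum_congr rfl fun u _ => ?_
  rw [Finset.mul_sum]
  refine Finset.sum_congr rfl fun y _ => ?_
  rw [Pi.smul_apply, Pi.smul_apply, smul_eq_mul, map_mul, mul_assoc]

/-- the map of columns -/
def phiHat (b : ℕ) {l k : ℕ} (φ : Fin l → Fin k) : Fin (b + l) → Fin (b + k) :=
  Fin.append (fun i => Fin.castAdd k i) (fun j => Fin.natAdd b (φ j))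

theorem phiHat_surj (b : ℕ) {l k : ℕ} {φ : Fin l → Fin k} (hφ : Function.Surjective φ) :
    Function.Surjective (phiHat b φ) := by
  intro i
  refine Fin.addCases (fun i => ?_) (fun i => ?_) i
  · exact ⟨Fin.castAdd l i, Fin.append_left _ _ _⟩
  · obtain ⟨j, rfl⟩ := hφ i
    exact ⟨Fin.natAdd b j, Fin.append_right _ _ _⟩

theorem app_comp (b : ℕ) {l k : ℕ} (φ : Fin l → Fin k) (β : Fin b → Ltr c) (γ : Fin k → Ltr c) :
    (fun i => app β γ (phiHat b φ i)) = app β fun j => γ (φ j) := by
  funext i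
  refine Fin.addCases (fun i => ?_) (fun i => ?_) i
  · rw [app_left]
    have h : phiHat b φ (Fin.castAdd l i) = Fin.castAdd k i := Fin.append_left _ _ _
    rw [h, app_left]
  · rw [app_right]
    have h : phiHat b φ (Fin.natAdd b i) = Fin.natAdd b (φ i) := Fin.append_right _ _ _
    rw [h, app_right]

/-- the renaming of the variables given by a map of columns -/
def cmap (κ : Type) (c : ℕ) {n n' : ℕ} (φ : Fin n' → Fin n) (v : Option κ × Wd (cdim c n)) :
    Option κ × Wd (cdim c n') := (v.1, fun i => v.2 (φ i))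

theorem rename_jcl (b : ℕ) {l k : ℕ} (φ : Fin l → Fin k) (a : MvPolynomial (Fin b → Ltr c) ℂ) :
    rename (cmap κ c (phiHat b φ)) (rename (jcl κ c b k) a) = rename (jcl κ c b l) a := by
  rw [rename_rename]
  congr 2
  funext β
  exact Prod.ext rfl (app_comp b φ β fun _ => 0)

theorem rename_mono (b : ℕ) {l k k0 : ℕ} (φ : Fin l → Fin k) (u : Fin k → Xdx c k0)
    (y : Ydx κ c k0 b) :
    rename (cmap κ c (phiHat b φ)) (mono κ u y) = mono κ (u ∘ φ) y := by
  unfold mono
  rw [map_prod]
  refine Finset.prod_congr rfl fun i _ => ?_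
  rcases y i with _ | ⟨q, β⟩
  · simp
  · simp only [Option.elim_some, rename_X]
    congr 1
    exact Prod.ext rfl (app_comp b φ β fun j => u j i)

open Pool.Agent.R711.Core Pool.Agent.R711.Words

theorem Psi_push (b : ℕ) {l k k0 : ℕ} (φ : Fin l → Fin k)
    (F : (Fin k → Xdx c k0) → Ydx κ c k0 b → MvPolynomial (Fin b → Ltr c) ℂ) :
    Psi κ (push φ F) = rename (cmap κ c (phiHat b φ)) (Psi κ F) := by
  classical
  unfold Psi
  rw [map_sum]
  have h1 : ∀ (u : Fin l → Xdx c k0) (y : Ydx κ c k0 b),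
      rename (jcl κ c b l) (push φ F u y) * mono κ u y =
        ∑ w : Fin k → Xdx c k0, if w ∘ φ = u then
          rename (jcl κ c b l) (F w y) * mono κ (w ∘ φ) y else 0 := by
    intro u y
    unfold push
    rw [Finset.sum_apply, map_sum, Finset.sum_mul]
    refine Finset.sum_congr rfl fun w _ => ?_
    split_ifs with h
    · rw [h]
    · rw [Pi.zero_apply, map_zero, zero_mul]
  simp_rw [h1]
  have h2 : ∀ u : Fin l → Xdx c k0, (∑ y : Ydx κ c k0 b, ∑ w : Fin k → Xdx c k0, if w ∘ φ = u then
          rename (jcl κ c b l) (F w y) * mono κ (w ∘ φ) y else 0) =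
        ∑ w : Fin k → Xdx c k0, if w ∘ φ = u then ∑ y : Ydx κ c k0 b,
          rename (jcl κ c b l) (F w y) * mono κ (w ∘ φ) y else 0 := by
    intro u
    rw [Finset.sum_comm]
    refine Finset.sum_congr rfl fun w _ => ?_
    split_ifs with h
    · rfl
    · exact Finset.sum_const_zero
  simp_rw [h2]
  rw [Finset.sum_comm]
  refine Finset.sum_congr rfl fun w _ => ?_
  rw [Finset.sum_ite_eq Finset.univ (w ∘ φ), if_pos (Finset.mem_univ _), map_sum]
  refine Finset.sum_congr rfl fun y _ => ?_
  rw [map_mul, rename_jcl, rename_mono]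

open Classical in
/-- everything of small dirty degree is parametrised -/
theorem exists_Psi (b n' k0 : ℕ) (g : XP κ (cdim c (b + n')))
    (hg : DirtLE (Finset.univ.filter fun i : Fin (b + n') => (i : ℕ) < b) k0 g) :
    ∃ F : (Fin n' → Xdx c k0) → Ydx κ c k0 b → MvPolynomial (Fin b → Ltr c) ℂ, Psi κ F = g := by
  obtain ⟨B, hB⟩ : ∃ B : Finset (Fin (b + n')), B = Finset.univ.filter fun i : Fin (b + n') =>
    (i : ℕ) < b := ⟨_, rfl⟩
  rw [← hB] at hg
  have hBm : ∀ i, i ∈ B ↔ (i : ℕ) < b := fun i => by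
    rw [hB, Finset.mem_filter]; simp
  have hclean : ∀ v : Option κ × Wd (cdim c (b + n')), Clean B v → v ∈ Set.range (jcl κ c b n') := by
    rintro ⟨v1, v2⟩ ⟨h1, h2⟩
    refine ⟨fun i => v2 (Fin.castAdd n' i), ?_⟩
    refine Prod.ext h1.symm ?_
    have h3 : (fun _ : Fin n' => (0 : Ltr c)) = fun i => v2 (Fin.natAdd b i) := by
      funext i
      symm
      apply h2
      rw [hBm, Fin.val_natAdd]
      omega
    change app (fun i => v2 (Fin.castAdd n' i)) (fun _ : Fin n' => (0 : Ltr c)) = v2
    rw [h3]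
    exact app_eta v2
  -- monomials
  have hmon : ∀ (e : (Option κ × Wd (cdim c (b + n'))) →₀ ℕ) (a : ℂ), dirt B e ≤ k0 →
      ∃ F : (Fin n' → Xdx c k0) → Ydx κ c k0 b → MvPolynomial (Fin b → Ltr c) ℂ,
        Psi κ F = monomial e a := by
    intro e a he
    obtain ⟨e₁, he₁⟩ : ∃ e₁, e₁ = e.filter (Clean B) := ⟨_, rfl⟩
    obtain ⟨e₂, he₂⟩ : ∃ e₂, e₂ = e.filter (fun v => ¬ Clean B v) := ⟨_, rfl⟩
    have he12 : e₁ + e₂ = e := by rw [he₁, he₂]; exact Finsupp.filter_add_filter_not e _
    have hd : (Finsupp.toMultiset e₂).toList.length ≤ k0 := by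
      rw [Multiset.length_toList, Finsupp.card_toMultiset]
      refine le_trans (le_of_eq ?_) he
      unfold dirt
      rw [he₂, Finsupp.sum_filter_index, Finsupp.sum]
      rw [Finsupp.support_filter, Finset.sum_filter]
      refine Finset.sum_congr rfl fun v _ => ?_
      by_cases h : Clean B v <;> simp [h]
    have h1 : (monomial e₁ a : XP κ (cdim c (b + n'))) =
        rename (jcl κ c b n') (monomial (e₁.comapDomain (jcl κ c b n') (jcl_inj b n').injOn) a) := by
      rw [rename_monomial, Finsupp.mapDomain_comapDomain _ (jcl_inj b n')]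
      intro v hv
      apply hclean
      rw [he₁, Finset.mem_coe, Finsupp.support_filter, Finset.mem_filter] at hv
      exact hv.2
    obtain ⟨lst, hlst⟩ : ∃ lst, lst = (Finsupp.toMultiset e₂).toList := ⟨_, rfl⟩
    rw [← hlst] at hd
    have h2 : (monomial e₂ 1 : XP κ (cdim c (b + n'))) =
        ∏ i : Fin k0, (lst[(i : ℕ)]?).elim 1 fun v => X v := by
      rw [x11_prod_list _ lst k0 hd, x11_monomial_toMultiset, hlst]
    obtain ⟨u₀, hu₀⟩ : ∃ u₀ : Fin n' → Xdx c k0, u₀ = fun (j : Fin n') (i : Fin k0) =>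
        (lst[(i : ℕ)]?).elim 0 fun v => v.2 (Fin.natAdd b j) := ⟨_, rfl⟩
    obtain ⟨y₀, hy₀⟩ : ∃ y₀ : Ydx κ c k0 b, y₀ = fun i : Fin k0 =>
        (lst[(i : ℕ)]?).map fun v => (v.1, fun j => v.2 (Fin.castAdd n' j)) := ⟨_, rfl⟩
    have h3 : (monomial e₂ 1 : XP κ (cdim c (b + n'))) = mono κ u₀ y₀ := by
      rw [h2]
      unfold mono
      refine Finset.prod_congr rfl fun i _ => ?_
      subst hy₀ hu₀
      dsimp only
      rcases lst[(i : ℕ)]? with _ | v
      · rfl
      · simp only [Option.elim_some, Option.map_some]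
        congr 1
        exact Prod.ext rfl (app_eta v.2).symm
    refine ⟨Pi.single u₀ (Pi.single y₀ (monomial (e₁.comapDomain (jcl κ c b n')
      (jcl_inj b n').injOn) a)), ?_⟩
    unfold Psi
    rw [Finset.sum_eq_single u₀, Finset.sum_eq_single y₀, Pi.single_eq_same, Pi.single_eq_same,
      ← h1, ← h3, monomial_mul, mul_one, he12]
    · intro y _ hy
      rw [Pi.single_eq_same, Pi.single_eq_of_ne hy, map_zero, zero_mul]
    · intro h; exact absurd (Finset.mem_univ _) h
    · intro u _ hu
      refine Finset.sum_eq_zero fun y _ => ?_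
      rw [Pi.single_eq_of_ne hu, Pi.zero_apply, map_zero, zero_mul]
    · intro h; exact absurd (Finset.mem_univ _) h
  -- sums
  have hsum : ∀ (s : Finset ((Option κ × Wd (cdim c (b + n'))) →₀ ℕ)), s ⊆ g.support →
      ∃ F : (Fin n' → Xdx c k0) → Ydx κ c k0 b → MvPolynomial (Fin b → Ltr c) ℂ,
        Psi κ F = ∑ e ∈ s, monomial e (coeff e g) := by
    intro s
    induction s using Finset.induction_on with
    | empty =>
      intro _
      exact ⟨0, by rw [Psi_zero, Finset.sum_empty]⟩
    | insert e s hes ih =>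
      intro hs
      obtain ⟨F, hF⟩ := ih fun x hx => hs (Finset.mem_insert_of_mem hx)
      obtain ⟨G, hG⟩ := hmon e (coeff e g) (hg e (hs (Finset.mem_insert_self _ _)))
      exact ⟨G + F, by rw [Psi_add, hF, hG, Finset.sum_insert hes]⟩
  obtain ⟨F, hF⟩ := hsum g.support (Finset.Subset.refl _)
  exact ⟨F, by rw [hF]; exact g.support_sum_monomial_coeff⟩

open Classical in
theorem partA (k0 b : ℕ) (Φ : ℕ → CFam κ c) (hmono : ∀ t n, (Φ t).J n ≤ (Φ (t + 1)).J n) :
    ∃ N, ∀ t, N ≤ t → ∀ (n' : ℕ) (g : XP κ (cdim c (b + n'))), g ∈ (Φ t).J (b + n') →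
      DirtLE (Finset.univ.filter fun i : Fin (b + n') => (i : ℕ) < b) k0 g →
      g ∈ (Φ N).J (b + n') := by
  let K : ℕ → ∀ k : ℕ, Submodule (MvPolynomial (Fin b → Ltr c) ℂ)
      ((Fin k → Xdx c k0) → (Ydx κ c k0 b → MvPolynomial (Fin b → Ltr c) ℂ)) := fun t k =>
    { carrier := {F | Psi κ F ∈ (Φ t).J (b + k)}
      zero_mem' := by
        change Psi κ 0 ∈ (Φ t).J (b + k)
        rw [Psi_zero]
        exact zero_mem _
      add_mem' := by
        intro F G hF hG
        change Psi κ (F + G) ∈ (Φ t).J (b + k)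
        rw [Psi_add]
        exact Ideal.add_mem _ hF hG
      smul_mem' := by
        intro a F hF
        change Psi κ (a • F) ∈ (Φ t).J (b + k)
        rw [Psi_smul]
        exact Ideal.mul_mem_left _ _ hF }
  have hK : ∀ t k F, F ∈ K t k ↔ Psi κ F ∈ (Φ t).J (b + k) := fun _ _ _ => Iff.rfl
  obtain ⟨N, hN⟩ := push_acc_module (A := MvPolynomial (Fin b → Ltr c) ℂ)
    (M := Ydx κ c k0 b → MvPolynomial (Fin b → Ltr c) ℂ) (X := Xdx c k0) K
    (fun t k F hF => hmono t _ hF) (by
      intro t l k φ h H F hF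
      rw [hK] at hF ⊢
      rw [Psi_push]
      exact (Φ t).dup (b + k) (b + l) (phiHat b φ) (phiHat_surj b H.surj) _ hF)
  refine ⟨N, fun t ht n' g hg hd => ?_⟩
  obtain ⟨F, hF⟩ := exists_Psi b n' k0 g hd
  rw [← hF, ← hK] at hg ⊢
  rw [← hN t ht n']
  exact hg

end partA

theorem J_mono {κ : Type} {c : ℕ} {Φ : ℕ → CFam κ c} (hmono : ∀ t n, (Φ t).J n ≤ (Φ (t + 1)).J n)
    {t t' : ℕ} (h : t ≤ t') (n : ℕ) : (Φ t).J n ≤ (Φ t').J n := by
  induction t', h using Nat.le_induction with
  | base => exact le_rfl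
  | succ m _ ih => exact ih.trans (hmono m n)

/-- TARGET -/
theorem core_acc (κ : Type) [Fintype κ] [DecidableEq κ] (c s M : ℕ) (hM : 1 ≤ M) (Φ : ℕ → CFam κ c)
    (hmono : ∀ t n, (Φ t).J n ≤ (Φ (t + 1)).J n) (hsq : ∀ n, Squares ((Φ 0).J n))
    (hfew : ∀ n, Few s M ((Φ 0).J n)) :
    ∃ N, ∀ t, N ≤ t → ∀ n, (Φ t).J n = (Φ N).J n := by
  classical
  obtain ⟨k0, hk0⟩ := reduction κ c s M hM
  choose Nb hNb using fun b => partA (κ := κ) (c := c) k0 b Φ hmono
  have hB : ∀ n, ∃ N, ∀ t, N ≤ t → (Φ t).J n = (Φ N).J n := by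
    intro n
    obtain ⟨N, hN⟩ := monotone_stabilizes_iff_noetherian.2
      (inferInstance : IsNoetherian (XP κ (cdim c n)) (XP κ (cdim c n)))
      ⟨fun t => (Φ t).J n, fun t t' h => J_mono hmono h n⟩
    exact ⟨N, fun t ht => (hN t ht).symm⟩
  choose Nn hNn using hB
  obtain ⟨N, hN⟩ : ∃ N, N = (Finset.range (s + 1)).sup Nb ⊔ (Finset.range (s + 2)).sup Nn :=
    ⟨_, rfl⟩
  have hN1 : ∀ b ≤ s, Nb b ≤ N := fun b hb => by
    rw [hN]
    exact (Finset.le_sup (f := Nb) (Finset.mem_range.2 (by omega))).trans le_sup_left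
  have hN2 : ∀ n < s + 2, Nn n ≤ N := fun n hn => by
    rw [hN]
    exact (Finset.le_sup (f := Nn) (Finset.mem_range.2 hn)).trans le_sup_right
  refine ⟨N, fun t ht n => le_antisymm ?_ (J_mono hmono ht n)⟩
  by_cases hn : n < s + 2
  · rw [hNn n t ((hN2 n hn).trans ht), hNn n N (hN2 n hn)]
  · push Not at hn
    by_contra hcon
    obtain ⟨B, g, hBs, hg, hgN, hdirt⟩ := hk0 n hn ((Φ N).J n) ((Φ t).J n) ((Φ N).stable n)
      ((Φ t).stable n) (fun r w w' => J_mono hmono (Nat.zero_le N) n (hsq n r w w'))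
      (fun S h1 h2 h3 => (hfew n S h1 h2 h3).trans (J_mono hmono (Nat.zero_le N) n))
      (J_mono hmono ht n) hcon
    apply hgN
    have hcard : B.card ≤ n := by
      have := Finset.card_le_univ B
      rwa [Fintype.card_fin] at this
    obtain ⟨n', hn'⟩ := Nat.exists_eq_add_of_le hcard
    -- the bijection
    obtain ⟨e, he⟩ : ∃ e : Fin (B.card + n') ≃ Fin n, ∀ i : Fin (B.card + n'), (i : ℕ) < B.card ↔ e i ∈ B := by
      have h1 : Fintype.card {i : Fin (B.card + n') // (i : ℕ) < B.card} =
          Fintype.card {i : Fin n // i ∈ B} := by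
        rw [Fintype.card_coe, Fintype.card_subtype]
        have h2 : (Finset.univ.filter fun i : Fin (B.card + n') => (i : ℕ) < B.card) =
            Finset.univ.map (Fin.castAddEmb n') := by
          ext i
          simp only [Finset.mem_filter, Finset.mem_univ, true_and, Finset.mem_map,
            Fin.castAddEmb_apply]
          constructor
          · intro hi
            exact ⟨⟨i, hi⟩, Fin.ext rfl⟩
          · rintro ⟨j, rfl⟩
            exact j.2
        rw [h2, Finset.card_map, Finset.card_univ, Fintype.card_fin]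
      have h2 : Fintype.card {i : Fin (B.card + n') // ¬ (i : ℕ) < B.card} =
          Fintype.card {i : Fin n // ¬ i ∈ B} := by
        rw [Fintype.card_subtype_compl, Fintype.card_subtype_compl, h1, Fintype.card_fin,
          Fintype.card_fin]
        exact congrArg (fun z => z - _) hn'.symm
      let e1 := Fintype.equivOfCardEq h1
      let e2 := Fintype.equivOfCardEq h2
      refine ⟨(Equiv.sumCompl fun i : Fin (B.card + n') => (i : ℕ) < B.card).symm.trans
        ((Equiv.sumCongr e1 e2).trans (Equiv.sumCompl fun i : Fin n => i ∈ B)), fun i => ?_⟩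
      by_cases hi : (i : ℕ) < B.card
      · have h3 : (Equiv.sumCompl fun i : Fin (B.card + n') => (i : ℕ) < B.card).symm i =
            Sum.inl ⟨i, hi⟩ := Equiv.sumCompl_symm_apply_of_pos (p := fun i : Fin (B.card + n') =>
              (i : ℕ) < B.card) hi
        rw [Equiv.trans_apply, h3]
        simp only [hi, true_iff]
        exact (e1 ⟨i, hi⟩).2
      · have h3 : (Equiv.sumCompl fun i : Fin (B.card + n') => (i : ℕ) < B.card).symm i =
            Sum.inr ⟨i, hi⟩ := Equiv.sumCompl_symm_apply_of_neg (p := fun i : Fin (B.card + n') =>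
              (i : ℕ) < B.card) hi
        rw [Equiv.trans_apply, h3]
        simp only [hi, false_iff]
        exact (e2 ⟨i, hi⟩).2
    have hinj : Function.Injective (cmap κ c (e : Fin (B.card + n') → Fin n)) := by
      rintro ⟨v1, v2⟩ ⟨w1, w2⟩ h
      have h1 := congrArg Prod.fst h
      have h2 := congrArg Prod.snd h
      refine Prod.ext h1 ?_
      funext i
      have h3 := congrFun h2 (e.symm i)
      simp only [cmap] at h3
      rwa [Equiv.apply_symm_apply] at h3
    have hg' := (Φ t).dup n (B.card + n') e e.surjective g hg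
    have hd' : DirtLE (Finset.univ.filter fun i : Fin (B.card + n') => (i : ℕ) < B.card) k0
        (rename (cmap κ c (e : Fin (B.card + n') → Fin n)) g) := by
      intro d hd
      rw [support_rename_of_injective hinj, Finset.mem_image] at hd
      obtain ⟨d', hd', rfl⟩ := hd
      refine le_trans (le_of_eq ?_) (hdirt d' hd')
      unfold dirt
      rw [Finsupp.sum_mapDomain_index_inj hinj]
      refine Finsupp.sum_congr fun v _ => ?_
      have h1 : Clean (Finset.univ.filter fun i : Fin (B.card + n') => (i : ℕ) < B.card)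
          (cmap κ c (e : Fin (B.card + n') → Fin n) v) ↔ Clean B v := by
        unfold Clean
        refine and_congr Iff.rfl ⟨fun h l hl => ?_, fun h l hl => ?_⟩
        · have h2 := h (e.symm l) (by
            rw [Finset.mem_filter, not_and]
            intro _
            rw [he, Equiv.apply_symm_apply]
            exact hl)
          simp only [cmap] at h2
          rwa [Equiv.apply_symm_apply] at h2
        · refine h (e l) ?_
          rw [← he]
          intro h3
          exact hl (Finset.mem_filter.2 ⟨Finset.mem_univ _, h3⟩)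
      by_cases h : Clean B v
      · rw [if_pos h, if_pos (h1.2 h)]
      · rw [if_neg h, if_neg fun h3 => h (h1.1 h3)]
    have h1 := hNb B.card t ((hN1 _ hBs).trans ht) n' _ hg' hd'
    have h2 := J_mono hmono (hN1 _ hBs) _ h1
    have h3 := (Φ N).dup (B.card + n') n e.symm e.symm.surjective _ h2
    have h4 : rename (cmap κ c (e.symm : Fin n → Fin (B.card + n')))
        (rename (cmap κ c (e : Fin (B.card + n') → Fin n)) g) = g := by
      rw [rename_rename]
      have h5 : cmap κ c (e.symm : Fin n → Fin (B.card + n')) ∘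
          cmap κ c (e : Fin (B.card + n') → Fin n) = id := by
        funext v
        refine Prod.ext rfl ?_
        funext i
        simp only [Function.comp, cmap, id]
        rw [Equiv.apply_symm_apply]
      rw [h5, rename_id]
      rfl
    have h5 : rename (cmap κ c (e.symm : Fin n → Fin (B.card + n')))
        (rename (cmap κ c (e : Fin (B.card + n') → Fin n)) g) ∈ (Φ N).J n := h3
    rwa [h4] at h5

end Pool.Agent.Helper929_delta
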