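import Pool.Agent.Helper929_delta.XBasic

/-
The level of an ideal containing the minors (a form of the Capelli identity).
-/

namespace Pool.Agent.Helper929_delta

open MvPolynomial

namespace Cap

section general

variable {V : Type} {A : Type} [CommRing A]

theorem pderiv_comm' (v w : V) (f : MvPolynomial V A) :
    pderiv v (pderiv w f) = pderiv w (pderiv v f) := by
  classical
  rw [← sub_eq_zero, ← Derivation.commutator_apply]
  have : ⁅pderiv (R := A) v, pderiv (R := A) w⁆ = 0 := by
    apply MvPolynomial.derivation_ext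
    intro u
    rw [Derivation.commutator_apply, Derivation.zero_apply, pderiv_X, pderiv_X]
    simp only [Pi.single_apply]
    split_ifs <;> simp
  rw [this, Derivation.zero_apply]

instance lc : LeftCommutative (fun (v : V) (g : MvPolynomial V A) => pderiv v g) :=
  ⟨fun v w g => pderiv_comm' v w g⟩

/-- iterated derivatives with respect to variables -/
noncomputable def pd (s : Multiset V) (f : MvPolynomial V A) : MvPolynomial V A :=
  s.foldr (fun v g => pderiv v g) f

/-- the pairing of a symbol with a polynomial -/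
noncomputable def Q (f : MvPolynomial V A) :
    MvPolynomial V (MvPolynomial V A) →ₗ[MvPolynomial V A] MvPolynomial V A :=
  (basisMonomials V (MvPolynomial V A)).constr (MvPolynomial V A)
    (fun e => pd (Finsupp.toMultiset e) f)

theorem Q_monomial (f : MvPolynomial V A) (e : V →₀ ℕ) (r : MvPolynomial V A) :
    Q f (monomial e r) = r * pd (Finsupp.toMultiset e) f := by
  have h : (monomial e r : MvPolynomial V (MvPolynomial V A))
      = r • (basisMonomials V (MvPolynomial V A)) e := by
    rw [coe_basisMonomials, smul_monomial, smul_eq_mul, mul_one]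
  rw [h, map_smul, Q, Module.Basis.constr_basis, smul_eq_mul]

theorem Q_C (f r : MvPolynomial V A) : Q f (C r) = r * f := by
  rw [← monomial_zero', Q_monomial]
  simp [pd]

theorem Q_mul_X (f : MvPolynomial V A) (v : V) (p : MvPolynomial V (MvPolynomial V A)) :
    Q f (p * X v) = Q (pderiv v f) p := by
  induction p using MvPolynomial.induction_on' with
  | monomial e r =>
    rw [X, monomial_mul, mul_one, Q_monomial, Q_monomial, map_add, pd, pd, Multiset.foldr_add,
      Finsupp.toMultiset_single, one_smul, Multiset.foldr_singleton]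
  | add p q hp hq => rw [add_mul, map_add, map_add, hp, hq]

theorem Q_C_mul (f r : MvPolynomial V A) (p : MvPolynomial V (MvPolynomial V A)) :
    Q f (C r * p) = r * Q f p := by
  rw [← smul_eq_C_mul, map_smul, smul_eq_mul]

theorem Q_add (f g : MvPolynomial V A) (p : MvPolynomial V (MvPolynomial V A)) :
    Q (f + g) p = Q f p + Q g p := by
  induction p using MvPolynomial.induction_on generalizing f g with
  | C r => rw [Q_C, Q_C, Q_C, mul_add]
  | add p q hp hq => rw [map_add, map_add, map_add, hp, hq]; ring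
  | mul_X p v hp => rw [Q_mul_X, Q_mul_X, Q_mul_X, map_add, hp]

theorem Q_smul (c : A) (f : MvPolynomial V A) (p : MvPolynomial V (MvPolynomial V A)) :
    Q (c • f) p = c • Q f p := by
  induction p using MvPolynomial.induction_on generalizing f with
  | C r => rw [Q_C, Q_C, mul_smul_comm]
  | add p q hp hq => rw [map_add, map_add, hp, hq, smul_add]
  | mul_X p v hp => rw [Q_mul_X, Q_mul_X, Derivation.map_smul, hp]

theorem Q_zero (p : MvPolynomial V (MvPolynomial V A)) : Q (0 : MvPolynomial V A) p = 0 := by
  have := Q_smul (0 : A) (0 : MvPolynomial V A) p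
  rwa [zero_smul, zero_smul] at this

theorem Q_sum {ι : Type} (s : Finset ι) (f : ι → MvPolynomial V A)
    (p : MvPolynomial V (MvPolynomial V A)) :
    Q (∑ i ∈ s, f i) p = ∑ i ∈ s, Q (f i) p := by
  classical
  induction s using Finset.induction_on with
  | empty => rw [Finset.sum_empty, Finset.sum_empty, Q_zero]
  | insert a s ha ih => rw [Finset.sum_insert ha, Finset.sum_insert ha, Q_add, ih]

theorem Q_X_mul (w : V) (f : MvPolynomial V A) (p : MvPolynomial V (MvPolynomial V A)) :
    Q (X w * f) p = X w * Q f p + Q f (pderiv w p) := by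
  classical
  induction p using MvPolynomial.induction_on generalizing f with
  | C r => rw [Q_C, Q_C, pderiv_C, map_zero]; ring
  | add p q hp hq => rw [map_add, map_add, map_add, map_add, hp, hq]; ring
  | mul_X p v hp =>
    rw [Q_mul_X, Q_mul_X, pderiv_mul, pderiv_mul, Q_add, hp, map_add, Q_mul_X]
    rw [pderiv_X, pderiv_X]
    by_cases h : v = w
    · subst h
      rw [Pi.single_eq_same, Pi.single_eq_same, one_mul, mul_one]
      ring
    · rw [Pi.single_eq_of_ne (Ne.symm h), Pi.single_eq_of_ne h, zero_mul, mul_zero, Q_zero, map_zero]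
      ring

end general

section det

variable {S B : Type} [CommRing S] [CommRing B] [Algebra S B] {ι : Type} [Fintype ι] [DecidableEq ι]

theorem deriv_prod_zero (D : Derivation S B B) {τ : Type} (s : Finset τ) (g : τ → B)
    (h : ∀ i ∈ s, D (g i) = 0) : D (∏ i ∈ s, g i) = 0 := by
  classical
  induction s using Finset.induction_on with
  | empty => simp
  | insert a s ha ih =>
    rw [Finset.prod_insert ha, Derivation.leibniz, h a (Finset.mem_insert_self _ _),
      ih fun i hi => h i (Finset.mem_insert_of_mem hi)]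
    simp

theorem deriv_det_zero (D : Derivation S B B) (N : Matrix ι ι B) (h : ∀ i j, D (N i j) = 0) :
    D N.det = 0 := by
  rw [Matrix.det_apply, map_sum]
  refine Finset.sum_eq_zero fun σ _ => ?_
  rw [Units.smul_def, map_zsmul, deriv_prod_zero D _ _ (fun i _ => h _ _), smul_zero]

theorem deriv_det (D : Derivation S B B) (N : Matrix ι ι B) (i₀ : ι)
    (h : ∀ i j, i ≠ i₀ → D (N i j) = 0) :
    D N.det = (N.updateRow i₀ (fun j => D (N i₀ j))).det := by
  rw [Matrix.det_eq_sum_mul_adjugate_row N i₀, map_sum,
    Matrix.det_eq_sum_mul_adjugate_row (N.updateRow i₀ _) i₀]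
  refine Finset.sum_congr rfl fun j _ => ?_
  rw [Matrix.adjugate_apply, Matrix.adjugate_apply, Matrix.updateRow_idem, Matrix.updateRow_self,
    Derivation.leibniz]
  rw [deriv_det_zero D (N.updateRow i₀ (Pi.single j 1)), smul_zero, zero_add, smul_eq_mul, mul_comm]
  intro i k
  by_cases hi : i = i₀
  · subst hi
    rw [Matrix.updateRow_self, Pi.single_apply]
    split_ifs <;> simp
  · rw [Matrix.updateRow_ne hi]
    exact h i k hi

end det

section main

variable {κ : Type} [Fintype κ] [DecidableEq κ] {n : ℕ} {m : Fin n → ℕ}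

/-- replace the letter in column `l` by `a` -/
def up (l : Fin n) (a : Fin (m l)) (v : Option κ × Wd m) : Option κ × Wd m :=
  (v.1, Function.update v.2 l a)

omit [Fintype κ] [DecidableEq κ] in
theorem up_snd (l : Fin n) (a : Fin (m l)) (v : Option κ × Wd m) : (up l a v).2 l = a := by
  simp [up]

omit [Fintype κ] [DecidableEq κ] in
theorem up_up (l : Fin n) (a b : Fin (m l)) (v : Option κ × Wd m) : up l a (up l b v) = up l a v := by
  simp [up]

omit [Fintype κ] [DecidableEq κ] in
theorem up_eq_self (l : Fin n) (a : Fin (m l)) (v : Option κ × Wd m) (h : v.2 l = a) :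
    up l a v = v := by
  rw [up, ← h, Function.update_eq_self]

/-- the derivation replacing the letter `b` by `a`, with arbitrary coefficients -/
noncomputable def GD (A : Type) [CommRing A] (l : Fin n) (a b : Fin (m l)) :
    Derivation A (MvPolynomial (Option κ × Wd m) A) (MvPolynomial (Option κ × Wd m) A) :=
  mkDerivation A (fun v : Option κ × Wd m => if v.2 l = b then X (up l a v) else 0)

/-- variables with the letter `a0` in the column `l` -/
def Uf (κ : Type) [Fintype κ] [DecidableEq κ] (m : Fin n → ℕ) (l : Fin n) (a0 : Fin (m l)) :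
    Finset (Option κ × Wd m) :=
  Finset.univ.filter fun v => v.2 l = a0

theorem GD_eq_sum (A : Type) [CommRing A] (l : Fin n) (a0 a b : Fin (m l))
    (f : MvPolynomial (Option κ × Wd m) A) :
    GD A l a b f = ∑ u ∈ Uf κ m l a0, X (up l a u) * pderiv (up l b u) f := by
  have key : GD A l a b = ∑ u ∈ Uf κ m l a0, (X (up l a u) : MvPolynomial (Option κ × Wd m) A) •
      pderiv (R := A) (up l b u) := by
    apply MvPolynomial.derivation_ext
    intro v
    rw [GD, mkDerivation_X]
    rw [← Derivation.coeFnAddMonoidHom_apply, map_sum, Finset.sum_apply]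
    simp only [Derivation.coeFnAddMonoidHom_apply, Derivation.smul_apply, smul_eq_mul]
    split_ifs with h
    · rw [Finset.sum_eq_single (up l a0 v)]
      · rw [up_up, up_up, up_eq_self l b v h, pderiv_X_self, mul_one]
      · intro u hu hne
        rw [pderiv_X_of_ne, mul_zero]
        intro h2
        apply hne
        rw [h2, up_up, up_eq_self]
        exact (Finset.mem_filter.mp hu).2
      · intro h2
        exact absurd (show up l a0 v ∈ Uf κ m l a0 from
          Finset.mem_filter.mpr ⟨Finset.mem_univ _, up_snd l a0 v⟩) h2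
    · symm
      refine Finset.sum_eq_zero fun u _ => ?_
      rw [pderiv_X_of_ne, mul_zero]
      intro h2
      apply h
      rw [h2, up_snd]
  rw [key, ← Derivation.coeFnAddMonoidHom_apply, map_sum, Finset.sum_apply]
  rfl

/-- the symbols of the operators replacing letters -/
noncomputable def Mx (l : Fin n) (a0 a b : Fin (m l)) :
    MvPolynomial (Option κ × Wd m) (XP κ m) :=
  ∑ u ∈ Uf κ m l a0, C (X (up l a u)) * X (up l b u)

theorem Q_XD (l : Fin n) (a0 a b : Fin (m l)) (f : XP κ m)
    (p : MvPolynomial (Option κ × Wd m) (XP κ m)) :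
    Q (XD l a b f) p = Q f (Mx l a0 a b * p) + Q f (GD (XP κ m) l b a p) := by
  have h1 : XD l a b f = GD ℂ l a b f := rfl
  rw [h1, GD_eq_sum ℂ l a0, GD_eq_sum (XP κ m) l a0, Q_sum, Mx, Finset.sum_mul, map_sum, map_sum,
    ← Finset.sum_add_distrib]
  refine Finset.sum_congr rfl fun u _ => ?_
  rw [Q_X_mul, mul_assoc, Q_C_mul, mul_comm (X (up l b u)) p, Q_mul_X,
    mul_comm (X (up l b u)) (pderiv _ p), Q_mul_X]

theorem GD_Mx (l : Fin n) (a0 a b c d : Fin (m l)) :
    GD (XP κ m) l b a (Mx l a0 c d) = if d = a then (Mx l a0 c b : MvPolynomial _ (XP κ m)) else 0 := by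
  rw [Mx, map_sum]
  have h1 : ∀ u : Option κ × Wd m, GD (XP κ m) l b a (C (X (up l c u)) * X (up l d u))
      = if d = a then C (X (up l c u)) * X (up l b u) else 0 := by
    intro u
    rw [Derivation.leibniz, derivation_C, smul_zero, add_zero, GD, mkDerivation_X, up_snd, up_up,
      smul_eq_mul]
    split_ifs <;> simp
  rw [Finset.sum_congr rfl fun u _ => h1 u]
  split_ifs
  · rfl
  · simp

end main

section level

variable {κ : Type} [Fintype κ] [DecidableEq κ] {n : ℕ} {m : Fin n → ℕ}

/-- iterated derivations of symbols -/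
noncomputable def Ls (l : Fin n) : List (Fin (m l) × Fin (m l)) →
    (MvPolynomial (Option κ × Wd m) (XP κ m) →ₗ[XP κ m] MvPolynomial (Option κ × Wd m) (XP κ m))
  | [] => LinearMap.id
  | ab :: L => (Ls l L).comp (GD (XP κ m) l ab.1 ab.2).toLinearMap

/-- symbols all of whose iterated derivatives pair `I` into `I` -/
def Sp (I : Ideal (XP κ m)) (l : Fin n) (p : MvPolynomial (Option κ × Wd m) (XP κ m)) : Prop :=
  ∀ L : List (Fin (m l) × Fin (m l)), ∀ g ∈ I, Q g (Ls l L p) ∈ I

theorem Sp_one (I : Ideal (XP κ m)) (l : Fin n) :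
    Sp I l (1 : MvPolynomial (Option κ × Wd m) (XP κ m)) := by
  intro L g hg
  cases L with
  | nil =>
    rw [Ls, LinearMap.id_apply, ← C_1, Q_C, one_mul]
    exact hg
  | cons ab L =>
    have h : Ls l (ab :: L) (1 : MvPolynomial (Option κ × Wd m) (XP κ m)) = 0 := by
      rw [Ls, LinearMap.comp_apply]
      have : (GD (XP κ m) l ab.1 ab.2).toLinearMap (1 : MvPolynomial (Option κ × Wd m) (XP κ m))
        = 0 := Derivation.map_one_eq_zero _
      rw [this, map_zero]
    rw [h, map_zero]
    exact I.zero_mem

theorem Sp_zero (I : Ideal (XP κ m)) (l : Fin n) :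
    Sp I l (0 : MvPolynomial (Option κ × Wd m) (XP κ m)) := by
  intro L g _
  rw [map_zero, map_zero]
  exact I.zero_mem

theorem Sp_add {I : Ideal (XP κ m)} {l : Fin n} {p q : MvPolynomial (Option κ × Wd m) (XP κ m)}
    (hp : Sp I l p) (hq : Sp I l q) : Sp I l (p + q) := by
  intro L g hg
  rw [map_add, map_add]
  exact I.add_mem (hp L g hg) (hq L g hg)

theorem Sp_neg {I : Ideal (XP κ m)} {l : Fin n} {p : MvPolynomial (Option κ × Wd m) (XP κ m)}
    (hp : Sp I l p) : Sp I l (-p) := by
  intro L g hg
  rw [map_neg, map_neg]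
  exact I.neg_mem (hp L g hg)

theorem Sp_GD {I : Ideal (XP κ m)} {l : Fin n} {p : MvPolynomial (Option κ × Wd m) (XP κ m)}
    (hp : Sp I l p) (a b : Fin (m l)) : Sp I l (GD (XP κ m) l a b p) :=
  fun L g hg => hp ((a, b) :: L) g hg

theorem Sp_mul_Mx {I : Ideal (XP κ m)} {l : Fin n} (a0 : Fin (m l))
    (hI : ∀ (a b : Fin (m l)) (f : XP κ m), f ∈ I → XD l a b f ∈ I)
    {p : MvPolynomial (Option κ × Wd m) (XP κ m)}
    (hp : Sp I l p) (a b : Fin (m l)) : Sp I l (Mx l a0 a b * p) := by
  intro L
  induction L generalizing p a b with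
  | nil =>
    intro g hg
    have h := Q_XD l a0 a b g p
    have h2 : Q g (Mx l a0 a b * p) = Q (XD l a b g) p - Q g (GD (XP κ m) l b a p) := by
      rw [h]; ring
    rw [Ls, LinearMap.id_apply, h2]
    exact I.sub_mem (hp [] _ (hI a b g hg)) (Sp_GD hp b a [] g hg)
  | cons ab L ih =>
    intro g hg
    rw [Ls, LinearMap.comp_apply]
    have h : (GD (XP κ m) l ab.1 ab.2).toLinearMap (Mx l a0 a b * p)
        = Mx l a0 a b * GD (XP κ m) l ab.1 ab.2 p
          + (if b = ab.2 then Mx l a0 a ab.1 * p else 0) := by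
      have : (GD (XP κ m) l ab.1 ab.2).toLinearMap (Mx l a0 a b * p)
        = GD (XP κ m) l ab.1 ab.2 (Mx l a0 a b * p) := rfl
      rw [this, Derivation.leibniz, GD_Mx, smul_eq_mul, smul_eq_mul]
      split_ifs <;> ring
    rw [h, map_add, map_add]
    refine I.add_mem (ih (Sp_GD hp _ _) a b g hg) ?_
    split_ifs
    · exact ih hp a ab.1 g hg
    · rw [map_zero, map_zero]
      exact I.zero_mem

/-- multipliers preserving `Sp` -/
def SpMul (I : Ideal (XP κ m)) (l : Fin n) :
    Subring (MvPolynomial (Option κ × Wd m) (XP κ m)) where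
  carrier := {x | ∀ p, Sp I l p → Sp I l (x * p)}
  mul_mem' := by
    intro x y hx hy p hp
    rw [mul_assoc]
    exact hx _ (hy _ hp)
  one_mem' := by
    intro p hp
    rwa [one_mul]
  add_mem' := by
    intro x y hx hy p hp
    rw [add_mul]
    exact Sp_add (hx _ hp) (hy _ hp)
  zero_mem' := by
    intro p _
    rw [zero_mul]
    exact Sp_zero I l
  neg_mem' := by
    intro x hx p hp
    have h : -x * p = -(x * p) := by ring
    rw [h]
    exact Sp_neg (hx _ hp)

theorem det_mem_subring {B : Type} [CommRing B] {ι : Type} [Fintype ι] [DecidableEq ι]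
    (T : Subring B) (N : Matrix ι ι B) (h : ∀ i j, N i j ∈ T) : N.det ∈ T := by
  rw [Matrix.det_apply]
  refine T.sum_mem fun σ _ => ?_
  rw [Units.smul_def]
  exact T.zsmul_mem (T.prod_mem fun i _ => h _ _) _

theorem Q_mem {I : Ideal (XP κ m)} {l : Fin n} {x : MvPolynomial (Option κ × Wd m) (XP κ m)}
    (hx : x ∈ SpMul I l) {g : XP κ m} (hg : g ∈ I) : Q g x ∈ I := by
  have := hx 1 (Sp_one I l) [] g hg
  rwa [mul_one] at this

variable {ι : Type} [Fintype ι] [DecidableEq ι]

omit [Fintype ι] in
theorem single_eq_ite {B : Type} [CommRing B] (j k : ι) :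
    (Pi.single j (1 : B) : ι → B) k = if j = k then 1 else 0 := by
  rw [Pi.single_apply]
  by_cases h : k = j
  · rw [if_pos h, if_pos h.symm]
  · rw [if_neg h, if_neg (fun h' => h h'.symm)]

theorem det_expand {B : Type} [CommRing B] (N : Matrix ι ι B) (T : Finset ι) (t : ι) (ht : t ∈ T)
    (h : ∀ i ∉ T, ∀ j, N i j = if i = j then 1 else 0) :
    N.det = N t t * (N.updateRow t (Pi.single t 1)).det
      + ∑ j ∈ T.erase t, N t j * (N.updateRow t (Pi.single j 1)).det := by
  rw [Finset.add_sum_erase T (fun j => N t j * (N.updateRow t (Pi.single j 1)).det) ht,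
    Matrix.det_eq_sum_mul_adjugate_row N t]
  symm
  have h2 : ∑ j ∈ T, N t j * (N.updateRow t (Pi.single j 1)).det
      = ∑ j, N t j * (N.updateRow t (Pi.single j 1)).det := by
    apply Finset.sum_subset (Finset.subset_univ T)
    intro j _ hj
    have hjt : j ≠ t := fun h => hj (h ▸ ht)
    rw [Matrix.det_zero_of_row_eq hjt, mul_zero]
    funext k
    rw [Matrix.updateRow_ne hjt, Matrix.updateRow_self, h j hj, single_eq_ite]
  rw [h2]
  refine Finset.sum_congr rfl fun j _ => ?_
  rw [Matrix.adjugate_apply]

theorem det_swap_rows {B : Type} [CommRing B] (N : Matrix ι ι B) (t j : ι) (htj : t ≠ j) :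
    ((N.updateRow t (Pi.single j 1)).updateRow j (N t)).det
      = -(N.updateRow j (Pi.single j 1)).det := by
  have hW : (N.updateRow t (Pi.single j 1)).updateRow j (N t)
      = (N.updateRow j (Pi.single j 1)).submatrix (Equiv.swap t j) id := by
    ext1 i k
    rw [Matrix.submatrix_apply, id]
    by_cases hij : i = j
    · subst hij
      rw [Matrix.updateRow_self, Equiv.swap_apply_right, Matrix.updateRow_ne htj]
    · rw [Matrix.updateRow_ne hij]
      by_cases hit : i = t
      · subst hit
        rw [Matrix.updateRow_self, Equiv.swap_apply_left, Matrix.updateRow_self]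
      · rw [Matrix.updateRow_ne hit, Equiv.swap_apply_of_ne_of_ne hit hij,
          Matrix.updateRow_ne hij]
  rw [hW, Matrix.det_permute, Equiv.Perm.sign_swap htj]
  simp

/-- the matrix of symbols, with the rows outside `T` replaced by unit vectors -/
noncomputable def NT (l : Fin n) (a0 : Fin (m l)) (s : ι → Fin (m l)) (T : Finset ι) :
    Matrix ι ι (MvPolynomial (Option κ × Wd m) (XP κ m)) :=
  Matrix.of fun i j => if i ∈ T then Mx l a0 (s j) (s i) else if i = j then 1 else 0

theorem NT_updateRow (l : Fin n) (a0 : Fin (m l)) (s : ι → Fin (m l)) (T : Finset ι) (t : ι) :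
    (NT l a0 s T : Matrix ι ι (MvPolynomial (Option κ × Wd m) (XP κ m))).updateRow t
      (Pi.single t 1) = NT l a0 s (T.erase t) := by
  ext1 i j
  by_cases hi : i = t
  · subst hi
    rw [Matrix.updateRow_self, NT, Matrix.of_apply, if_neg (Finset.notMem_erase i T),
      single_eq_ite]
  · rw [Matrix.updateRow_ne hi, NT, NT, Matrix.of_apply, Matrix.of_apply]
    simp only [Finset.mem_erase, hi, ne_eq, not_false_eq_true, true_and]

theorem step {I : Ideal (XP κ m)} {l : Fin n} (a0 : Fin (m l))
    (hI : ∀ (a b : Fin (m l)) (f : XP κ m), f ∈ I → XD l a b f ∈ I)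
    (s : ι → Fin (m l)) (hs : Function.Injective s) {f : XP κ m} (T : Finset ι) (t : ι) (ht : t ∈ T)
    (hlt : ∀ j ∈ T, j ≠ t → XD l (s j) (s t) f ∈ I) (lam : ℂ)
    (htt : XD l (s t) (s t) f = lam • f) :
    Q f (NT l a0 s T).det - (lam • Q f (NT l a0 s (T.erase t)).det
      + ∑ j ∈ T.erase t, Q f (NT l a0 s (T.erase j)).det) ∈ I := by
  set N : Matrix ι ι (MvPolynomial (Option κ × Wd m) (XP κ m)) := NT l a0 s T with hN
  have hrow : ∀ i ∈ T, ∀ j, N i j = Mx l a0 (s j) (s i) := by
    intro i hi j
    rw [hN, NT, Matrix.of_apply, if_pos hi]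
  have hrow' : ∀ i ∉ T, ∀ j, N i j = if i = j then 1 else 0 := by
    intro i hi j
    rw [hN, NT, Matrix.of_apply, if_neg hi]
  -- the derivative of the entries
  have hGD : ∀ (a : Fin (m l)) (i₀ i : ι), i ≠ i₀ → ∀ k, GD (XP κ m) l a (s i₀) (N i k) = 0 := by
    intro a i₀ i hi k
    by_cases hiT : i ∈ T
    · rw [hrow i hiT, GD_Mx, if_neg]
      intro h
      exact hi (hs h)
    · rw [hrow' i hiT]
      split_ifs
      · exact Derivation.map_one_eq_zero _
      · exact map_zero _
  have hexp := det_expand N T t ht hrow'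
  have hmain : ∀ j ∈ T.erase t, Q f (N t j * (N.updateRow t (Pi.single j 1)).det)
      = Q (XD l (s j) (s t) f) (N.updateRow t (Pi.single j 1)).det
        + Q f (NT l a0 s (T.erase j)).det := by
    intro j hj
    have hjT : j ∈ T := Finset.mem_of_mem_erase hj
    have hjt : j ≠ t := Finset.ne_of_mem_erase hj
    rw [hrow t ht, Q_XD l a0]
    rw [add_assoc, left_eq_add, ← map_add]
    have : GD (XP κ m) l (s t) (s j) (N.updateRow t (Pi.single j 1)).det
        = -(NT l a0 s (T.erase j)).det := by
      rw [deriv_det _ _ j]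
      · have hW : ((N.updateRow t (Pi.single j 1)).updateRow j
            (fun k => GD (XP κ m) l (s t) (s j) ((N.updateRow t (Pi.single j 1)) j k)))
            = (NT l a0 s (T.erase j)).submatrix (Equiv.swap t j) id := by
          ext1 i k
          rw [Matrix.submatrix_apply, id]
          by_cases hij : i = j
          · subst hij
            rw [Matrix.updateRow_self, Matrix.updateRow_ne hjt, hrow i hjT, GD_Mx, if_pos rfl,
              Equiv.swap_apply_right, ← NT_updateRow, Matrix.updateRow_ne hjt.symm, ← hN,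
              hrow t ht]
          · rw [Matrix.updateRow_ne hij]
            by_cases hit : i = t
            · subst hit
              rw [Matrix.updateRow_self, Equiv.swap_apply_left, ← NT_updateRow,
                Matrix.updateRow_self]
            · rw [Matrix.updateRow_ne hit, Equiv.swap_apply_of_ne_of_ne hit hij, ← NT_updateRow,
                Matrix.updateRow_ne hij, ← hN]
        rw [hW, Matrix.det_permute, Equiv.Perm.sign_swap hjt.symm]
        simp
      · intro i k hi
        by_cases hit : i = t
        · subst hit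
          rw [Matrix.updateRow_self, Pi.single_apply]
          split_ifs
          · exact Derivation.map_one_eq_zero _
          · exact map_zero _
        · rw [Matrix.updateRow_ne hit]
          exact hGD _ _ _ hi k
    rw [this, neg_add_cancel, map_zero]
  have htt' : Q f (N t t * (N.updateRow t (Pi.single t 1)).det)
      = lam • Q f (NT l a0 s (T.erase t)).det := by
    have h1 := Q_XD l a0 (s t) (s t) f (N.updateRow t (Pi.single t 1)).det
    rw [deriv_det_zero, map_zero, add_zero, htt, Q_smul, ← hrow t ht] at h1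
    · rw [← h1, NT_updateRow]
    · intro i k
      by_cases hit : i = t
      · subst hit
        rw [Matrix.updateRow_self, Pi.single_apply]
        split_ifs
        · exact Derivation.map_one_eq_zero _
        · exact map_zero _
      · rw [Matrix.updateRow_ne hit]
        exact hGD _ _ _ hit k
  rw [hexp, map_add, map_sum, Finset.sum_congr rfl hmain, Finset.sum_add_distrib, htt']
  have : lam • Q f (NT l a0 s (T.erase t)).det
      + (∑ j ∈ T.erase t, Q (XD l (s j) (s t) f) (N.updateRow t (Pi.single j 1)).det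
        + ∑ j ∈ T.erase t, Q f (NT l a0 s (T.erase j)).det)
      - (lam • Q f (NT l a0 s (T.erase t)).det + ∑ j ∈ T.erase t, Q f (NT l a0 s (T.erase j)).det)
      = ∑ j ∈ T.erase t, Q (XD l (s j) (s t) f) (N.updateRow t (Pi.single j 1)).det := by ring
  rw [this]
  refine I.sum_mem fun j hj => Q_mem (l := l) ?_
    (hlt j (Finset.mem_of_mem_erase hj) (Finset.ne_of_mem_erase hj))
  apply det_mem_subring
  intro i k
  by_cases hit : i = t
  · subst hit
    rw [Matrix.updateRow_self, Pi.single_apply]
    split_ifs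
    · exact Subring.one_mem _
    · exact Subring.zero_mem _
  · rw [Matrix.updateRow_ne hit]
    by_cases hiT : i ∈ T
    · rw [hrow i hiT]
      exact fun p hp => Sp_mul_Mx a0 hI hp _ _
    · rw [hrow' i hiT]
      split_ifs
      · exact Subring.one_mem _
      · exact Subring.zero_mem _

theorem NT_empty (l : Fin n) (a0 : Fin (m l)) (s : ι → Fin (m l)) :
    (NT l a0 s ∅ : Matrix ι ι (MvPolynomial (Option κ × Wd m) (XP κ m))) = 1 := by
  ext1 i j
  rw [NT, Matrix.of_apply, if_neg (Finset.notMem_empty i), Matrix.one_apply]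

/-- the full determinant of symbols pairs `f` into the ideal of minors -/
theorem Q_det_mem {I : Ideal (XP κ m)} (l : Fin n) (a0 : Fin (m l)) (s : ι → Fin (m l))
    (f : XP κ m)
    (hminor : ∀ (v : ι → Option κ × Wd m),
      Matrix.det (Matrix.of fun i j => (X (up l (s i) (v j)) : XP κ m)) ∈ I) :
    Q f (NT l a0 s Finset.univ).det ∈ I := by
  have h1 : (NT l a0 s Finset.univ : Matrix ι ι (MvPolynomial (Option κ × Wd m) (XP κ m)))
      = fun i => ∑ u ∈ Uf κ m l a0, (X (up l (s i) u) : MvPolynomial (Option κ × Wd m) (XP κ m)) •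
          (fun j => C (X (up l (s j) u)) : ι → MvPolynomial (Option κ × Wd m) (XP κ m)) := by
    funext i j
    rw [NT, Matrix.of_apply, if_pos (Finset.mem_univ i), Mx, Finset.sum_apply]
    refine Finset.sum_congr rfl fun u _ => ?_
    rw [Pi.smul_apply, smul_eq_mul, mul_comm]
  have h2 : (NT l a0 s Finset.univ : Matrix ι ι (MvPolynomial (Option κ × Wd m) (XP κ m))).det
      = ∑ r ∈ Fintype.piFinset (fun _ : ι => Uf κ m l a0),
        (∏ i, X (up l (s i) (r i))) * C (Matrix.det (Matrix.of fun i j =>
          (X (up l (s i) (r j)) : XP κ m))) := by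
    rw [h1]
    have h3 := MultilinearMap.map_sum_finset
      (Matrix.detRowAlternating (n := ι)
        (R := MvPolynomial (Option κ × Wd m) (XP κ m))).toMultilinearMap
      (fun (i : ι) (u : Option κ × Wd m) =>
        (X (up l (s i) u) : MvPolynomial (Option κ × Wd m) (XP κ m)) •
          (fun j => C (X (up l (s j) u)) : ι → MvPolynomial (Option κ × Wd m) (XP κ m)))
      (fun _ => Uf κ m l a0)
    refine h3.trans (Finset.sum_congr rfl fun r _ => ?_)
    rw [MultilinearMap.map_smul_univ, smul_eq_mul]
    congr 1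
    rw [← Matrix.det_transpose, RingHom.map_det]
    rfl
  rw [h2, map_sum]
  refine I.sum_mem fun r _ => ?_
  rw [mul_comm, Q_C_mul]
  exact I.mul_mem_right _ (hminor r)

theorem rec_main {c : ℕ} {I : Ideal (XP κ m)} {l : Fin n} (a0 : Fin (m l))
    (hI : ∀ (a b : Fin (m l)) (f : XP κ m), f ∈ I → XD l a b f ∈ I)
    (s : Fin (c + 1) → Fin (m l)) (hs : StrictMono s) {f : XP κ m} (lam : Fin (c + 1) → ℕ)
    (hlt : ∀ i j, i < j → XD l (s i) (s j) f ∈ I)
    (htt : ∀ i, XD l (s i) (s i) f = (lam i : ℂ) • f) (hlam : lam (Fin.last c) ≠ 0)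
    (hfI : f ∉ I) (T : Finset (Fin (c + 1))) :
    ∃ γ : ℕ, Q f (NT l a0 s T).det - (γ : ℂ) • f ∈ I ∧ (Fin.last c ∈ T → γ ≠ 0) := by
  induction T using Finset.strongInduction with
  | H T ih =>
    by_cases hT : T.Nonempty
    · choose! g hg1 hg2 using ih
      set t := T.max' hT with ht
      have htT : t ∈ T := T.max'_mem hT
      have hst := step a0 hI s hs.injective (f := f) T t htT
        (fun j hj hjt => hlt j t (lt_of_le_of_ne (T.le_max' j hj) hjt)) (lam t) (htt t)
      refine ⟨lam t * g (T.erase t) + ∑ j ∈ T.erase t, g (T.erase j), ?_, ?_⟩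
      · have h1 : Q f (NT l a0 s T).det
            - ((lam t * g (T.erase t) + ∑ j ∈ T.erase t, g (T.erase j) : ℕ) : ℂ) • f
            = (Q f (NT l a0 s T).det - ((lam t : ℂ) • Q f (NT l a0 s (T.erase t)).det
                + ∑ j ∈ T.erase t, Q f (NT l a0 s (T.erase j)).det))
              + ((lam t : ℂ) • (Q f (NT l a0 s (T.erase t)).det - (g (T.erase t) : ℂ) • f)
                + ∑ j ∈ T.erase t, (Q f (NT l a0 s (T.erase j)).det - (g (T.erase j) : ℂ) • f)) := by
          rw [Finset.sum_sub_distrib, ← Finset.sum_smul]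
          push_cast
          rw [add_smul, smul_sub, mul_smul]
          ring
        rw [h1]
        refine I.add_mem hst (I.add_mem ?_ (I.sum_mem fun j hj => ?_))
        · rw [MvPolynomial.smul_eq_C_mul]
          exact I.mul_mem_left _ (hg1 _ (Finset.erase_ssubset htT))
        · exact hg1 _ (Finset.erase_ssubset (Finset.mem_of_mem_erase hj))
      · intro hlast
        have htl : t = Fin.last c := le_antisymm (Fin.le_last _) (T.le_max' _ hlast)
        by_cases hE : (T.erase t).Nonempty
        · obtain ⟨j, hj⟩ := hE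
          have hpos : 0 < g (T.erase j) := by
            apply Nat.pos_of_ne_zero
            apply hg2 _ (Finset.erase_ssubset (Finset.mem_of_mem_erase hj))
            rw [← htl]
            exact Finset.mem_erase.mpr ⟨(Finset.ne_of_mem_erase hj).symm, htT⟩
          have : g (T.erase j) ≤ ∑ j ∈ T.erase t, g (T.erase j) :=
            Finset.single_le_sum (f := fun j => g (T.erase j)) (fun _ _ => Nat.zero_le _) hj
          omega
        · rw [Finset.not_nonempty_iff_eq_empty] at hE
          have h0 : g (T.erase t) ≠ 0 := by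
            intro hcon
            apply hfI
            have := hg1 _ (Finset.erase_ssubset htT)
            rw [hcon, hE, NT_empty, Matrix.det_one, ← C_1, Q_C, one_mul] at this
            simpa using this
          have h1 : lam t * g (T.erase t) ≠ 0 := by
            rw [htl] at h0 ⊢
            exact Nat.mul_ne_zero hlam h0
          omega
    · rw [Finset.not_nonempty_iff_eq_empty] at hT
      subst hT
      refine ⟨1, ?_, fun h => absurd h (Finset.notMem_empty _)⟩
      rw [NT_empty, Matrix.det_one, ← C_1, Q_C]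
      simp

end level

section weight

variable {κ : Type} {n : ℕ} {m : Fin n → ℕ}

theorem xwt_apply (v : Option κ × Wd m) (l : Fin n) (a : Fin (m l)) :
    xwt v (Sum.inr ⟨l, a⟩) = if v.2 l = a then 1 else 0 := by
  classical
  rw [xwt, Finsupp.add_apply, Finsupp.single_apply, if_neg (by simp), zero_add,
    Finsupp.finsetSum_apply, Finset.sum_eq_single l]
  · rw [Finsupp.single_apply]
    by_cases h : v.2 l = a
    · rw [if_pos h, if_pos (by rw [h])]
    · rw [if_neg h, if_neg]
      intro h'
      apply h
      simpa using h'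
  · intro i _ hi
    rw [Finsupp.single_apply, if_neg]
    intro h'
    exact hi (congrArg Sigma.fst (Sum.inr_injective h'))
  · simp

theorem weight_xwt_apply (d : (Option κ × Wd m) →₀ ℕ) (l : Fin n) (a : Fin (m l)) :
    Finsupp.weight xwt d (Sum.inr ⟨l, a⟩) = ∑ v ∈ d.support, d v * (if v.2 l = a then 1 else 0) := by
  rw [Finsupp.weight_apply, Finsupp.sum, Finsupp.finsetSum_apply]
  refine Finset.sum_congr rfl fun v _ => ?_
  rw [Finsupp.smul_apply, xwt_apply, smul_eq_mul]

theorem XD_self_of_weight (l : Fin n) (a : Fin (m l))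
    {lam : (Option κ ⊕ (Σ i, Fin (m i))) →₀ ℕ} {f : XP κ m}
    (hf : IsWeightedHomogeneous xwt f lam) :
    XD l a a f = (lam (Sum.inr ⟨l, a⟩) : ℂ) • f := by
  classical
  conv_lhs => rw [f.as_sum]
  conv_rhs => rw [f.as_sum]
  rw [map_sum, Finset.smul_sum]
  refine Finset.sum_congr rfl fun d hd => ?_
  have hlam := hf (mem_support_iff.mp hd)
  rw [XD, mkDerivation_monomial, ← hlam, weight_xwt_apply, Finsupp.sum]
  push_cast
  rw [smul_monomial, Finset.smul_sum, smul_eq_mul, Finset.sum_mul, map_sum]
  refine Finset.sum_congr rfl fun w hw => ?_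
  have hdw : d w ≠ 0 := Finsupp.mem_support_iff.mp hw
  have h1 : d - Finsupp.single w 1 + Finsupp.single w 1 = d := by
    ext x
    simp only [Finsupp.add_apply, Finsupp.tsub_apply, Finsupp.single_apply]
    split_ifs with hx
    · subst hx; omega
    · simp
  have h2 : (monomial (d - Finsupp.single w 1)) ((d w : ℕ) : ℂ) * (X w : XP κ m)
      = monomial d ((d w : ℕ) : ℂ) := by
    rw [X, monomial_mul, h1, mul_one]
  by_cases h : w.2 l = a
  · rw [if_pos h, if_pos h]
    have h3 : (X (w.1, Function.update w.2 l a) : XP κ m) = X w := by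
      rw [← h, Function.update_eq_self]
    rw [h3, smul_eq_mul, h2, smul_monomial]
    congr 1
    simp [mul_comm]
  · rw [if_neg h, if_neg h]
    simp

end weight

end Cap

variable {κ : Type} [Fintype κ] [DecidableEq κ] {n : ℕ} {m : Fin n → ℕ}

/-- a highest weight vector modulo an ideal containing the minors of size `c + 1` of the column `l`, with a letter of
index at least `c` in its weight, lies in the ideal -/
theorem xlevel {I : Ideal (XP κ m)} (l : Fin n)
    (hI : ∀ (a b : Fin (m l)) (f : XP κ m), f ∈ I → XD l a b f ∈ I) (c : ℕ)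
    (hminor : ∀ (v : Fin (c + 1) → Option κ × Wd m) (a : Fin (c + 1) → Fin (m l)),
      Matrix.det (Matrix.of fun i j => (X ((v j).1, Function.update (v j).2 l (a i)) : XP κ m)) ∈ I)
    {lam : (Option κ ⊕ (Σ i, Fin (m i))) →₀ ℕ} {f : XP κ m} (hf : IsWeightedHomogeneous xwt f lam)
    (hD : ∀ a b : Fin (m l), a < b → XD l a b f ∈ I)
    (a : Fin (m l)) (ha : c ≤ (a : ℕ)) (hlam : lam (Sum.inr ⟨l, a⟩) ≠ 0) : f ∈ I := by
  by_contra hfI
  -- the letters 0, 1, ..., c - 1, a
  let s : Fin (c + 1) → Fin (m l) := fun i =>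
    if h : (i : ℕ) < c then ⟨i, lt_of_lt_of_le h (le_of_lt (lt_of_le_of_lt ha a.2))⟩ else a
  have hs1 : ∀ i : Fin (c + 1), (i : ℕ) < c → ((s i : Fin (m l)) : ℕ) = i := by
    intro i hi
    simp [s, hi]
  have hs2 : s (Fin.last c) = a := by simp [s]
  have hs : StrictMono s := by
    intro i j hij
    have hic : (i : ℕ) < c := by
      have := j.2
      have h' : (i : ℕ) < (j : ℕ) := hij
      omega
    rw [Fin.lt_def, hs1 i hic]
    by_cases hj : (j : ℕ) < c
    · rw [hs1 j hj]
      exact hij
    · have : s j = a := by simp [s, hj]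
      rw [this]
      omega
  obtain ⟨γ, h1, h2⟩ := Cap.rec_main a hI s hs (f := f) (fun i => lam (Sum.inr ⟨l, s i⟩))
    (fun i j hij => hD _ _ (hs hij)) (fun i => Cap.XD_self_of_weight l (s i) hf)
    (by rw [hs2]; exact hlam) hfI Finset.univ
  have h3 := h2 (Finset.mem_univ _)
  have h4 := Cap.Q_det_mem l a s f (fun v => hminor v s) (I := I)
  have h5 : (γ : ℂ) • f ∈ I := by
    have := I.sub_mem h4 h1
    rwa [sub_sub_cancel] at this
  apply hfI
  rw [MvPolynomial.smul_eq_C_mul] at h5
  have h6 := I.mul_mem_left (C ((γ : ℂ)⁻¹)) h5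
  rwa [← mul_assoc, ← C_mul, inv_mul_cancel₀ (by exact_mod_cast h3), C_1, one_mul] at h6

end Pool.Agent.Helper929_delta
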