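import Pool.Agent.Helper929_delta.XSys
import Pool.Agent.Helper929_delta.X1
import Pool.Agent.Helper929_delta.X4
import Pool.Agent.Helper929_delta.X11

/-
Families of ideals and detection.
-/

namespace Pool.Agent.Helper929_delta

open MvPolynomial

variable {κ : Type} [Fintype κ] [DecidableEq κ]

omit [Fintype κ] [DecidableEq κ] in
theorem xmap_X {n n' : ℕ} {m : Fin n → ℕ} {m' : Fin n' → ℕ} (β : Wd m → Wd m' → ℂ)
    (v : Option κ × Wd m) :
    xmap κ β (X v) = ∑ w' : Wd m', C (β v.2 w') * X (v.1, w') := by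
  rw [xmap, aeval_X]

theorem xmap_X_of {n n' : ℕ} {m : Fin n → ℕ} {m' : Fin n' → ℕ} (β : Wd m → Wd m' → ℂ)
    (v : Option κ × Wd m) (w0 : Wd m') (h1 : β v.2 w0 = 1) (h0 : ∀ w', w' ≠ w0 → β v.2 w' = 0) :
    xmap κ β (X v) = X (v.1, w0) := by
  rw [xmap_X, Finset.sum_eq_single w0]
  · rw [h1, C_1, one_mul]
  · intro w' _ hw'
    rw [h0 w' hw', C_0, zero_mul]
  · intro h
    exact absurd (Finset.mem_univ _) h

theorem colMap_eq_xmap {n : ℕ} {m : Fin n → ℕ} (l : Fin n) (A : Matrix (Fin (m l)) (Fin (m l)) ℂ) :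
    (colMap l A : XP κ m →ₐ[ℂ] XP κ m) = xmap κ (fun w w' => ∏ i,
      (Function.update (fun i => (1 : Matrix (Fin (m i)) (Fin (m i)) ℂ)) l A) i (w' i) (w i)) := by
  apply MvPolynomial.algHom_ext
  intro v
  rw [xmap_X, colMap, aeval_X]
  have h1 := congrArg (rename (fun w : Wd m => ((v.1, w) : Option κ × Wd m)))
    (mapLin_update_X l A v.2)
  rw [mapLin, aeval_X] at h1
  simp only [map_sum, map_mul, rename_C, rename_X] at h1
  exact h1.symm

/-- a system of ideals is stable (needed for both targets) -/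
theorem XSys.stable (𝒥 : XSys κ) {n : ℕ} (m : Fin (n + 1) → ℕ) : XStable (𝒥.I m) := by
  refine ⟨fun l A f hf => ?_, fun s f hf => 𝒥.scal m s f hf⟩
  rw [colMap_eq_xmap]
  refine 𝒥.map m m _ ⟨id, fun i w' a =>
    (Function.update (fun i => (1 : Matrix (Fin (m i)) (Fin (m i)) ℂ)) l A) i (w' i) a,
    Function.surjective_id, ?_, rfl⟩ f hf
  intro i w w' h
  have := h i rfl
  simp only [this]

theorem rename_eq_xmap {c n n' : ℕ} (φ : Fin n' → Fin n) :
    (rename (fun v : Option κ × Wd (cdim c n) =>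
      ((v.1, fun i => v.2 (φ i)) : Option κ × Wd (cdim c n'))) :
        XP κ (cdim c n) →ₐ[ℂ] XP κ (cdim c n')) =
    xmap κ (fun w w' => ∏ l, if ∀ j, φ j = l → (w' j : Fin (c + 1)) = w l then 1 else 0) := by
  apply MvPolynomial.algHom_ext
  intro v
  rw [rename_X, eq_comm]
  apply xmap_X_of
  · refine Finset.prod_eq_one fun l _ => ?_
    rw [if_pos]
    intro j hj
    subst hj
    rfl
  · intro w' hw'
    obtain ⟨j, hj⟩ : ∃ j, w' j ≠ (fun i => v.2 (φ i) : Wd (cdim c n')) j := by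
      by_contra hcon
      push Not at hcon
      exact hw' (funext hcon)
    refine Finset.prod_eq_zero (Finset.mem_univ (φ j)) ?_
    rw [if_neg]
    intro h
    exact hj (h j rfl)

/-- the ideals of the family -/
noncomputable def famJ (𝒥 : XSys κ) (c : ℕ) : ∀ n : ℕ, Ideal (XP κ (cdim c n))
  | 0 => ⊤
  | n + 1 => 𝒥.I (cdim c (n + 1))

/-- TARGET 1 -/
theorem XSys.exists_fam (𝒥 : XSys κ) (c : ℕ) :
    ∃ Φ : CFam κ c, Φ.J 0 = ⊤ ∧ ∀ n : ℕ, Φ.J (n + 1) = 𝒥.I (cdim c (n + 1)) := by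
  refine ⟨⟨famJ 𝒥 c, ?_, ?_⟩, rfl, fun _ => rfl⟩
  · intro n
    cases n with
    | zero =>
      exact ⟨fun l => l.elim0, fun s f hf => Submodule.mem_top⟩
    | succ n => exact 𝒥.stable _
  · intro n n' φ hφ f hf
    cases n with
    | zero =>
      cases n' with
      | zero => exact Submodule.mem_top
      | succ n' => exact (φ 0).elim0
    | succ n =>
      cases n' with
      | zero =>
        obtain ⟨j, _⟩ := hφ 0
        exact j.elim0
      | succ n' =>
        rw [rename_eq_xmap]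
        refine 𝒥.map (cdim c (n + 1)) (cdim c (n' + 1)) _ ⟨φ, fun l w' a =>
          if ∀ j, φ j = l → (w' j : Fin (c + 1)) = a then 1 else 0, hφ, ?_, rfl⟩ f hf
        intro l w w' h
        funext a
        have : (∀ j, φ j = l → (w j : Fin (c + 1)) = a) ↔ (∀ j, φ j = l → (w' j : Fin (c + 1)) = a) := by
          constructor
          · intro h1 j hj
            rw [← h j hj]
            exact h1 j hj
          · intro h1 j hj
            rw [h j hj]
            exact h1 j hj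
        simp only [this]

omit [Fintype κ] [DecidableEq κ] in
theorem xwt_ne_zero {n : ℕ} {m : Fin n → ℕ} (d : (Option κ × Wd m) →₀ ℕ) (v : Option κ × Wd m)
    (hv : v ∈ d.support) (l : Fin n) :
    Finsupp.weight (xwt : Option κ × Wd m → _) d (Sum.inr ⟨l, v.2 l⟩) ≠ 0 := by
  have h1 : xwt v (Sum.inr ⟨l, v.2 l⟩) ≠ 0 := by
    unfold xwt
    rw [Finsupp.add_apply, Finsupp.finsetSum_apply]
    have h2 : 1 ≤ ∑ i, (Finsupp.single (Sum.inr ⟨i, v.2 i⟩ : Option κ ⊕ (Σ i, Fin (m i))) 1)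
        (Sum.inr ⟨l, v.2 l⟩) := by
      refine le_trans (le_of_eq ?_) (Finset.single_le_sum (f := fun i =>
        (Finsupp.single (Sum.inr ⟨i, v.2 i⟩ : Option κ ⊕ (Σ i, Fin (m i))) 1)
        (Sum.inr ⟨l, v.2 l⟩)) (fun _ _ => Nat.zero_le _) (Finset.mem_univ l))
      rw [Finsupp.single_eq_same]
    omega
  rw [Finsupp.weight_apply, Finsupp.sum, Finsupp.finsetSum_apply]
  intro h0
  have h3 := (Finset.sum_eq_zero_iff.mp h0) v hv
  rw [Finsupp.smul_apply, smul_eq_mul] at h3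
  rcases Nat.mul_eq_zero.1 h3 with h4 | h4
  · exact (Finsupp.mem_support_iff.mp hv) h4
  · exact h1 h4

theorem isMor_trunc {n : ℕ} (m m' : Fin (n + 1) → ℕ) :
    IsMor (fun (w : Wd m) (w' : Wd m') => ∏ l, if ((w' l : ℕ) = (w l : ℕ)) then (1 : ℂ) else 0) := by
  refine ⟨id, fun l w' a => if ((w' l : ℕ) = (a : ℕ)) then (1 : ℂ) else 0,
    Function.surjective_id, ?_, rfl⟩
  intro i w w' h
  have := h i rfl
  simp only [this]

theorem trunc_X {n : ℕ} {m m' : Fin (n + 1) → ℕ} (v : Option κ × Wd m) (w0 : Wd m')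
    (h : ∀ l, (w0 l : ℕ) = (v.2 l : ℕ)) :
    xmap κ (fun (w : Wd m) (w' : Wd m') => ∏ l, if ((w' l : ℕ) = (w l : ℕ)) then (1 : ℂ) else 0)
      (X v) = X (v.1, w0) := by
  apply xmap_X_of
  · exact Finset.prod_eq_one fun l _ => if_pos (h l)
  · intro w' hw'
    obtain ⟨l, hl⟩ : ∃ l, w' l ≠ w0 l := by
      by_contra hcon
      push Not at hcon
      exact hw' (funext hcon)
    refine Finset.prod_eq_zero (Finset.mem_univ l) (if_neg ?_)
    intro h1
    apply hl
    ext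
    rw [h1, h l]

/-- TARGET 2 -/
theorem xdetection (𝒥 𝒥' : XSys κ) (c : ℕ) (hmin : ∀ {n : ℕ} (m : Fin (n + 1) → ℕ), XMinors c (𝒥.I m))
    (h : ∀ n : ℕ, 𝒥'.I (cdim c (n + 1)) ≤ 𝒥.I (cdim c (n + 1))) {n : ℕ} (m : Fin (n + 1) → ℕ) :
    𝒥'.I m ≤ 𝒥.I m := by
  classical
  by_contra hne
  obtain ⟨lam, f, hf', hf, hhom, hD⟩ := exists_xhw (𝒥.I m) (𝒥'.I m) (𝒥'.stable m) hne
  have hlam : ∀ (l : Fin (n + 1)) (a : Fin (m l)), c + 1 ≤ (a : ℕ) →
      lam (Sum.inr ⟨l, a⟩) = 0 := by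
    intro l a ha
    by_contra h0
    exact hf (xlevel l (fun a b f hf => (𝒥.stable m).D_mem l a b hf) (c + 1)
      (fun v a => hmin m l v a) hhom (fun a b hab => hD l a b hab) a ha h0)
  have hvars : ∀ v ∈ f.vars, ∀ l, (v.2 l : ℕ) < c + 1 := by
    intro v hv l
    rw [mem_vars_iff_mem_support] at hv
    obtain ⟨d, hd, hvd⟩ := hv
    by_contra hge
    push Not at hge
    have h0 := hlam l (v.2 l) hge
    rw [← hhom (mem_support_iff.mp hd)] at h0
    exact xwt_ne_zero d v hvd l h0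
  set A := fun (w : Wd m) (w' : Wd (cdim c (n + 1))) =>
    ∏ l, if ((w' l : ℕ) = (w l : ℕ)) then (1 : ℂ) else 0 with hA
  set B := fun (w : Wd (cdim c (n + 1))) (w' : Wd m) =>
    ∏ l, if ((w' l : ℕ) = (w l : ℕ)) then (1 : ℂ) else 0 with hB
  have h3 : xmap κ B (xmap κ A f) ∈ 𝒥.I m :=
    𝒥.map _ _ B (isMor_trunc _ _) _ (h n (𝒥'.map _ _ A (isMor_trunc _ _) f hf'))
  apply hf
  have h4 : xmap κ B (xmap κ A f) = f := by
    have h5 : ((xmap κ B : XP κ (cdim c (n + 1)) →ₐ[ℂ] XP κ m).toRingHom.comp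
        (xmap κ A : XP κ m →ₐ[ℂ] XP κ (cdim c (n + 1))).toRingHom) f =
          (RingHom.id (XP κ m)) f := by
      apply hom_congr_vars
      · ext r
        simp [xmap, MvPolynomial.algebraMap_eq]
      · intro v hv _
        have hv2 := hvars v hv
        simp only [AlgHom.toRingHom_eq_coe, RingHom.comp_apply, RingHom.coe_coe, RingHom.id_apply]
        rw [hA, trunc_X v (fun i => (⟨(v.2 i : ℕ), hv2 i⟩ : Fin (c + 1))) (fun _ => rfl), hB]
        exact trunc_X (m := cdim c (n + 1)) (m' := m)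
          (v.1, fun i => (⟨(v.2 i : ℕ), hv2 i⟩ : Fin (c + 1))) v.2 (fun _ => rfl)
      · rfl
    simpa using h5
  rwa [h4] at h3

end Pool.Agent.Helper929_delta
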