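import Mathlib

/-
A consequence of the Lasker-Noether theorem.
-/

namespace Pool.Agent.Helper929_delta

/-- TARGET -/
theorem inf_pow_le_of_prod_le_radical {R : Type*} [CommRing R] [IsNoetherianRing R] {ι : Type*} [Fintype ι]
    (K : ι → Ideal R) (I : Ideal R) (h : ∏ i, K i ≤ I.radical) : ∃ M : ℕ, (⨅ i, K i ^ M) ≤ I := by
  classical
  obtain ⟨s, hs, hprim⟩ := Submodule.isLasker R R I
  have key : ∀ Q ∈ s, ∃ e : ℕ, ∃ i : ι, K i ^ e ≤ Q := by
    intro Q hQ
    have hQp : (Q : Ideal R).IsPrimary := hprim hQ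
    have hIQ : I ≤ Q := by
      rw [← hs]
      exact Finset.inf_le hQ
    have hp : (Ideal.radical Q).IsPrime := Ideal.isPrime_radical hQp
    have h1 : ∏ i, K i ≤ Ideal.radical Q := h.trans (Ideal.radical_mono hIQ)
    obtain ⟨i, -, hi⟩ := hp.prod_le.mp h1
    obtain ⟨e, he⟩ := Ideal.exists_pow_le_of_le_radical_of_fg hi (IsNoetherian.noetherian (K i))
    exact ⟨e, i, he⟩
  choose! e he using key
  refine ⟨s.sup e, ?_⟩
  rw [← hs]
  apply Finset.le_inf
  intro Q hQ
  obtain ⟨i, hi⟩ := he Q hQ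
  refine (iInf_le _ i).trans ((Ideal.pow_le_pow_right (Finset.le_sup hQ)).trans hi)

end Pool.Agent.Helper929_delta
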