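import Pool.Agent.Helper929_delta.X12
import Pool.Agent.Helper929_delta.X9

/-
The condition Few for systems (Nullstellensatz and merging).
-/

namespace Pool.Agent.Helper929_delta

open MvPolynomial

section Few

variable {κ : Type} {n n' : ℕ} {m : Fin n → ℕ} {m' : Fin n' → ℕ}

theorem few_mix_mix (S : Finset (Fin n)) (p q : Wd m) : mix S (mix S p q) (mix S q p) = p := by
  funext i
  unfold mix
  by_cases h : i ∈ S
  · rw [if_pos h, if_pos h]
  · rw [if_neg h, if_neg h]

/-- exchange of two words in the columns of `S` -/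
def fewSwap (S : Finset (Fin n)) : Equiv.Perm (Wd m × Wd m) :=
  Function.Involutive.toPerm (fun x => (mix S x.2 x.1, mix S x.1 x.2)) (by
    rintro ⟨p, q⟩
    exact Prod.ext (few_mix_mix S p q) (few_mix_mix S q p))

theorem fewSwap_apply (S : Finset (Fin n)) (p q : Wd m) :
    fewSwap S (p, q) = (mix S q p, mix S p q) := rfl

theorem xmap_swap (φ : Fin n' → Fin n) (B : ∀ l : Fin n, Wd m' → Fin (m l) → ℂ)
    (hB : ∀ (l : Fin n) (w w' : Wd m'), (∀ j, φ j = l → w j = w' j) → B l w = B l w')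
    (S : Finset (Fin n)) (S' : Finset (Fin n')) (hS : ∀ j, j ∈ S' ↔ φ j ∈ S)
    (f : XP κ m) (hf : f ∈ swapIdeal κ m S) :
    xmap κ (fun w w' => ∏ l, B l w' (w l)) f ∈ swapIdeal κ m' S' := by
  suffices h : swapIdeal κ m S ≤ Ideal.comap (xmap κ (fun w w' => ∏ l, B l w' (w l)))
      (swapIdeal κ m' S') from h hf
  unfold swapIdeal
  rw [Ideal.span_le]
  rintro _ ⟨k, k', p, q, rfl⟩
  rw [SetLike.mem_coe, Ideal.mem_comap, map_sub, map_mul, map_mul]
  simp only [xmap, aeval_X]
  have e1 : (∑ w' : Wd m', C (∏ l, B l w' (p l)) * (X (k, w') : XP κ m')) *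
      (∑ w' : Wd m', C (∏ l, B l w' (q l)) * (X (k', w') : XP κ m')) =
      ∑ x : Wd m' × Wd m', C (∏ l, (B l x.1 (p l) * B l x.2 (q l))) *
        ((X (k, x.1) : XP κ m') * X (k', x.2)) := by
    rw [Finset.sum_mul_sum, ← Fintype.sum_prod_type']
    refine Finset.sum_congr rfl fun x _ => ?_
    rw [Finset.prod_mul_distrib, C_mul]
    ring
  have e2 : (∑ w' : Wd m', C (∏ l, B l w' (mix S q p l)) * (X (k, w') : XP κ m')) *
      (∑ w' : Wd m', C (∏ l, B l w' (mix S p q l)) * (X (k', w') : XP κ m')) =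
      ∑ x : Wd m' × Wd m', C (∏ l, (B l x.1 (p l) * B l x.2 (q l))) *
        ((X (k, mix S' x.2 x.1) : XP κ m') * X (k', mix S' x.1 x.2)) := by
    rw [Finset.sum_mul_sum, ← Fintype.sum_prod_type', ← Equiv.sum_comp (fewSwap (m := m') S')]
    refine Finset.sum_congr rfl fun x _ => ?_
    obtain ⟨u, v⟩ := x
    rw [fewSwap_apply]
    simp only
    have e3 : ∏ l, (B l u (p l) * B l v (q l)) =
        (∏ l, B l (mix S' v u) (mix S q p l)) * ∏ l, B l (mix S' u v) (mix S p q l) := by
      rw [← Finset.prod_mul_distrib]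
      refine Finset.prod_congr rfl fun l _ => ?_
      by_cases hl : l ∈ S
      · have h1 : B l (mix S' v u) = B l v := hB l _ _ fun j hj => by
          unfold mix
          rw [if_pos ((hS j).2 (hj ▸ hl))]
        have h2 : B l (mix S' u v) = B l u := hB l _ _ fun j hj => by
          unfold mix
          rw [if_pos ((hS j).2 (hj ▸ hl))]
        have h3 : mix S q p l = q l := by unfold mix; rw [if_pos hl]
        have h4 : mix S p q l = p l := by unfold mix; rw [if_pos hl]
        rw [h1, h2, h3, h4, mul_comm]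
      · have h1 : B l (mix S' v u) = B l u := hB l _ _ fun j hj => by
          unfold mix
          rw [if_neg (fun h => hl (hj ▸ (hS j).1 h))]
        have h2 : B l (mix S' u v) = B l v := hB l _ _ fun j hj => by
          unfold mix
          rw [if_neg (fun h => hl (hj ▸ (hS j).1 h))]
        have h3 : mix S q p l = p l := by unfold mix; rw [if_neg hl]
        have h4 : mix S p q l = q l := by unfold mix; rw [if_neg hl]
        rw [h1, h2, h3, h4]
    rw [e3, C_mul]
    ring
  rw [e1, e2, ← Finset.sum_sub_distrib]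
  refine Ideal.sum_mem _ fun x _ => ?_
  rw [← mul_sub]
  exact Ideal.mul_mem_left _ _ (Ideal.subset_span ⟨k, k', x.1, x.2, rfl⟩)

/-- the action on one column is a map of the system -/
theorem few_colMap (l : Fin n) (A : Matrix (Fin (m l)) (Fin (m l)) ℂ) :
    (colMap l A : XP κ m →ₐ[ℂ] XP κ m) = xmap κ (fun w w' => ∏ i,
      (Function.update (fun i => (1 : Matrix (Fin (m i)) (Fin (m i)) ℂ)) l A i) (w' i) (w i)) := by
  classical
  apply MvPolynomial.algHom_ext
  rintro ⟨k, w⟩
  simp only [colMap, xmap, aeval_X]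
  refine Fintype.sum_of_injective (fun a => Function.update w l a) (Function.update_injective w l)
    _ _ ?_ ?_
  · intro w' hw'
    obtain ⟨i, hil, hi⟩ : ∃ i, i ≠ l ∧ w' i ≠ w i := by
      by_contra hcon
      push Not at hcon
      apply hw'
      refine ⟨w' l, ?_⟩
      funext i
      by_cases h : i = l
      · subst h
        simp
      · simp only [Function.update_of_ne h]
        exact (hcon i h).symm
    rw [Finset.prod_eq_zero (Finset.mem_univ i), C_0, zero_mul]
    rw [Function.update_of_ne hil]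
    exact Matrix.one_apply_ne hi
  · intro a
    congr 2
    rw [Finset.prod_eq_single l]
    · rw [Function.update_self, Function.update_self]
    · intro i _ hi
      rw [Function.update_of_ne hi, Function.update_of_ne hi, Matrix.one_apply_eq]
    · intro h
      exact absurd (Finset.mem_univ l) h

theorem few_colMap_mem (l : Fin n) (A : Matrix (Fin (m l)) (Fin (m l)) ℂ) (S : Finset (Fin n))
    (f : XP κ m) (hf : f ∈ swapIdeal κ m S) : colMap l A f ∈ swapIdeal κ m S := by
  classical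
  rw [few_colMap]
  refine xmap_swap id (fun i w' a => (Function.update (fun i => (1 : Matrix (Fin (m i)) (Fin (m i)) ℂ))
    l A i) (w' i) a) ?_ S S (fun j => Iff.rfl) f hf
  intro i w w' h
  funext a
  rw [h i rfl]

theorem few_kindMap_mem (s : Option κ → ℂ) (S : Finset (Fin n))
    (f : XP κ m) (hf : f ∈ swapIdeal κ m S) : kindMap s f ∈ swapIdeal κ m S := by
  suffices h : swapIdeal κ m S ≤ Ideal.comap (kindMap s) (swapIdeal κ m S) from h hf
  conv_lhs => unfold swapIdeal
  rw [Ideal.span_le]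
  rintro _ ⟨k, k', p, q, rfl⟩
  rw [SetLike.mem_coe, Ideal.mem_comap, map_sub, map_mul, map_mul]
  simp only [kindMap, aeval_X]
  have e : C (s k) * (X (k, p) : XP κ m) * (C (s k') * X (k', q)) -
      C (s k) * X (k, mix S q p) * (C (s k') * X (k', mix S p q)) =
      C (s k) * C (s k') * (X (k, p) * X (k', q) - X (k, mix S q p) * X (k', mix S p q)) := by ring
  rw [e]
  exact Ideal.mul_mem_left _ _ (Ideal.subset_span ⟨k, k', p, q, rfl⟩)

theorem few_pow_mem {R R' : Type*} [CommRing R] [CommRing R'] (φ : R →+* R') (K : Ideal R)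
    (K' : Ideal R') (h : ∀ f ∈ K, φ f ∈ K') (M : ℕ) (f : R) (hf : f ∈ K ^ M) : φ f ∈ K' ^ M := by
  have h1 : Ideal.map φ K ≤ K' := Ideal.map_le_iff_le_comap.2 h
  have h2 : φ f ∈ Ideal.map φ (K ^ M) := Ideal.mem_map_of_mem φ hf
  rw [Ideal.map_pow] at h2
  exact Ideal.pow_right_mono h1 M h2

theorem few_iInf_mem {R R' : Type*} [CommRing R] [CommRing R'] {ι : Type*} (φ : R →+* R')
    (K : ι → Ideal R) (K' : ι → Ideal R') (h : ∀ i, ∀ f ∈ K i, φ f ∈ K' i) (M : ℕ) (f : R)
    (hf : f ∈ ⨅ i, K i ^ M) : φ f ∈ ⨅ i, K' i ^ M := by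
  rw [Ideal.mem_iInf] at hf ⊢
  exact fun i => few_pow_mem φ (K i) (K' i) (h i) M f (hf i)

theorem few_stable_iInf {ι : Type*} (S : ι → Finset (Fin n)) (M : ℕ) :
    XStable (⨅ i, swapIdeal κ m (S i) ^ M) :=
  ⟨fun l A f hf => few_iInf_mem (colMap l A : XP κ m →ₐ[ℂ] XP κ m).toRingHom _ _
    (fun i f hf => few_colMap_mem l A (S i) f hf) M f hf,
  fun s f hf => few_iInf_mem (kindMap s : XP κ m →ₐ[ℂ] XP κ m).toRingHom _ _
    (fun i f hf => few_kindMap_mem s (S i) f hf) M f hf⟩

theorem few_stable_sup {I J : Ideal (XP κ m)} (hI : XStable I) (hJ : XStable J) :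
    XStable (I ⊔ J) := by
  constructor
  · intro l A f hf
    obtain ⟨a, ha, b, hb, rfl⟩ := Submodule.mem_sup.1 hf
    rw [map_add]
    exact Submodule.add_mem_sup (hI.1 l A a ha) (hJ.1 l A b hb)
  · intro s f hf
    obtain ⟨a, ha, b, hb, rfl⟩ := Submodule.mem_sup.1 hf
    rw [map_add]
    exact Submodule.add_mem_sup (hI.2 s a ha) (hJ.2 s b hb)

/-- the truncation matrices -/
def fewTr (m m' : Fin n → ℕ) (l : Fin n) (w' : Wd m') (a : Fin (m l)) : ℂ :=
  if (w' l : ℕ) = (a : ℕ) then 1 else 0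

theorem few_trunc {m m' : Fin n → ℕ} (k : Option κ) (w : Wd m) (hw : ∀ l, (w l : ℕ) < m' l) :
    xmap κ (fun (w : Wd m) (w' : Wd m') => ∏ l, fewTr m m' l w' (w l)) (X (k, w)) =
      (X (k, fun l => ⟨(w l : ℕ), hw l⟩) : XP κ m') := by
  classical
  simp only [xmap, aeval_X]
  rw [Finset.sum_eq_single (fun l => (⟨(w l : ℕ), hw l⟩ : Fin (m' l)))]
  · rw [Finset.prod_eq_one, C_1, one_mul]
    intro l _
    unfold fewTr
    rw [if_pos rfl]
  · intro w' _ hw'
    obtain ⟨i, hi⟩ : ∃ i, (w' i : ℕ) ≠ (w i : ℕ) := by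
      by_contra hcon
      push Not at hcon
      exact hw' (funext fun i => Fin.ext (hcon i))
    rw [Finset.prod_eq_zero (Finset.mem_univ i), C_0, zero_mul]
    unfold fewTr
    rw [if_neg hi]
  · intro h
    exact absurd (Finset.mem_univ _) h

theorem few_isMor {m m' : Fin (n + 1) → ℕ} :
    IsMor (fun (w : Wd m) (w' : Wd m') => ∏ l, fewTr m m' l w' (w l)) := by
  refine ⟨id, fewTr m m', Function.surjective_id, fun l w w' h => ?_, rfl⟩
  funext a
  unfold fewTr
  rw [h l rfl]

theorem few_weight [DecidableEq κ] (d : (Option κ × Wd m) →₀ ℕ) (v : Option κ × Wd m)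
    (hv : v ∈ d.support) (l : Fin n) :
    Finsupp.weight xwt d (Sum.inr ⟨l, v.2 l⟩) ≠ 0 := by
  classical
  rw [Finsupp.weight_apply, Finsupp.sum, Finsupp.finsetSum_apply]
  intro h0
  have h1 := (Finset.sum_eq_zero_iff.1 h0) v hv
  rw [Finsupp.smul_apply, smul_eq_mul, mul_eq_zero] at h1
  rcases h1 with h1 | h1
  · exact (Finsupp.mem_support_iff.1 hv) h1
  · unfold xwt at h1
    rw [Finsupp.add_apply, Nat.add_eq_zero_iff, Finsupp.finsetSum_apply] at h1
    have h2 := (Finset.sum_eq_zero_iff.1 h1.2) l (Finset.mem_univ l)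
    rw [Finsupp.single_eq_same] at h2
    exact one_ne_zero h2

theorem few_step1 {κ : Type} [Fintype κ] [DecidableEq κ] (𝒥 : XSys κ) (J : DeltaIdeal)
    (hJ : ∀ {n : ℕ} (m : Fin (n + 1) → ℕ) (f : Pol m), f ∈ J.I m → emb κ f ∈ 𝒥.I m)
    (hsq : ∀ {n : ℕ} (m : Fin (n + 1) → ℕ), Squares (𝒥.I m)) (c s : ℕ) (hs : J.FewFactors s) :
    ∏ i : Fin (s + 1), swapIdeal κ (cdim c (s + 2)) {i.castSucc} ≤
      (𝒥.I (n := s + 1) (cdim c (s + 2))).radical := by
  classical
  rw [← MvPolynomial.vanishingIdeal_zeroLocus_eq_radical (K := ℂ)]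
  intro f hf Y hY
  rw [mem_zeroLocus_iff] at hY
  have h0 : ∀ (r : κ) (w : Wd (cdim c (s + 2))), Y (some r, w) = 0 := by
    intro r w
    have h1 := hY _ (hsq (n := s + 1) (cdim c (s + 2)) r w w)
    rw [map_mul, aeval_X] at h1
    exact mul_self_eq_zero.1 h1
  have hT : IsZero' (J.I (n := s + 1) (cdim c (s + 2))) (fun w => Y (none, w)) := by
    intro g hg
    have h1 := hY _ (hJ (n := s + 1) (cdim c (s + 2)) g hg)
    rw [emb, aeval_rename, aeval_eq_eval] at h1
    exact h1
  obtain ⟨l, hl, htriv⟩ := hs (n := s + 1) (cdim c (s + 2)) _ hT (Finset.univ.image Fin.castSucc) (by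
    rw [Finset.card_image_of_injective _ (Fin.castSucc_injective _), Finset.card_univ,
      Fintype.card_fin]
    omega)
  obtain ⟨i, -, rfl⟩ := Finset.mem_image.1 hl
  have hK : swapIdeal κ (cdim c (s + 2)) {i.castSucc} ≤
      RingHom.ker (aeval Y : XP κ (cdim c (s + 2)) →ₐ[ℂ] ℂ).toRingHom := by
    unfold swapIdeal
    rw [Ideal.span_le]
    rintro _ ⟨k, k', p, q, rfl⟩
    rw [SetLike.mem_coe, RingHom.mem_ker]
    change (aeval Y : XP κ (cdim c (s + 2)) →ₐ[ℂ] ℂ) _ = 0
    rw [map_sub, map_mul, map_mul, aeval_X, aeval_X, aeval_X, aeval_X]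
    rcases k with _ | r
    · rcases k' with _ | r'
      · have h1 := htriv p q
        have e1 : mix {i.castSucc} q p = Function.update p i.castSucc (q i.castSucc) := by
          funext j
          unfold mix
          by_cases hj : j = i.castSucc
          · subst hj
            rw [if_pos (Finset.mem_singleton_self _), Function.update_self]
          · rw [if_neg (fun h => hj (Finset.mem_singleton.1 h)), Function.update_of_ne hj]
        have e2 : mix {i.castSucc} p q = Function.update q i.castSucc (p i.castSucc) := by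
          funext j
          unfold mix
          by_cases hj : j = i.castSucc
          · subst hj
            rw [if_pos (Finset.mem_singleton_self _), Function.update_self]
          · rw [if_neg (fun h => hj (Finset.mem_singleton.1 h)), Function.update_of_ne hj]
        rw [e1, e2, sub_eq_zero]
        exact h1
      · rw [h0, h0, mul_zero, mul_zero, sub_zero]
    · rw [h0, h0, zero_mul, zero_mul, sub_zero]
  have h2 : f ∈ swapIdeal κ (cdim c (s + 2)) {i.castSucc} :=
    (Ideal.prod_le_inf.trans (Finset.inf_le (Finset.mem_univ i))) hf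
  exact hK h2

theorem few_step3 {κ : Type} [Fintype κ] [DecidableEq κ] (𝒥 : XSys κ) (c : ℕ)
    (hmin : ∀ {n : ℕ} (m : Fin (n + 1) → ℕ), XMinors c (𝒥.I m)) (s M : ℕ)
    (h0 : (⨅ i : Fin (s + 1), swapIdeal κ (cdim c (s + 2)) {i.castSucc} ^ M) ≤
      𝒥.I (n := s + 1) (cdim c (s + 2))) (m : Fin (s + 2) → ℕ) :
    (⨅ i : Fin (s + 1), swapIdeal κ m {i.castSucc} ^ M) ≤ 𝒥.I (n := s + 1) m := by
  classical
  by_contra hne
  have hst := 𝒥.stable (n := s + 1) m
  obtain ⟨lam, f, hf', hf, hhom, hD⟩ := exists_xhw (𝒥.I (n := s + 1) m)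
    (𝒥.I (n := s + 1) m ⊔ ⨅ i : Fin (s + 1), swapIdeal κ m {i.castSucc} ^ M)
    (few_stable_sup hst (few_stable_iInf (fun i : Fin (s + 1) => {i.castSucc}) M))
    (fun h => hne (le_sup_right.trans h))
  have hlam : ∀ (l : Fin (s + 2)) (a : Fin (m l)), c + 1 ≤ (a : ℕ) → lam (Sum.inr ⟨l, a⟩) = 0 := by
    intro l a ha
    by_contra h1
    exact hf (xlevel l (fun a b f hf => hst.D_mem l a b hf) (c + 1)
      (fun v a => hmin (n := s + 1) m l v a) hhom (fun a b hab => hD l a b hab) a ha h1)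
  have hvars : ∀ v ∈ f.vars, ∀ l, (v.2 l : ℕ) < cdim c (s + 2) l := by
    intro v hv l
    rw [mem_vars_iff_mem_support] at hv
    obtain ⟨d, hd, hvd⟩ := hv
    by_contra hge
    push Not at hge
    have h1 := hlam l (v.2 l) hge
    rw [← hhom (mem_support_iff.mp hd)] at h1
    exact few_weight d v hvd l h1
  obtain ⟨i, hi, g, hg, hig⟩ := Submodule.mem_sup.1 hf'
  set α : XP κ m →ₐ[ℂ] XP κ (cdim c (s + 2)) := xmap κ (fun (w : Wd m) (w' : Wd (cdim c (s + 2))) =>
    ∏ l, fewTr m (cdim c (s + 2)) l w' (w l)) with hα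
  set β : XP κ (cdim c (s + 2)) →ₐ[ℂ] XP κ m := xmap κ (fun (w : Wd (cdim c (s + 2))) (w' : Wd m) =>
    ∏ l, fewTr (cdim c (s + 2)) m l w' (w l)) with hβ
  have h4 : β (α f) = f := by
    have h5 : (β.toRingHom.comp α.toRingHom) f = (RingHom.id (XP κ m)) f := by
      apply hom_congr_vars
      · ext r
        simp [hα, hβ, xmap, MvPolynomial.algebraMap_eq]
      · rintro ⟨k, w⟩ hw _
        have hw2 := hvars _ hw
        simp only [AlgHom.toRingHom_eq_coe, RingHom.comp_apply, RingHom.coe_coe, RingHom.id_apply]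
        rw [hα, few_trunc k w hw2, hβ, few_trunc (m' := m) k (fun l => (⟨(w l : ℕ), hw2 l⟩ :
          Fin (cdim c (s + 2) l))) (fun l => (w l).2)]
      · rfl
    simpa using h5
  apply hf
  rw [← h4, ← hig, map_add, map_add]
  refine Ideal.add_mem _ ?_ ?_
  · exact 𝒥.map (n := s + 1) (n' := s + 1) _ _ _ few_isMor _
      (𝒥.map (n := s + 1) (n' := s + 1) _ _ _ few_isMor _ hi)
  · refine 𝒥.map (n := s + 1) (n' := s + 1) _ _ _ few_isMor _ (h0 ?_)
    refine few_iInf_mem α.toRingHom _ _ ?_ M g hg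
    intro i f hf
    refine xmap_swap id (fewTr m (cdim c (s + 2))) ?_ _ _ (fun j => Iff.rfl) f hf
    intro l w w' h
    funext a
    unfold fewTr
    rw [h l rfl]

theorem few_step4 {κ : Type} [Fintype κ] [DecidableEq κ] (𝒥 : XSys κ) (s M : ℕ)
    (h3 : ∀ m : Fin (s + 2) → ℕ, (⨅ i : Fin (s + 1), swapIdeal κ m {i.castSucc} ^ M) ≤
      𝒥.I (n := s + 1) m) {n : ℕ} (m : Fin (n + 1) → ℕ) : Few s M (𝒥.I m) := by
  classical
  intro S hne hdisj hout
  set φ : Fin (n + 1) → Fin (s + 2) := fun j =>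
    if h : ∃ i, j ∈ S i then h.choose.castSucc else Fin.last (s + 1) with hφ
  have hφ1 : ∀ (j : Fin (n + 1)) (i : Fin (s + 1)), φ j = i.castSucc ↔ j ∈ S i := by
    intro j i
    simp only [hφ]
    constructor
    · intro h
      by_cases h1 : ∃ i, j ∈ S i
      · rw [dif_pos h1] at h
        have h2 := h1.choose_spec
        rw [Fin.castSucc_injective _ h] at h2
        exact h2
      · rw [dif_neg h1] at h
        exact absurd h.symm (Fin.castSucc_lt_last i).ne
    · intro h
      have h1 : ∃ i, j ∈ S i := ⟨i, h⟩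
      rw [dif_pos h1]
      congr 1
      by_contra h2
      exact Finset.disjoint_left.1 (hdisj _ _ h2) h1.choose_spec h
  have hφs : Function.Surjective φ := by
    intro i
    refine Fin.lastCases ?_ (fun i => ?_) i
    · obtain ⟨l, hl⟩ := hout
      refine ⟨l, ?_⟩
      simp only [hφ]
      rw [dif_neg]
      rintro ⟨i, hi⟩
      exact hl i hi
    · obtain ⟨j, hj⟩ := hne i
      exact ⟨j, (hφ1 j i).2 hj⟩
  set m2 : Fin (s + 2) → ℕ := fun i => Fintype.card ((j : {j : Fin (n + 1) // φ j = i}) → Fin (m j.1))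
    with hm2
  set e : Wd m → Wd m2 := fun w i =>
    Fintype.equivFin ((j : {j : Fin (n + 1) // φ j = i}) → Fin (m j.1)) (fun j => w j.1) with he
  have heq : ∀ (w w' : Wd m) (i : Fin (s + 2)), e w i = e w' i ↔ ∀ j, φ j = i → w j = w' j := by
    intro w w' i
    simp only [he]
    rw [Equiv.apply_eq_iff_eq]
    constructor
    · intro h j hj
      exact congrFun h ⟨j, hj⟩
    · intro h
      funext j
      exact h j.1 j.2
  have hinj : Function.Injective e := by
    intro w w' h
    funext j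
    exact (heq w w' (φ j)).1 (congrFun h (φ j)) j rfl
  set B : ∀ l : Fin (s + 2), Wd m → Fin (m2 l) → ℂ := fun l w' a => if a = e w' l then 1 else 0
    with hB
  have hBw : ∀ (l : Fin (s + 2)) (w w' : Wd m), (∀ j, φ j = l → w j = w' j) → B l w = B l w' := by
    intro l w w' h
    funext a
    simp only [hB]
    rw [(heq w w' l).2 h]
  set β : Wd m2 → Wd m → ℂ := fun w w' => ∏ l, B l w' (w l) with hβ
  have hmor : IsMor (n := s + 1) β := ⟨φ, B, hφs, hBw, rfl⟩
  set ρ : XP κ m →ₐ[ℂ] XP κ m2 := rename (fun v : Option κ × Wd m => (v.1, e v.2)) with hρ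
  have hinv : (xmap κ β).comp ρ = AlgHom.id ℂ (XP κ m) := by
    apply MvPolynomial.algHom_ext
    rintro ⟨k, w⟩
    rw [AlgHom.comp_apply, hρ, rename_X, AlgHom.id_apply]
    simp only [xmap, aeval_X]
    rw [Finset.sum_eq_single w]
    · simp only [hβ]
      rw [Finset.prod_eq_one, C_1, one_mul]
      intro l _
      simp only [hB]
      rw [if_pos trivial]
    · intro w' _ hw'
      obtain ⟨l, hl⟩ : ∃ l, e w l ≠ e w' l := by
        by_contra hcon
        push Not at hcon
        exact hw' (hinj (funext hcon)).symm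
      simp only [hβ]
      rw [Finset.prod_eq_zero (Finset.mem_univ l), C_0, zero_mul]
      simp only [hB]
      rw [if_neg hl]
    · intro h
      exact absurd (Finset.mem_univ _) h
  have hmix : ∀ (i : Fin (s + 1)) (p q : Wd m), e (mix (S i) q p) =
      mix {i.castSucc} (e q) (e p) := by
    intro i p q
    funext l
    by_cases hl : l = i.castSucc
    · have h1 : mix {i.castSucc} (e q) (e p) l = e q l := by
        unfold mix
        rw [if_pos (Finset.mem_singleton.2 hl)]
      rw [h1, heq]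
      intro j hj
      unfold mix
      rw [if_pos ((hφ1 j i).1 (hj.trans hl))]
    · have h1 : mix {i.castSucc} (e q) (e p) l = e p l := by
        unfold mix
        rw [if_neg (fun h => hl (Finset.mem_singleton.1 h))]
      rw [h1, heq]
      intro j hj
      unfold mix
      rw [if_neg (fun h => hl (hj.symm.trans ((hφ1 j i).2 h)))]
  intro g hg
  have h1 : ρ g ∈ ⨅ i : Fin (s + 1), swapIdeal κ m2 {i.castSucc} ^ M := by
    refine few_iInf_mem ρ.toRingHom (fun i => swapIdeal κ m (S i)) _ ?_ M g hg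
    intro i f hf
    suffices h : swapIdeal κ m (S i) ≤ Ideal.comap ρ.toRingHom (swapIdeal κ m2 {i.castSucc}) from
      h hf
    conv_lhs => unfold swapIdeal
    rw [Ideal.span_le]
    rintro _ ⟨k, k', p, q, rfl⟩
    rw [SetLike.mem_coe, Ideal.mem_comap]
    change ρ _ ∈ _
    rw [map_sub, map_mul, map_mul, hρ, rename_X, rename_X, rename_X, rename_X, hmix, hmix]
    exact Ideal.subset_span ⟨k, k', e p, e q, rfl⟩
  have h2 := 𝒥.map (n := s + 1) m2 m β hmor _ (h3 m2 h1)
  have h4 := DFunLike.congr_fun hinv g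
  rw [AlgHom.comp_apply, AlgHom.id_apply] at h4
  rwa [h4] at h2

end Few

/-- TARGET -/
theorem XSys.few {κ : Type} [Fintype κ] [DecidableEq κ] (𝒥 : XSys κ) (J : DeltaIdeal)
    (hJ : ∀ {n : ℕ} (m : Fin (n + 1) → ℕ) (f : Pol m), f ∈ J.I m → emb κ f ∈ 𝒥.I m)
    (hsq : ∀ {n : ℕ} (m : Fin (n + 1) → ℕ), Squares (𝒥.I m)) (c : ℕ)
    (hmin : ∀ {n : ℕ} (m : Fin (n + 1) → ℕ), XMinors c (𝒥.I m)) (s : ℕ) (hs : J.FewFactors s) :
    ∃ M : ℕ, 1 ≤ M ∧ ∀ {n : ℕ} (m : Fin (n + 1) → ℕ), Few s M (𝒥.I m) := by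
  classical
  obtain ⟨M, hM⟩ := inf_pow_le_of_prod_le_radical
    (fun i : Fin (s + 1) => swapIdeal κ (cdim c (s + 2)) {i.castSucc})
    (𝒥.I (n := s + 1) (cdim c (s + 2))) (few_step1 𝒥 J hJ hsq c s hs)
  have hM' : (⨅ i : Fin (s + 1), swapIdeal κ (cdim c (s + 2)) {i.castSucc} ^ (M + 1)) ≤
      𝒥.I (n := s + 1) (cdim c (s + 2)) :=
    le_trans (iInf_mono fun i => Ideal.pow_le_pow_right (Nat.le_succ M)) hM
  exact ⟨M + 1, Nat.succ_le_succ (Nat.zero_le M), fun m => few_step4 𝒥 s (M + 1)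
    (fun m => few_step3 𝒥 c hmin s (M + 1) hM' m) m⟩

end Pool.Agent.Helper929_delta
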