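import Pool.Agent.Helper929_delta.XMor

/-
Minors.
-/

namespace Pool.Agent.Helper929_delta

open MvPolynomial

theorem xminors_aux {κ : Type} {n : ℕ} {m : Fin n → ℕ} (I : Ideal (XP κ m)) (I0 : Ideal (Pol m))
    (h0 : ∀ f ∈ I0, emb κ f ∈ I) (d : ℕ) (hmin : Minors d I0) (l : Fin n) :
    ∀ (r : ℕ) (v : Fin r → Option κ × Wd m) (a : Fin r → Fin (m l)) (S : Finset (Fin r)),
      (∀ j, (v j).1 ≠ none → j ∈ S) → d + 1 + S.card ≤ r →
      Matrix.det (Matrix.of fun i j =>
        (X ((v j).1, Function.update (v j).2 l (a i)) : XP κ m)) ∈ I := by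
  classical
  intro r
  induction r with
  | zero => intro v a S _ h; omega
  | succ r ih =>
    intro v a S hS hr
    rcases S.eq_empty_or_nonempty with h | ⟨j0, hj0⟩
    · subst h
      have hn : ∀ j, (v j).1 = none := by
        intro j
        by_contra h
        exact absurd (hS j h) (Finset.notMem_empty j)
      by_cases hrd : r = d
      · subst hrd
        have h1 := h0 _ (hmin l (fun j => (v j).2) a)
        rw [AlgHom.map_det] at h1
        convert h1 using 2
        refine Matrix.ext fun i j => ?_
        simp only [Matrix.of_apply, AlgHom.mapMatrix_apply, Matrix.map_apply, emb, rename_X, hn j]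
      · rw [Matrix.det_succ_column _ 0]
        refine I.sum_mem fun i _ => I.mul_mem_left _ ?_
        refine ih (fun j => v ((0 : Fin (r + 1)).succAbove j)) (fun i' => a (i.succAbove i')) ∅
          (fun j h => absurd (hn _) h) ?_
        simp at hr ⊢
        omega
    · rw [Matrix.det_succ_column _ j0]
      refine I.sum_mem fun i _ => I.mul_mem_left _ ?_
      refine ih (fun j => v (j0.succAbove j)) (fun i' => a (i.succAbove i'))
        (Finset.univ.filter fun j => j0.succAbove j ∈ S) ?_ ?_
      · intro j hj
        exact Finset.mem_filter.2 ⟨Finset.mem_univ _, hS _ hj⟩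
      · have h1 : ((Finset.univ.filter fun j => j0.succAbove j ∈ S).image j0.succAbove) ⊆
            S.erase j0 := by
          intro x hx
          obtain ⟨y, hy, rfl⟩ := Finset.mem_image.1 hx
          exact Finset.mem_erase.2 ⟨Fin.succAbove_ne j0 y, (Finset.mem_filter.1 hy).2⟩
        have h2 := Finset.card_le_card h1
        rw [Finset.card_image_of_injective _ Fin.succAbove_right_injective,
          Finset.card_erase_of_mem hj0] at h2
        have h3 : 0 < S.card := Finset.card_pos.2 ⟨j0, hj0⟩
        omega

/-- TARGET 1 -/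
theorem xminors {κ : Type} [Fintype κ] [DecidableEq κ] {n : ℕ} {m : Fin n → ℕ} (I : Ideal (XP κ m))
    (hsq : Squares I) (I0 : Ideal (Pol m)) (h0 : ∀ f ∈ I0, emb κ f ∈ I) (d : ℕ) (hmin : Minors d I0)
    (c : ℕ) (hc : d + Fintype.card κ ≤ c + 1) : XMinors c I := by
  classical
  intro l v a
  by_cases hex : ∃ j1 j2 : Fin (c + 2), j1 ≠ j2 ∧ ∃ r : κ, (v j1).1 = some r ∧ (v j2).1 = some r
  · obtain ⟨j1, j2, hne, r, h1, h2⟩ := hex
    rw [Matrix.det_apply]
    refine I.sum_mem fun σ _ => ?_
    rw [Units.smul_def, zsmul_eq_mul]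
    refine I.mul_mem_left _ ?_
    rw [← Finset.mul_prod_erase Finset.univ _ (Finset.mem_univ j1),
      ← Finset.mul_prod_erase (Finset.univ.erase j1) _
        (Finset.mem_erase.2 ⟨hne.symm, Finset.mem_univ j2⟩), ← mul_assoc]
    refine I.mul_mem_right _ ?_
    simp only [Matrix.of_apply]
    rw [h1, h2]
    exact hsq r _ _
  · push Not at hex
    refine xminors_aux I I0 h0 d hmin l (c + 2) v a
      (Finset.univ.filter fun j => (v j).1 ≠ none) (fun j hj =>
        Finset.mem_filter.2 ⟨Finset.mem_univ _, hj⟩) ?_
    have h1 : (Finset.univ.filter fun j => (v j).1 ≠ none).card ≤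
        ((Finset.univ : Finset (Option κ)).erase none).card := by
      refine Finset.card_le_card_of_injOn (fun j => (v j).1) ?_ ?_
      · intro j hj
        have := (Finset.mem_filter.1 (Finset.mem_coe.1 hj)).2
        exact Finset.mem_coe.2 (Finset.mem_erase.2 ⟨this, Finset.mem_univ _⟩)
      · intro j hj j' hj' he
        by_contra hne
        obtain ⟨r, hr⟩ := Option.ne_none_iff_exists'.1 (Finset.mem_filter.1 (Finset.mem_coe.1 hj)).2
        exact hex j j' hne r hr (by rw [← hr]; exact he.symm)
    rw [Finset.card_erase_of_mem (Finset.mem_univ _), Finset.card_univ, Fintype.card_option] at h1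
    omega

/-! ### the ideal of the polynomials vanishing under the maps of rank at most `d` -/

theorem minors_of_level_comp {n : ℕ} {m : Fin n → ℕ} (A A' : ∀ i, Matrix (Fin (m i)) (Fin (m i)) ℂ)
    (f : Pol m) : (mapLin A (mapLin A' f : Pol m) : Pol m) = mapLin (fun i => A i * A' i) f := by
  classical
  have key : ((mapLin A : Pol m →ₐ[ℂ] Pol m).comp (mapLin A' : Pol m →ₐ[ℂ] Pol m)) =
      mapLin (fun i => A i * A' i) := by
    apply MvPolynomial.algHom_ext
    intro w
    simp only [AlgHom.comp_apply, mapLin, aeval_X, map_sum, map_mul, algHom_C,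
      MvPolynomial.algebraMap_eq]
    simp only [Finset.mul_sum, ← mul_assoc]
    rw [Finset.sum_comm]
    refine Finset.sum_congr rfl fun w'' _ => ?_
    rw [← Finset.sum_mul]
    congr 1
    simp only [Matrix.mul_apply]
    rw [Finset.prod_univ_sum, Fintype.piFinset_univ]
    simp only [map_sum, map_prod, ← Finset.prod_mul_distrib, map_mul]
    refine Finset.sum_congr rfl fun w' _ => Finset.prod_congr rfl fun i _ => ?_
    ring
  exact congrArg (fun φ : Pol m →ₐ[ℂ] Pol m => φ f) key

/-- the ideal of the polynomials which vanish under the maps with rank at most `d` in column `l` -/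
noncomputable def lowIdeal {n : ℕ} (m : Fin n → ℕ) (l : Fin n) (d : ℕ) : Ideal (Pol m) where
  carrier := {f | ∀ (A : ∀ i, Matrix (Fin (m i)) (Fin (m i)) ℂ)
    (P : Matrix (Fin (m l)) (Fin d) ℂ) (Q : Matrix (Fin d) (Fin (m l)) ℂ), A l = P * Q →
      (mapLin A f : Pol m) = 0}
  add_mem' := by
    intro f g hf hg A P Q h
    rw [map_add, hf A P Q h, hg A P Q h, add_zero]
  zero_mem' := by
    intro A P Q h
    rw [map_zero]
  smul_mem' := by
    intro c f hf A P Q h
    rw [smul_eq_mul, map_mul, hf A P Q h, mul_zero]

theorem stable_lowIdeal {n : ℕ} (m : Fin n → ℕ) (l : Fin n) (d : ℕ) : Stable (lowIdeal m l d) := by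
  intro A f hf A' P Q h
  rw [minors_of_level_comp]
  refine hf (fun i => A' i * A i) P (Q * A l) ?_
  show A' l * A l = P * (Q * A l)
  rw [h, Matrix.mul_assoc]

theorem torus_weight {n : ℕ} {m : Fin n → ℕ} (s : (Σ i, Fin (m i)) → ℂ)
    (lam : (Σ i, Fin (m i)) →₀ ℕ) (f : Pol m) (hf : IsWeightedHomogeneous wt f lam) :
    (mapLin (fun i => Matrix.diagonal (fun a => s ⟨i, a⟩)) f : Pol m) =
      C (lam.prod fun t k => s t ^ k) * f := by
  classical
  rw [← torus_eq_mapLin, ← eval_theta]
  have h1 : Theta (wt (m := m)) f = monomial lam f := by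
    conv_lhs => rw [f.as_sum]
    rw [map_sum]
    conv_rhs => rw [f.as_sum, map_sum]
    refine Finset.sum_congr rfl fun u hu => ?_
    rw [theta_monomial, hf (mem_support_iff.1 hu)]
  rw [h1, eval_monomial, mul_comm]
  congr 1
  simp [Finsupp.prod, MvPolynomial.algebraMap_eq]

theorem minors_lowIdeal {n : ℕ} (m : Fin n → ℕ) (l : Fin n) (d : ℕ)
    (w : Fin (d + 1) → Wd m) (a : Fin (d + 1) → Fin (m l)) :
    Matrix.det (Matrix.of fun i j => (X (Function.update (w j) l (a i)) : Pol m)) ∈
      lowIdeal m l d := by
  classical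
  intro A P Q h
  rw [AlgHom.map_det]
  set N1 : Matrix (Fin (d + 1)) (Fin (d + 1)) (Pol m) := Matrix.of fun i k =>
    if hk : (k : ℕ) < d then C (Q ⟨k, hk⟩ (a i)) else 0 with hN1
  set N2 : Matrix (Fin (d + 1)) (Fin (d + 1)) (Pol m) := Matrix.of fun k j =>
    if hk : (k : ℕ) < d then ∑ w' : Wd m,
      C (P (w' l) ⟨k, hk⟩ * ∏ t ∈ Finset.univ.erase l, A t (w' t) (w j t)) * X w' else 0 with hN2
  have e : (mapLin A : Pol m →ₐ[ℂ] Pol m).mapMatrix
      (Matrix.of fun i j => (X (Function.update (w j) l (a i)) : Pol m)) = N1 * N2 := by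
    refine Matrix.ext fun i j => ?_
    rw [AlgHom.mapMatrix_apply, Matrix.map_apply, Matrix.of_apply, mapLin, aeval_X,
      Matrix.mul_apply, Fin.sum_univ_castSucc]
    have hlast : N1 i (Fin.last d) = 0 := by
      rw [hN1, Matrix.of_apply, dif_neg (by simp)]
    rw [hlast, zero_mul, add_zero]
    have h2 : ∀ k : Fin d, N1 i k.castSucc * N2 k.castSucc j = ∑ w' : Wd m,
        C (Q k (a i) * (P (w' l) k * ∏ t ∈ Finset.univ.erase l, A t (w' t) (w j t))) * X w' := by
      intro k
      have hk : ((k.castSucc : Fin (d + 1)) : ℕ) < d := by simp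
      rw [hN1, hN2, Matrix.of_apply, Matrix.of_apply, dif_pos hk, dif_pos hk, Finset.mul_sum]
      refine Finset.sum_congr rfl fun w' _ => ?_
      rw [← mul_assoc, ← C_mul]
      rfl
    simp only [h2]
    rw [Finset.sum_comm]
    refine Finset.sum_congr rfl fun w' _ => ?_
    rw [← Finset.sum_mul, ← map_sum (C : ℂ →+* Pol m)]
    congr 2
    rw [← Finset.mul_prod_erase Finset.univ _ (Finset.mem_univ l), h, Matrix.mul_apply,
      Function.update_self, Finset.sum_mul]
    refine Finset.sum_congr rfl fun k _ => ?_
    have h3 : ∏ t ∈ Finset.univ.erase l, A t (w' t) (Function.update (w j) l (a i) t) =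
        ∏ t ∈ Finset.univ.erase l, A t (w' t) (w j t) := by
      refine Finset.prod_congr rfl fun t ht => ?_
      rw [Function.update_of_ne (Finset.ne_of_mem_erase ht)]
    rw [h3]
    ring
  rw [e, Matrix.det_mul]
  have hd : N1.det = 0 := by
    refine Matrix.det_eq_zero_of_column_eq_zero (Fin.last d) fun i => ?_
    rw [hN1, Matrix.of_apply, dif_neg (by simp)]
  rw [hd, zero_mul]

/-- TARGET 2 -/
theorem minors_of_level (J : DeltaIdeal) (d : ℕ) (hJ : J.LevelLE d) {n : ℕ} (m : Fin (n + 1) → ℕ) :
    Minors d (J.I m) := by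
  classical
  intro l w a
  by_contra hcon
  have hne : ¬ lowIdeal m l d ≤ J.I m := fun h => hcon (h (minors_lowIdeal m l d w a))
  obtain ⟨lam, f, hf', hf, hhom, hD, -⟩ := exists_hw (J.I m) _ (stable_lowIdeal m l d) hne
  apply hf
  refine hJ m lam f hhom hD ⟨l, ?_⟩
  by_contra hno
  push Not at hno
  apply hf
  have h1 := torus_weight (fun t : Σ i, Fin (m i) =>
    if t.1 = l then (if (t.2 : ℕ) < d then (1:ℂ) else 0) else 1) lam f hhom
  have h2 : (lam.prod fun t k => (if t.1 = l then (if (t.2 : ℕ) < d then (1:ℂ) else 0) else 1) ^ k)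
      = 1 := by
    refine Finset.prod_eq_one fun t ht => ?_
    obtain ⟨i, b⟩ := t
    dsimp only
    by_cases hi : i = l
    · subst hi
      rw [if_pos rfl]
      by_cases hb : (b : ℕ) < d
      · rw [if_pos hb, one_pow]
      · exact absurd (hno b (not_lt.1 hb)) (Finsupp.mem_support_iff.1 ht)
    · rw [if_neg hi, one_pow]
  rw [h2, C_1, one_mul] at h1
  have h3 := hf' (fun i => Matrix.diagonal (fun b : Fin (m i) =>
    if i = l then (if (b : ℕ) < d then (1:ℂ) else 0) else 1))
    (Matrix.of fun (b : Fin (m l)) (k : Fin d) => if (b : ℕ) = k then (1:ℂ) else 0)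
    (Matrix.of fun (k : Fin d) (b : Fin (m l)) => if (b : ℕ) = k then (1:ℂ) else 0) (by
      ext x y
      rw [Matrix.mul_apply, Matrix.diagonal_apply]
      simp only [Matrix.of_apply, if_true]
      by_cases hx : (x : ℕ) < d
      · rw [Finset.sum_eq_single (⟨x, hx⟩ : Fin d)]
        · simp only [if_true, one_mul]
          by_cases hxy : x = y
          · subst hxy
            simp [hx]
          · rw [if_neg hxy, if_neg]
            intro h
            exact hxy (Fin.ext h.symm)
        · intro k _ hk
          rw [if_neg, zero_mul]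
          intro h
          exact hk (Fin.ext h.symm)
        · simp
      · rw [Finset.sum_eq_zero]
        · simp [hx]
        · intro k _
          rw [if_neg, zero_mul]
          intro h
          have := k.2
          omega)
  rw [h1] at h3
  rw [h3]
  exact (J.I m).zero_mem

/-- the generic determinant of size `d + 1` -/
noncomputable def gdet (d : ℕ) : Pol (fun _ : Fin 2 => d + 1) :=
  Matrix.det (Matrix.of fun i j : Fin (d + 1) => (X (fun t : Fin 2 => if t = 0 then i else j) : Pol (fun _ : Fin 2 => d + 1)))

/-- it is one of the minors, so a Delta-ideal of level at most d contains it -/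
theorem gdet_mem {d : ℕ} (I : Ideal (Pol (fun _ : Fin 2 => d + 1))) (h : Minors d I) :
    gdet d ∈ I := by
  have h1 := h 0 (fun j _ => j) (fun i => i)
  have e : (Matrix.of fun i j : Fin (d + 1) =>
      (X (fun t : Fin 2 => if t = 0 then i else j) : Pol (fun _ : Fin 2 => d + 1))) =
      Matrix.of fun i j => X (Function.update (fun _ : Fin 2 => j) 0 i) := by
    refine Matrix.ext fun i j => ?_
    rw [Matrix.of_apply, Matrix.of_apply]
    refine congrArg X ?_
    funext t
    by_cases ht : t = 0
    · subst ht
      simp
    · rw [if_neg ht, Function.update_of_ne ht]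
  unfold gdet
  rw [e]
  exact h1

/-- TARGET 3 -/
theorem minors_of_det (J : DeltaIdeal) (d : ℕ) (hd : 1 ≤ d) (hJ : gdet d ∈ J.I (fun _ : Fin 2 => d + 1))
    {n : ℕ} (m : Fin (n + 1) → ℕ) : Minors d (J.I m) := by
  classical
  intro l w a
  rcases Nat.eq_zero_or_pos n with hn | hn
  · subst hn
    have : Matrix.det (Matrix.of fun i j => (X (Function.update (w j) l (a i)) : Pol m)) = 0 := by
      refine Matrix.det_zero_of_column_eq (i := (0 : Fin (d + 1))) (j := Fin.last d) ?_ ?_
      · intro h
        have := congrArg Fin.val h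
        simp at this
        omega
      · intro i
        simp only [Matrix.of_apply]
        congr 1
        funext t
        have : t = l := Subsingleton.elim (α := Fin 1) t l
        subst this
        simp
    rw [this]
    exact (J.I m).zero_mem
  · have hl : ∃ l' : Fin (n + 1), l' ≠ l := by
      have : Nontrivial (Fin (n + 1)) := Fin.nontrivial_iff_two_le.2 (by omega)
      exact exists_ne l
    obtain ⟨l', hl'⟩ := hl
    set B : ∀ t : Fin 2, Wd m → Fin (d + 1) → ℂ := fun t w' i =>
      if t = 0 then (if w' l = a i then 1 else 0)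
      else (if ∀ s, s ≠ l → w' s = w i s then 1 else 0) with hB
    have h1 := J.mor (n := 1) (n' := n) (fun _ : Fin 2 => d + 1) m
      (fun j => if j = l then 0 else 1) (by
        intro t
        by_cases ht : t = 0
        · exact ⟨l, by rw [ht]; exact if_pos rfl⟩
        · refine ⟨l', ?_⟩
          have h1 : t = 1 := by
            have := t.2
            apply Fin.ext
            have h0 : (t : ℕ) ≠ 0 := fun h => ht (Fin.ext h)
            show (t : ℕ) = 1
            omega
          rw [h1]
          exact if_neg hl') B (by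
        intro t w1 w2 h12
        funext i
        rw [hB]
        dsimp only
        by_cases ht : t = 0
        · rw [if_pos ht, if_pos ht, h12 l (by rw [ht]; exact if_pos rfl)]
        · have h1 : t = 1 := by
            have := t.2
            apply Fin.ext
            have h0 : (t : ℕ) ≠ 0 := fun h => ht (Fin.ext h)
            show (t : ℕ) = 1
            omega
          rw [if_neg ht, if_neg ht]
          have : (∀ s, s ≠ l → w1 s = w i s) ↔ ∀ s, s ≠ l → w2 s = w i s := by
            have h12' : ∀ s, s ≠ l → w1 s = w2 s := by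
              intro s hs
              refine h12 s ?_
              rw [h1]
              exact if_neg hs
            constructor
            · intro h s hs
              rw [← h12' s hs]
              exact h s hs
            · intro h s hs
              rw [h12' s hs]
              exact h s hs
          simp only [this]) (gdet d) hJ
    unfold gdet at h1
    rw [AlgHom.map_det] at h1
    convert h1 using 2
    refine Matrix.ext fun i j => ?_
    rw [AlgHom.mapMatrix_apply, Matrix.map_apply, Matrix.of_apply, Matrix.of_apply, lmap, aeval_X]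
    rw [Finset.sum_eq_single (Function.update (w j) l (a i))]
    · have : ∏ t : Fin 2, B t (Function.update (w j) l (a i)) (if t = 0 then i else j) = 1 := by
        rw [Fin.prod_univ_two]
        simp only [hB]
        simp
        intro s hs
        rw [Function.update_of_ne hs]
      rw [this, C_1, one_mul]
    · intro w' _ hw'
      have : ∏ t : Fin 2, B t w' (if t = 0 then i else j) = 0 := by
        rw [Fin.prod_univ_two]
        by_contra hne
        apply hw'
        have hne1 := left_ne_zero_of_mul hne
        have hne2 := right_ne_zero_of_mul hne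
        simp only [hB] at hne1 hne2
        simp at hne1 hne2
        funext s
        by_cases hs : s = l
        · subst hs
          rw [Function.update_self]
          exact hne1
        · rw [Function.update_of_ne hs]
          exact hne2 s hs
      rw [this, C_0, zero_mul]
    · simp

end Pool.Agent.Helper929_delta
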