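import Pool.Agent.Helper929_delta.XMor

/-
Functoriality of the Koszul complex.
-/

namespace Pool.Agent.Helper929_delta

open MvPolynomial

/-- push-forward of functions of words -/
noncomputable def pf {n n' : ℕ} {m : Fin n → ℕ} {m' : Fin n' → ℕ} (β : Wd m → Wd m' → ℂ) {p : ℕ}
    (ω : (Fin p → Wd m) → Pol m) (v' : Fin p → Wd m') : Pol m' :=
  ∑ v : Fin p → Wd m, C (∏ i, β (v i) (v' i)) * lmap β (ω v)

/-- the multilinear polynomial of a function of words -/
noncomputable def mlin {n : ℕ} {m : Fin n → ℕ} {p : ℕ} (ω : (Fin p → Wd m) → Pol m) : XP (Fin p) m :=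
  ∑ v : Fin p → Wd m, emb (Fin p) (ω v) * ∏ i, X (some i, v i)

section

variable {n n' : ℕ} {m : Fin n → ℕ} {m' : Fin n' → ℕ}

theorem kd_pf (β : Wd m → Wd m' → ℂ) {p : ℕ} (ω : (Fin (p + 1) → Wd m) → Pol m) (v' : Fin p → Wd m') :
    kd (pf β ω) v' = pf β (kd ω) v' := by
  unfold kd pf
  -- LHS: sum over w', X w' * sum over v
  have h1 : ∀ w' : Wd m', (∑ v : Fin (p + 1) → Wd m, C (∏ i, β (v i) ((Fin.cons w' v' : Fin (p + 1) → Wd m') i))
      * lmap β (ω v)) = ∑ v : Fin p → Wd m, ∑ w : Wd m, C (∏ i, β (v i) (v' i)) * (C (β w w') *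
        lmap β (ω (Fin.cons w v))) := by
    intro w'
    rw [← (Fin.consEquiv (fun _ : Fin (p + 1) => Wd m)).sum_comp, Fintype.sum_prod_type, Finset.sum_comm]
    refine Finset.sum_congr rfl fun v _ => Finset.sum_congr rfl fun w _ => ?_
    have e : (Fin.consEquiv (fun _ : Fin (p + 1) => Wd m)) (w, v) = Fin.cons w v := rfl
    rw [e]
    simp only [Fin.prod_univ_succ, Fin.cons_zero, Fin.cons_succ, map_mul]
    ring
  simp only [h1]
  have h2 : ∀ v : Fin p → Wd m, lmap β (∑ w : Wd m, X w * ω (Fin.cons w v)) =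
      ∑ w : Wd m, ∑ w' : Wd m', C (β w w') * X w' * lmap β (ω (Fin.cons w v)) := by
    intro v
    rw [map_sum]
    refine Finset.sum_congr rfl fun w _ => ?_
    rw [map_mul, ← Finset.sum_mul]
    congr 1
    simp [lmap]
  simp only [h2, Finset.mul_sum]
  rw [Finset.sum_comm]
  refine Finset.sum_congr rfl fun v _ => ?_
  rw [Finset.sum_comm]
  refine Finset.sum_congr rfl fun w _ => Finset.sum_congr rfl fun w' _ => ?_
  ring

theorem alt_pf (β : Wd m → Wd m' → ℂ) {p : ℕ} {ω : (Fin p → Wd m) → Pol m} (h : Alt ω) : Alt (pf β ω) := by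
  intro σ v'
  unfold pf
  rw [Finset.smul_sum]
  rw [← (Equiv.arrowCongr σ.symm (Equiv.refl (Wd m))).sum_comp]
  refine Finset.sum_congr rfl fun v _ => ?_
  have e : (Equiv.arrowCongr σ.symm (Equiv.refl (Wd m))) v = fun i => v (σ i) := by
    funext i
    simp
  rw [e, h σ v, map_zsmul]
  have e2 : (∏ i, β (v (σ i)) (v' (σ i))) = ∏ i, β (v i) (v' i) := Equiv.prod_comp σ (fun i => β (v i) (v' i))
  rw [e2, mul_smul_comm]

theorem homog_pf (β : Wd m → Wd m' → ℂ) {p j : ℕ} {ω : (Fin p → Wd m) → Pol m}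
    (h : ∀ v, (ω v).IsHomogeneous j) : ∀ v', (pf β ω v').IsHomogeneous j := by
  intro v'
  unfold pf
  refine IsHomogeneous.sum _ _ _ fun v _ => ?_
  rw [← zero_add j]
  refine (isHomogeneous_C _ _).mul ?_
  unfold lmap
  have := (h v).aeval (fun w : Wd m => ∑ w' : Wd m', (C (β w w') * X w' : Pol m')) (n := 1) fun w =>
    IsHomogeneous.sum _ _ _ fun w' _ => isHomogeneous_C_mul_X _ _
  simpa using this

theorem xmap_emb (κ : Type) (β : Wd m → Wd m' → ℂ) (f : Pol m) :
    xmap κ β (emb κ f) = emb κ (lmap β f) := by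
  have : (xmap κ β).comp (emb κ) = (emb κ).comp (lmap β) := by
    apply MvPolynomial.algHom_ext
    intro w
    simp [xmap, emb, lmap]
  exact DFunLike.congr_fun this f

theorem xmap_mlin (β : Wd m → Wd m' → ℂ) {p : ℕ} (ω : (Fin p → Wd m) → Pol m) :
    xmap (Fin p) β (mlin ω) = mlin (pf β ω) := by
  unfold mlin pf
  rw [map_sum]
  have h1 : ∀ v : Fin p → Wd m, xmap (Fin p) β (emb (Fin p) (ω v) * ∏ i, X (some i, v i)) =
      ∑ v' : Fin p → Wd m', emb (Fin p) (lmap β (ω v)) * (C (∏ i, β (v i) (v' i)) * ∏ i, X (some i, v' i)) := by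
    intro v
    rw [map_mul, xmap_emb, map_prod, ← Finset.mul_sum]
    congr 1
    have : ∀ i : Fin p, xmap (Fin p) β (X (some i, v i)) =
        ∑ w' : Wd m', C (β (v i) w') * X (some i, w') := by
      intro i
      simp [xmap]
    simp only [this]
    rw [Finset.prod_univ_sum]
    rw [Fintype.piFinset_univ]
    refine Finset.sum_congr rfl fun v' _ => ?_
    rw [Finset.prod_mul_distrib, map_prod]
  simp only [h1]
  rw [Finset.sum_comm]
  refine Finset.sum_congr rfl fun v' _ => ?_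
  rw [map_sum, Finset.sum_mul]
  refine Finset.sum_congr rfl fun v _ => ?_
  rw [map_mul]
  have : emb (Fin p) (C (∏ i, β (v i) (v' i)) : Pol m') = C (∏ i, β (v i) (v' i)) := by
    simp [emb]
  rw [this]
  ring

theorem kindMap_emb (κ : Type) (s : Option κ → ℂ) {j : ℕ} {f : Pol m} (h : f.IsHomogeneous j) :
    kindMap s (emb κ f) = C (s none ^ j) * emb κ f := by
  unfold kindMap emb
  rw [aeval_rename]
  have e : (rename (fun w : Wd m => ((none : Option κ), w))) f =
    aeval (fun w : Wd m => (X ((none : Option κ), w) : XP κ m)) f := by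
    have : (rename (fun w : Wd m => ((none : Option κ), w)) : Pol m →ₐ[ℂ] XP κ m) =
        aeval (fun w : Wd m => (X ((none : Option κ), w) : XP κ m)) := by
      apply MvPolynomial.algHom_ext
      intro w
      simp
    exact DFunLike.congr_fun this f
  rw [e, MvPolynomial.aeval_def, MvPolynomial.eval₂_eq, MvPolynomial.aeval_def, MvPolynomial.eval₂_eq, Finset.mul_sum]
  refine Finset.sum_congr rfl fun d hd => ?_
  have hdeg : ∑ i ∈ d.support, d i = j := by
    have := h (MvPolynomial.mem_support_iff.1 hd)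
    rw [← this, Finsupp.weight_apply, Finsupp.sum]
    simp
  simp only [Function.comp_apply, mul_pow, Finset.prod_mul_distrib]
  rw [Finset.prod_pow_eq_pow_sum, hdeg, map_pow]
  simp only [MvPolynomial.algebraMap_eq]
  ring

theorem kindMap_mlin {p j : ℕ} {ω : (Fin p → Wd m) → Pol m} (h : ∀ v, (ω v).IsHomogeneous j)
    (s : Option (Fin p) → ℂ) :
    kindMap s (mlin ω) = C (s none ^ j * ∏ i, s (some i)) * mlin ω := by
  unfold mlin
  rw [map_sum, Finset.mul_sum]
  refine Finset.sum_congr rfl fun v _ => ?_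
  rw [map_mul, kindMap_emb _ _ (h v), map_prod]
  have : ∀ i : Fin p, kindMap s (X (some i, v i) : XP (Fin p) m) = C (s (some i)) * X (some i, v i) := by
    intro i
    simp [kindMap]
  simp only [this, Finset.prod_mul_distrib]
  rw [map_mul, map_prod]
  ring

end

theorem pf_mem (J : DeltaIdeal) {n n' : ℕ} {m : Fin (n + 1) → ℕ} {m' : Fin (n' + 1) → ℕ}
    (β : Wd m → Wd m' → ℂ) (hβ : IsMor β) {p : ℕ} {ω : (Fin p → Wd m) → Pol m}
    (h : ∀ v, ω v ∈ J.I m) : ∀ v', pf β ω v' ∈ J.I m' := by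
  intro v'
  obtain ⟨φ, B, hφ, hB, rfl⟩ := hβ
  unfold pf
  refine Ideal.sum_mem _ fun v _ => Ideal.mul_mem_left _ _ ?_
  exact J.mor m m' φ hφ B hB _ (h v)

theorem kindMap_emb_mem (J : DeltaIdeal) (κ : Type) {n : ℕ} {m : Fin (n + 1) → ℕ} (s : Option κ → ℂ) {f : Pol m}
    (hf : f ∈ J.I m) : ∃ g ∈ J.I m, kindMap s (emb κ f) = emb κ g := by
  refine ⟨∑ k ∈ Finset.range (f.totalDegree + 1), C (s none ^ k) * homogeneousComponent k f, ?_, ?_⟩
  · refine Ideal.sum_mem _ fun k _ => Ideal.mul_mem_left _ _ ?_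
    exact J.homog m f k hf
  · conv_lhs => rw [← sum_homogeneousComponent f]
    rw [map_sum, map_sum, map_sum]
    refine Finset.sum_congr rfl fun k _ => ?_
    rw [kindMap_emb _ _ (homogeneousComponent_isHomogeneous k f), map_mul]
    congr 1
    simp [emb]

/-- the generators -/
def koGen (J : DeltaIdeal) (p : ℕ) (G : ∀ {n : ℕ} (m : Fin (n + 1) → ℕ), Set ((Fin p → Wd m) → Pol m))
    {n : ℕ} (m : Fin (n + 1) → ℕ) : Set (XP (Fin p) m) :=
  {f | ∃ g ∈ J.I m, f = emb (Fin p) g} ∪ {f | ∃ (r : Fin p) (w w' : Wd m), f = X (some r, w) * X (some r, w')} ∪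
    {f | ∃ ω ∈ G m, f = mlin ω}

/-- TARGET: the system of ideals generated by these -/
theorem exists_koSys (J : DeltaIdeal) (p : ℕ)
    (G : ∀ {n : ℕ} (m : Fin (n + 1) → ℕ), Set ((Fin p → Wd m) → Pol m))
    (hG : ∀ {n n' : ℕ} (m : Fin (n + 1) → ℕ) (m' : Fin (n' + 1) → ℕ) (β : Wd m → Wd m' → ℂ), IsMor β →
      ∀ ω ∈ G m, pf β ω ∈ G m')
    (hhom : ∀ {n : ℕ} (m : Fin (n + 1) → ℕ), ∀ ω ∈ G m, ∃ j : ℕ, ∀ v, (ω v).IsHomogeneous j) :
    ∃ 𝒥 : XSys (Fin p), ∀ {n : ℕ} (m : Fin (n + 1) → ℕ), 𝒥.I m = Ideal.span (koGen J p G m) := by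
  refine ⟨⟨fun m => Ideal.span (koGen J p G m), ?_, ?_⟩, fun m => rfl⟩
  · intro n n' m m' β hβ f hf
    have key : Ideal.span (koGen J p G m) ≤ (Ideal.span (koGen J p G m')).comap (xmap (Fin p) β) := by
      rw [Ideal.span_le]
      rintro f ((⟨g, hg, rfl⟩ | ⟨r, w, w', rfl⟩) | ⟨ω, hω, rfl⟩)
      · refine Ideal.subset_span (Or.inl (Or.inl ⟨lmap β g, ?_, xmap_emb _ _ _⟩))
        obtain ⟨φ, B, hφ, hB, rfl⟩ := hβ
        exact J.mor m m' φ hφ B hB _ hg
      · show xmap (Fin p) β (X (some r, w) * X (some r, w')) ∈ Ideal.span (koGen J p G m')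
        have h1 : ∀ w : Wd m, xmap (Fin p) β (X (some r, w)) = ∑ u : Wd m', C (β w u) * X (some r, u) := by
          intro w
          simp [xmap]
        rw [map_mul, h1, h1, Finset.sum_mul_sum]
        refine Ideal.sum_mem _ fun u _ => Ideal.sum_mem _ fun u' _ => ?_
        have e : (C (β w u) * X (some r, u) * (C (β w' u') * X (some r, u')) : XP (Fin p) m') =
            (C (β w u) * C (β w' u')) * (X (some r, u) * X (some r, u')) := by ring
        rw [e]
        exact Ideal.mul_mem_left _ _ (Ideal.subset_span (Or.inl (Or.inr ⟨r, u, u', rfl⟩)))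
      · exact Ideal.subset_span (Or.inr ⟨pf β ω, hG m m' β hβ ω hω, xmap_mlin _ _⟩)
    exact key hf
  · intro n m s f hf
    have key : Ideal.span (koGen J p G m) ≤ (Ideal.span (koGen J p G m)).comap (kindMap s) := by
      rw [Ideal.span_le]
      rintro f ((⟨g, hg, rfl⟩ | ⟨r, w, w', rfl⟩) | ⟨ω, hω, rfl⟩)
      · obtain ⟨g', hg', e⟩ := kindMap_emb_mem J (Fin p) s hg
        exact Ideal.subset_span (Or.inl (Or.inl ⟨g', hg', e⟩))
      · show kindMap s (X (some r, w) * X (some r, w')) ∈ Ideal.span (koGen J p G m)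
        have e : kindMap s (X (some r, w) * X (some r, w') : XP (Fin p) m) =
            (C (s (some r)) * C (s (some r))) * (X (some r, w) * X (some r, w')) := by
          simp only [kindMap, map_mul, aeval_X]
          ring
        rw [e]
        exact Ideal.mul_mem_left _ _ (Ideal.subset_span (Or.inl (Or.inr ⟨r, w, w', rfl⟩)))
      · obtain ⟨j, hj⟩ := hhom m ω hω
        show kindMap s (mlin ω) ∈ Ideal.span (koGen J p G m)
        rw [kindMap_mlin hj]
        exact Ideal.mul_mem_left _ _ (Ideal.subset_span (Or.inr ⟨ω, hω, rfl⟩))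
    exact key hf

end Pool.Agent.Helper929_delta
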