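import Pool.Agent.Helper929_delta.X15

/-
The multilinear part of an ideal.
-/

namespace Pool.Agent.Helper929_delta

open MvPolynomial

section X16aux

variable {n : ℕ} {m : Fin n → ℕ} {p : ℕ}

/-- the special variables are separated from the ordinary ones -/
noncomputable def mPhi (m : Fin n → ℕ) (p : ℕ) :
    XP (Fin p) m →ₐ[ℂ] MvPolynomial (Fin p × Wd m) (Pol m) :=
  aeval (fun ow : Option (Fin p) × Wd m =>
    match ow.1 with
    | none => C (X ow.2)
    | some i => X (i, ow.2))

/-- the exponent of a multilinear monomial -/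
noncomputable def mexp (v : Fin p → Wd m) : (Fin p × Wd m) →₀ ℕ :=
  ∑ i, Finsupp.single (i, v i) 1

theorem mexp_apply (v : Fin p → Wd m) (r : Fin p) (w : Wd m) :
    mexp v (r, w) = if v r = w then 1 else 0 := by
  classical
  unfold mexp
  rw [Finsupp.finsetSum_apply, Finset.sum_eq_single r]
  · by_cases h : v r = w
    · rw [if_pos h, h, Finsupp.single_eq_same]
    · rw [if_neg h, Finsupp.single_eq_of_ne]
      intro h0
      exact h (congrArg Prod.snd h0).symm
  · intro i _ hi
    rw [Finsupp.single_eq_of_ne]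
    intro h0
    exact hi (congrArg Prod.fst h0).symm
  · intro h
    exact absurd (Finset.mem_univ r) h

theorem mexp_le {v' v : Fin p → Wd m} (h : mexp v' ≤ mexp v) : v' = v := by
  funext i
  have h1 := h (i, v' i)
  rw [mexp_apply, mexp_apply, if_pos rfl] at h1
  by_contra h2
  rw [if_neg (fun h3 => h2 h3.symm)] at h1
  omega

theorem mPhi_none (w : Wd m) : mPhi m p (X (none, w)) = C (X w) := by
  unfold mPhi
  rw [aeval_X]

theorem mPhi_some (i : Fin p) (w : Wd m) : mPhi m p (X (some i, w)) = X (i, w) := by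
  unfold mPhi
  rw [aeval_X]

theorem mPhi_emb (g : Pol m) : mPhi m p (emb (Fin p) g) = C g := by
  have h1 : (mPhi m p).comp (emb (Fin p)) =
      (IsScalarTower.toAlgHom ℂ (Pol m) (MvPolynomial (Fin p × Wd m) (Pol m))) := by
    apply MvPolynomial.algHom_ext
    intro w
    rw [AlgHom.comp_apply]
    unfold emb
    rw [rename_X, mPhi_none]
    rfl
  exact DFunLike.congr_fun h1 g

theorem mPhi_mlin (ω : (Fin p → Wd m) → Pol m) :
    mPhi m p (mlin ω) = ∑ v, monomial (mexp v) (ω v) := by
  unfold mlin
  rw [map_sum]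
  refine Finset.sum_congr rfl fun v _ => ?_
  rw [map_mul, mPhi_emb, map_prod]
  simp only [mPhi_some]
  have h1 : ∏ i : Fin p, (X (i, v i) : MvPolynomial (Fin p × Wd m) (Pol m)) =
      monomial (mexp v) 1 := by
    unfold mexp
    rw [monomial_sum_one]
    rfl
  rw [h1, C_mul_monomial, mul_one]

/-- the multilinear part -/
noncomputable def mext (F : XP (Fin p) m) (v : Fin p → Wd m) : Pol m :=
  coeff (mexp v) (mPhi m p F)

theorem mext_add (F F' : XP (Fin p) m) : mext (F + F') = mext F + mext F' := by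
  funext v
  simp [mext]

theorem mext_zero : mext (0 : XP (Fin p) m) = 0 := by
  funext v
  simp [mext]

theorem mext_mul_emb (a : XP (Fin p) m) (g : Pol m) (v : Fin p → Wd m) :
    mext (a * emb (Fin p) g) v = mext a v * g := by
  unfold mext
  rw [map_mul, mPhi_emb, mul_comm, coeff_C_mul, mul_comm]

theorem mext_mul_quad (a : XP (Fin p) m) (r : Fin p) (w w' : Wd m) :
    mext (a * (X (some r, w) * X (some r, w'))) = 0 := by
  classical
  funext v
  unfold mext
  rw [map_mul, map_mul, mPhi_some, mPhi_some]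
  have h1 : (X (r, w) * X (r, w') : MvPolynomial (Fin p × Wd m) (Pol m)) =
      monomial (Finsupp.single (r, w) 1 + Finsupp.single (r, w') 1) 1 := by
    rw [X, X, monomial_mul, mul_one]
  rw [h1, coeff_mul_monomial', if_neg]
  · rfl
  · intro hle
    have e1 := hle (r, w)
    have e2 := hle (r, w')
    rw [Finsupp.add_apply, mexp_apply, Finsupp.single_eq_same] at e1
    rw [Finsupp.add_apply, mexp_apply, Finsupp.single_eq_same] at e2
    by_cases hw : w = w'
    · subst hw
      rw [Finsupp.single_eq_same] at e1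
      split_ifs at e1 <;> omega
    · by_cases h2 : v r = w
      · have h3 : ¬ v r = w' := fun h3 => hw (h2.symm.trans h3)
        rw [if_neg h3] at e2
        omega
      · rw [if_neg h2] at e1
        omega

theorem mext_mul_mlin (a : XP (Fin p) m) (ω : (Fin p → Wd m) → Pol m) :
    mext (a * mlin ω) = coeff 0 (mPhi m p a) • ω := by
  classical
  funext v
  unfold mext
  rw [map_mul, mPhi_mlin, Finset.mul_sum, coeff_sum, Finset.sum_eq_single v]
  · rw [coeff_mul_monomial', if_pos le_rfl, tsub_self]
    rfl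
  · intro v' _ hv
    rw [coeff_mul_monomial', if_neg]
    intro hle
    exact hv (mexp_le hle)
  · intro h
    exact absurd (Finset.mem_univ v) h

end X16aux

/-- TARGET -/
theorem mem_span_of_mlin_mem {n : ℕ} {m : Fin n → ℕ} {p : ℕ} (I0 : Ideal (Pol m))
    (G : Set ((Fin p → Wd m) → Pol m)) (ω : (Fin p → Wd m) → Pol m)
    (h : mlin ω ∈ Ideal.span ({f | ∃ g ∈ I0, f = emb (Fin p) g} ∪
      {f | ∃ (r : Fin p) (w w' : Wd m), f = X (some r, w) * X (some r, w')} ∪ {f | ∃ ω ∈ G, f = mlin ω})) :
    ω ∈ Submodule.span (Pol m) (G ∪ {ψ : (Fin p → Wd m) → Pol m | ∀ v, ψ v ∈ I0}) := by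
  set N := Submodule.span (Pol m) (G ∪ {ψ : (Fin p → Wd m) → Pol m | ∀ v, ψ v ∈ I0}) with hN
  have key : ∀ F ∈ Ideal.span ({f | ∃ g ∈ I0, f = emb (Fin p) g} ∪
      {f | ∃ (r : Fin p) (w w' : Wd m), f = X (some r, w) * X (some r, w')} ∪
        {f | ∃ ω ∈ G, f = mlin ω}), ∀ a : XP (Fin p) m, mext (a * F) ∈ N := by
    intro F hF
    refine Submodule.span_induction ?_ ?_ ?_ ?_ hF
    · rintro x ((⟨g, hg, rfl⟩ | ⟨r, w, w', rfl⟩) | ⟨ω', hω', rfl⟩) a
      · apply Submodule.subset_span
        right
        intro v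
        rw [mext_mul_emb]
        exact I0.mul_mem_left _ hg
      · rw [mext_mul_quad]
        exact N.zero_mem
      · rw [mext_mul_mlin]
        exact N.smul_mem _ (Submodule.subset_span (Or.inl hω'))
    · intro a
      rw [mul_zero, mext_zero]
      exact N.zero_mem
    · intro x y _ _ hx hy a
      rw [mul_add, mext_add]
      exact N.add_mem (hx a) (hy a)
    · intro b x _ hx a
      rw [smul_eq_mul, ← mul_assoc]
      exact hx (a * b)
  have h1 := key _ h 1
  rw [mext_mul_mlin, map_one, coeff_zero_one, one_smul] at h1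
  exact h1

end Pool.Agent.Helper929_delta
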