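import Pool.Agent.Helper929_delta.XSys

/-
Koszul homotopy.
-/

set_option autoImplicit false

namespace Pool.Agent.Helper929_delta

open MvPolynomial

/-- `[v 0 = u] ω (v 1, ..., v (p+1))` -/
noncomputable def koF {n : ℕ} {m : Fin n → ℕ} {p : ℕ} (ω : (Fin (p + 1) → Wd m) → Pol m) (u : Wd m)
    (v : Fin (p + 2) → Wd m) : Pol m :=
  if v 0 = u then ω (fun l => v l.succ) else 0

/-- the antisymmetrisation -/
noncomputable def koE {n : ℕ} {m : Fin n → ℕ} {p : ℕ} (ω : (Fin (p + 1) → Wd m) → Pol m) (u : Wd m)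
    (v : Fin (p + 2) → Wd m) : Pol m :=
  ∑ σ : Equiv.Perm (Fin (p + 2)), (Equiv.Perm.sign σ : ℤ) • koF ω u (fun i => v (σ i))

theorem koE_alt {n : ℕ} {m : Fin n → ℕ} {p : ℕ} (ω : (Fin (p + 1) → Wd m) → Pol m) (u : Wd m) :
    Alt (koE ω u) := by
  intro τ v
  have h1 : koE ω u v = ∑ σ : Equiv.Perm (Fin (p + 2)), (Equiv.Perm.sign (τ * σ) : ℤ) •
      koF ω u (fun i => v ((τ * σ) i)) := by
    unfold koE
    exact (Equiv.sum_comp (Equiv.mulLeft τ) (fun σ : Equiv.Perm (Fin (p + 2)) =>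
      (Equiv.Perm.sign σ : ℤ) • koF ω u (fun i => v (σ i)))).symm
  rw [h1, Finset.smul_sum]
  unfold koE
  refine Finset.sum_congr rfl fun σ _ => ?_
  rw [smul_smul]
  congr 1
  rw [Equiv.Perm.sign_mul]
  push_cast
  rw [← mul_assoc]
  have : ((Equiv.Perm.sign τ : ℤˣ) : ℤ) * ((Equiv.Perm.sign τ : ℤˣ) : ℤ) = 1 := by
    rw [← Units.val_mul, Int.units_mul_self]; rfl
  rw [this, one_mul]

theorem ko_zero {n : ℕ} {m : Fin n → ℕ} {p : ℕ} (ω : (Fin (p + 1) → Wd m) → Pol m) (hω : Alt ω)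
    (u : Wd m) (v : Fin (p + 1) → Wd m) (e : Equiv.Perm (Fin (p + 1))) :
    (Equiv.Perm.sign (Equiv.Perm.decomposeFin.symm ((0 : Fin (p + 2)), e)) : ℤ) • ∑ w : Wd m, X w *
      koF ω u (fun i => (Fin.cons w v : Fin (p + 2) → Wd m)
        (Equiv.Perm.decomposeFin.symm ((0 : Fin (p + 2)), e) i)) = X u * ω v := by
  classical
  have h1 : ∀ w : Wd m, koF ω u (fun i => (Fin.cons w v : Fin (p + 2) → Wd m)
      (Equiv.Perm.decomposeFin.symm ((0 : Fin (p + 2)), e) i)) =
      if w = u then (Equiv.Perm.sign e : ℤ) • ω v else 0 := by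
    intro w
    unfold koF
    simp only []
    rw [Equiv.Perm.decomposeFin_symm_apply_zero, Fin.cons_zero]
    by_cases hw : w = u
    · rw [if_pos hw, if_pos hw, ← hω e v]
      refine congrArg ω (funext fun l => ?_)
      rw [Equiv.Perm.decomposeFin_symm_apply_succ, Equiv.swap_self]
      rfl
    · rw [if_neg hw, if_neg hw]
  simp only [h1, mul_ite, mul_zero, Finset.sum_ite_eq', Finset.mem_univ, if_true]
  rw [Equiv.Perm.decomposeFin.symm_sign, if_pos rfl, one_mul, mul_smul_comm, smul_smul]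
  have : ((Equiv.Perm.sign e : ℤˣ) : ℤ) * ((Equiv.Perm.sign e : ℤˣ) : ℤ) = 1 := by
    rw [← Units.val_mul, Int.units_mul_self]; rfl
  rw [this, one_smul]

theorem ko_mem {n : ℕ} {m : Fin n → ℕ} (I0 : Ideal (Pol m)) {p : ℕ}
    (ω : (Fin (p + 1) → Wd m) → Pol m) (hω : Alt ω) (hc : ∀ v, kd ω v ∈ I0)
    (u : Wd m) (v : Fin (p + 1) → Wd m) (σ : Equiv.Perm (Fin (p + 2))) (hσ : σ 0 ≠ 0) :
    ∑ w : Wd m, X w * koF ω u (fun i => (Fin.cons w v : Fin (p + 2) → Wd m) (σ i)) ∈ I0 := by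
  classical
  obtain ⟨q, hq⟩ := Fin.exists_succ_eq.2 hσ
  have hk0 : σ.symm 0 ≠ 0 := by
    intro h
    apply hσ
    conv_lhs => rw [← h]
    simp
  obtain ⟨k, hk⟩ := Fin.exists_succ_eq.2 hk0
  have hk' : σ k.succ = 0 := by rw [hk]; simp
  by_cases hvq : v q = u
  · set s : Fin p → Wd m := fun l =>
      (Fin.cons u v : Fin (p + 2) → Wd m) (σ (k.succAbove l).succ) with hs
    have h1 : ∀ w : Wd m, koF ω u (fun i => (Fin.cons w v : Fin (p + 2) → Wd m) (σ i)) =
        (Equiv.Perm.sign (Fin.cycleRange k) : ℤ) • ω (Fin.cons w s) := by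
      intro w
      rw [← hω (Fin.cycleRange k)]
      unfold koF
      simp only []
      rw [if_pos (by rw [← hq, Fin.cons_succ]; exact hvq)]
      congr 1
      funext l
      rcases eq_or_ne l k with h | h
      · subst h
        rw [hk', Fin.cycleRange_self]
        rfl
      · obtain ⟨l', rfl⟩ := Fin.exists_succAbove_eq h
        rw [Fin.cycleRange_succAbove, Fin.cons_succ, hs]
        simp only
        have hne : σ (k.succAbove l').succ ≠ 0 := by
          intro h0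
          rw [← hk'] at h0
          have := σ.injective h0
          exact Fin.succAbove_ne k l' (Fin.succ_injective _ this)
        obtain ⟨i, hi⟩ := Fin.exists_succ_eq.2 hne
        rw [← hi, Fin.cons_succ, Fin.cons_succ]
    have h2 : ∑ w : Wd m, X w * koF ω u (fun i => (Fin.cons w v : Fin (p + 2) → Wd m) (σ i)) =
        (Equiv.Perm.sign (Fin.cycleRange k) : ℤ) • kd ω s := by
      unfold kd
      rw [Finset.smul_sum]
      refine Finset.sum_congr rfl fun w _ => ?_
      rw [h1, mul_smul_comm]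
    rw [h2]
    exact zsmul_mem (hc s) _
  · have h1 : ∀ w : Wd m, koF ω u (fun i => (Fin.cons w v : Fin (p + 2) → Wd m) (σ i)) = 0 := by
      intro w
      unfold koF
      simp only []
      rw [if_neg]
      rw [← hq, Fin.cons_succ]; exact hvq
    simp only [h1, mul_zero, Finset.sum_const_zero]
    exact I0.zero_mem

theorem ko_kd_smul {n : ℕ} {m : Fin n → ℕ} {p : ℕ} (g : Pol m) (η : (Fin (p + 1) → Wd m) → Pol m)
    (v : Fin p → Wd m) : kd (g • η) v = g * kd η v := by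
  unfold kd
  rw [Finset.mul_sum]
  refine Finset.sum_congr rfl fun w _ => ?_
  simp only [Pi.smul_apply, smul_eq_mul]
  ring

theorem ko_kd_add {n : ℕ} {m : Fin n → ℕ} {p : ℕ} (η η' : (Fin (p + 1) → Wd m) → Pol m)
    (v : Fin p → Wd m) : kd (η + η') v = kd η v + kd η' v := by
  unfold kd
  rw [← Finset.sum_add_distrib]
  refine Finset.sum_congr rfl fun w _ => ?_
  simp only [Pi.add_apply]
  ring

theorem ko_alt_smul {n : ℕ} {m : Fin n → ℕ} {p : ℕ} (g : Pol m) {η : (Fin p → Wd m) → Pol m}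
    (h : Alt η) : Alt (g • η) := by
  intro σ v
  simp only [Pi.smul_apply, smul_eq_mul]
  rw [h σ v, mul_smul_comm]

theorem ko_alt_add {n : ℕ} {m : Fin n → ℕ} {p : ℕ} {η η' : (Fin p → Wd m) → Pol m}
    (h : Alt η) (h' : Alt η') : Alt (η + η') := by
  intro σ v
  simp only [Pi.add_apply]
  rw [h σ v, h' σ v, smul_add]

/-- TARGET 1 -/
theorem exists_homotopy {n : ℕ} {m : Fin n → ℕ} (I0 : Ideal (Pol m)) {p : ℕ} (ω : (Fin (p + 1) → Wd m) → Pol m)
    (hω : Alt ω) (hc : ∀ v, kd ω v ∈ I0) (u : Wd m) :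
    ∃ η : (Fin (p + 2) → Wd m) → Pol m, Alt η ∧ ∀ v, X u * ω v - kd η v ∈ I0 := by
  classical
  have hf : ((Nat.factorial (p + 1) : ℕ) : ℂ) ≠ 0 := by
    exact_mod_cast Nat.factorial_ne_zero _
  refine ⟨(C ((Nat.factorial (p + 1) : ℂ))⁻¹ : Pol m) • koE ω u, ko_alt_smul _ (koE_alt ω u), ?_⟩
  intro v
  rw [ko_kd_smul]
  have h1 : kd (koE ω u) v = ∑ σ : Equiv.Perm (Fin (p + 2)), (Equiv.Perm.sign σ : ℤ) •
      ∑ w : Wd m, X w * koF ω u (fun i => (Fin.cons w v : Fin (p + 2) → Wd m) (σ i)) := by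
    unfold kd koE
    simp only [Finset.mul_sum, Finset.smul_sum]
    rw [Finset.sum_comm]
    refine Finset.sum_congr rfl fun σ _ => Finset.sum_congr rfl fun w _ => ?_
    rw [mul_smul_comm]
  have h2 : kd (koE ω u) v = (Nat.factorial (p + 1) : Pol m) * (X u * ω v) +
      ∑ q : Fin (p + 1), ∑ e : Equiv.Perm (Fin (p + 1)),
        (Equiv.Perm.sign (Equiv.Perm.decomposeFin.symm (q.succ, e)) : ℤ) •
        ∑ w : Wd m, X w * koF ω u (fun i => (Fin.cons w v : Fin (p + 2) → Wd m)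
          (Equiv.Perm.decomposeFin.symm (q.succ, e) i)) := by
    rw [h1, ← Equiv.sum_comp Equiv.Perm.decomposeFin.symm, Fintype.sum_prod_type, Fin.sum_univ_succ]
    congr 1
    rw [Finset.sum_congr rfl fun e _ => ko_zero ω hω u v e]
    rw [Finset.sum_const, Finset.card_univ, Fintype.card_perm, Fintype.card_fin, nsmul_eq_mul]
  have h3 : (∑ q : Fin (p + 1), ∑ e : Equiv.Perm (Fin (p + 1)),
        (Equiv.Perm.sign (Equiv.Perm.decomposeFin.symm (q.succ, e)) : ℤ) •
        ∑ w : Wd m, X w * koF ω u (fun i => (Fin.cons w v : Fin (p + 2) → Wd m)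
          (Equiv.Perm.decomposeFin.symm (q.succ, e) i))) ∈ I0 := by
    refine Ideal.sum_mem _ fun q _ => Ideal.sum_mem _ fun e _ => zsmul_mem (ko_mem I0 ω hω hc u v _ ?_) _
    rw [Equiv.Perm.decomposeFin_symm_apply_zero]
    exact Fin.succ_ne_zero q
  have h4 : X u * ω v - (C ((Nat.factorial (p + 1) : ℂ))⁻¹ : Pol m) * kd (koE ω u) v =
      -((C ((Nat.factorial (p + 1) : ℂ))⁻¹ : Pol m) *
      ∑ q : Fin (p + 1), ∑ e : Equiv.Perm (Fin (p + 1)),
        (Equiv.Perm.sign (Equiv.Perm.decomposeFin.symm (q.succ, e)) : ℤ) •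
        ∑ w : Wd m, X w * koF ω u (fun i => (Fin.cons w v : Fin (p + 2) → Wd m)
          (Equiv.Perm.decomposeFin.symm (q.succ, e) i))) := by
    rw [h2]
    have h5 : (C ((Nat.factorial (p + 1) : ℂ))⁻¹ : Pol m) * (Nat.factorial (p + 1) : Pol m) = 1 := by
      rw [← map_natCast (C : ℂ →+* Pol m), ← C_mul, inv_mul_cancel₀ hf, C_1]
    linear_combination (-(X u * ω v)) * h5
  rw [h4]
  exact neg_mem (Ideal.mul_mem_left _ _ h3)

/-- boundaries -/
def bdSet {n : ℕ} (m : Fin n → ℕ) (p : ℕ) : Set ((Fin (p + 1) → Wd m) → Pol m) :=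
  {ψ | ∃ η : (Fin (p + 2) → Wd m) → Pol m, Alt η ∧ (∃ j : ℕ, ∀ v, (η v).IsHomogeneous j) ∧ ψ = kd η}

/-- cycles of degree at most `t` -/
def cySet {n : ℕ} {m : Fin n → ℕ} (I0 : Ideal (Pol m)) (p t : ℕ) : Set ((Fin (p + 1) → Wd m) → Pol m) :=
  {ψ | Alt ψ ∧ (∃ j : ℕ, j ≤ t ∧ ∀ v, (ψ v).IsHomogeneous j) ∧ ∀ v, kd ψ v ∈ I0}

theorem ko_hc_mul {σ : Type*} (g f : MvPolynomial σ ℂ) {a k : ℕ} (hf : f.IsHomogeneous a) :
    homogeneousComponent (k + a) (g * f) = homogeneousComponent k g * f := by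
  conv_lhs => rw [← sum_homogeneousComponent g]
  rw [Finset.sum_mul, map_sum]
  have h1 : ∀ i ∈ Finset.range (g.totalDegree + 1),
      homogeneousComponent (k + a) (homogeneousComponent i g * f) =
      if i = k then homogeneousComponent i g * f else 0 := by
    intro i _
    have h2 : homogeneousComponent i g * f ∈ homogeneousSubmodule σ ℂ (i + a) :=
      (homogeneousComponent_isHomogeneous i g).mul hf
    rw [homogeneousComponent_of_mem h2]
    by_cases h : i = k
    · rw [if_pos h, if_pos (by rw [h])]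
    · rw [if_neg h, if_neg (by omega)]
  rw [Finset.sum_congr rfl h1, Finset.sum_ite_eq']
  by_cases hk : k ∈ Finset.range (g.totalDegree + 1)
  · rw [if_pos hk]
  · rw [if_neg hk, homogeneousComponent_eq_zero _ _ (by simpa [Nat.lt_succ_iff] using hk), zero_mul]

theorem ko_hc_X {σ : Type*} (f : MvPolynomial σ ℂ) (w : σ) (k : ℕ) :
    homogeneousComponent (k + 1) (X w * f) = X w * homogeneousComponent k f := by
  rw [mul_comm, ko_hc_mul f (X w) (isHomogeneous_X ℂ w), mul_comm]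

/-- the pointwise homogeneous component -/
noncomputable def ko_hcp {n : ℕ} {m : Fin n → ℕ} {p : ℕ} (k : ℕ) (η : (Fin p → Wd m) → Pol m) :
    (Fin p → Wd m) → Pol m := fun v => homogeneousComponent k (η v)

theorem ko_hcp_kd {n : ℕ} {m : Fin n → ℕ} {p : ℕ} (k : ℕ) (η : (Fin (p + 1) → Wd m) → Pol m)
    (v : Fin p → Wd m) : homogeneousComponent (k + 1) (kd η v) = kd (ko_hcp k η) v := by
  unfold kd ko_hcp
  rw [map_sum]
  exact Finset.sum_congr rfl fun w _ => ko_hc_X _ _ _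

theorem ko_hcp_alt {n : ℕ} {m : Fin n → ℕ} {p : ℕ} (k : ℕ) {η : (Fin p → Wd m) → Pol m}
    (h : Alt η) : Alt (ko_hcp k η) := by
  intro σ v
  unfold ko_hcp
  rw [h σ v, map_zsmul]

/-- the forms which are boundaries modulo the ideal -/
def ko_BN {n : ℕ} {m : Fin n → ℕ} (I0 : Ideal (Pol m)) (p : ℕ) :
    Submodule (Pol m) ((Fin (p + 1) → Wd m) → Pol m) where
  carrier := {ψ | ∃ η : (Fin (p + 2) → Wd m) → Pol m, Alt η ∧ ∀ v, ψ v - kd η v ∈ I0}
  add_mem' := by
    rintro ψ ψ' ⟨η, h1, h2⟩ ⟨η', h1', h2'⟩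
    refine ⟨η + η', ko_alt_add h1 h1', fun v => ?_⟩
    rw [ko_kd_add, Pi.add_apply, add_sub_add_comm]
    exact I0.add_mem (h2 v) (h2' v)
  zero_mem' := by
    refine ⟨0, fun σ v => by simp, fun v => ?_⟩
    have : kd (0 : (Fin (p + 2) → Wd m) → Pol m) v = 0 := by
      unfold kd; simp
    rw [this]
    simp
  smul_mem' := by
    rintro g ψ ⟨η, h1, h2⟩
    refine ⟨g • η, ko_alt_smul g h1, fun v => ?_⟩
    rw [ko_kd_smul, Pi.smul_apply, smul_eq_mul, ← mul_sub]
    exact I0.mul_mem_left _ (h2 v)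

/-- TARGET 2 -/
theorem koszul_of_mem_span {n : ℕ} {m : Fin n → ℕ} (I0 : Ideal (Pol m))
    (hI0 : ∀ (f : Pol m) (k : ℕ), f ∈ I0 → homogeneousComponent k f ∈ I0) {p t j : ℕ} (htj : t ≤ j)
    (ω : (Fin (p + 1) → Wd m) → Pol m) (hω : Alt ω) (hhom : ∀ v, (ω v).IsHomogeneous (j + 1))
    (h : ω ∈ Submodule.span (Pol m) ((bdSet m p ∪ cySet I0 p t) ∪
      {ψ : (Fin (p + 1) → Wd m) → Pol m | ∀ v, ψ v ∈ I0})) :
    ∃ η : (Fin (p + 2) → Wd m) → Pol m, Alt η ∧ (∀ v, (η v).IsHomogeneous j) ∧ ∀ v, ω v - kd η v ∈ I0 := by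
  classical
  have _hω := hω
  have key : ∀ g : Pol m, ko_hcp (j + 1) (g • ω) ∈ ko_BN I0 p := by
    refine Submodule.span_induction (p := fun ψ _ => ∀ g : Pol m, ko_hcp (j + 1) (g • ψ) ∈ ko_BN I0 p)
      ?_ ?_ ?_ ?_ h
    · rintro ψ ((⟨η, hη, -, rfl⟩ | ⟨hψ, ⟨r, hr, hrh⟩, hcy⟩) | hψ) g
      · refine ⟨ko_hcp j (g • η), ko_hcp_alt j (ko_alt_smul g hη), fun v => ?_⟩
        have : ko_hcp (j + 1) (g • kd η) v = kd (ko_hcp j (g • η)) v := by
          rw [← ko_hcp_kd, ko_kd_smul]; rfl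
        rw [this, sub_self]
        exact I0.zero_mem
      · -- cycles of small degree
        have h1 : ko_hcp (j + 1) (g • ψ) = homogeneousComponent (j + 1 - r) g • ψ := by
          funext v
          have := ko_hc_mul g (ψ v) (k := j + 1 - r) (hrh v)
          rw [Nat.sub_add_cancel (by omega)] at this
          exact this
        rw [h1]
        -- the set of the polynomials `f` with `f • ψ` in `ko_BN` is an ideal containing the variables
        set J : Ideal (Pol m) := (ko_BN I0 p).comap (LinearMap.toSpanSingleton (Pol m) _ ψ) with hJ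
        have hX : ∀ u : Wd m, (X u : Pol m) ∈ J := by
          intro u
          obtain ⟨η, hη1, hη2⟩ := exists_homotopy I0 ψ hψ hcy u
          exact ⟨η, hη1, hη2⟩
        have h2 : homogeneousComponent (j + 1 - r) g ∈
            Ideal.span (MvPolynomial.X '' (Set.univ : Set (Wd m)) : Set (Pol m)) := by
          rw [mem_ideal_span_X_image]
          intro d hd
          have hdeg := (homogeneousComponent_isHomogeneous (j + 1 - r) g)
            (mem_support_iff.1 hd)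
          by_contra hcon
          push Not at hcon
          have hd0 : d = 0 := by
            ext i
            exact hcon i (Set.mem_univ _)
          rw [hd0] at hdeg
          simp at hdeg
          omega
        have h3 : Ideal.span (MvPolynomial.X '' (Set.univ : Set (Wd m)) : Set (Pol m)) ≤ J := by
          rw [Ideal.span_le]
          rintro _ ⟨u, -, rfl⟩
          exact hX u
        exact h3 h2
      · refine ⟨0, fun σ v => by simp, fun v => ?_⟩
        have : kd (0 : (Fin (p + 2) → Wd m) → Pol m) v = 0 := by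
          unfold kd; simp
        rw [this, sub_zero]
        exact hI0 _ _ (I0.mul_mem_left g (hψ v))
    · intro g
      have : ko_hcp (j + 1) (g • (0 : (Fin (p + 1) → Wd m) → Pol m)) = 0 := by
        funext v; simp [ko_hcp]
      rw [this]
      exact (ko_BN I0 p).zero_mem
    · intro ψ ψ' _ _ h1 h2 g
      have : ko_hcp (j + 1) (g • (ψ + ψ')) = ko_hcp (j + 1) (g • ψ) + ko_hcp (j + 1) (g • ψ') := by
        funext v
        simp only [ko_hcp, Pi.add_apply, Pi.smul_apply, smul_eq_mul]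
        rw [mul_add, map_add]
      rw [this]
      exact (ko_BN I0 p).add_mem (h1 g) (h2 g)
    · intro a ψ _ h1 g
      rw [smul_smul]
      exact h1 (g * a)
  obtain ⟨η, hη1, hη2⟩ := key 1
  rw [one_smul] at hη2
  refine ⟨ko_hcp j η, ko_hcp_alt j hη1, fun v => homogeneousComponent_isHomogeneous _ _, fun v => ?_⟩
  have h1 : homogeneousComponent (j + 1) (ω v) = ω v := by
    rw [homogeneousComponent_of_mem (hhom v), if_pos rfl]
  have h2 := hI0 _ (j + 1) (hη2 v)
  rw [map_sub, ko_hcp_kd] at h2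
  have h3 : homogeneousComponent (j + 1) (ko_hcp (j + 1) ω v) = ω v := by
    unfold ko_hcp
    rw [h1, h1]
  rw [h3] at h2
  exact h2

end Pool.Agent.Helper929_delta
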