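import Pool.Agent.Helper929_delta.XSys

/-
Definitions for the statement of the theorem on Delta-ideals which do not vanish on the tangent varieties.
-/

namespace Pool.Agent.Helper929_delta

open MvPolynomial

/-- The tangential tensor in the tensor product of `n` copies of `ℂ ^ 2`: the sum of the words with exactly one
letter 1, the other letters being 0. It is a point of the tangent variety of the Segre variety. -/
noncomputable def wten (n : ℕ) (w : Wd (two n)) : ℂ := if ∑ i, (w i : ℕ) = 1 then 1 else 0

/-- `J` does not vanish on all the tangent varieties: some polynomial of `J`, for some family of at least one copy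
of `ℂ ^ 2`, is not zero at the tangential tensor. -/
def DeltaIdeal.NotTangential (J : DeltaIdeal) : Prop :=
  ∃ (k : ℕ) (f : Pol (two (k + 1))), f ∈ J.I (two (k + 1)) ∧ eval (wten (k + 1)) f ≠ 0

/-- `J` is finitely generated: it is the smallest Delta-ideal containing some finite set of its elements. -/
def DeltaIdeal.FinGen (J : DeltaIdeal) : Prop :=
  ∃ S : Set Elt, S.Finite ∧ (∀ e ∈ S, J.Has e) ∧
    ∀ J' : DeltaIdeal, (∀ e ∈ S, J'.Has e) → J.Sub J'

/-- The syzygies `F_{p+1}` of `P / J` are concentrated in finitely many degrees: for some bound `D` and all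
families the Koszul homology in homological degree `p + 1` vanishes in all degrees greater than `p + 1 + D`. -/
def DeltaIdeal.SyzBounded (J : DeltaIdeal) (p : ℕ) : Prop :=
  ∃ D : ℕ, ∀ j, D ≤ j → ∀ {n : ℕ} (m : Fin (n + 1) → ℕ), KoszulZero (J.I m) p j

end Pool.Agent.Helper929_delta
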