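import Pool.Agent.Helper929_delta.XMor
import Pool.Agent.Helper929_delta.XStmt

/-
Tangential tensors.
-/

namespace Pool.Agent.Helper929_delta

open MvPolynomial

/-- the value of a tensor at functionals -/
noncomputable def ev {n : ℕ} {m : Fin n → ℕ} (T : Wd m → ℂ) (z : (j : Fin n) → Fin (m j) → ℂ) : ℂ :=
  ∑ w : Wd m, T w * ∏ j, z j (w j)

/-- `z1` on `A` and `z0` elsewhere -/
def sel {n : ℕ} {m : Fin n → ℕ} (z0 z1 : (j : Fin n) → Fin (m j) → ℂ) (A : Finset (Fin n)) :
    (j : Fin n) → Fin (m j) → ℂ :=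
  fun j => if j ∈ A then z1 j else z0 j

theorem star_prod_update {n : ℕ} {m : Fin n → ℕ} (z : (j : Fin n) → Fin (m j) → ℂ) (j : Fin n)
    (u : Fin (m j) → ℂ) (w : Wd m) :
    ∏ h, (Function.update z j u) h (w h) = u (w j) * ∏ h ∈ Finset.univ.erase j, z h (w h) := by
  rw [← Finset.mul_prod_erase _ _ (Finset.mem_univ j), Function.update_self]
  congr 1
  refine Finset.prod_congr rfl fun h hh => ?_
  rw [Function.update_of_ne (Finset.ne_of_mem_erase hh)]

theorem star_ev_update {n : ℕ} {m : Fin n → ℕ} (T : Wd m → ℂ) (z : (j : Fin n) → Fin (m j) → ℂ)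
    (j : Fin n) (a b : ℂ) (u v : Fin (m j) → ℂ) :
    ev T (Function.update z j (fun x => a * u x - b * v x)) =
      a * ev T (Function.update z j u) - b * ev T (Function.update z j v) := by
  unfold ev
  rw [Finset.mul_sum, Finset.mul_sum, ← Finset.sum_sub_distrib]
  refine Finset.sum_congr rfl fun w _ => ?_
  rw [star_prod_update, star_prod_update, star_prod_update]
  ring

theorem star_sel_update0 {n : ℕ} {m : Fin n → ℕ} (z0 z1 : (j : Fin n) → Fin (m j) → ℂ)
    (A : Finset (Fin n)) (j : Fin n) (hj : j ∉ A) :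
    Function.update (sel z0 z1 A) j (z0 j) = sel z0 z1 A := by
  rw [Function.update_eq_self_iff]
  unfold sel
  rw [if_neg hj]

theorem star_sel_update1 {n : ℕ} {m : Fin n → ℕ} (z0 z1 : (j : Fin n) → Fin (m j) → ℂ)
    (A : Finset (Fin n)) (j : Fin n) :
    Function.update (sel z0 z1 A) j (z1 j) = sel z0 z1 (insert j A) := by
  funext h
  by_cases hh : h = j
  · subst hh
    rw [Function.update_self]
    unfold sel
    rw [if_pos (Finset.mem_insert_self _ _)]
  · rw [Function.update_of_ne hh]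
    unfold sel
    by_cases hA : h ∈ A
    · rw [if_pos hA, if_pos (Finset.mem_insert_of_mem hA)]
    · rw [if_neg hA, if_neg (fun h1 => (Finset.mem_insert.1 h1).elim hh hA)]

theorem star_prod_split {n k : ℕ} (j : Fin (n + 1)) (l : Fin (k + 1) → Fin (n + 1))
    (hl : Function.Injective l) (hj : ∀ i, l i ≠ j) (g : Fin (n + 1) → ℂ) :
    ∏ h ∈ Finset.univ.erase j, g h =
      (∏ i, g (l i)) * ∏ h ∈ (Finset.univ.erase j) \ (Finset.univ.image l), g h := by
  rw [← Finset.prod_image (f := g) (s := Finset.univ) (g := l) (fun x _ y _ h => hl h), mul_comm,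
    Finset.prod_sdiff]
  intro h hh
  obtain ⟨i, -, rfl⟩ := Finset.mem_image.1 hh
  exact Finset.mem_erase.2 ⟨hj i, Finset.mem_univ _⟩

theorem star_homog {n : ℕ} {m : Fin n → ℕ} {f : Pol m} {e : ℕ} (hf : f.IsHomogeneous e) (t : ℂ)
    (x : Wd m → ℂ) : eval (fun w => t * x w) f = t ^ e * eval x f := by
  rw [eval_eq', eval_eq', Finset.mul_sum]
  refine Finset.sum_congr rfl fun d hd => ?_
  have h1 := hf.degree_eq_sum_deg_support hd
  have h2 : ∑ w : Wd m, d w = e := by
    rw [h1]
    exact (Finset.sum_subset (Finset.subset_univ _) (fun w _ hw => Finsupp.notMem_support_iff.1 hw)).symm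
  have h3 : ∏ w : Wd m, (t * x w) ^ d w = t ^ e * ∏ w : Wd m, x w ^ d w := by
    rw [← h2, ← Finset.prod_pow_eq_pow_sum, ← Finset.prod_mul_distrib]
    refine Finset.prod_congr rfl fun w _ => ?_
    rw [mul_pow]
  rw [h3]
  ring

theorem star_eval_lmap {n n' : ℕ} {m : Fin n → ℕ} {m' : Fin n' → ℕ} (β : Wd m → Wd m' → ℂ)
    (T : Wd m' → ℂ) (f : Pol m) :
    eval T (lmap β f) = eval (fun w => ∑ w' : Wd m', β w w' * T w') f := by
  have key : (eval T).comp (lmap β).toRingHom = eval (fun w => ∑ w' : Wd m', β w w' * T w') := by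
    apply MvPolynomial.ringHom_ext
    · intro r
      simp [lmap]
    · intro w
      simp [lmap]
  exact congrArg (fun φ : Pol m →+* ℂ => φ f) key

/-- TARGET -/
theorem star (J : DeltaIdeal) {k : ℕ} (f : Pol (two (k + 1))) (hf : f ∈ J.I (two (k + 1)))
    (hW : eval (wten (k + 1)) f ≠ 0) {n : ℕ} (m : Fin (n + 1) → ℕ) (T : Wd m → ℂ)
    (hT : IsZero' (J.I m) T) (z0 z1 : (j : Fin (n + 1)) → Fin (m j) → ℂ) (j : Fin (n + 1))
    (l : Fin (k + 1) → Fin (n + 1)) (hl : Function.Injective l) (hj : ∀ i, l i ≠ j) :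
    ∃ i, ev T (sel z0 z1 ∅) * ev T (sel z0 z1 {j, l i}) = ev T (sel z0 z1 {j}) * ev T (sel z0 z1 {l i}) := by
  classical
  by_contra hcon
  push Not at hcon
  -- a homogeneous component which does not vanish
  obtain ⟨e, he⟩ : ∃ e, eval (wten (k + 1)) (homogeneousComponent e f) ≠ 0 := by
    by_contra h
    push Not at h
    apply hW
    conv_lhs => rw [← sum_homogeneousComponent f]
    rw [map_sum]
    exact Finset.sum_eq_zero fun e _ => h e
  set g : Pol (two (k + 1)) := homogeneousComponent e f with hg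
  have hgJ : g ∈ J.I (two (k + 1)) := J.homog (two (k + 1)) f e hf
  have hgh : g.IsHomogeneous e := homogeneousComponent_isHomogeneous e f
  clear_value g
  -- the functional
  set τ : Finset (Fin (n + 1)) → ℂ := fun A => ev T (sel z0 z1 A) with hτ
  set θ : Fin (m j) → ℂ := fun x => τ {j} * z0 j x - τ ∅ * z1 j x with hθ
  set Tb : Finset (Fin (k + 1)) → ℂ :=
    fun A => ev T (Function.update (sel z0 z1 (A.image l)) j θ) with hTb
  have hTb1 : ∀ A, Tb A = τ {j} * τ (A.image l) - τ ∅ * τ (insert j (A.image l)) := by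
    intro A
    have hjA : j ∉ A.image l := by
      intro h
      obtain ⟨i, -, hi⟩ := Finset.mem_image.1 h
      exact hj i hi
    simp only [hTb, hθ]
    rw [star_ev_update, star_sel_update0 z0 z1 _ j hjA, star_sel_update1]
  have hTb0 : Tb ∅ = 0 := by
    rw [hTb1]
    simp only [Finset.image_empty, insert_empty_eq]
    ring
  have hTbi : ∀ i, Tb {i} ≠ 0 := by
    intro i h
    rw [hTb1, Finset.image_singleton, sub_eq_zero] at h
    exact hcon i h.symm
  -- the matrices
  let O : Finset (Fin (n + 1)) := (Finset.univ.erase j) \ (Finset.univ.image l)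
  let B : ℂ → ∀ i : Fin (k + 1), Wd m → Fin (two (k + 1) i) → ℂ := fun t i w' a =>
    (if (a : ℕ) = 0 then z0 (l i) (w' (l i)) else t * (Tb {i})⁻¹ * z1 (l i) (w' (l i))) *
      (if i = 0 then θ (w' j) * ∏ h ∈ O, z0 h (w' h) else 1)
  let φ : Fin (n + 1) → Fin (k + 1) := fun h => if hh : ∃ i, l i = h then hh.choose else 0
  have hφl : ∀ i, φ (l i) = i := by
    intro i
    have hh : ∃ i', l i' = l i := ⟨i, rfl⟩
    simp only [φ]
    rw [dif_pos hh]
    exact hl hh.choose_spec
  have hφ0 : ∀ h, (∀ i, l i ≠ h) → φ h = 0 := by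
    intro h hh
    simp only [φ]
    rw [dif_neg (fun ⟨i, hi⟩ => hh i hi)]
  have hmor : ∀ t : ℂ, lmap (fun w w' => ∏ i, B t i w' (w i)) g ∈ J.I m := by
    intro t
    refine J.mor (two (k + 1)) m φ (fun i => ⟨l i, hφl i⟩) (B t) ?_ g hgJ
    intro i w w' hww
    funext a
    simp only [B]
    rw [hww (l i) (hφl i)]
    by_cases hi : i = 0
    · subst hi
      have e1 : w j = w' j := hww j (hφ0 j hj)
      have e2 : ∏ h ∈ O, z0 h (w h) = ∏ h ∈ O, z0 h (w' h) := by
        refine Finset.prod_congr rfl fun h hh => ?_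
        have h1 : ∀ i, l i ≠ h := by
          intro i hi
          exact (Finset.mem_sdiff.1 hh).2 (Finset.mem_image.2 ⟨i, Finset.mem_univ _, hi⟩)
        rw [hww h (hφ0 h h1)]
      rw [e1, e2]
    · rw [if_neg hi, if_neg hi]
  -- the tensor
  let c : Wd (two (k + 1)) → ℂ := fun w =>
    (∏ i, if (w i : ℕ) = 0 then (1 : ℂ) else (Tb {i})⁻¹) *
      Tb (Finset.univ.filter fun i => ¬ (w i : ℕ) = 0)
  have hten : ∀ (t : ℂ) (w : Wd (two (k + 1))),
      ∑ w' : Wd m, (∏ i, B t i w' (w i)) * T w' = t ^ (∑ i, (w i : ℕ)) * c w := by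
    intro t w
    set A : Finset (Fin (k + 1)) := Finset.univ.filter fun i => ¬ (w i : ℕ) = 0 with hA
    have hpt : t ^ (∑ i, (w i : ℕ)) = ∏ i, if (w i : ℕ) = 0 then (1 : ℂ) else t := by
      rw [← Finset.prod_pow_eq_pow_sum]
      refine Finset.prod_congr rfl fun i _ => ?_
      by_cases h0 : (w i : ℕ) = 0
      · rw [h0, if_pos rfl, pow_zero]
      · have h2 : (w i : ℕ) < 2 := (w i).2
        have h1 : (w i : ℕ) = 1 := by omega
        rw [h1, pow_one, if_neg one_ne_zero]
    have hcw : c w = (∏ i, if (w i : ℕ) = 0 then (1 : ℂ) else (Tb {i})⁻¹) * Tb A := rfl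
    have hTbA : Tb A = ∑ w' : Wd m, T w' *
        ∏ h, (Function.update (sel z0 z1 (A.image l)) j θ) h (w' h) := rfl
    rw [hcw, hpt, ← mul_assoc, ← Finset.prod_mul_distrib, hTbA, Finset.mul_sum]
    refine Finset.sum_congr rfl fun w' _ => ?_
    have hB : ∏ i, B t i w' (w i) =
        (∏ i, (if (w i : ℕ) = 0 then (1 : ℂ) else t) * (if (w i : ℕ) = 0 then (1 : ℂ) else (Tb {i})⁻¹)) *
        ((∏ i, (sel z0 z1 (A.image l)) (l i) (w' (l i))) *
          (θ (w' j) * ∏ h ∈ O, z0 h (w' h))) := by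
      simp only [B]
      rw [Finset.prod_mul_distrib, Finset.prod_ite_eq' Finset.univ (0 : Fin (k + 1)),
        if_pos (Finset.mem_univ _), ← mul_assoc (∏ i, (if (w i : ℕ) = 0 then (1 : ℂ) else t) *
          (if (w i : ℕ) = 0 then (1 : ℂ) else (Tb {i})⁻¹)), ← Finset.prod_mul_distrib]
      congr 1
      refine Finset.prod_congr rfl fun i _ => ?_
      unfold sel
      by_cases h0 : (w i : ℕ) = 0
      · have h1 : l i ∉ A.image l := by
          intro h
          obtain ⟨i', hi', he'⟩ := Finset.mem_image.1 h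
          rw [hl he'] at hi'
          exact (Finset.mem_filter.1 hi').2 h0
        rw [if_pos h0, if_pos h0, if_pos h0, if_neg h1, one_mul, one_mul]
      · have h1 : l i ∈ A.image l :=
          Finset.mem_image.2 ⟨i, Finset.mem_filter.2 ⟨Finset.mem_univ _, h0⟩, rfl⟩
        rw [if_neg h0, if_neg h0, if_neg h0, if_pos h1]
    rw [hB, star_prod_update, star_prod_split j l hl hj]
    have hO : ∏ h ∈ (Finset.univ.erase j) \ (Finset.univ.image l),
        (sel z0 z1 (A.image l)) h (w' h) = ∏ h ∈ O, z0 h (w' h) := by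
      refine Finset.prod_congr rfl fun h hh => ?_
      unfold sel
      rw [if_neg]
      intro h1
      exact (Finset.mem_sdiff.1 hh).2 (Finset.image_subset_image (Finset.subset_univ _) h1)
    rw [hO]
    ring
  have hzero : ∀ t : ℂ, eval (fun w => t ^ (∑ i, (w i : ℕ)) * c w) g = 0 := by
    intro t
    have h1 := hT _ (hmor t)
    rw [star_eval_lmap] at h1
    rw [← h1]
    congr 2
    funext w
    exact (hten t w).symm
  have hc0 : ∀ w : Wd (two (k + 1)), ∑ i, (w i : ℕ) = 0 → c w = 0 := by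
    intro w hw
    have h1 : ∀ i, (w i : ℕ) = 0 := fun i => (Finset.sum_eq_zero_iff.1 hw) i (Finset.mem_univ i)
    have h2 : (Finset.univ.filter fun i => ¬ (w i : ℕ) = 0) = ∅ := by
      rw [Finset.filter_eq_empty_iff]
      intro i _ h
      exact h (h1 i)
    simp only [c]
    rw [h2, hTb0, mul_zero]
  have hc1 : ∀ w : Wd (two (k + 1)), ∑ i, (w i : ℕ) = 1 → c w = 1 := by
    intro w hw
    obtain ⟨i, hi⟩ : ∃ i, (w i : ℕ) ≠ 0 := by
      by_contra h
      push Not at h
      rw [Finset.sum_eq_zero (fun i _ => h i)] at hw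
      exact zero_ne_one hw
    have hle := Finset.add_sum_erase Finset.univ (fun i => (w i : ℕ)) (Finset.mem_univ i)
    have h3 : ∑ i' ∈ Finset.univ.erase i, (w i' : ℕ) = 0 := by
      have h4 : (w i : ℕ) + ∑ i' ∈ Finset.univ.erase i, (w i' : ℕ) = 1 := hle.trans hw
      omega
    have h5 : ∀ i', i' ≠ i → (w i' : ℕ) = 0 := fun i' hne =>
      (Finset.sum_eq_zero_iff.1 h3) i' (Finset.mem_erase.2 ⟨hne, Finset.mem_univ _⟩)
    have h2 : (Finset.univ.filter fun i => ¬ (w i : ℕ) = 0) = {i} := by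
      ext i'
      simp only [Finset.mem_filter, Finset.mem_univ, true_and, Finset.mem_singleton]
      constructor
      · intro h
        by_contra hne
        exact h (h5 i' hne)
      · rintro rfl
        exact hi
    simp only [c]
    rw [h2, Finset.prod_eq_single i, if_neg hi, inv_mul_cancel₀ (hTbi i)]
    · intro i' _ hne
      rw [if_pos (h5 i' hne)]
    · intro h
      exact absurd (Finset.mem_univ i) h
  -- division by `t ^ e`
  let F : ℂ → ℂ := fun t => eval (fun w => t ^ (∑ i, (w i : ℕ) - 1) * c w) g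
  have hF : ∀ t : ℂ, t ≠ 0 → F t = 0 := by
    intro t ht
    have h1 := hzero t
    have h2 : (fun w : Wd (two (k + 1)) => t ^ (∑ i, (w i : ℕ)) * c w) =
        fun w => t * (t ^ (∑ i, (w i : ℕ) - 1) * c w) := by
      funext w
      by_cases h0 : ∑ i, (w i : ℕ) = 0
      · rw [hc0 w h0]
        ring
      · obtain ⟨s, hs⟩ := Nat.exists_eq_succ_of_ne_zero h0
        rw [hs, Nat.succ_sub_one, Nat.succ_eq_add_one, pow_succ]
        ring
    rw [h2, star_homog hgh] at h1
    exact (mul_eq_zero.1 h1).resolve_left (pow_ne_zero _ ht)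
  have hFc : Continuous F := by
    have h1 : Continuous (fun x : Wd (two (k + 1)) → ℂ => eval x g) := MvPolynomial.continuous_eval g
    have h2 : Continuous (fun (t : ℂ) (w : Wd (two (k + 1))) =>
        t ^ (∑ i, (w i : ℕ) - 1) * c w) := by
      refine continuous_pi fun w => ?_
      exact (continuous_pow _).mul continuous_const
    exact h1.comp h2
  have hF0 : F 0 = 0 := by
    have h1 : F = fun _ => 0 := by
      refine Continuous.ext_on (dense_compl_singleton (0 : ℂ)) hFc continuous_const ?_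
      intro t ht
      exact hF t ht
    rw [h1]
  apply he
  rw [← hF0]
  simp only [F]
  congr 2
  funext w
  unfold wten
  by_cases h1 : ∑ i, (w i : ℕ) = 1
  · rw [if_pos h1, hc1 w h1, h1]
    simp
  · rw [if_neg h1]
    by_cases h0 : ∑ i, (w i : ℕ) = 0
    · rw [hc0 w h0, mul_zero]
    · have h2 : ∑ i, (w i : ℕ) - 1 ≠ 0 := by omega
      rw [zero_pow h2, zero_mul]

end Pool.Agent.Helper929_delta
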