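import Pool.Agent.Helper929_delta.X20
import Pool.Agent.Helper929_delta.X14
import Pool.Agent.Helper929_delta.X7

/-
Boundedly many non-trivial factors.
-/

namespace Pool.Agent.Helper929_delta

open MvPolynomial

/-- a point where finitely many given nonzero polynomials do not vanish -/
theorem exists_point {V ι : Type*} [Fintype ι] (p : ι → MvPolynomial V ℂ) :
    ∃ z : V → ℂ, ∀ i, p i ≠ 0 → eval z (p i) ≠ 0 := by
  classical
  have hQ : (∏ i, if p i = 0 then (1 : MvPolynomial V ℂ) else p i) ≠ 0 := by
    rw [Finset.prod_ne_zero_iff]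
    intro i _
    split_ifs with h
    · exact one_ne_zero
    · exact h
  by_contra hcon
  push Not at hcon
  apply hQ
  apply MvPolynomial.funext
  intro z
  obtain ⟨i, hi, hz⟩ := hcon z
  rw [map_prod, map_zero]
  apply Finset.prod_eq_zero (Finset.mem_univ i)
  rw [if_neg hi, hz]

section generic

variable {n : ℕ} {m : Fin n → ℕ}

/-- the generic value -/
noncomputable def gev (T : Wd m → ℂ) (A : Finset (Fin n)) :
    MvPolynomial (Fin 2 × (Σ j, Fin (m j))) ℂ :=
  ∑ w : Wd m, C (T w) * ∏ j, X (if j ∈ A then (1 : Fin 2) else 0, (⟨j, w j⟩ : Σ j, Fin (m j)))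

/-- the point given by two families of functionals -/
def pnt (z0 z1 : (j : Fin n) → Fin (m j) → ℂ) : Fin 2 × (Σ j, Fin (m j)) → ℂ :=
  fun v => if v.1 = 0 then z0 v.2.1 v.2.2 else z1 v.2.1 v.2.2

theorem eval_gev (T : Wd m → ℂ) (z0 z1 : (j : Fin n) → Fin (m j) → ℂ) (A : Finset (Fin n)) :
    eval (pnt z0 z1) (gev T A) = ev T (sel z0 z1 A) := by
  unfold gev ev
  rw [map_sum]
  refine Finset.sum_congr rfl fun w _ => ?_
  rw [map_mul, eval_C, map_prod]
  congr 1
  refine Finset.prod_congr rfl fun j _ => ?_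
  rw [eval_X]
  unfold pnt sel
  split_ifs with h <;> simp_all

theorem exists_pnt (z : Fin 2 × (Σ j, Fin (m j)) → ℂ) :
    ∃ z0 z1 : (j : Fin n) → Fin (m j) → ℂ, z = pnt z0 z1 := by
  refine ⟨fun j a => z (0, ⟨j, a⟩), fun j a => z (1, ⟨j, a⟩), ?_⟩
  funext v
  obtain ⟨b, j, a⟩ := v
  unfold pnt
  fin_cases b <;> rfl

theorem ev_single (T : Wd m → ℂ) (w₀ : Wd m) (z : (j : Fin n) → Fin (m j) → ℂ)
    (hz : ∀ j, z j = Pi.single (w₀ j) 1) : ev T z = T w₀ := by
  unfold ev
  rw [Finset.sum_eq_single w₀]
  · have : ∏ j, z j (w₀ j) = 1 := by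
      apply Finset.prod_eq_one
      intro j _
      rw [hz j, Pi.single_eq_same]
    rw [this, mul_one]
  · intro w _ hw
    obtain ⟨j, hj⟩ := Function.ne_iff.1 hw
    rw [Finset.prod_eq_zero (Finset.mem_univ j), mul_zero]
    rw [hz j, Pi.single_eq_of_ne hj]
  · intro h
    exact absurd (Finset.mem_univ _) h

end generic

/-- TARGET 1 -/
theorem exists_generic {n : ℕ} {m : Fin n → ℕ} (T : Wd m → ℂ) (hT : T ≠ 0) :
    ∃ z0 z1 : (j : Fin n) → Fin (m j) → ℂ, (∀ A : Finset (Fin n), ev T (sel z0 z1 A) ≠ 0) ∧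
      (∀ j l : Fin n, j ≠ l →
        ev T (sel z0 z1 ∅) * ev T (sel z0 z1 {j, l}) = ev T (sel z0 z1 {j}) * ev T (sel z0 z1 {l}) →
        ∀ A : Finset (Fin n), j ∉ A → l ∉ A → ev T (sel z0 z1 A) * ev T (sel z0 z1 (insert j (insert l A)))
          = ev T (sel z0 z1 (insert j A)) * ev T (sel z0 z1 (insert l A))) ∧
      (∀ l : Fin n, (∀ A B : Finset (Fin n), l ∉ A → l ∉ B →
        ev T (sel z0 z1 A) * ev T (sel z0 z1 (insert l B)) = ev T (sel z0 z1 (insert l A)) * ev T (sel z0 z1 B)) →
        TrivCol T l) := by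
  classical
  obtain ⟨z, hz⟩ := exists_point (V := Fin 2 × (Σ j, Fin (m j)))
    (ι := Finset (Fin n) ⊕ (Fin n × Fin n) ⊕ Fin n)
    (fun i => match i with
      | Sum.inl A => gev T A
      | Sum.inr (Sum.inl (j, l)) => gev T ∅ * gev T {j, l} - gev T {j} * gev T {l}
      | Sum.inr (Sum.inr l) => gev T ∅ * gev T (insert l (Finset.univ.erase l)) -
          gev T (insert l ∅) * gev T (Finset.univ.erase l))
  obtain ⟨z0, z1, rfl⟩ := exists_pnt z
  have hall : ∀ P : MvPolynomial (Fin 2 × (Σ j, Fin (m j))) ℂ, P = 0 →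
      ∀ y0 y1 : (j : Fin n) → Fin (m j) → ℂ, eval (pnt y0 y1) P = 0 := by
    rintro P rfl y0 y1
    exact map_zero _
  refine ⟨z0, z1, fun A => ?_, fun j l hjl h A hjA hlA => ?_, fun l h p q => ?_⟩
  · rw [← eval_gev]
    apply hz (Sum.inl A)
    intro h0
    obtain ⟨w₀, hw₀⟩ := Function.ne_iff.1 hT
    have h1 := hall _ h0 (fun j => Pi.single (w₀ j) 1) (fun j => Pi.single (w₀ j) 1)
    simp only at h1
    rw [eval_gev, ev_single T w₀ _ (fun j => by unfold sel; split_ifs <;> rfl)] at h1
    exact hw₀ h1
  · have hP : gev T ∅ * gev T {j, l} - gev T {j} * gev T {l} = 0 := by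
      by_contra hne
      apply hz (Sum.inr (Sum.inl (j, l))) hne
      simp only
      rw [map_sub, map_mul, map_mul, eval_gev, eval_gev, eval_gev, eval_gev, h, sub_self]
    have h1 := hall _ hP (sel z0 z1 A) (sel z1 z0 A)
    rw [map_sub, map_mul, map_mul, eval_gev, eval_gev, eval_gev, eval_gev, sub_eq_zero] at h1
    have e1 : sel (sel z0 z1 A) (sel z1 z0 A) ∅ = sel z0 z1 A := by
      funext i; simp [sel]
    have e2 : sel (sel z0 z1 A) (sel z1 z0 A) {j, l} = sel z0 z1 (insert j (insert l A)) := by
      funext i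
      unfold sel
      by_cases hj : i = j
      · subst hj; simp [hjA]
      · by_cases hl : i = l
        · subst hl; simp [hlA]
        · simp [hj, hl]
    have e3 : sel (sel z0 z1 A) (sel z1 z0 A) {j} = sel z0 z1 (insert j A) := by
      funext i
      unfold sel
      by_cases hj : i = j
      · subst hj; simp [hjA]
      · simp [hj]
    have e4 : sel (sel z0 z1 A) (sel z1 z0 A) {l} = sel z0 z1 (insert l A) := by
      funext i
      unfold sel
      by_cases hj : i = l
      · subst hj; simp [hlA]
      · simp [hj]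
    rw [e1, e2, e3, e4] at h1
    exact h1
  · have hP : gev T ∅ * gev T (insert l (Finset.univ.erase l)) -
        gev T (insert l ∅) * gev T (Finset.univ.erase l) = 0 := by
      by_contra hne
      apply hz (Sum.inr (Sum.inr l)) hne
      simp only
      rw [map_sub, map_mul, map_mul, eval_gev, eval_gev, eval_gev, eval_gev,
        h ∅ (Finset.univ.erase l) (by simp) (by simp), sub_self]
    have h1 := hall _ hP (fun j => Pi.single (p j) 1) (fun j => Pi.single (q j) 1)
    rw [map_sub, map_mul, map_mul, eval_gev, eval_gev, eval_gev, eval_gev, sub_eq_zero] at h1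
    rw [ev_single T p _ (fun j => by simp [sel]),
      ev_single T q _ (fun j => by
        unfold sel
        rw [if_pos (by by_cases hj : j = l <;> simp [hj])]),
      ev_single T (Function.update p l (q l)) _ (fun j => by
        unfold sel
        by_cases hj : j = l
        · subst hj; simp
        · simp [hj]),
      ev_single T (Function.update q l (p l)) _ (fun j => by
        unfold sel
        by_cases hj : j = l
        · subst hj; simp
        · simp [hj])] at h1
    exact h1

/-- a bordered diagonal matrix of corank zero -/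
theorem det_border_ne {d : ℕ} (N : Matrix (Fin (d + 1)) (Fin (d + 1)) ℂ) (h00 : N 0 0 ≠ 0)
    (hne : ∀ a b : Fin d, a ≠ b → N 0 0 * N a.succ b.succ = N a.succ 0 * N 0 b.succ)
    (heq : ∀ a : Fin d, N 0 0 * N a.succ a.succ ≠ N a.succ 0 * N 0 a.succ) : N.det ≠ 0 := by
  classical
  intro hdet
  obtain ⟨v, hv, hNv⟩ := Matrix.exists_mulVec_eq_zero_iff.2 hdet
  have hrow : ∀ a, N a 0 * v 0 + ∑ b : Fin d, N a b.succ * v b.succ = 0 := by
    intro a
    have h1 := congrFun hNv a
    rw [Matrix.mulVec, dotProduct, Fin.sum_univ_succ] at h1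
    exact h1
  have hs : ∀ a : Fin d, v a.succ = 0 := by
    intro a
    have h0 := hrow 0
    have h1 := hrow a.succ
    have h2 : N 0 0 * ∑ b : Fin d, N a.succ b.succ * v b.succ =
        N a.succ 0 * ∑ b : Fin d, N 0 b.succ * v b.succ +
          (N 0 0 * N a.succ a.succ - N a.succ 0 * N 0 a.succ) * v a.succ := by
      rw [Finset.mul_sum, Finset.mul_sum]
      rw [← Finset.add_sum_erase _ _ (Finset.mem_univ a),
        ← Finset.add_sum_erase _ (fun b => N a.succ 0 * (N 0 b.succ * v b.succ)) (Finset.mem_univ a)]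
      have h3 : ∑ b ∈ Finset.univ.erase a, N 0 0 * (N a.succ b.succ * v b.succ) =
          ∑ b ∈ Finset.univ.erase a, N a.succ 0 * (N 0 b.succ * v b.succ) := by
        refine Finset.sum_congr rfl fun b hb => ?_
        have := hne a b (Finset.ne_of_mem_erase hb).symm
        linear_combination v b.succ * this
      rw [h3]
      ring
    have h4 : (N 0 0 * N a.succ a.succ - N a.succ 0 * N 0 a.succ) * v a.succ = 0 := by
      linear_combination N 0 0 * h1 - N a.succ 0 * h0 - h2
    rcases mul_eq_zero.1 h4 with h5 | h5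
    · exact absurd (sub_eq_zero.1 h5) (heq a)
    · exact h5
  apply hv
  funext a
  refine Fin.cases ?_ (fun a => hs a) a
  have h0 := hrow 0
  simp only [hs, mul_zero, Finset.sum_const_zero, add_zero] at h0
  exact (mul_eq_zero.1 h0).resolve_left h00

/-- evaluation after a linear map of tensor products -/
theorem eval_lmap {n n' : ℕ} {m : Fin n → ℕ} {m' : Fin n' → ℕ} (β : Wd m → Wd m' → ℂ)
    (T : Wd m' → ℂ) (f : Pol m) :
    eval T (lmap β f) = eval (fun w => ∑ w', β w w' * T w') f := by
  unfold lmap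
  rw [aeval_def, ← coe_eval₂Hom]
  have h1 : (eval T).comp (eval₂Hom (algebraMap ℂ (Pol m'))
      (fun w : Wd m => ∑ w' : Wd m', C (β w w') * X w')) = eval (fun w => ∑ w', β w w' * T w') := by
    apply MvPolynomial.ringHom_ext
    · intro r
      simp [algebraMap_eq]
    · intro w
      simp
  exact congrFun (congrArg DFunLike.coe h1) f

theorem eval_gdet (d : ℕ) (z : Wd (fun _ : Fin 2 => d + 1) → ℂ) :
    eval z (gdet d) = Matrix.det (Matrix.of fun i j : Fin (d + 1) =>
      z (fun t : Fin 2 => if t = 0 then i else j)) := by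
  unfold gdet
  rw [RingHom.map_det]
  congr 1
  ext i j
  simp

/-- TARGET 2 -/
theorem few_of_wten (J : DeltaIdeal) (d : ℕ) (hd : 1 ≤ d) (hJ : gdet d ∈ J.I (fun _ : Fin 2 => d + 1)) {k : ℕ}
    (f : Pol (two (k + 1))) (hf : f ∈ J.I (two (k + 1))) (hW : eval (wten (k + 1)) f ≠ 0) :
    J.FewFactors ((2 * (k + 1) + 1) * d) := by
  classical
  intro n m T hT S hS
  by_contra hcon
  push Not at hcon
  have hSne : S.Nonempty := by
    rw [← Finset.card_pos]; omega
  have hT0 : T ≠ 0 := by
    rintro rfl
    obtain ⟨l, hl⟩ := hSne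
    apply hcon l hl
    intro p q
    simp
  obtain ⟨z0, z1, hne, hP2, hP3⟩ := exists_generic T hT0
  set τ : Finset (Fin (n + 1)) → ℂ := fun A => ev T (sel z0 z1 A) with hτ
  -- adjacency
  set adj : Fin (n + 1) → Fin (n + 1) → Prop := fun j l =>
    j ≠ l ∧ τ ∅ * τ {j, l} ≠ τ {j} * τ {l} with hadj
  have hsymm : ∀ j l, adj j l → adj l j := by
    rintro j l ⟨h1, h2⟩
    refine ⟨h1.symm, ?_⟩
    rw [Finset.pair_comm, mul_comm (τ {l})]
    exact h2
  -- few neighbours
  have hdeg : ∀ j, (Finset.univ.filter (fun l => adj j l)).card ≤ k := by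
    intro j
    by_contra hgt
    rw [not_le] at hgt
    obtain ⟨U, hU, hUc⟩ := Finset.exists_subset_card_eq (s := Finset.univ.filter (fun l => adj j l))
      (n := k + 1) (by omega)
    set e := (Finset.equivFinOfCardEq hUc).symm with he
    obtain ⟨i, hi⟩ := star J f hf hW m T hT z0 z1 j (fun i => (e i : Fin (n + 1)))
      (fun a b hab => e.injective (Subtype.ext hab))
      (fun i => ((Finset.mem_filter.1 (hU (e i).2)).2.1).symm)
    exact (Finset.mem_filter.1 (hU (e i).2)).2.2 hi
  -- each column of S has a neighbour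
  have hnb : ∀ l ∈ S, ∃ j, adj l j := by
    intro l hl
    by_contra hno
    push Not at hno
    have h1 : ∀ j, j ≠ l → ∀ A : Finset (Fin (n + 1)), j ∉ A → l ∉ A →
        τ A * τ (insert j (insert l A)) = τ (insert j A) * τ (insert l A) := by
      intro j hj
      refine hP2 j l hj ?_
      have h2 := hno j
      simp only [hadj] at h2
      push Not at h2
      have h3 := h2 hj.symm
      rw [Finset.pair_comm, mul_comm (τ {l})] at h3
      exact h3
    have h4 : ∀ A : Finset (Fin (n + 1)), l ∉ A → τ (insert l A) * τ ∅ = τ A * τ {l} := by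
      intro A
      induction A using Finset.induction_on with
      | empty =>
        intro _
        rw [mul_comm]
        rfl
      | insert j A hjA ih =>
        intro hlA
        have hjl : j ≠ l := by
          rintro rfl
          exact hlA (Finset.mem_insert_self _ _)
        have hlA' : l ∉ A := fun h => hlA (Finset.mem_insert_of_mem h)
        have h5 := h1 j hjl A hjA hlA'
        have h6 := ih hlA'
        rw [Finset.insert_comm]
        apply mul_left_cancel₀ (hne A)
        calc τ A * (τ (insert j (insert l A)) * τ ∅)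
            = (τ A * τ (insert j (insert l A))) * τ ∅ := by ring
          _ = τ (insert j A) * (τ (insert l A) * τ ∅) := by rw [h5]; ring
          _ = τ A * (τ (insert j A) * τ {l}) := by rw [h6]; ring
    apply hcon l hl
    apply hP3 l
    intro A B hA hB
    apply mul_right_cancel₀ (hne ∅)
    have h5 := h4 A hA
    have h6 := h4 B hB
    calc τ A * τ (insert l B) * τ ∅ = τ A * (τ (insert l B) * τ ∅) := by ring
      _ = (τ A * τ {l}) * τ B := by rw [h6]; ring
      _ = τ (insert l A) * τ B * τ ∅ := by rw [← h5]; ring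
  choose! g hg using hnb
  -- independent columns
  have hcard : Fintype.card {x // x ∈ S} = S.card := Fintype.card_coe S
  obtain ⟨U, hUc, hU⟩ := exists_independent (ι := {x // x ∈ S})
    (fun j j' => (j : Fin (n + 1)) = g j' ∨ adj j (g j')) (k + 1) d
    (by
      intro j'
      rw [← Finset.card_image_of_injective _ (Subtype.val_injective (p := fun x => x ∈ S))]
      have h2 : Finset.image (Subtype.val : {x // x ∈ S} → Fin (n + 1))
          (Finset.univ.filter (fun j : {x // x ∈ S} =>
          (j : Fin (n + 1)) = g j' ∨ adj j (g j'))) ⊆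
          insert (g j') (Finset.univ.filter (fun l => adj (g j') l)) := by
        intro x hx
        obtain ⟨j, hj, rfl⟩ := Finset.mem_image.1 hx
        rcases (Finset.mem_filter.1 hj).2 with h | h
        · rw [h]; exact Finset.mem_insert_self _ _
        · exact Finset.mem_insert_of_mem (Finset.mem_filter.2 ⟨Finset.mem_univ _, hsymm _ _ h⟩)
      calc _ ≤ _ := Finset.card_le_card h2
        _ ≤ (Finset.univ.filter (fun l => adj (g j') l)).card + 1 := Finset.card_insert_le _ _
        _ ≤ k + 1 := by have := hdeg (g j'); omega)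
    (by rw [hcard]; exact hS.le)
  set e := (Finset.equivFinOfCardEq hUc).symm with he
  set jj : Fin d → Fin (n + 1) := fun a => ((e a : {x // x ∈ S}) : Fin (n + 1)) with hjj
  set ll : Fin d → Fin (n + 1) := fun a => g (jj a) with hll
  have hjS : ∀ a, jj a ∈ S := fun a => (e a : {x // x ∈ S}).2
  have hadjjl : ∀ a, adj (jj a) (ll a) := fun a => hg _ (hjS a)
  have hR : ∀ a b, a ≠ b → jj a ≠ ll b ∧ ¬ adj (jj a) (ll b) := by
    intro a b hab
    have h1 := hU (e a) (e a).2 (e b) (e b).2 (by
      intro h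
      exact hab (e.injective (Subtype.ext h)))
    push Not at h1
    exact h1
  have hjl : ∀ a b, jj a ≠ ll b := by
    intro a b
    by_cases hab : a = b
    · subst hab; exact (hadjjl a).1
    · exact (hR a b hab).1
  set A₀ : Finset (Fin (n + 1)) := Finset.univ.image jj with hA₀
  have hjA : ∀ a, jj a ∈ A₀ := fun a => Finset.mem_image.2 ⟨a, Finset.mem_univ _, rfl⟩
  have hlA : ∀ a, ll a ∉ A₀ := by
    intro a h
    obtain ⟨b, _, hb⟩ := Finset.mem_image.1 h
    exact hjl b a hb
  -- the functionals
  set xx : Fin (d + 1) → (j : Fin (n + 1)) → Fin (m j) → ℂ :=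
    Fin.cases z0 (fun a => sel z0 z1 {jj a}) with hxx
  set yy : Fin (d + 1) → (j : Fin (n + 1)) → Fin (m j) → ℂ :=
    Fin.cases z0 (fun a => sel z0 z1 {ll a}) with hyy
  set N : Matrix (Fin (d + 1)) (Fin (d + 1)) ℂ := Matrix.of fun a b =>
    ev T (fun j => if j ∈ A₀ then xx a j else yy b j) with hN
  have e00 : N 0 0 = τ ∅ := by
    simp only [hN, Matrix.of_apply, hτ]
    congr 1
    funext j
    simp [hxx, hyy, sel]
  have ea0 : ∀ a : Fin d, N a.succ 0 = τ {jj a} := by
    intro a
    simp only [hN, Matrix.of_apply, hτ]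
    congr 1
    funext j
    simp only [hxx, hyy, Fin.cases_succ, Fin.cases_zero, sel]
    by_cases hj : j ∈ A₀
    · rw [if_pos hj]
    · rw [if_neg hj, if_neg]
      intro h
      rw [Finset.mem_singleton] at h
      subst h
      exact hj (hjA a)
  have e0b : ∀ b : Fin d, N 0 b.succ = τ {ll b} := by
    intro b
    simp only [hN, Matrix.of_apply, hτ]
    congr 1
    funext j
    simp only [hxx, hyy, Fin.cases_succ, Fin.cases_zero, sel]
    by_cases hj : j ∈ A₀
    · rw [if_pos hj, if_neg]
      intro h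
      rw [Finset.mem_singleton] at h
      subst h
      exact hlA b hj
    · rw [if_neg hj]
  have eab : ∀ a b : Fin d, N a.succ b.succ = τ {jj a, ll b} := by
    intro a b
    simp only [hN, Matrix.of_apply, hτ]
    congr 1
    funext j
    simp only [hxx, hyy, Fin.cases_succ, sel, Finset.mem_insert, Finset.mem_singleton]
    by_cases hj : j ∈ A₀
    · rw [if_pos hj]
      have h1 : j ≠ ll b := by
        rintro rfl
        exact hlA b hj
      simp [h1]
    · rw [if_neg hj]
      have h1 : j ≠ jj a := by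
        rintro rfl
        exact hj (hjA a)
      simp [h1]
  have hdet : N.det ≠ 0 := by
    apply det_border_ne
    · rw [e00]; exact hne ∅
    · intro a b hab
      rw [e00, ea0, e0b, eab]
      have h1 := (hR a b hab).2
      simp only [hadj] at h1
      push Not at h1
      exact h1 (hjl a b)
    · intro a
      rw [e00, ea0, e0b, eab]
      exact (hadjjl a).2
  apply hdet
  -- the determinant vanishes
  set φ : Fin (n + 1) → Fin 2 := fun j => if j ∈ A₀ then 0 else 1 with hφ
  have hφs : Function.Surjective φ := by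
    intro t
    have h0 : (0 : ℕ) < d := hd
    fin_cases t
    · exact ⟨jj ⟨0, h0⟩, if_pos (hjA _)⟩
    · exact ⟨ll ⟨0, h0⟩, if_neg (hlA _)⟩
  set B : Fin 2 → Wd m → Fin (d + 1) → ℂ := fun t w' i =>
    if t = 0 then ∏ j ∈ A₀, xx i j (w' j) else ∏ j ∈ A₀ᶜ, yy i j (w' j) with hB
  have hmem := DeltaIdeal.mor J (n := 1) (n' := n) (fun _ : Fin 2 => d + 1) m φ hφs B (by
    intro t w w' h
    funext i
    simp only [hB]
    split_ifs with ht
    · refine Finset.prod_congr rfl fun j hj => ?_
      rw [h j (by simp only [hφ]; rw [if_pos hj, ht])]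
    · refine Finset.prod_congr rfl fun j hj => ?_
      rw [h j (by
        simp only [hφ]
        rw [if_neg (Finset.mem_compl.1 hj)]
        exact (Fin.eq_one_of_ne_zero t ht).symm)]) (gdet d) hJ
  have h0 := hT _ hmem
  rw [eval_lmap, eval_gdet] at h0
  rw [← h0]
  congr 1
  ext i j
  simp only [hN, Matrix.of_apply]
  unfold ev
  refine Finset.sum_congr rfl fun w _ => ?_
  rw [Fin.prod_univ_two, mul_comm]
  congr 1
  simp only [hB, if_true, one_ne_zero, if_false]
  rw [← Finset.prod_mul_prod_compl A₀]
  congr 1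
  · refine Finset.prod_congr rfl fun j hj => ?_
    rw [if_pos hj]
  · refine Finset.prod_congr rfl fun j hj => ?_
    rw [if_neg (Finset.mem_compl.1 hj)]

end Pool.Agent.Helper929_delta
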