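import Pool.Agent.Helper929_delta.X13
import Pool.Agent.Helper929_delta.X14

/-
The ascending chain condition for systems of ideals.
-/

namespace Pool.Agent.Helper929_delta

open MvPolynomial

/-- ascending chains of systems of ideals above a Delta-ideal with boundedly many non-trivial factors become
stationary -/
theorem xsys_acc {κ : Type} [Fintype κ] [DecidableEq κ] (J : DeltaIdeal) (d s : ℕ)
    (hmin : ∀ {n : ℕ} (m : Fin (n + 1) → ℕ), Minors d (J.I m)) (hfew : J.FewFactors s)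
    (𝒥 : ℕ → XSys κ)
    (hmono : ∀ (t : ℕ) {n : ℕ} (m : Fin (n + 1) → ℕ), (𝒥 t).I m ≤ (𝒥 (t + 1)).I m)
    (hJ : ∀ {n : ℕ} (m : Fin (n + 1) → ℕ) (f : Pol m), f ∈ J.I m → emb κ f ∈ (𝒥 0).I m)
    (hsq : ∀ {n : ℕ} (m : Fin (n + 1) → ℕ), Squares ((𝒥 0).I m)) :
    ∃ N, ∀ t, N ≤ t → ∀ {n : ℕ} (m : Fin (n + 1) → ℕ), (𝒥 t).I m = (𝒥 N).I m := by
  classical
  have hm : ∀ {n : ℕ} (m : Fin (n + 1) → ℕ), Monotone (fun t => (𝒥 t).I m) := fun m =>
    monotone_nat_of_le_succ (fun t => hmono t m)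
  set c : ℕ := d + Fintype.card κ with hc
  have hxm : ∀ (t : ℕ) {n : ℕ} (m : Fin (n + 1) → ℕ), XMinors c ((𝒥 t).I m) := by
    intro t n m
    refine xminors ((𝒥 t).I m) (fun r w w' => hm m (Nat.zero_le t) (hsq m r w w')) (J.I m)
      (fun f hf => hm m (Nat.zero_le t) (hJ m f hf)) d (hmin m) c (by omega)
  obtain ⟨M, hM, hfew'⟩ := (𝒥 0).few J hJ hsq c (fun m => hxm 0 m) s hfew
  choose Φ hΦ0 hΦ using fun t => (𝒥 t).exists_fam c
  obtain ⟨N, hN⟩ := core_acc κ c s M hM Φ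
    (by
      intro t n
      cases n with
      | zero => rw [hΦ0, hΦ0]
      | succ n => rw [hΦ, hΦ]; exact hmono t _)
    (by
      intro n
      cases n with
      | zero => rw [hΦ0]; exact fun _ _ _ => Submodule.mem_top
      | succ n => rw [hΦ]; exact hsq _)
    (by
      intro n
      cases n with
      | zero => rw [hΦ0]; exact fun _ _ _ _ => le_top
      | succ n => rw [hΦ]; exact hfew' _)
  refine ⟨N, fun t ht n m => le_antisymm ?_ (hm m ht)⟩
  refine xdetection (𝒥 N) (𝒥 t) c (fun m => hxm N m) (fun n => ?_) m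
  rw [← hΦ t n, ← hΦ N n, hN t ht (n + 1)]

end Pool.Agent.Helper929_delta
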