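import Pool.Agent.Helper929_delta.Level

/-
Polynomial rings with ordinary variables `(none, w)` and special variables `(some r, w)`.
-/

namespace Pool.Agent.Helper929_delta

open MvPolynomial

/-- the polynomial ring with ordinary variables `(none, w)` and special variables `(some r, w)` -/
abbrev XP (κ : Type) {n : ℕ} (m : Fin n → ℕ) : Type := MvPolynomial (Option κ × Wd m) ℂ

variable {κ : Type} {n : ℕ} {m : Fin n → ℕ}

/-- a linear map acting on one column -/
noncomputable def colMap (l : Fin n) (A : Matrix (Fin (m l)) (Fin (m l)) ℂ) :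
    XP κ m →ₐ[ℂ] XP κ m :=
  aeval (fun v : Option κ × Wd m => ∑ a : Fin (m l), C (A a (v.2 l)) * X (v.1, Function.update v.2 l a))

/-- the torus acting on the kinds of variables -/
noncomputable def kindMap (s : Option κ → ℂ) : XP κ m →ₐ[ℂ] XP κ m :=
  aeval (fun v : Option κ × Wd m => C (s v.1) * X v)

/-- the derivation which replaces a letter `b` in column `l` by `a` -/
noncomputable def XD (l : Fin n) (a b : Fin (m l)) : Derivation ℂ (XP κ m) (XP κ m) :=
  mkDerivation ℂ (fun v : Option κ × Wd m => if v.2 l = b then X (v.1, Function.update v.2 l a) else 0)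

/-- the weight of a variable: its kind and its letters -/
noncomputable def xwt (v : Option κ × Wd m) : (Option κ ⊕ (Σ i, Fin (m i))) →₀ ℕ :=
  Finsupp.single (Sum.inl v.1) 1 + ∑ i, Finsupp.single (Sum.inr ⟨i, v.2 i⟩) 1

/-- stability under all linear maps acting on one column, and under the torus of kinds -/
def XStable (I : Ideal (XP κ m)) : Prop :=
  (∀ (l : Fin n) (A : Matrix (Fin (m l)) (Fin (m l)) ℂ) (f : XP κ m), f ∈ I → colMap l A f ∈ I) ∧
  ∀ (s : Option κ → ℂ) (f : XP κ m), f ∈ I → kindMap s f ∈ I

/-- the two by two minors of the column `l` for the letters `a`, `b` -/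
noncomputable def minorIdeal (l : Fin n) (a b : Fin (m l)) : Ideal (XP κ m) :=
  Ideal.span {g | ∃ (k k' : Option κ) (p q : Wd m), p l = a ∧ q l = b ∧
    g = X (k, p) * X (k', q) - X (k, Function.update p l b) * X (k', Function.update q l a)}

/-- the word with the letters of `q` on `S` and those of `p` elsewhere -/
def mix (S : Finset (Fin n)) (q p : Wd m) : Wd m := fun i => if i ∈ S then q i else p i

/-- the two by two minors of the flattening given by `S` and its complement -/
noncomputable def swapIdeal (κ : Type) (m : Fin n → ℕ) (S : Finset (Fin n)) : Ideal (XP κ m) :=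
  Ideal.span {g | ∃ (k k' : Option κ) (p q : Wd m),
    g = X (k, p) * X (k', q) - X (k, mix S q p) * X (k', mix S p q)}

end Pool.Agent.Helper929_delta
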