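import Pool.Agent.Helper929_delta.XBasic

/-
Definitions for the chain condition in the case of boundedly many non-trivial factors.
-/

namespace Pool.Agent.Helper929_delta

open MvPolynomial

/-- the family of `n` spaces of dimension `c + 1` -/
abbrev cdim (c n : ℕ) : Fin n → ℕ := fun _ => c + 1

/-- a clean variable (relative to the set `B` of columns): it is ordinary and its letters outside `B` are zero -/
def Clean {κ : Type} {c n : ℕ} (B : Finset (Fin n)) (v : Option κ × Wd (cdim c n)) : Prop :=
  v.1 = none ∧ ∀ l : Fin n, l ∉ B → v.2 l = (0 : Fin (c + 1))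

open Classical in
/-- the degree of a monomial in the variables which are not clean -/
noncomputable def dirt {κ : Type} {c n : ℕ} (B : Finset (Fin n)) (e : (Option κ × Wd (cdim c n)) →₀ ℕ) : ℕ :=
  e.sum fun v k => if Clean B v then 0 else k

/-- all the monomials of `f` have degree at most `k` in the variables which are not clean -/
def DirtLE {κ : Type} {c n : ℕ} (B : Finset (Fin n)) (k : ℕ) (f : XP κ (cdim c n)) : Prop :=
  ∀ e ∈ f.support, dirt B e ≤ k

/-- the exchange binomial of two words in the column `l` -/
noncomputable def exch {κ : Type} {c n : ℕ} (l : Fin n) (p q : Wd (cdim c n)) : XP κ (cdim c n) :=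
  X (none, p) * X (none, q) - X (none, Function.update p l (q l)) * X (none, Function.update q l (p l))

/-- the condition on an ideal which expresses that at most `s` factors of a zero are non-trivial -/
def Few {κ : Type} {n : ℕ} {m : Fin n → ℕ} (s M : ℕ) (I : Ideal (XP κ m)) : Prop :=
  ∀ S : Fin (s + 1) → Finset (Fin n), (∀ i, (S i).Nonempty) → (∀ i j, i ≠ j → Disjoint (S i) (S j)) →
    (∃ l, ∀ i, l ∉ S i) → (⨅ i, swapIdeal κ m (S i) ^ M) ≤ I

/-- the ideal contains all products of two special variables of the same kind -/
def Squares {κ : Type} {n : ℕ} {m : Fin n → ℕ} (I : Ideal (XP κ m)) : Prop :=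
  ∀ (r : κ) (w w' : Wd m), X (some r, w) * X (some r, w') ∈ I

end Pool.Agent.Helper929_delta
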