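import Pool.Agent.Helper929_delta.XAcc
import Pool.Agent.Helper929_delta.X15
import Pool.Agent.Helper929_delta.X21
import Pool.Agent.Helper929_delta.Gen

/-
Finite generation of the Delta-ideals with boundedly many non-trivial factors.
-/

namespace Pool.Agent.Helper929_delta

open MvPolynomial

/-- set the special variables equal to zero -/
noncomputable def unemb (κ : Type) {n : ℕ} {m : Fin n → ℕ} : XP κ m →ₐ[ℂ] Pol m :=
  aeval (fun v : Option κ × Wd m => if v.1.isNone then X v.2 else 0)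

theorem unemb_emb (κ : Type) {n : ℕ} {m : Fin n → ℕ} (f : Pol m) : unemb κ (emb κ f) = f := by
  have : (unemb κ).comp (emb κ) = AlgHom.id ℂ (Pol m) := by
    apply MvPolynomial.algHom_ext
    intro w
    simp [unemb, emb]
  exact DFunLike.congr_fun this f

/-- the ascending chain condition for Delta-ideals with boundedly many non-trivial factors -/
theorem acc_few (J : ℕ → DeltaIdeal) (d s : ℕ)
    (hmin : ∀ {n : ℕ} (m : Fin (n + 1) → ℕ), Minors d ((J 0).I m)) (hfew : (J 0).FewFactors s)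
    (hmono : ∀ (t : ℕ) {n : ℕ} (m : Fin (n + 1) → ℕ), (J t).I m ≤ (J (t + 1)).I m) :
    ∃ N, ∀ t, N ≤ t → ∀ {n : ℕ} (m : Fin (n + 1) → ℕ), (J t).I m = (J N).I m := by
  classical
  have hex : ∀ t : ℕ, ∃ 𝒥 : XSys (Fin 0), ∀ {n : ℕ} (m : Fin (n + 1) → ℕ),
      𝒥.I m = Ideal.span (koGen (J t) 0 (fun _ => ∅) m) := fun t =>
    exists_koSys (J t) 0 (fun _ => ∅) (fun m m' β hβ ω hω => hω.elim) (fun m ω hω => hω.elim)
  choose 𝒥 h𝒥 using hex
  have hm : ∀ {n : ℕ} (m : Fin (n + 1) → ℕ), Monotone (fun t => (J t).I m) := fun m =>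
    monotone_nat_of_le_succ (fun t => hmono t m)
  obtain ⟨N, hN⟩ := xsys_acc (J 0) d s hmin hfew 𝒥
    (by
      intro t n m
      rw [h𝒥, h𝒥]
      refine Ideal.span_mono ?_
      rintro f ((⟨g, hg, rfl⟩ | ⟨r, _⟩) | ⟨ω, hω, _⟩)
      · exact Or.inl (Or.inl ⟨g, hmono t m hg, rfl⟩)
      · exact r.elim0
      · exact hω.elim)
    (by
      intro n m f hf
      rw [h𝒥]
      exact Ideal.subset_span (Or.inl (Or.inl ⟨f, hf, rfl⟩)))
    (fun m r => r.elim0)
  refine ⟨N, fun t ht n m => le_antisymm (fun f hf => ?_) (hm m ht)⟩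
  have h1 : emb (Fin 0) f ∈ (𝒥 t).I m := by
    rw [h𝒥]
    exact Ideal.subset_span (Or.inl (Or.inl ⟨f, hf, rfl⟩))
  rw [hN t ht m, h𝒥] at h1
  have h2 : Ideal.span (koGen (J N) 0 (fun _ => ∅) m) ≤ ((J N).I m).comap (unemb (Fin 0)) := by
    rw [Ideal.span_le]
    rintro f ((⟨g, hg, rfl⟩ | ⟨r, _⟩) | ⟨ω, hω, _⟩)
    · rw [SetLike.mem_coe, Ideal.mem_comap]
      have h3 := unemb_emb (Fin 0) g
      exact (congrArg (· ∈ (J N).I m) h3).mpr hg
    · exact r.elim0
    · exact hω.elim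
  have h3 := h2 h1
  rw [Ideal.mem_comap] at h3
  have h4 := unemb_emb (Fin 0) f
  exact (congrArg (· ∈ (J N).I m) h4).mp h3

/-- A class of Delta-ideals closed under intersections, defined by the containment of a finite set of elements,
with the ascending chain condition: its members are finitely generated. -/
theorem fin_gen_of_acc (J : DeltaIdeal) (S₀ : Set Elt) (hS₀ : S₀.Finite) (hJ : ∀ e ∈ S₀, J.Has e)
    (hacc : ∀ K : ℕ → DeltaIdeal, (∀ (t : ℕ) {n : ℕ} (m : Fin (n + 1) → ℕ), (K t).I m ≤ (K (t + 1)).I m) →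
      (∀ e ∈ S₀, (K 0).Has e) →
      ∃ N, ∀ t, N ≤ t → ∀ {n : ℕ} (m : Fin (n + 1) → ℕ), (K t).I m = (K N).I m) :
    ∃ S : Set Elt, S.Finite ∧ (∀ e ∈ S, J.Has e) ∧
      ∀ J' : DeltaIdeal, (∀ e ∈ S, J'.Has e) → J.Sub J' := by
  classical
  by_contra hcon
  push Not at hcon
  let gen : Set Elt → DeltaIdeal := fun S => DeltaIdeal.inter {J' : DeltaIdeal | ∀ e ∈ S, J'.Has e}
  have hgen : ∀ (S : Set Elt) {n : ℕ} (m : Fin (n + 1) → ℕ) (f : Pol m), f ∈ (gen S).I m ↔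
      ∀ K : DeltaIdeal, (∀ e ∈ S, K.Has e) → f ∈ K.I m := by
    intro S n m f
    change f ∈ (⨅ K ∈ {J' : DeltaIdeal | ∀ e ∈ S, J'.Has e}, DeltaIdeal.I K m) ↔ _
    simp only [Submodule.mem_iInf, Set.mem_setOf_eq]
  have hnew : ∀ S : Set Elt, S.Finite → (∀ e ∈ S, J.Has e) →
      ∃ t : Elt, J.Has t ∧ ¬ (gen S).Has t := by
    intro S hS hSJ
    obtain ⟨J', h2, h3⟩ := hcon S hS hSJ
    simp only [DeltaIdeal.Sub, not_forall] at h3
    obtain ⟨n, m, h3⟩ := h3
    obtain ⟨f, hf, hf'⟩ := SetLike.not_le_iff_exists.mp h3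
    refine ⟨⟨n, m, f⟩, hf, fun h4 => hf' ?_⟩
    exact (hgen S m f).mp h4 J' h2
  -- construct the sequence
  let F := {S : Set Elt // S.Finite ∧ ∀ e ∈ S, J.Has e}
  let next : F → F := fun S => ⟨insert (hnew S.1 S.2.1 S.2.2).choose S.1,
    S.2.1.insert _, by
      intro s hs
      rcases Set.mem_insert_iff.mp hs with rfl | hs
      · exact (hnew S.1 S.2.1 S.2.2).choose_spec.1
      · exact S.2.2 s hs⟩
  let seq : ℕ → F := fun r => next^[r] ⟨S₀, hS₀, hJ⟩
  have hseq : ∀ r, seq (r + 1) = next (seq r) := fun r => Function.iterate_succ_apply' _ _ _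
  obtain ⟨N, hN⟩ := hacc (fun r => gen (seq r).1)
    (by
      intro r n m f hf
      rw [hgen] at hf ⊢
      intro K hKS
      refine hf K (fun e he => hKS e ?_)
      rw [hseq]
      exact Set.mem_insert_of_mem _ he)
    (by
      intro e he
      change e.f ∈ (gen (seq 0).1).I e.m
      rw [hgen]
      exact fun K hK => hK e he)
  have h1 := (hnew (seq N).1 (seq N).2.1 (seq N).2.2).choose_spec.2
  set t := (hnew (seq N).1 (seq N).2.1 (seq N).2.2).choose with ht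
  have h2 : t ∈ (seq (N + 1)).1 := by
    rw [hseq]
    exact Set.mem_insert _ _
  have h3 : t.f ∈ (gen (seq (N + 1)).1).I t.m := by
    rw [hgen]
    exact fun K hKS => hKS t h2
  rw [hN (N + 1) (Nat.le_succ N) t.m] at h3
  exact h1 h3

/-- finite generation -/
theorem fin_gen_of_wten (J : DeltaIdeal) (d : ℕ) (hd : 1 ≤ d) (hJ : gdet d ∈ J.I (fun _ : Fin 2 => d + 1)) {k : ℕ}
    (f : Pol (two (k + 1))) (hf : f ∈ J.I (two (k + 1))) (hW : eval (wten (k + 1)) f ≠ 0) :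
    ∃ S : Set Elt, S.Finite ∧ (∀ e ∈ S, J.Has e) ∧
      ∀ J' : DeltaIdeal, (∀ e ∈ S, J'.Has e) → J.Sub J' := by
  refine fin_gen_of_acc J {⟨1, fun _ => d + 1, gdet d⟩, ⟨k, two (k + 1), f⟩} (Set.toFinite _) ?_ ?_
  · rintro e (rfl | rfl)
    · exact hJ
    · exact hf
  · intro K hK hK0
    have h1 : gdet d ∈ (K 0).I (fun _ : Fin 2 => d + 1) := hK0 ⟨1, fun _ => d + 1, gdet d⟩ (Or.inl rfl)
    have h2 : f ∈ (K 0).I (two (k + 1)) := hK0 ⟨k, two (k + 1), f⟩ (Or.inr rfl)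
    exact acc_few K d _ (fun m => minors_of_det (K 0) d hd h1 m) (few_of_wten (K 0) d hd h1 f h2 hW) hK

end Pool.Agent.Helper929_delta
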