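import Pool.Agent.Helper929_delta.XTor
import Pool.Agent.Helper929_delta.XFin

/-
The main theorem on Delta-ideals of finite level which do not vanish on the tangent varieties.
-/

namespace Pool.Agent.Helper929_delta

open MvPolynomial

theorem DeltaIdeal.LevelLE.mono {J : DeltaIdeal} {d d' : ℕ} (h : J.LevelLE d) (hd : d ≤ d') :
    J.LevelLE d' := by
  intro n m lam f hf hD ⟨l, a, ha, hlam⟩
  exact h m lam f hf hD ⟨l, a, hd.trans ha, hlam⟩

theorem main_not_tangential (J : DeltaIdeal) (d : ℕ) (hd : J.LevelLE d) (hJ : J.NotTangential) :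
    J.FinGen ∧ ∀ p, J.SyzBounded p := by
  obtain ⟨k, f, hf, hW⟩ := hJ
  have hmin : ∀ {n : ℕ} (m : Fin (n + 1) → ℕ), Minors (d + 1) (J.I m) := fun m =>
    minors_of_level J (d + 1) (hd.mono (Nat.le_succ d)) m
  have hg : gdet (d + 1) ∈ J.I (fun _ : Fin 2 => d + 1 + 1) :=
    gdet_mem (J.I (n := 1) (fun _ : Fin 2 => d + 1 + 1)) (hmin (n := 1) _)
  have h1 : 1 ≤ d + 1 := Nat.succ_le_succ (Nat.zero_le d)
  exact ⟨fin_gen_of_wten J (d + 1) h1 hg f hf hW, fun p =>
    koszul_vanishing J (d + 1) _ hmin (few_of_wten J (d + 1) h1 hg f hf hW) p⟩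

end Pool.Agent.Helper929_delta
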