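import Pool.Agent.Helper929_delta.XSys

/-
General functoriality of Delta-ideals.
-/

namespace Pool.Agent.Helper929_delta

open MvPolynomial

/-- renaming the variables by a bijection of words after `lmap` -/
theorem lmap_rename {n k k' : ℕ} {m : Fin n → ℕ} {p : Fin k → ℕ} {m' : Fin k' → ℕ}
    (g : Wd p → Wd m') (hg : Function.Bijective g) (β : Wd m → Wd m' → ℂ) (f : Pol m) :
    rename g (lmap (fun w v => β w (g v)) f) = lmap β f := by
  have key : (rename g : Pol p →ₐ[ℂ] Pol m').comp (lmap (fun w v => β w (g v))) = lmap β := by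
    apply MvPolynomial.algHom_ext
    intro w
    rw [AlgHom.comp_apply, lmap, lmap, aeval_X, aeval_X, map_sum]
    rw [← hg.sum_comp (fun w' : Wd m' => C (β w w') * X w')]
    refine Finset.sum_congr rfl fun v _ => ?_
    rw [map_mul, rename_C, rename_X]
  rw [← key]
  rfl

/-- the case where the map of columns is injective -/
theorem DeltaIdeal.mor_inj (J : DeltaIdeal) {n : ℕ} (m : Fin (n + 1) → ℕ) (m' : Fin (n + 1) → ℕ)
    (φ : Fin (n + 1) → Fin (n + 1)) (hφ : Function.Bijective φ)
    (B : ∀ l : Fin (n + 1), Wd m' → Fin (m l) → ℂ)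
    (hB : ∀ (l : Fin (n + 1)) (w w' : Wd m'), (∀ j, φ j = l → w j = w' j) → B l w = B l w')
    (f : Pol m) (hf : f ∈ J.I m) :
    lmap (fun w w' => ∏ l, B l w' (w l)) f ∈ J.I m' := by
  classical
  have h1 := J.perm m (Equiv.ofBijective φ hφ) f hf
  have h2 := J.lin _ m' (fun j => Matrix.of fun (x : Fin (m' j)) (a : Fin (m (φ j))) =>
    if h : ∃ w' : Wd m', w' j = x then B (φ j) h.choose a else 0) _ h1
  have key : (mapLin (fun j => Matrix.of fun (x : Fin (m' j)) (a : Fin (m (φ j))) =>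
      if h : ∃ w' : Wd m', w' j = x then B (φ j) h.choose a else 0)).comp
      (rename (fun (w : Wd m) (i : Fin (n + 1)) => w (φ i)) :
        Pol m →ₐ[ℂ] Pol (fun i => m (φ i))) =
      lmap (fun w w' => ∏ l, B l w' (w l)) := by
    apply MvPolynomial.algHom_ext
    intro w
    rw [AlgHom.comp_apply, rename_X, mapLin, lmap, aeval_X, aeval_X]
    refine Finset.sum_congr rfl fun w' _ => ?_
    congr 2
    rw [← hφ.prod_comp (fun l => B l w' (w l))]
    refine Finset.prod_congr rfl fun j _ => ?_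
    have hex : ∃ v : Wd m', v j = w' j := ⟨w', rfl⟩
    rw [Matrix.of_apply, dif_pos hex, hB (φ j) hex.choose w' fun j' hj' => ?_]
    rw [hφ.1 hj']
    exact hex.choose_spec
  rw [← key]
  exact h2

theorem splitWord_bijective {n : ℕ} (a b : ℕ) (m : Fin n → ℕ) :
    Function.Bijective (splitWord a b m) := by
  constructor
  · intro w w' h
    have h0 : (finProdFinEquiv.symm (w 0 : Fin (a * b))).1 =
        (finProdFinEquiv.symm (w' 0 : Fin (a * b))).1 := congrFun h 0
    have h1 : (finProdFinEquiv.symm (w 0 : Fin (a * b))).2 =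
        (finProdFinEquiv.symm (w' 0 : Fin (a * b))).2 := congrFun h 1
    have h2 : ∀ i : Fin n, (w i.succ : Fin (m i)) = w' i.succ := fun i => congrFun h i.succ.succ
    funext i
    refine Fin.cases ?_ (fun i => ?_) i
    · exact finProdFinEquiv.symm.injective (Prod.ext h0 h1)
    · exact h2 i
  · intro w'
    refine ⟨Fin.cons (α := fun i => Fin ((Fin.cons (a * b) m : Fin (n + 1) → ℕ) i))
      (finProdFinEquiv ((w' 0 : Fin a), (w' 1 : Fin b)) : Fin (a * b))
      (fun i : Fin n => (w' i.succ.succ : Fin (m i))), ?_⟩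
    funext i
    refine Fin.cases ?_ (fun i => ?_) i
    · change (finProdFinEquiv.symm (finProdFinEquiv ((w' 0 : Fin a), (w' 1 : Fin b)))).1 = w' 0
      rw [Equiv.symm_apply_apply]
    · refine Fin.cases ?_ (fun i => ?_) i
      · change (finProdFinEquiv.symm (finProdFinEquiv ((w' 0 : Fin a), (w' 1 : Fin b)))).2 = w' 1
        rw [Equiv.symm_apply_apply]
      · rfl

/-- the case where the first two columns have the same image -/
theorem DeltaIdeal.mor_merge (J : DeltaIdeal) {k : ℕ}
    (ih : ∀ {n : ℕ} (m : Fin (n + 1) → ℕ) (m' : Fin (k + 1) → ℕ)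
      (φ : Fin (k + 1) → Fin (n + 1)) (_ : Function.Surjective φ)
      (B : ∀ l : Fin (n + 1), Wd m' → Fin (m l) → ℂ)
      (_ : ∀ (l : Fin (n + 1)) (w w' : Wd m'), (∀ j, φ j = l → w j = w' j) → B l w = B l w')
      (f : Pol m) (_ : f ∈ J.I m), lmap (fun w w' => ∏ l, B l w' (w l)) f ∈ J.I m')
    {n : ℕ} (m : Fin (n + 1) → ℕ) (m' : Fin (k + 1 + 1) → ℕ)
    (φ : Fin (k + 1 + 1) → Fin (n + 1)) (hφ : Function.Surjective φ) (h01 : φ 0 = φ 1)
    (B : ∀ l : Fin (n + 1), Wd m' → Fin (m l) → ℂ)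
    (hB : ∀ (l : Fin (n + 1)) (w w' : Wd m'), (∀ j, φ j = l → w j = w' j) → B l w = B l w')
    (f : Pol m) (hf : f ∈ J.I m) :
    lmap (fun w w' => ∏ l, B l w' (w l)) f ∈ J.I m' := by
  obtain ⟨a, m1, rfl⟩ : ∃ (a : ℕ) (m1 : Fin (k + 1) → ℕ), m' = Fin.cons a m1 :=
    ⟨m' 0, Fin.tail m', (Fin.cons_self_tail m').symm⟩
  obtain ⟨b, m2, rfl⟩ : ∃ (b : ℕ) (m2 : Fin k → ℕ), m1 = Fin.cons b m2 :=
    ⟨m1 0, Fin.tail m1, (Fin.cons_self_tail m1).symm⟩
  have h1 := ih m (Fin.cons (a * b) m2) (fun j => φ j.succ) (fun l => by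
    obtain ⟨j, rfl⟩ := hφ l
    refine Fin.cases ?_ (fun j => ?_) j
    · exact ⟨0, h01.symm⟩
    · exact ⟨j, rfl⟩) (fun l w => B l (splitWord a b m2 w)) (fun l w w' h => by
    apply hB
    intro j hj
    revert hj
    refine Fin.cases (fun hj => ?_) (fun j hj => ?_) j
    · have h2 : (w 0 : Fin (a * b)) = w' 0 := h 0 (by rw [← hj, h01]; rfl)
      change (finProdFinEquiv.symm (w 0 : Fin (a * b))).1 =
        (finProdFinEquiv.symm (w' 0 : Fin (a * b))).1
      rw [h2]
    · revert hj
      refine Fin.cases (fun hj => ?_) (fun j hj => ?_) j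
      · have h2 : (w 0 : Fin (a * b)) = w' 0 := h 0 hj
        change (finProdFinEquiv.symm (w 0 : Fin (a * b))).2 =
          (finProdFinEquiv.symm (w' 0 : Fin (a * b))).2
        rw [h2]
      · exact h j.succ hj) f hf
  have h2 := J.split a b m2 _ h1
  rw [← lmap_rename (splitWord a b m2) (splitWord_bijective a b m2)]
  exact h2

theorem exists_perm_01 {k : ℕ} (j1 j2 : Fin (k + 1 + 1)) (h : j1 ≠ j2) :
    ∃ σ : Equiv.Perm (Fin (k + 1 + 1)), σ 0 = j1 ∧ σ 1 = j2 := by
  have h0 : Equiv.swap 0 j1 j2 ≠ 0 := by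
    intro h1
    apply h
    have h2 := congrArg (Equiv.swap 0 j1) h1
    rw [Equiv.swap_apply_left] at h2
    simpa using h2.symm
  refine ⟨(Equiv.swap 1 (Equiv.swap 0 j1 j2)).trans (Equiv.swap 0 j1), ?_, ?_⟩
  · rw [Equiv.trans_apply, Equiv.swap_apply_of_ne_of_ne (by simp) h0.symm, Equiv.swap_apply_left]
  · rw [Equiv.trans_apply, Equiv.swap_apply_left]
    simp

/-- TARGET -/
theorem DeltaIdeal.mor (J : DeltaIdeal) {n n' : ℕ} (m : Fin (n + 1) → ℕ) (m' : Fin (n' + 1) → ℕ)
    (φ : Fin (n' + 1) → Fin (n + 1)) (hφ : Function.Surjective φ)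
    (B : ∀ l : Fin (n + 1), Wd m' → Fin (m l) → ℂ)
    (hB : ∀ (l : Fin (n + 1)) (w w' : Wd m'), (∀ j, φ j = l → w j = w' j) → B l w = B l w')
    (f : Pol m) (hf : f ∈ J.I m) :
    lmap (fun w w' => ∏ l, B l w' (w l)) f ∈ J.I m' := by
  induction n' generalizing n with
  | zero =>
    have hinj : Function.Injective φ := fun i j _ => Fin.ext (by omega)
    obtain rfl : n = 0 := by
      have := Fintype.card_of_bijective ⟨hinj, hφ⟩
      simpa using this.symm
    exact J.mor_inj m m' φ ⟨hinj, hφ⟩ B hB f hf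
  | succ k ih =>
    by_cases hinj : Function.Injective φ
    · obtain rfl : n = k + 1 := by
        have := Fintype.card_of_bijective ⟨hinj, hφ⟩
        simpa using this.symm
      exact J.mor_inj m m' φ ⟨hinj, hφ⟩ B hB f hf
    · rw [Function.Injective] at hinj
      push Not at hinj
      obtain ⟨j1, j2, hj, hne⟩ := hinj
      obtain ⟨σ, hσ0, hσ1⟩ := exists_perm_01 j1 j2 hne
      set e : Wd (fun i => m' (σ i)) ≃ Wd m' := Equiv.piCongrLeft (fun j => Fin (m' j)) σ with he
      have hev : ∀ (w : Wd (fun i => m' (σ i))) (i), e w (σ i) = w i := fun w i =>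
        Equiv.piCongrLeft_apply_apply (fun j => Fin (m' j)) σ w i
      have h1 := J.mor_merge (k := k) (fun {n} m m' φ hφ B hB f hf => ih m m' φ hφ B hB f hf) m
        (fun i => m' (σ i)) (fun i => φ (σ i)) (hφ.comp σ.surjective)
        (by rw [hσ0, hσ1, hj]) (fun l w => B l (e w)) (fun l w w' h => by
          apply hB
          intro j hjl
          obtain ⟨i, rfl⟩ := σ.surjective j
          rw [hev, hev]
          exact h i hjl) f hf
      have h2 := J.perm _ σ.symm _ h1
      have h3 : ∀ i, (fun i => m' (σ i)) (σ.symm i) = m' i := fun i => by simp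
      have h4 := J.cast_mem h3 h2
      have h5 : rename (castWord h3) (permMap σ.symm (lmap (fun w w' => ∏ l, B l (e w') (w l)) f))
          = rename e (lmap (fun w w' => ∏ l, B l (e w') (w l)) f) := by
        rw [permMap, renMap, rename_rename]
        congr 1
        congr 1
        funext w j
        obtain ⟨i, rfl⟩ := σ.surjective j
        rw [hev]
        ext
        simp only [Function.comp_apply, castWord, Fin.val_cast]
        have h6 : ∀ x, x = i → ((w x : Fin _) : ℕ) = (w i : Fin _) := by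
          rintro _ rfl
          rfl
        exact h6 _ (σ.symm_apply_apply i)
      rw [h5, lmap_rename e e.bijective (fun w w' => ∏ l, B l w' (w l))] at h4
      exact h4

end Pool.Agent.Helper929_delta
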