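import Pool.Agent.Helper929_delta.XDefs

/-
Systems of ideals in the rings `XP κ m`, for all families, and the Koszul complex.
-/

namespace Pool.Agent.Helper929_delta

open MvPolynomial

/-- the ring map induced by a linear map of the tensor products, with matrix `β` -/
noncomputable def lmap {n n' : ℕ} {m : Fin n → ℕ} {m' : Fin n' → ℕ} (β : Wd m → Wd m' → ℂ) :
    Pol m →ₐ[ℂ] Pol m' :=
  aeval (fun w : Wd m => ∑ w' : Wd m', C (β w w') * X w')

/-- the same for the rings with special variables -/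
noncomputable def xmap (κ : Type) {n n' : ℕ} {m : Fin n → ℕ} {m' : Fin n' → ℕ} (β : Wd m → Wd m' → ℂ) :
    XP κ m →ₐ[ℂ] XP κ m' :=
  aeval (fun v : Option κ × Wd m => ∑ w' : Wd m', C (β v.2 w') * X (v.1, w'))

/-- matrices of the linear maps given by a surjection `φ` of the sets of columns and linear maps from the `l`-th
space to the tensor product of the spaces in the fibre over `l` -/
def IsMor {n n' : ℕ} {m : Fin (n + 1) → ℕ} {m' : Fin (n' + 1) → ℕ} (β : Wd m → Wd m' → ℂ) : Prop :=
  ∃ (φ : Fin (n' + 1) → Fin (n + 1)) (B : ∀ l : Fin (n + 1), Wd m' → Fin (m l) → ℂ),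
    Function.Surjective φ ∧
    (∀ (l : Fin (n + 1)) (w w' : Wd m'), (∀ j, φ j = l → w j = w' j) → B l w = B l w') ∧
    β = fun w w' => ∏ l, B l w' (w l)

/-- a functorial system of ideals of the rings with special variables -/
structure XSys (κ : Type) where
  /-- the ideals -/
  I : ∀ {n : ℕ} (m : Fin (n + 1) → ℕ), Ideal (XP κ m)
  map : ∀ {n n' : ℕ} (m : Fin (n + 1) → ℕ) (m' : Fin (n' + 1) → ℕ) (β : Wd m → Wd m' → ℂ), IsMor β →
    ∀ f ∈ I m, xmap κ β f ∈ I m'
  scal : ∀ {n : ℕ} (m : Fin (n + 1) → ℕ) (s : Option κ → ℂ), ∀ f ∈ I m, kindMap s f ∈ I m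

/-- the inclusion of the polynomials in the ordinary variables -/
noncomputable def emb (κ : Type) {n : ℕ} {m : Fin n → ℕ} : Pol m →ₐ[ℂ] XP κ m :=
  rename (fun w : Wd m => ((none : Option κ), w))

/-- the ideal contains all minors of size `c + 2` of all columns -/
def XMinors {κ : Type} {n : ℕ} {m : Fin n → ℕ} (c : ℕ) (I : Ideal (XP κ m)) : Prop :=
  ∀ (l : Fin n) (v : Fin (c + 2) → Option κ × Wd m) (a : Fin (c + 2) → Fin (m l)),
    Matrix.det (Matrix.of fun i j => (X ((v j).1, Function.update (v j).2 l (a i)) : XP κ m)) ∈ I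

/-- the ideal contains all minors of size `d + 1` of all columns -/
def Minors {n : ℕ} {m : Fin n → ℕ} (d : ℕ) (I : Ideal (Pol m)) : Prop :=
  ∀ (l : Fin n) (w : Fin (d + 1) → Wd m) (a : Fin (d + 1) → Fin (m l)),
    Matrix.det (Matrix.of fun i j => (X (Function.update (w j) l (a i)) : Pol m)) ∈ I

/-- the column `l` of a tensor is trivial: the flattening with respect to `l` has rank at most one -/
def TrivCol {n : ℕ} {m : Fin n → ℕ} (T : Wd m → ℂ) (l : Fin n) : Prop :=
  ∀ p q : Wd m, T p * T q = T (Function.update p l (q l)) * T (Function.update q l (p l))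

/-- the tensor `T` is a zero of the ideal `I` -/
def IsZero' {n : ℕ} {m : Fin n → ℕ} (I : Ideal (Pol m)) (T : Wd m → ℂ) : Prop := ∀ f ∈ I, eval T f = 0

/-- among any `s + 1` columns of any zero of the Delta-ideal there is a trivial one -/
def DeltaIdeal.FewFactors (J : DeltaIdeal) (s : ℕ) : Prop :=
  ∀ {n : ℕ} (m : Fin (n + 1) → ℕ) (T : Wd m → ℂ), IsZero' (J.I m) T →
    ∀ S : Finset (Fin (n + 1)), s < S.card → ∃ l ∈ S, TrivCol T l

/-- the Koszul differential: a function of `p + 1` words gives a function of `p` words -/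
noncomputable def kd {n : ℕ} {m : Fin n → ℕ} {p : ℕ} (ω : (Fin (p + 1) → Wd m) → Pol m)
    (v : Fin p → Wd m) : Pol m :=
  ∑ w : Wd m, X w * ω (Fin.cons w v)

/-- alternating functions of `p` words: they are the elements of the tensor product of the polynomial ring with
the `p`-th exterior power of the space of linear forms -/
def Alt {n : ℕ} {m : Fin n → ℕ} {p : ℕ} (ω : (Fin p → Wd m) → Pol m) : Prop :=
  ∀ (σ : Equiv.Perm (Fin p)) (v : Fin p → Wd m), ω (fun i => v (σ i)) = (Equiv.Perm.sign σ : ℤ) • ω v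

/-- the Koszul homology of `P / I` in homological degree `p + 1` vanishes in the inner degree `p + 1 + (j + 1)` -/
def KoszulZero {n : ℕ} {m : Fin n → ℕ} (I : Ideal (Pol m)) (p j : ℕ) : Prop :=
  ∀ ω : (Fin (p + 1) → Wd m) → Pol m, Alt ω → (∀ v, (ω v).IsHomogeneous (j + 1)) → (∀ v, kd ω v ∈ I) →
    ∃ η : (Fin (p + 2) → Wd m) → Pol m, Alt η ∧ (∀ v, (η v).IsHomogeneous j) ∧ ∀ v, ω v - kd η v ∈ I

end Pool.Agent.Helper929_delta
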