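import Pool.Agent.Helper929_delta.XAcc
import Pool.Agent.Helper929_delta.X16
import Pool.Agent.Helper929_delta.X17

/-
The Koszul homology of the quotients by a Delta-ideal with boundedly many non-trivial factors.
-/

namespace Pool.Agent.Helper929_delta

open MvPolynomial

/-- the generating sets are preserved by push-forward -/
theorem pf_gen_mem (J : DeltaIdeal) (p t : ℕ) {n n' : ℕ} (m : Fin (n + 1) → ℕ) (m' : Fin (n' + 1) → ℕ)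
    (β : Wd m → Wd m' → ℂ) (hβ : IsMor β) (ω : (Fin (p + 1) → Wd m) → Pol m)
    (hω : ω ∈ bdSet m p ∪ cySet (J.I m) p t) : pf β ω ∈ bdSet m' p ∪ cySet (J.I m') p t := by
  rcases hω with ⟨η, hη, ⟨j, hj⟩, rfl⟩ | ⟨hω, ⟨j, hjt, hj⟩, hc⟩
  · refine Or.inl ⟨pf β η, alt_pf β hη, ⟨j, homog_pf β hj⟩, ?_⟩
    funext v
    exact (kd_pf β η v).symm
  · refine Or.inr ⟨alt_pf β hω, ⟨j, hjt, homog_pf β hj⟩, fun v => ?_⟩
    rw [kd_pf]
    exact pf_mem J β hβ hc v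

theorem kd_homog {n : ℕ} {m : Fin n → ℕ} {p j : ℕ} {η : (Fin (p + 1) → Wd m) → Pol m}
    (h : ∀ v, (η v).IsHomogeneous j) (v : Fin p → Wd m) : (kd η v).IsHomogeneous (j + 1) := by
  unfold kd
  refine IsHomogeneous.sum _ _ _ fun w _ => ?_
  have h1 := (isHomogeneous_X ℂ w).mul (h (Fin.cons w v))
  rwa [add_comm 1 j] at h1

theorem gen_homog (J : DeltaIdeal) (p t : ℕ) {n : ℕ} (m : Fin (n + 1) → ℕ)
    (ω : (Fin (p + 1) → Wd m) → Pol m) (hω : ω ∈ bdSet m p ∪ cySet (J.I m) p t) :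
    ∃ j : ℕ, ∀ v, (ω v).IsHomogeneous j := by
  rcases hω with ⟨η, hη, ⟨j, hj⟩, rfl⟩ | ⟨hω, ⟨j, hjt, hj⟩, hc⟩
  · exact ⟨j + 1, fun v => kd_homog hj v⟩
  · exact ⟨j, hj⟩

theorem koszul_vanishing (J : DeltaIdeal) (d s : ℕ)
    (hmin : ∀ {n : ℕ} (m : Fin (n + 1) → ℕ), Minors d (J.I m)) (hfew : J.FewFactors s) (p : ℕ) :
    ∃ N : ℕ, ∀ j, N ≤ j → ∀ {n : ℕ} (m : Fin (n + 1) → ℕ), KoszulZero (J.I m) p j := by
  classical
  have hex : ∀ t : ℕ, ∃ 𝒥 : XSys (Fin (p + 1)), ∀ {n : ℕ} (m : Fin (n + 1) → ℕ),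
      𝒥.I m = Ideal.span (koGen J (p + 1) (fun m => bdSet m p ∪ cySet (J.I m) p t) m) := fun t =>
    exists_koSys J (p + 1) (fun m => bdSet m p ∪ cySet (J.I m) p t)
      (fun m m' β hβ ω hω => pf_gen_mem J p t m m' β hβ ω hω) (fun m ω hω => gen_homog J p t m ω hω)
  choose 𝒥 h𝒥 using hex
  obtain ⟨N, hN⟩ := xsys_acc J d s hmin hfew 𝒥
    (by
      intro t n m
      rw [h𝒥, h𝒥]
      refine Ideal.span_mono ?_
      rintro f ((hf | hf) | ⟨ω, hω | ⟨hω, ⟨j, hj, hj'⟩, hc⟩, rfl⟩)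
      · exact Or.inl (Or.inl hf)
      · exact Or.inl (Or.inr hf)
      · exact Or.inr ⟨ω, Or.inl hω, rfl⟩
      · exact Or.inr ⟨ω, Or.inr ⟨hω, ⟨j, hj.trans (Nat.le_succ t), hj'⟩, hc⟩, rfl⟩)
    (by
      intro n m f hf
      rw [h𝒥]
      exact Ideal.subset_span (Or.inl (Or.inl ⟨f, hf, rfl⟩)))
    (by
      intro n m r w w'
      rw [h𝒥]
      exact Ideal.subset_span (Or.inl (Or.inr ⟨r, w, w', rfl⟩)))
  refine ⟨N, fun j hj n m ω hω hhom hc => ?_⟩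
  have h1 : mlin ω ∈ (𝒥 (j + 1)).I m := by
    rw [h𝒥]
    exact Ideal.subset_span (Or.inr ⟨ω, Or.inr ⟨hω, ⟨j + 1, le_rfl, hhom⟩, hc⟩, rfl⟩)
  rw [hN (j + 1) (hj.trans (Nat.le_succ j)) m, h𝒥] at h1
  have h2 := mem_span_of_mlin_mem (J.I m) (bdSet m p ∪ cySet (J.I m) p N) ω h1
  exact koszul_of_mem_span (J.I m) (fun f k hf => J.homog m f k hf) hj ω hω hhom h2

end Pool.Agent.Helper929_delta
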